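import Pool.Agent.Lib.MP_627a61_nt.Cy.P_CLO

/-!
# The final equivalences for cyclic covers
-/

open scoped LinearAlgebra.Projectivization Topology
open Filter MvPolynomial

namespace Pool.Agent.Lib.MP_627a61_nt

/-- renaming the variables preserves hyperbolicity -/
private lemma cyf_brody_rename {V V' k : Type*} [Fintype V] [Fintype V'] [Field k] (e : V ≃ V')
    {S : Set (MvPolynomial V k)} (hS : Homog S) (σ : k →+* ℂ)
    (h : BrodyHyperbolic (points σ S)) : BrodyHyperbolic (points σ (rename e '' S)) := by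
  intro φ hφ hφY
  have hne : ∀ z, (fun i => (φ z).rep (e i)) ≠ (0 : V → ℂ) := by
    intro z h
    apply (φ z).rep_nonzero
    funext c
    have := congrFun h (e.symm c)
    simpa using this
  obtain ⟨ψ, hψ, hψ1, -⟩ := exists_division hφ (fun x i => x (e i) : (V' → ℂ) → (V → ℂ))
    (by
      intro x
      rw [analyticAt_pi_iff]
      intro i
      exact analyticAt_proj _ x) 1
    (by
      intro t x
      funext i
      simp) (hne 0)
  have hψZ : ∀ z, ψ z ∈ points σ S := by
    intro z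
    rw [hψ1 z (hne z), mem_points_mk hS σ]
    intro P hP
    have h1 := hφY z _ ⟨P, hP, rfl⟩
    rw [eval₂_rename] at h1
    exact h1
  have hψc := h ψ hψ hψZ
  intro z w
  have h1 := hψc z w
  rw [hψ1 z (hne z), hψ1 w (hne w), Projectivization.mk_eq_mk_iff'] at h1
  obtain ⟨t, ht⟩ := h1
  rw [← (φ z).mk_rep, ← (φ w).mk_rep, Projectivization.mk_eq_mk_iff']
  refine ⟨t, ?_⟩
  funext c
  have := congrFun ht (e.symm c)
  simpa using this

private lemma cyf_homog_rename {V V' k : Type*} [Field k] (e : V ≃ V')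
    {S : Set (MvPolynomial V k)} (hS : Homog S) : Homog (rename e '' S) := by
  rintro _ ⟨P, hP, rfl⟩
  obtain ⟨n, hn⟩ := hS P hP
  exact ⟨n, hn.rename_isHomogeneous⟩

/-- the finiteness statement for arbitrary finite index types -/
private lemma cyf_of_fin {k : Type*} [Field k] {T : Set (k →+* ℂ)}
    (h1 : ∀ (n : ℕ) (S : Set (MvPolynomial (Fin (n + 1)) k)), (∀ P ∈ S, ∃ m, P.IsHomogeneous m) →
      (∀ σ ∈ T, KobayashiHyperbolic (points σ S)) → (points (RingHom.id k) S).Finite)
    {ι : Type*} [Fintype ι] [Nonempty ι] {S : Set (MvPolynomial ι k)} (hS : Homog S)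
    (hZ : ∀ σ ∈ T, BrodyHyperbolic (points σ S)) : (points (RingHom.id k) S).Finite := by
  obtain ⟨n, hn⟩ : ∃ n, Fintype.card ι = n + 1 :=
    ⟨Fintype.card ι - 1, by have := Fintype.card_pos (α := ι); omega⟩
  let e : ι ≃ Fin (n + 1) := Fintype.equivFinOfCardEq hn
  have hS' := cyf_homog_rename e hS
  refine finite_transfer (fun x => x ∘ e.symm) ?_ ?_ hS' ?_ (h1 n (rename e '' S) hS' ?_)
  · intro x hx h0
    apply hx
    funext i
    simpa using congrFun h0 (e i)
  · rintro x y - - ⟨t, ht⟩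
    refine ⟨t, ?_⟩
    funext i
    simpa using congrFun ht (e i)
  · rintro x hx _ ⟨P, hP, rfl⟩
    rw [eval₂_rename]
    have h2 : (x ∘ e.symm) ∘ e = x := by
      funext i
      simp
    rw [h2]
    exact hx P hP
  · intro σ hσ
    exact (cyf_brody_rename e hS σ (hZ σ hσ)).kobayashi (pclosed_points hS' σ)

/-- the map to projective space -/
private lemma cyf_coverVec_inj {ι K : Type*} [Field K] {m : ℕ} (hm : 1 ≤ m) {x x' : ι → K}
    {y y' t : K} (hx : x ≠ 0) (h : coverVec m x y = t • coverVec m x' y') :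
    ∃ s : K, x = s • x' := by
  obtain ⟨j, hj⟩ : ∃ j, x j ≠ 0 := by
    by_contra h
    push Not at h
    exact hx (funext h)
  obtain ⟨m, rfl⟩ : ∃ m', m = m' + 1 := ⟨m - 1, by omega⟩
  refine ⟨t * x' j ^ m / x j ^ m, ?_⟩
  funext i
  have h1 := congrFun h (some (Fin.cons i fun _ => j))
  simp only [coverVec, Pi.smul_apply, smul_eq_mul, Fin.prod_univ_succ, Fin.cons_zero,
    Fin.cons_succ, Finset.prod_const, Finset.card_univ, Fintype.card_fin] at h1
  have h2 : x j ^ m ≠ 0 := pow_ne_zero _ hj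
  rw [Pi.smul_apply, smul_eq_mul]
  field_simp
  linear_combination h1

private lemma cyf_finite_of_cover {k : Type*} [Field k] {ι : Type*} {e m : ℕ} (hm : 1 ≤ m)
    (F : MvPolynomial ι k) (h : (cyclicCover (RingHom.id k) e m F).Finite) :
    {x : ℙ k (ι → k) | ∃ y : k, y ^ e = MvPolynomial.eval x.rep F}.Finite := by
  have hy : ∀ x : ↥{x : ℙ k (ι → k) | ∃ y : k, y ^ e = MvPolynomial.eval x.rep F},
      ∃ y : k, y ^ e = MvPolynomial.eval x.1.rep F := fun x => x.2
  choose y hy using hy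
  have : Finite ↥(cyclicCover (RingHom.id k) e m F) := h
  have hF : Function.Injective
      fun x : ↥{x : ℙ k (ι → k) | ∃ y : k, y ^ e = MvPolynomial.eval x.rep F} =>
      (⟨Projectivization.mk k (coverVec m x.1.rep (y x))
        (clo_coverVec_ne_zero x.1.rep_nonzero (y x)),
        ⟨x.1.rep, y x, clo_coverVec_ne_zero x.1.rep_nonzero (y x), hy x, rfl⟩⟩ :
        ↥(cyclicCover (RingHom.id k) e m F)) := by
    intro p q hpq
    have h1 := congrArg Subtype.val hpq
    dsimp only at h1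
    rw [Projectivization.mk_eq_mk_iff'] at h1
    obtain ⟨t, ht⟩ := h1
    obtain ⟨s, hs⟩ := cyf_coverVec_inj hm p.1.rep_nonzero ht.symm
    apply Subtype.ext
    rw [← p.1.mk_rep, ← q.1.mk_rep, Projectivization.mk_eq_mk_iff']
    exact ⟨s, hs.symm⟩
  exact Finite.of_injective _ hF

theorem p_SAMECY (hEMB : S_EMBCY) (hEQS : S_EQS) (hCLOSED : S_CLOSED) : S_SAMECY := by
  intro e he g k _ _ T hT A hA
  tfae_have 1 → 2 := by
    intro h n _ m hm F hF _ hσ
    obtain ⟨S, hS, hpts⟩ := hEQS n k e m (by omega) (by omega) F hF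
    rw [← hpts k (RingHom.id k)]
    refine cyf_of_fin h hS fun σ hσT => ?_
    rw [hpts ℂ σ]
    exact (hσ σ hσT).brody
  tfae_have 2 → 3 := by
    intro h n hn m hm F hF hF2 hσ
    exact cyf_finite_of_cover (by omega) F (h n hn m hm F hF hF2 hσ)
  tfae_have 3 → 1 := by
    intro h n₀ S hS hZ
    obtain ⟨n₁, hn₁⟩ := hEMB k n₀ S hS T hT (fun σ hσ => (hZ σ hσ).brody) e he g
    obtain ⟨n, hnA, hn⟩ := hA.exists_gt n₁
    obtain ⟨m, hm, F, hF1, hF2, hF3, Ψ, hΨ0, hΨ1, hΨ2⟩ := hn₁ n hn.le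
    have hfin := h n hnA m hm F hF1 hF2 fun σ hσ =>
      (hF3 σ hσ).kobayashi (hCLOSED _ _ σ e m (by omega) (by omega) F hF1)
    let G : ℙ k (Fin (n₀ + 1) → k) → ℙ k (Fin (n + 1) → k) := fun p =>
      Projectivization.mk k (Ψ p.rep) (hΨ0 _ p.rep_nonzero)
    refine Set.Finite.of_injOn (f := G) ?_ ?_ hfin
    · intro p hp
      obtain ⟨t, ht, hrep⟩ := exists_rep_eq (p := G p) (v := Ψ p.rep)
        (hv := hΨ0 _ p.rep_nonzero) rfl
      refine ⟨0, ?_⟩
      have h1 := eval₂_smul_homog hF1 (RingHom.id k) t (Ψ p.rep)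
      rw [hΨ2 _ hp, mul_zero, ← hrep] at h1
      rw [zero_pow (by omega)]
      exact h1.symm
    · intro p _ q _ hpq
      rw [Projectivization.mk_eq_mk_iff'] at hpq
      obtain ⟨t, ht⟩ := hpq
      obtain ⟨s, hs⟩ := hΨ1 _ _ p.rep_nonzero q.rep_nonzero ⟨t, ht.symm⟩
      rw [← p.mk_rep, ← q.mk_rep, Projectivization.mk_eq_mk_iff']
      exact ⟨s, hs.symm⟩
  tfae_finish

/-- primitive integral representatives -/
private lemma cyf_exists_primitive {n : ℕ} {w : Fin (n + 1) → ℚ} (hw : w ≠ 0) :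
    ∃ (v : Fin (n + 1) → ℤ) (t : ℚ), t ≠ 0 ∧ (∀ i, (v i : ℚ) = t * w i) ∧
      ∀ d : ℤ, (∀ i, d ∣ v i) → IsUnit d := by
  obtain ⟨b, hb⟩ := IsLocalization.exist_integer_multiples_of_finite (nonZeroDivisors ℤ) w
  choose u hu using hb
  have hb0 : (b : ℤ) ≠ 0 := nonZeroDivisors.ne_zero b.2
  have hu' : ∀ i, (u i : ℚ) = (b : ℤ) * w i := by
    intro i
    have := hu i
    rw [zsmul_eq_mul] at this
    simpa using this
  obtain ⟨v, hv1, hv2⟩ := Finset.extract_gcd u (s := Finset.univ) Finset.univ_nonempty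
  set G : ℤ := Finset.univ.gcd u with hG
  have hG0 : G ≠ 0 := by
    intro h0
    apply hw
    funext i
    have h1 := hv1 i (Finset.mem_univ i)
    rw [h0, zero_mul] at h1
    have h2 := hu' i
    rw [h1] at h2
    have h3 : ((b : ℤ) : ℚ) ≠ 0 := by exact_mod_cast hb0
    have h4 : ((b : ℤ) : ℚ) * w i = 0 := by
      rw [← h2]
      simp
    exact (mul_eq_zero.1 h4).resolve_left h3
  have hGq : (G : ℚ) ≠ 0 := by exact_mod_cast hG0
  refine ⟨v, (b : ℤ) / G, ?_, ?_, ?_⟩
  · have h3 : ((b : ℤ) : ℚ) ≠ 0 := by exact_mod_cast hb0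
    exact div_ne_zero h3 hGq
  · intro i
    have h1 := hv1 i (Finset.mem_univ i)
    have h2 : (u i : ℚ) = G * v i := by
      rw [h1]
      push_cast
      ring
    have h3 := hu' i
    rw [h2] at h3
    field_simp
    linear_combination h3
  · intro d hd
    have h1 : d ∣ Finset.univ.gcd v := Finset.dvd_gcd fun i _ => hd i
    rw [hv2] at h1
    exact isUnit_of_dvd_one h1

/-- clearing denominators -/
private lemma cyf_exists_integral {ι : Type*} (F : MvPolynomial ι ℚ) :
    ∃ (c : ℤ) (G : MvPolynomial ι ℤ), c ≠ 0 ∧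
      MvPolynomial.map (Int.castRingHom ℚ) G = C (c : ℚ) * F := by
  obtain ⟨b, hb⟩ := IsLocalization.exist_integer_multiples (nonZeroDivisors ℤ) F.support
    (fun s => F.coeff s)
  have hb' : ∀ s, ∃ z : ℤ, s ∈ F.support → (z : ℚ) = (b : ℤ) * F.coeff s := by
    intro s
    by_cases hs : s ∈ F.support
    · obtain ⟨z, hz⟩ := hb s hs
      refine ⟨z, fun _ => ?_⟩
      rw [zsmul_eq_mul] at hz
      simpa using hz
    · exact ⟨0, fun h => absurd h hs⟩
  choose z hz using hb'
  refine ⟨b, ∑ s ∈ F.support, monomial s (z s), nonZeroDivisors.ne_zero b.2, ?_⟩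
  rw [map_sum]
  conv_rhs => rw [F.as_sum, Finset.mul_sum]
  refine Finset.sum_congr rfl fun s hs => ?_
  rw [map_monomial, C_mul_monomial]
  congr 1
  exact hz s hs

/-- an `e`-th power of a rational number which is an integer -/
private lemma cyf_int_root {e : ℕ} (he : 1 ≤ e) {y : ℚ} {z : ℤ} (h : y ^ e = z) :
    ∃ y' : ℤ, (y' : ℚ) = y := by
  have h1 : IsIntegral ℤ (y ^ e) := by
    rw [h]
    exact isIntegral_algebraMap (R := ℤ) (A := ℚ) (x := z)
  obtain ⟨y', hy'⟩ := IsIntegrallyClosed.exists_algebraMap_eq_of_isIntegral_pow (R := ℤ) (K := ℚ)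
    (by omega) h1
  exact ⟨y', by simpa using hy'⟩

private lemma cyf_eval_int {ι : Type*} (F : MvPolynomial ι ℤ) (v : ι → ℤ) :
    MvPolynomial.eval (fun i => (v i : ℚ)) (MvPolynomial.map (Int.castRingHom ℚ) F) =
      ((MvPolynomial.eval v F : ℤ) : ℚ) := by
  rw [eval_map]
  have := eval₂_comp_left (Int.castRingHom ℚ) (RingHom.id ℤ) v F
  rw [RingHom.comp_id] at this
  exact this.symm

private lemma cyf_cover_map {ι : Type*} (e m : ℕ) (F : MvPolynomial ι ℤ) :
    cyclicCover (algebraMap ℚ ℂ) e m (MvPolynomial.map (Int.castRingHom ℚ) F) =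
      cyclicCover (Int.castRingHom ℂ) e m F := by
  have h1 : ∀ x : ι → ℂ, (MvPolynomial.map (Int.castRingHom ℚ) F).eval₂ (algebraMap ℚ ℂ) x =
      F.eval₂ (Int.castRingHom ℂ) x := by
    intro x
    rw [eval₂_map, Subsingleton.elim ((algebraMap ℚ ℂ).comp (Int.castRingHom ℚ))
      (Int.castRingHom ℂ)]
  simp only [cyclicCover, h1]

private lemma cyf_smooth_C_mul {ι k : Type*} [Field k] {F : MvPolynomial ι k} {c : k}
    (hc : c ≠ 0) (h : SmoothHypersurface F) : SmoothHypersurface (C c * F) := by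
  intro x hx h0
  have hc' : algebraMap k (AlgebraicClosure k) c ≠ 0 := by
    simpa using hc
  rw [map_mul, aeval_C] at h0
  obtain ⟨i, hi⟩ := h x hx ((mul_eq_zero.1 h0).resolve_left hc')
  refine ⟨i, ?_⟩
  rw [pderiv_C_mul, map_mul, aeval_C]
  exact mul_ne_zero hc' hi

theorem p_INTCY (hSAME : S_SAMECY) (hSCALE : S_SCALE) (hPRIM : S_PRIM) (hCLOSED : S_CLOSED) :
    S_INTCY := by
  intro e he g A hA
  have hS := hSAME e he g ℚ {algebraMap ℚ ℂ} (Set.finite_singleton _) A hA
  have h02 := hS.out 0 2 rfl rfl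
  constructor
  · intro h n hn m hm F hF hF2 hσ
    have hfin := h02.1 (fun n S hS hZ => h ℚ n S hS fun σ => by
      rw [Subsingleton.elim σ (algebraMap ℚ ℂ)]
      exact hZ _ rfl) n hn m hm (MvPolynomial.map (Int.castRingHom ℚ) F) (hF.map _) hF2
      (by
        intro σ hσ'
        rw [Set.mem_singleton_iff] at hσ'
        rw [hσ', cyf_cover_map]
        exact hσ)
    refine (hPRIM n _ hfin).subset ?_
    rintro x ⟨hx, y, hy⟩
    have hx0 : (fun i => (x i : ℚ)) ≠ 0 := by
      intro h0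
      have h1 : IsUnit (0 : ℤ) := hx 0 fun i => by
        have := congrFun h0 i
        have h2 : x i = 0 := by
          have h3 : (x i : ℚ) = 0 := this
          exact_mod_cast h3
        rw [h2]
      exact not_isUnit_zero h1
    refine ⟨hx, hx0, ?_⟩
    obtain ⟨t, ht, hrep⟩ := exists_rep_eq
      (p := Projectivization.mk ℚ (fun i => (x i : ℚ)) hx0) (hv := hx0) rfl
    refine ⟨t ^ m * y, ?_⟩
    rw [hrep]
    have h1 := eval₂_smul_homog (hF.map (Int.castRingHom ℚ)) (RingHom.id ℚ) t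
      (fun i => (x i : ℚ))
    have h2 := cyf_eval_int F x
    rw [← hy] at h2
    rw [eval₂_id, eval₂_id, h2] at h1
    rw [h1, mul_pow, ← pow_mul, mul_comm m e]
    push_cast
    ring
  · intro h
    -- the statement over the rational numbers
    have hQ : ∀ (n : ℕ) (S : Set (MvPolynomial (Fin (n + 1)) ℚ)),
        (∀ P ∈ S, ∃ m, P.IsHomogeneous m) →
        (∀ σ ∈ ({algebraMap ℚ ℂ} : Set (ℚ →+* ℂ)), KobayashiHyperbolic (points σ S)) →
        (points (RingHom.id ℚ) S).Finite := by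
      refine h02.2 fun n hn m hm F hF hF2 hσ => ?_
      obtain ⟨c, G, hc, hG⟩ := cyf_exists_integral F
      have hcq : (c : ℚ) ≠ 0 := by exact_mod_cast hc
      obtain ⟨e', rfl⟩ : ∃ e', e = e' + 1 := ⟨e - 1, by omega⟩
      have hG2 : MvPolynomial.map (Int.castRingHom ℚ) (C (c ^ e') * G) =
          C ((c : ℚ) ^ (e' + 1)) * F := by
        rw [map_mul, hG, map_C, ← mul_assoc, ← C_mul]
        congr 2
        simp [pow_succ]
      have hGhom : (C (c ^ e') * G).IsHomogeneous ((e' + 1) * m) := by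
        refine IsHomogeneous.of_map (f := Int.castRingHom ℚ) Int.cast_injective ?_
        rw [hG2]
        exact hF.C_mul _
      have hfin := h n hn m hm (C (c ^ e') * G) hGhom (by
          rw [hG2]
          exact cyf_smooth_C_mul (pow_ne_zero _ hcq) hF2)
        (by
          rw [← cyf_cover_map, hG2]
          refine BrodyHyperbolic.kobayashi ?_
            (hCLOSED _ _ _ _ _ (by omega) (by omega) _ (hF.C_mul _))
          exact hSCALE _ _ _ _ _ _ _ hcq (hσ _ rfl).brody)
      classical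
      -- the primitive vectors
      let f : (Fin (n + 1) → ℤ) → ℙ ℚ (Fin (n + 1) → ℚ) := fun v =>
        if hv : (fun i => (v i : ℚ)) ≠ 0 then Projectivization.mk ℚ _ hv
        else Projectivization.mk ℚ (fun _ => 1) (fun h0 => one_ne_zero (congrFun h0 0))
      refine (hfin.image f).subset ?_
      rintro p ⟨y, hy⟩
      obtain ⟨v, t, ht, hv, hprim⟩ := cyf_exists_primitive p.rep_nonzero
      have hv' : (fun i => (v i : ℚ)) = t • p.rep := by
        funext i
        exact hv i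
      have hv0 : (fun i => (v i : ℚ)) ≠ 0 := by
        rw [hv']
        exact smul_ne_zero ht p.rep_nonzero
      have h1 : (c * t ^ m * y) ^ (e' + 1) = ((MvPolynomial.eval v (C (c ^ e') * G) : ℤ) : ℚ) := by
        rw [← cyf_eval_int, hG2, hv']
        have h2 := eval₂_smul_homog (hF.C_mul ((c : ℚ) ^ (e' + 1))) (RingHom.id ℚ) t p.rep
        rw [eval₂_id, eval₂_id] at h2
        rw [h2, map_mul, eval_C, ← hy]
        ring
      obtain ⟨y', hy'⟩ := cyf_int_root (by omega) h1
      refine ⟨v, ⟨hprim, y', ?_⟩, ?_⟩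
      · rw [← hy'] at h1
        exact_mod_cast h1
      · simp only [f]
        rw [dif_pos hv0]
        conv_rhs => rw [← p.mk_rep]
        rw [Projectivization.mk_eq_mk_iff']
        exact ⟨t, hv'.symm⟩
    intro k _ _ n₀ S hS' hZ
    obtain ⟨r', S', Φ, hS'2, hS'1, hΦ0, hΦ1, hΦ2⟩ :=
      exists_rational_model S hS' fun σ => (hZ σ).brody
    obtain ⟨r', rfl⟩ : ∃ r'', r' = r'' + 1 := by
      refine ⟨r' - 1, ?_⟩
      have h1 : r' ≠ 0 := by
        rintro rfl
        apply hΦ0 (fun _ => 1)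
        · intro h0
          exact one_ne_zero (congrFun h0 0)
        · funext i
          exact Fin.elim0 i
      omega
    refine finite_transfer Φ hΦ0 hΦ1 hS'2 hΦ2 ?_
    refine hQ r' S' hS'2 ?_
    intro σ hσ
    rw [Set.mem_singleton_iff] at hσ
    subst hσ
    exact hS'1.kobayashi (pclosed_points hS'2 _)

end Pool.Agent.Lib.MP_627a61_nt
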