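import Pool.Agent.Lib.MP_627a61_nt.Cy.Stm
import Pool.Agent.Lib.MP_627a61_nt.Fermat
import Pool.Agent.Lib.MP_627a61_nt.Sq.AhlforsSchwarz

/-!
# CE: the curves `y ^ e = a ^ (4 e) + b ^ (4 e)` contain no nonconstant entire curves
-/

open scoped LinearAlgebra.Projectivization Topology
open Filter

namespace Pool.Agent.Lib.MP_627a61_nt

/-- the order of the coordinates in the two charts -/
private def ceS : Bool → Fin 5 → Fin 5
  | true => id
  | false => ![3, 2, 1, 0, 4]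

private lemma ce_norm {e : ℕ} {a b c d y : ℂ} (ha : a ≠ 0) (h1 : a * d = b * c)
    (h2 : b ^ 3 = a ^ 2 * c) (h4 : y ^ e = a ^ e + d ^ e) :
    a⁻¹ * a = 1 ∧ a⁻¹ * c = (a⁻¹ * b) ^ 3 ∧ a⁻¹ * d = (a⁻¹ * b) ^ 4 ∧
    (a⁻¹ * y) ^ e = 1 + ((a⁻¹ * b) ^ 4) ^ e := by
  have e1 : a⁻¹ * a = 1 := inv_mul_cancel₀ ha
  have e2 : a⁻¹ * c = (a⁻¹ * b) ^ 3 := by
    rw [mul_pow, h2]
    field_simp
  have e3 : a⁻¹ * d = (a⁻¹ * b) ^ 4 := by
    have h5 : b ^ 4 = a ^ 3 * d := by
      linear_combination b * h2 - a ^ 2 * h1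
    rw [mul_pow, h5]
    field_simp
  refine ⟨e1, e2, e3, ?_⟩
  rw [← e3, mul_pow, h4, mul_pow, mul_add, ← mul_pow, e1, one_pow]

private lemma ce_coord {e : ℕ} {p : ℙ ℂ (Fin 5 → ℂ)} (hp : p ∈ ceCurve e) (b : Bool)
    (h : pm p (ceS b 0) (ceS b 0) ≠ 0) :
    col (ceS b 0) (pm p) (ceS b 0) = 1 ∧
    col (ceS b 0) (pm p) (ceS b 2) = col (ceS b 0) (pm p) (ceS b 1) ^ 3 ∧
    col (ceS b 0) (pm p) (ceS b 3) = col (ceS b 0) (pm p) (ceS b 1) ^ 4 ∧
    col (ceS b 0) (pm p) 4 ^ e = 1 + (col (ceS b 0) (pm p) (ceS b 1) ^ 4) ^ e := by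
  obtain ⟨h1, h2, h3, h4⟩ := hp
  have h0 : p.rep (ceS b 0) ≠ 0 := (pmv_diag_ne_zero_iff p.rep_nonzero _).1 h
  rw [pm, col_pmv p.rep_nonzero h0]
  simp only [Pi.smul_apply, smul_eq_mul]
  cases b
  · exact ce_norm (a := p.rep 3) (b := p.rep 2) (c := p.rep 1) (d := p.rep 0) h0
      (by linear_combination h1) h3 (by rw [h4, add_comm])
  · exact ce_norm (a := p.rep 0) (b := p.rep 1) (c := p.rep 2) (d := p.rep 3) h0 h1 h2 h4

private lemma ce_trans {e : ℕ} {p : ℙ ℂ (Fin 5 → ℂ)} (hp : p ∈ ceCurve e)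
    (h : pm p 0 0 ≠ 0) (h' : pm p 3 3 ≠ 0) :
    col 0 (pm p) 1 ≠ 0 ∧ col 3 (pm p) = ((col 0 (pm p) 1)⁻¹) ^ 4 • col 0 (pm p) := by
  obtain ⟨-, -, h3, -⟩ := ce_coord hp true h
  simp only [ceS, id] at h3
  have k0 : p.rep 0 ≠ 0 := (pmv_diag_ne_zero_iff p.rep_nonzero _).1 h
  have k3 : p.rep 3 ≠ 0 := (pmv_diag_ne_zero_iff p.rep_nonzero _).1 h'
  have e0 : col 0 (pm p) = (p.rep 0)⁻¹ • p.rep := by rw [pm, col_pmv p.rep_nonzero k0]
  have e3 : col 3 (pm p) = (p.rep 3)⁻¹ • p.rep := by rw [pm, col_pmv p.rep_nonzero k3]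
  have h5 : col 0 (pm p) 3 = (p.rep 0)⁻¹ * p.rep 3 := by rw [e0]; rfl
  have h6 : col 0 (pm p) 1 ≠ 0 := by
    intro h0
    rw [h0, h5] at h3
    exact mul_ne_zero (inv_ne_zero k0) k3 (by rw [h3]; norm_num)
  refine ⟨h6, ?_⟩
  rw [inv_pow, ← h3, h5, e0, e3, smul_smul]
  congr 1
  field_simp

private lemma ce_alg {n : ℕ} {u v u' v' : ℂ} (h : v ^ (n + 2) = 1 + (u ^ 4) ^ (n + 2))
    (h' : v ^ (n + 1) * v' = 4 * u ^ (4 * n + 7) * u') :
    (u' * v - u * v' / 4) * v ^ (n + 1) = u' ∧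
      v' = 4 * u ^ (4 * n + 7) * (u' * v - u * v' / 4) := by
  constructor
  · linear_combination u' * h - u / 4 * h'
  · linear_combination v * h' - v' * h

private lemma ce_alg2 {n : ℕ} {u v u' v' : ℂ} (hu : u ≠ 0)
    (h : v' = 4 * u ^ (4 * n + 7) * (u' * v - u * v' / 4)) :
    (-u' / u ^ 2) * (u⁻¹ ^ 4 * v) - u⁻¹ * ((4 * u⁻¹ ^ 3 * (-u' / u ^ 2)) * v + u⁻¹ ^ 4 * v') / 4 =
      - (u ^ (4 * n + 2) * (u' * v - u * v' / 4)) := by
  have h1 : (-u' / u ^ 2) * (u⁻¹ ^ 4 * v) -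
      u⁻¹ * ((4 * u⁻¹ ^ 3 * (-u' / u ^ 2)) * v + u⁻¹ ^ 4 * v') / 4 = - (v' / (4 * u ^ 5)) := by
    field_simp
    ring
  rw [h1]
  congr 1
  rw [div_eq_iff (mul_ne_zero (by norm_num) (pow_ne_zero _ hu))]
  linear_combination h

theorem p_CE : S_CE := by
  intro e he ψ hψ hψY
  obtain ⟨n, rfl⟩ : ∃ n, e = n + 2 := ⟨e - 2, by omega⟩
  -- lifts
  obtain ⟨g, hg⟩ : ∃ g : Bool → ℂ → Fin 5 → ℂ, ∀ b w, g b w = col (ceS b 0) (pm (ψ w)) :=
    ⟨fun b w => _, fun _ _ => rfl⟩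
  have hg' : ∀ b, g b = fun w => col (ceS b 0) (pm (ψ w)) := fun b => funext (hg b)
  have hcont : ∀ (j : Fin 5) z, ContinuousAt (fun w => pm (ψ w) j j) z := fun j z =>
    (continuousAt_pi.1 ((continuousAt_pi.1 (hψ z).continuousAt) j)) j
  have hev : ∀ (j : Fin 5) z, pm (ψ z) j j ≠ 0 → ∀ᶠ w in 𝓝 z, pm (ψ w) j j ≠ 0 :=
    fun j z h => (hcont j z).eventually_ne h
  have hga : ∀ b z, pm (ψ z) (ceS b 0) (ceS b 0) ≠ 0 → AnalyticAt ℂ (g b) z := by
    intro b z h
    rw [hg']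
    exact (hψ z).col h
  have hcomp : ∀ b z, pm (ψ z) (ceS b 0) (ceS b 0) ≠ 0 → ∀ a,
      HasDerivAt (fun w => g b w a) (deriv (g b) z a) z := by
    intro b z h a
    exact (hasDerivAt_pi.1 (hga b z h).differentiableAt.hasDerivAt) a
  have hrel : ∀ b z, pm (ψ z) (ceS b 0) (ceS b 0) ≠ 0 →
      g b z (ceS b 0) = 1 ∧ g b z (ceS b 2) = g b z (ceS b 1) ^ 3 ∧
      g b z (ceS b 3) = g b z (ceS b 1) ^ 4 ∧
      g b z 4 ^ (n + 2) = 1 + (g b z (ceS b 1) ^ 4) ^ (n + 2) := by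
    intro b z h
    rw [hg]
    exact ce_coord (hψY z) b h
  have hder : ∀ b z, pm (ψ z) (ceS b 0) (ceS b 0) ≠ 0 →
      deriv (g b) z (ceS b 0) = 0 ∧
      deriv (g b) z (ceS b 2) = 3 * g b z (ceS b 1) ^ 2 * deriv (g b) z (ceS b 1) ∧
      deriv (g b) z (ceS b 3) = 4 * g b z (ceS b 1) ^ 3 * deriv (g b) z (ceS b 1) ∧
      g b z 4 ^ (n + 1) * deriv (g b) z 4 =
        4 * g b z (ceS b 1) ^ (4 * n + 7) * deriv (g b) z (ceS b 1) := by
    intro b z h
    have hw := hev _ z h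
    refine ⟨?_, ?_, ?_, ?_⟩
    · refine (hcomp b z h (ceS b 0)).unique
        ((hasDerivAt_const z (1 : ℂ)).congr_of_eventuallyEq ?_)
      filter_upwards [hw] with w h1 using (hrel b w h1).1
    · have h2 := (hcomp b z h (ceS b 1)).pow 3
      have h3 : (fun w => g b w (ceS b 2)) =ᶠ[𝓝 z] (fun w => g b w (ceS b 1)) ^ 3 := by
        filter_upwards [hw] with w h1 using (hrel b w h1).2.1
      have h4 := (hcomp b z h (ceS b 2)).unique (h2.congr_of_eventuallyEq h3)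
      rw [h4]
      norm_num
    · have h2 := (hcomp b z h (ceS b 1)).pow 4
      have h3 : (fun w => g b w (ceS b 3)) =ᶠ[𝓝 z] (fun w => g b w (ceS b 1)) ^ 4 := by
        filter_upwards [hw] with w h1 using (hrel b w h1).2.2.1
      have h4 := (hcomp b z h (ceS b 3)).unique (h2.congr_of_eventuallyEq h3)
      rw [h4]
      norm_num
    · have h2 := (hcomp b z h 4).pow (n + 2)
      have h3 := (((hcomp b z h (ceS b 1)).pow 4).pow (n + 2)).const_add 1
      have h4 : (fun w => g b w 4) ^ (n + 2) =ᶠ[𝓝 z]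
          fun w => 1 + (((fun w => g b w (ceS b 1)) ^ 4) ^ (n + 2)) w := by
        filter_upwards [hw] with w h1 using (hrel b w h1).2.2.2
      have h5 := h2.unique (h3.congr_of_eventuallyEq h4)
      have h6 : ((n : ℂ) + 2) ≠ 0 := by
        exact_mod_cast (by omega : n + 2 ≠ 0)
      apply mul_left_cancel₀ h6
      simp only [Nat.cast_add, Nat.cast_ofNat, Nat.add_one_sub_one, Pi.pow_apply] at h5
      linear_combination h5
  -- the differential
  obtain ⟨H, hH⟩ : ∃ H : Bool → ℂ → ℂ, ∀ b w, H b w = deriv (g b) w (ceS b 1) * g b w 4 -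
      g b w (ceS b 1) * deriv (g b) w 4 / 4 := ⟨fun b w => _, fun _ _ => rfl⟩
  have hH1 : ∀ b z, pm (ψ z) (ceS b 0) (ceS b 0) ≠ 0 →
      H b z * g b z 4 ^ (n + 1) = deriv (g b) z (ceS b 1) := by
    intro b z h
    rw [hH]
    exact (ce_alg (hrel b z h).2.2.2 (hder b z h).2.2.2).1
  have hH2 : ∀ b z, pm (ψ z) (ceS b 0) (ceS b 0) ≠ 0 →
      deriv (g b) z 4 = 4 * g b z (ceS b 1) ^ (4 * n + 7) * H b z := by
    intro b z h
    rw [hH]
    exact (ce_alg (hrel b z h).2.2.2 (hder b z h).2.2.2).2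
  have hHa : ∀ b z, pm (ψ z) (ceS b 0) (ceS b 0) ≠ 0 → AnalyticAt ℂ (H b) z := by
    intro b z h
    have h1 : ∀ a, AnalyticAt ℂ (fun w => g b w a) z := fun a =>
      ((ContinuousLinearMap.proj (R := ℂ) (φ := fun _ : Fin 5 => ℂ) a).analyticAt _).comp
        (hga b z h)
    have h2 : ∀ a, AnalyticAt ℂ (fun w => deriv (g b) w a) z := fun a =>
      ((ContinuousLinearMap.proj (R := ℂ) (φ := fun _ : Fin 5 => ℂ) a).analyticAt _).comp
        (hga b z h).deriv
    have h3 : AnalyticAt ℂ (fun w => deriv (g b) w (ceS b 1) * g b w 4 -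
        g b w (ceS b 1) * deriv (g b) w 4 / 4) z :=
      ((h2 _).mul (h1 _)).sub (((h1 _).mul (h2 _)).div analyticAt_const (by norm_num))
    exact h3.congr (Eventually.of_forall fun w => (hH b w).symm)
  -- the norm
  obtain ⟨Fv, hFv⟩ : ∃ Fv : Bool → ℂ → ℝ, ∀ b w, Fv b w =
      ‖H b w‖ ^ 2 * ‖(WithLp.toLp 2 (g b w) : EuclideanSpace ℂ (Fin 5))‖ ^ (2 * n + 1) :=
    ⟨fun b w => _, fun _ _ => rfl⟩
  have htr : ∀ z, pm (ψ z) 0 0 ≠ 0 → pm (ψ z) 3 3 ≠ 0 → Fv false z = Fv true z := by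
    intro z h0 h3
    obtain ⟨k1, k2⟩ := ce_trans (hψY z) h0 h3
    have k1' : g true z 1 ≠ 0 := by
      rw [hg]
      exact k1
    have hgg : ∀ᶠ w in 𝓝 z, g true w 1 ≠ 0 ∧ g true w 2 = g true w 1 ^ 3 ∧
        g false w = ((g true w 1)⁻¹) ^ 4 • g true w := by
      filter_upwards [hev 0 z h0, hev 3 z h3] with w l0 l3
      obtain ⟨m1, m2⟩ := ce_trans (hψY w) l0 l3
      refine ⟨?_, (hrel true w l0).2.1, ?_⟩
      · rw [hg]
        exact m1
      · rw [hg, hg]
        exact m2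
    have hu : HasDerivAt (fun w => (g true w 1)⁻¹)
        (-deriv (g true) z 1 / g true z 1 ^ 2) z := (hcomp true z h0 1).inv k1'
    have hv : HasDerivAt (fun w => ((g true w 1)⁻¹) ^ 4 * g true w 4)
        ((4 * ((g true z 1)⁻¹) ^ 3 * (-deriv (g true) z 1 / g true z 1 ^ 2)) * g true z 4 +
          ((g true z 1)⁻¹) ^ 4 * deriv (g true) z 4) z := by
      have l1 := (hu.fun_pow 4).fun_mul (hcomp true z h0 4)
      simpa using l1
    have e1 : deriv (g false) z 2 = -deriv (g true) z 1 / g true z 1 ^ 2 := by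
      refine (hcomp false z h3 2).unique (hu.congr_of_eventuallyEq ?_)
      filter_upwards [hgg] with w hw
      obtain ⟨l1, l2, l3⟩ := hw
      rw [l3, Pi.smul_apply, smul_eq_mul, l2]
      field_simp
    have e2 : deriv (g false) z 4 =
        (4 * ((g true z 1)⁻¹) ^ 3 * (-deriv (g true) z 1 / g true z 1 ^ 2)) * g true z 4 +
          ((g true z 1)⁻¹) ^ 4 * deriv (g true) z 4 := by
      refine (hcomp false z h3 4).unique (hv.congr_of_eventuallyEq ?_)
      filter_upwards [hgg] with w hw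
      obtain ⟨l1, l2, l3⟩ := hw
      rw [l3, Pi.smul_apply, smul_eq_mul]
    obtain ⟨-, l2, l3⟩ := hgg.self_of_nhds
    have e3 : g false z 2 = (g true z 1)⁻¹ := by
      rw [l3, Pi.smul_apply, smul_eq_mul, l2]
      field_simp
    have e4 : g false z 4 = ((g true z 1)⁻¹) ^ 4 * g true z 4 := by
      rw [l3, Pi.smul_apply, smul_eq_mul]
    have e5 : H false z = - (g true z 1 ^ (4 * n + 2) * H true z) := by
      have l5 := hH2 true z h0
      rw [hH] at l5
      have l4 := ce_alg2 k1' l5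
      rw [hH, hH]
      simp only [ceS, id, Matrix.cons_val_one, Matrix.cons_val_zero]
      rw [e1, e2, e3, e4]
      exact l4
    have e6 : ‖(WithLp.toLp 2 (g false z) : EuclideanSpace ℂ (Fin 5))‖ =
        (‖g true z 1‖⁻¹) ^ 4 * ‖(WithLp.toLp 2 (g true z) : EuclideanSpace ℂ (Fin 5))‖ := by
      rw [l3, WithLp.toLp_smul, norm_smul, norm_pow, norm_inv]
    have hpos : 0 < ‖g true z 1‖ := norm_pos_iff.2 k1'
    rw [hFv, hFv, e5, e6, norm_neg, norm_mul, norm_pow]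
    have e7 : (‖g true z 1‖ ^ (4 * n + 2)) ^ 2 * ((‖g true z 1‖⁻¹) ^ 4) ^ (2 * n + 1) = 1 := by
      rw [← pow_mul, ← pow_mul, inv_pow,
        show (4 * n + 2) * 2 = 4 * (2 * n + 1) by ring]
      exact mul_inv_cancel₀ (pow_ne_zero _ hpos.ne')
    rw [mul_pow, mul_pow]
    linear_combination (‖H true z‖ ^ 2 *
      ‖(WithLp.toLp 2 (g true z) : EuclideanSpace ℂ (Fin 5))‖ ^ (2 * n + 1)) * e7
  have hall : ∀ b b' z, pm (ψ z) (ceS b 0) (ceS b 0) ≠ 0 →
      pm (ψ z) (ceS b' 0) (ceS b' 0) ≠ 0 → Fv b z = Fv b' z := by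
    intro b b' z h h'
    cases b <;> cases b'
    · rfl
    · exact htr z h' h
    · exact (htr z h h').symm
    · rfl
  -- choice of the chart
  obtain ⟨B, hB⟩ : ∃ B : ℂ → Bool, ∀ z, B z = decide (‖(ψ z).rep 3‖ ≤ ‖(ψ z).rep 0‖) :=
    ⟨fun z => _, fun _ => rfl⟩
  have hrep : ∀ z, (ψ z).rep 0 ≠ 0 ∨ (ψ z).rep 3 ≠ 0 := by
    intro z
    by_contra hcon
    push Not at hcon
    obtain ⟨h0, h3⟩ := hcon
    obtain ⟨r1, r2, r3, r4⟩ := hψY z
    rw [h0] at r2
    rw [h3] at r3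
    rw [h0, h3] at r4
    have q1 : (ψ z).rep 1 = 0 := by
      apply pow_eq_zero_iff (n := 3) (by norm_num) |>.1
      rw [r2]
      ring
    have q2 : (ψ z).rep 2 = 0 := by
      apply pow_eq_zero_iff (n := 3) (by norm_num) |>.1
      rw [r3]
      ring
    have q4 : (ψ z).rep 4 = 0 := by
      apply pow_eq_zero_iff (n := n + 2) (by omega) |>.1
      rw [r4]
      simp
    apply (ψ z).rep_nonzero
    funext i
    fin_cases i
    · exact h0
    · exact q1
    · exact q2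
    · exact h3
    · exact q4
  have hval : ∀ z, (ψ z).rep (ceS (B z) 0) ≠ 0 := by
    intro z h
    by_cases hle : ‖(ψ z).rep 3‖ ≤ ‖(ψ z).rep 0‖
    · have hb : B z = true := by rw [hB]; exact decide_eq_true hle
      rw [hb] at h
      have h0 : (ψ z).rep 0 = 0 := h
      rw [h0, norm_zero] at hle
      have h3 : (ψ z).rep 3 = 0 := norm_le_zero_iff.1 hle
      rcases hrep z with h | h
      · exact h h0
      · exact h h3
    · have hb : B z = false := by rw [hB]; exact decide_eq_false hle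
      rw [hb] at h
      have h3 : (ψ z).rep 3 = 0 := h
      rw [h3, norm_zero] at hle
      exact hle (norm_nonneg _)
  have hvalid : ∀ z, pm (ψ z) (ceS (B z) 0) (ceS (B z) 0) ≠ 0 := fun z =>
    (pmv_diag_ne_zero_iff (ψ z).rep_nonzero _).2 (hval z)
  have hsmall : ∀ z, ‖g (B z) z (ceS (B z) 1)‖ ≤ 1 := by
    intro z
    have h1 := (hrel (B z) z (hvalid z)).2.2.1
    have h2 : ‖g (B z) z (ceS (B z) 3)‖ ≤ 1 := by
      have h3 : g (B z) z = ((ψ z).rep (ceS (B z) 0))⁻¹ • (ψ z).rep := by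
        rw [hg, pm, col_pmv (ψ z).rep_nonzero (hval z)]
      rw [h3, Pi.smul_apply, smul_eq_mul, norm_mul, norm_inv,
        inv_mul_le_iff₀ (norm_pos_iff.2 (hval z)), mul_one]
      by_cases hle : ‖(ψ z).rep 3‖ ≤ ‖(ψ z).rep 0‖
      · have hb : B z = true := by rw [hB]; exact decide_eq_true hle
        rw [hb]
        exact hle
      · have hb : B z = false := by rw [hB]; exact decide_eq_false hle
        rw [hb]
        exact (not_le.1 hle).le
    rw [h1, norm_pow] at h2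
    by_contra hcon
    push Not at hcon
    have h4 : 1 < ‖g (B z) z (ceS (B z) 1)‖ ^ 4 := one_lt_pow₀ hcon (by norm_num)
    linarith
  -- Ahlfors-Schwarz
  have hzero : ∀ z, Fv (B z) z = 0 := by
    refine ahlfors_schwarz (E := EuclideanSpace ℂ (Fin 5)) (m := 2 * n + 1) (by omega)
      (C := 25 * 6 ^ (2 * n + 3)) fun z₀ => ?_
    set b := B z₀ with hb
    have hv := hvalid z₀
    rw [← hb] at hv
    have hd : HasDerivAt (fun z => (WithLp.toLp 2 (g b z) : EuclideanSpace ℂ (Fin 5)))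
        (WithLp.toLp 2 (deriv (g b) z₀)) z₀ := by
      have h5 := (hga b z₀ hv).differentiableAt.hasDerivAt
      have h6 := ((EuclideanSpace.equiv (Fin 5) ℂ).symm :
        (Fin 5 → ℂ) →L[ℂ] EuclideanSpace ℂ (Fin 5)).hasFDerivAt (x := g b z₀)
      exact h6.comp_hasDerivAt z₀ h5
    obtain ⟨r0, r2, r3, r4⟩ := hrel b z₀ hv
    have hu1 : ‖g b z₀ (ceS b 1)‖ ≤ 1 := hsmall z₀
    have hv2 : ‖g b z₀ 4‖ ≤ 2 := by
      by_contra hcon
      push Not at hcon
      have h1 : (2 : ℝ) ^ (n + 2) < ‖g b z₀ 4‖ ^ (n + 2) :=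
        pow_lt_pow_left₀ hcon (by norm_num) (by omega)
      have h2 : ‖g b z₀ 4‖ ^ (n + 2) ≤ 2 := by
        rw [← norm_pow, r4]
        refine (norm_add_le _ _).trans ?_
        rw [norm_one, norm_pow, norm_pow]
        have h3 : (‖g b z₀ (ceS b 1)‖ ^ 4) ^ (n + 2) ≤ 1 :=
          pow_le_one₀ (by positivity) (pow_le_one₀ (norm_nonneg _) hu1)
        linarith
      have h4 : (2 : ℝ) ^ 1 ≤ 2 ^ (n + 2) := pow_le_pow_right₀ (by norm_num) (by omega)
      linarith
    have hne : (WithLp.toLp 2 (g b z₀) : EuclideanSpace ℂ (Fin 5)) ≠ 0 := by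
      intro h
      have h1 : (WithLp.toLp 2 (g b z₀) : EuclideanSpace ℂ (Fin 5)) (ceS b 0) = 0 := by
        rw [h]
        rfl
      have h2 : g b z₀ (ceS b 0) = 0 := h1
      rw [r0] at h2
      exact one_ne_zero h2
    refine ⟨fun z => WithLp.toLp 2 (g b z), fun z => H b z ^ 2, ?_, (hHa b z₀ hv).pow 2, hne,
      ?_, ?_⟩
    · exact (((EuclideanSpace.equiv (Fin 5) ℂ).symm :
        (Fin 5 → ℂ) →L[ℂ] EuclideanSpace ℂ (Fin 5)).analyticAt _).comp (hga b z₀ hv)
    · filter_upwards [hev _ z₀ hv] with z hz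
      rw [norm_pow, ← hFv]
      exact hall (B z) b z (hvalid z) hz
    · intro t
      rw [hd.deriv, hFv]
      set N : ℝ := ‖(WithLp.toLp 2 (deriv (g b) z₀) : EuclideanSpace ℂ (Fin 5)) -
        t • WithLp.toLp 2 (g b z₀)‖ with hN
      set s : ℝ := ‖(WithLp.toLp 2 (g b z₀) : EuclideanSpace ℂ (Fin 5))‖ with hs
      have hspos : 0 < s := norm_pos_iff.2 hne
      have hNn : 0 ≤ N := norm_nonneg _
      have hc : ∀ a, ‖deriv (g b) z₀ a - t * g b z₀ a‖ ≤ N := by
        intro a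
        exact PiLp.norm_apply_le ((WithLp.toLp 2 (deriv (g b) z₀) : EuclideanSpace ℂ (Fin 5)) -
          t • WithLp.toLp 2 (g b z₀)) a
      have ht : ‖t‖ ≤ N := by
        have h1 := hc (ceS b 0)
        rw [(hder b z₀ hv).1, r0, mul_one, zero_sub, norm_neg] at h1
        exact h1
      have hU : ‖deriv (g b) z₀ (ceS b 1)‖ ≤ 2 * N := by
        have h1 := hc (ceS b 1)
        have h2 := norm_add_le (deriv (g b) z₀ (ceS b 1) - t * g b z₀ (ceS b 1))
          (t * g b z₀ (ceS b 1))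
        rw [sub_add_cancel, norm_mul] at h2
        have h3 : ‖t‖ * ‖g b z₀ (ceS b 1)‖ ≤ N * 1 := by gcongr
        linarith
      have hV : ‖deriv (g b) z₀ 4‖ ≤ 3 * N := by
        have h1 := hc 4
        have h2 := norm_add_le (deriv (g b) z₀ 4 - t * g b z₀ 4) (t * g b z₀ 4)
        rw [sub_add_cancel, norm_mul] at h2
        have h3 : ‖t‖ * ‖g b z₀ 4‖ ≤ N * 2 := by gcongr
        linarith
      have hHb : ‖H b z₀‖ ≤ 5 * N := by
        rw [hH]
        refine (norm_sub_le _ _).trans ?_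
        rw [norm_mul, norm_div, norm_mul]
        have h1 : ‖deriv (g b) z₀ (ceS b 1)‖ * ‖g b z₀ 4‖ ≤ 2 * N * 2 := by gcongr
        have h2 : ‖g b z₀ (ceS b 1)‖ * ‖deriv (g b) z₀ 4‖ ≤ 1 * (3 * N) := by gcongr
        have h3 : ‖(4 : ℂ)‖ = 4 := by norm_num
        rw [h3]
        linarith
      have hsle : s ≤ 6 := by
        have h1 : s ^ 2 ≤ 6 ^ 2 := by
          have h2 : s ^ 2 = ∑ i, ‖g b z₀ i‖ ^ 2 := by
            rw [hs, EuclideanSpace.norm_sq_eq]
          have h3 : ∀ a, ‖g b z₀ a‖ ≤ 2 := by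
            intro a
            have l0 : ‖g b z₀ (ceS b 0)‖ ≤ 2 := by
              rw [r0]
              norm_num
            have l1 : ‖g b z₀ (ceS b 1)‖ ≤ 2 := hu1.trans (by norm_num)
            have l2 : ‖g b z₀ (ceS b 2)‖ ≤ 2 := by
              rw [r2, norm_pow]
              exact (pow_le_one₀ (norm_nonneg _) hu1).trans (by norm_num)
            have l3 : ‖g b z₀ (ceS b 3)‖ ≤ 2 := by
              rw [r3, norm_pow]
              exact (pow_le_one₀ (norm_nonneg _) hu1).trans (by norm_num)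
            clear_value b
            cases b
            · fin_cases a
              · exact l3
              · exact l2
              · exact l1
              · exact l0
              · exact hv2
            · fin_cases a
              · exact l0
              · exact l1
              · exact l2
              · exact l3
              · exact hv2
          rw [h2]
          calc ∑ i, ‖g b z₀ i‖ ^ 2 ≤ ∑ _i : Fin 5, (2 : ℝ) ^ 2 :=
                Finset.sum_le_sum fun i _ => by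
                  have := h3 i
                  gcongr
            _ ≤ 6 ^ 2 := by
                simp
                norm_num
        exact le_of_sq_le_sq h1 (by norm_num)
      calc ‖H b z₀‖ ^ 2 * s ^ (2 * n + 1) ≤ (5 * N) ^ 2 * s ^ (2 * n + 1) := by gcongr
        _ = 25 * s ^ (2 * n + 3) * (N / s) ^ 2 := by
            field_simp
            ring
        _ ≤ 25 * 6 ^ (2 * n + 3) * (N / s) ^ 2 := by gcongr
  -- conclusion
  apply eq_of_spd_eq_zero hψ
  intro z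
  have hv := hvalid z
  have hz := hzero z
  generalize B z = b at hv hz
  refine spd_eq_zero_of_deriv (hψ z) hv ?_
  rw [← hg' b]
  obtain ⟨r0, r2, r3, r4⟩ := hder b z hv
  have hH0 : H b z = 0 := by
    rw [hFv] at hz
    rcases mul_eq_zero.1 hz with h | h
    · exact norm_eq_zero.1 (pow_eq_zero_iff (n := 2) (by norm_num) |>.1 h)
    · exfalso
      have h1 : (WithLp.toLp 2 (g b z) : EuclideanSpace ℂ (Fin 5)) = 0 :=
        norm_eq_zero.1 (pow_eq_zero_iff (n := 2 * n + 1) (by omega) |>.1 h)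
      have h2 : (WithLp.toLp 2 (g b z) : EuclideanSpace ℂ (Fin 5)) (ceS b 0) = 0 := by
        rw [h1]
        rfl
      have h3 : g b z (ceS b 0) = 0 := h2
      rw [(hrel b z hv).1] at h3
      exact one_ne_zero h3
  have q1 : deriv (g b) z (ceS b 1) = 0 := by
    rw [← hH1 b z hv, hH0, zero_mul]
  have q4 : deriv (g b) z 4 = 0 := by
    rw [hH2 b z hv, hH0, mul_zero]
  rw [q1, mul_zero] at r2 r3
  funext a
  cases b
  · fin_cases a
    · exact r3
    · exact r2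
    · exact q1
    · exact r0
    · exact q4
  · fin_cases a
    · exact r0
    · exact q1
    · exact r2
    · exact r3
    · exact q4

end Pool.Agent.Lib.MP_627a61_nt
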