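import Pool.Agent.Lib.MP_627a61_nt.Cy.Stm

/-!
# CYCLIC COVERS: limits of points of covers (pieces CLO, CLOSED, OPEN)
-/

open scoped LinearAlgebra.Projectivization Topology
open Filter MvPolynomial

namespace Pool.Agent.Lib.MP_627a61_nt

lemma clo_coverVec_smul {ι K : Type*} [CommMonoid K] (m : ℕ) (x : ι → K) (y t : K) :
    coverVec m (fun i => t * x i) (t ^ m * y) = fun α => t ^ m * coverVec m x y α := by
  funext α
  rcases α with _ | α
  · rfl
  · show ∏ a, (t * x (α a)) = t ^ m * ∏ a, x (α a)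
    rw [Finset.prod_mul_distrib, Finset.prod_const, Finset.card_univ, Fintype.card_fin]

lemma clo_coverVec_zero {ι K : Type*} [Field K] {m : ℕ} (hm : 1 ≤ m) :
    coverVec m (0 : ι → K) (0 : K) = 0 := by
  funext α
  rcases α with _ | α
  · rfl
  · show ∏ a, (0 : ι → K) (α a) = 0
    exact Finset.prod_eq_zero (Finset.mem_univ (⟨0, hm⟩ : Fin m)) rfl

lemma clo_coverVec_ne_zero {ι K : Type*} [Field K] {m : ℕ} {x : ι → K} (hx : x ≠ 0) (y : K) :
    coverVec m x y ≠ 0 := by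
  obtain ⟨i, hi⟩ : ∃ i, x i ≠ 0 := by
    by_contra h
    push Not at h
    exact hx (funext h)
  intro h
  have h1 := congrFun h (some fun _ => i)
  have h2 : ∏ _a : Fin m, x i = 0 := h1
  rw [Finset.prod_const] at h2
  exact hi (eq_zero_of_pow_eq_zero h2)

lemma clo_tendsto_coverVec {ι : Type*} {l : Filter ℕ} (m : ℕ) {x : ℕ → ι → ℂ} {y : ℕ → ℂ}
    {x₀ : ι → ℂ} {y₀ : ℂ} (hx : Tendsto x l (𝓝 x₀)) (hy : Tendsto y l (𝓝 y₀)) :
    Tendsto (fun k => coverVec m (x k) (y k)) l (𝓝 (coverVec m x₀ y₀)) := by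
  rw [tendsto_pi_nhds]
  intro α
  rcases α with _ | α
  · exact hy
  · show Tendsto (fun k => ∏ a, x k (α a)) l (𝓝 (∏ a, x₀ (α a)))
    exact tendsto_finsetProd _ fun a _ => (tendsto_pi_nhds.1 hx) (α a)

/-- a point of the cover with coordinates of maximum modulus one -/
private lemma clo_normalise {ι : Type} [Fintype ι] {e m : ℕ} (he : 1 ≤ e) (hm : 1 ≤ m)
    {F : (ι → ℂ) → ℂ} (hF : ∀ (t : ℂ) x, F (t • x) = t ^ (e * m) * F x)
    {q : ℙ ℂ (Option (Fin m → ι) → ℂ)}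
    (hq : ∃ (x : ι → ℂ) (y : ℂ) (h : coverVec m x y ≠ 0), y ^ e = F x ∧
      q = Projectivization.mk ℂ (coverVec m x y) h) :
    ∃ (x : ι → ℂ) (y : ℂ) (h : coverVec m x y ≠ 0), ‖x‖ = 1 ∧ y ^ e = F x ∧
      q = Projectivization.mk ℂ (coverVec m x y) h := by
  obtain ⟨x, y, h, hy, rfl⟩ := hq
  have hx : x ≠ 0 := by
    rintro rfl
    have h1 : F (0 : ι → ℂ) = 0 := by
      have h2 := hF 0 0
      rw [smul_zero, zero_pow (Nat.mul_pos he hm).ne', zero_mul] at h2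
      exact h2
    rw [h1] at hy
    have h3 : y = 0 := eq_zero_of_pow_eq_zero hy
    rw [h3] at h
    exact h (clo_coverVec_zero hm)
  have hn : (‖x‖ : ℂ) ≠ 0 := by
    exact_mod_cast norm_ne_zero_iff.2 hx
  obtain ⟨t, ht⟩ : ∃ t : ℂ, t = (‖x‖ : ℂ)⁻¹ := ⟨_, rfl⟩
  have ht0 : t ≠ 0 := by rw [ht]; exact inv_ne_zero hn
  have hv : coverVec m (t • x) (t ^ m * y) = t ^ m • coverVec m x y := clo_coverVec_smul m x y t
  have htx : t • x ≠ 0 := smul_ne_zero ht0 hx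
  refine ⟨t • x, t ^ m * y, clo_coverVec_ne_zero htx _, ?_, ?_, ?_⟩
  · rw [norm_smul, ht, norm_inv, Complex.norm_real, norm_norm]
    exact inv_mul_cancel₀ (norm_ne_zero_iff.2 hx)
  · rw [hF, mul_pow, hy, ← pow_mul, mul_comm e m]
  · rw [Projectivization.mk_eq_mk_iff']
    refine ⟨(t ^ m)⁻¹, ?_⟩
    rw [hv, smul_smul, inv_mul_cancel₀ (pow_ne_zero _ ht0), one_smul]

theorem p_CLO : S_CLO := by
  intro ι _ e m he hm F F₀ hF l hlim q p hq hqp
  choose x y h hx hy hqe using fun k => clo_normalise he hm (hF k) (hq k)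
  -- the limit of the coordinates
  obtain ⟨x₀, hx₀s, hx₀⟩ : ∃ x₀ ∈ Metric.sphere (0 : ι → ℂ) 1, Tendsto x l (𝓝 x₀) := by
    have h1 : (l.map x : Filter (ι → ℂ)) ≤ 𝓟 (Metric.sphere (0 : ι → ℂ) 1) := by
      rw [le_principal_iff]
      exact Filter.mem_map.2 (Filter.univ_mem' fun k => by simp [hx k])
    exact (isCompact_sphere (0 : ι → ℂ) 1).ultrafilter_le_nhds (l.map x) h1
  have hx₀n : x₀ ≠ 0 := by
    rintro rfl
    simp at hx₀s
  have hFl : Tendsto (fun k => F k (x k)) l (𝓝 (F₀ x₀)) := hlim x x₀ hx₀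
  -- boundedness of `y`
  have hyb : ∀ᶠ k in (l : Filter ℕ), y k ∈ Metric.closedBall (0 : ℂ) (‖F₀ x₀‖ + 1) := by
    have h1 : ∀ᶠ k in (l : Filter ℕ), ‖F k (x k)‖ < ‖F₀ x₀‖ + 1 :=
      (hFl.norm).eventually_lt_const (lt_add_one _)
    filter_upwards [h1] with k hk
    rw [mem_closedBall_zero_iff]
    by_contra hcon
    push Not at hcon
    have h2 : 1 ≤ ‖y k‖ := by linarith [norm_nonneg (F₀ x₀)]
    have h3 : ‖y k‖ ≤ ‖y k‖ ^ e := le_self_pow₀ h2 (Nat.one_le_iff_ne_zero.1 he)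
    rw [← norm_pow, hy k] at h3
    linarith
  obtain ⟨y₀, -, hy₀⟩ : ∃ y₀ ∈ Metric.closedBall (0 : ℂ) (‖F₀ x₀‖ + 1), Tendsto y l (𝓝 y₀) := by
    have h1 : (l.map y : Filter ℂ) ≤ 𝓟 (Metric.closedBall (0 : ℂ) (‖F₀ x₀‖ + 1)) := by
      rw [le_principal_iff]
      exact Filter.mem_map.2 hyb
    exact (isCompact_closedBall (0 : ℂ) _).ultrafilter_le_nhds (l.map y) h1
  have hne : coverVec m x₀ y₀ ≠ 0 := clo_coverVec_ne_zero hx₀n _
  refine ⟨x₀, y₀, hne, ?_, ?_⟩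
  · refine tendsto_nhds_unique (hy₀.pow e) (hFl.congr fun k => ?_)
    rw [hy k]
  · apply pm_injective
    refine tendsto_nhds_unique hqp ?_
    rw [pm_mk]
    have h1 : Tendsto (fun k => pmv (coverVec m (x k) (y k))) l (𝓝 (pmv (coverVec m x₀ y₀))) :=
      ((contDiffAt_pmv (n := 0) hne).continuousAt.tendsto).comp (clo_tendsto_coverVec m hx₀ hy₀)
    refine h1.congr fun k => ?_
    rw [hqe k, pm_mk]

private lemma clo_eval₂_smul {ι k : Type*} [CommSemiring k] {F : MvPolynomial ι k} {n : ℕ}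
    (hF : F.IsHomogeneous n) (σ : k →+* ℂ) (t : ℂ) (x : ι → ℂ) :
    F.eval₂ σ (t • x) = t ^ n * F.eval₂ σ x := by
  have h := eval₂_smul_homog (hF.map σ) (RingHom.id ℂ) t x
  rwa [eval₂_map, eval₂_map, RingHom.id_comp] at h

private lemma clo_continuous_eval₂ {ι k : Type*} [Fintype ι] [CommSemiring k]
    (F : MvPolynomial ι k) (σ : k →+* ℂ) : Continuous fun x : ι → ℂ => F.eval₂ σ x := by
  have h := continuous_eval₂ (MvPolynomial.map σ F) (RingHom.id ℂ)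
  refine h.congr fun x => ?_
  rw [eval₂_map, RingHom.id_comp]

theorem p_CLOSED (hclo : S_CLO) : S_CLOSED := by
  intro ι k _ _ σ e m he hm F hF
  apply PClosed.of_seq
  intro l q p hq hlim
  exact hclo ι e m he hm (fun _ x => F.eval₂ σ x) (fun x => F.eval₂ σ x)
    (fun _ t x => clo_eval₂_smul hF σ t x) l
    (fun x x₀ hx => ((clo_continuous_eval₂ F σ).tendsto _).comp hx) q p hq hlim

theorem p_OPEN (hclo : S_CLO) : S_OPEN := by
  intro ι k _ _ _ σ e m he hm F₀ E hF₀ hE hY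
  refine eventually_brodyHyperbolic hY _ ?_
  intro l n hn q p hq hlim
  have hev : ∀ (M : ℕ) (x : ι → ℂ), (F₀ + C ((M : k)⁻¹) * E).eval₂ σ x =
      F₀.eval₂ σ x + (M : ℂ)⁻¹ * E.eval₂ σ x := by
    intro M x
    rw [eval₂_add, eval₂_mul, eval₂_C, map_inv₀, map_natCast]
  have key := hclo ι e m he hm
    (fun (i : ℕ) (x : ι → ℂ) => MvPolynomial.eval₂ σ x (F₀ + C ((n i : k)⁻¹) * E))
    (fun x : ι → ℂ => MvPolynomial.eval₂ σ x F₀)
  refine key (fun i t x => ?_) l (fun x x₀ hx => ?_) q p hq hlim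
  · exact clo_eval₂_smul (hF₀.add (hE.C_mul _)) σ t x
  · have h0 : Tendsto (fun i => F₀.eval₂ σ (x i)) l (𝓝 (F₀.eval₂ σ x₀)) :=
      ((clo_continuous_eval₂ F₀ σ).tendsto _).comp hx
    have h1 : Tendsto (fun i => E.eval₂ σ (x i)) l (𝓝 (E.eval₂ σ x₀)) :=
      ((clo_continuous_eval₂ E σ).tendsto _).comp hx
    have h2 : Tendsto (fun i => ((n i : ℕ) : ℂ)⁻¹) l (𝓝 0) :=
      (tendsto_inv_atTop_nhds_zero_nat (𝕜 := ℂ)).comp hn
    have h3 := h0.add (h2.mul h1)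
    rw [zero_mul, add_zero] at h3
    refine h3.congr fun i => ?_
    exact (hev (n i) (x i)).symm

end Pool.Agent.Lib.MP_627a61_nt
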