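import Pool.Agent.Lib.MP_627a61_nt.Cy.Stm

/-!
# CYCLIC COVERS, piece COV: the cyclic cover of the form `A ^ (4 e) + B ^ (4 e)` is hyperbolic
-/

open scoped LinearAlgebra.Projectivization Topology
open Filter MvPolynomial

namespace Pool.Agent.Lib.MP_627a61_nt

section algebra

variable {L L' : Type*} [CommRing L] [CommRing L']

private lemma cov_wv_smul {M : ℕ} (t : L) (x : Fin M → L) : wv (t • x) = t ^ 4 • wv x := by
  funext i
  simp only [wv, Pi.smul_apply, smul_eq_mul, mul_pow, Finset.mul_sum]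
  exact Finset.sum_congr rfl fun j _ => by ring

private lemma cov_al_smul {M : ℕ} (t : L) (x : Fin (M + 1) → L) : al (t • x) = t ^ 16 • al x := by
  funext j
  simp only [al, cov_wv_smul, Pi.smul_apply, smul_eq_mul]
  ring

private lemma cov_th_smul (N : ℕ) (t : L) (x : Fin (N + 2) → L) :
    th N (t • x) = t ^ (16 ^ N) • th N x := by
  induction N generalizing t with
  | zero => simp [th]
  | succ N ih => rw [th, cov_al_smul, ih, th, ← pow_mul, ← pow_succ']

private lemma cov_wv_map {M : ℕ} (f : L →+* L') (x : Fin M → L) (i : Fin M) :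
    wv (fun j => f (x j)) i = f (wv x i) := by
  simp only [wv, map_sum, map_mul, map_pow, map_intCast]

private lemma cov_th_map (f : L →+* L') (N : ℕ) (x : Fin (N + 2) → L) (j : Fin 2) :
    th N (fun i => f (x i)) j = f (th N x j) := by
  induction N with
  | zero => simp [th]
  | succ N ih =>
    rw [th, th, ← ih]
    congr 1
    funext l
    simp only [al, cov_wv_map, map_sub, map_pow]

end algebra

private lemma cov_analyticAt_wv {M : ℕ} (x : Fin M → ℂ) :
    AnalyticAt ℂ (wv : (Fin M → ℂ) → Fin M → ℂ) x := by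
  rw [analyticAt_pi_iff]
  intro i
  have h : (fun y : Fin M → ℂ => wv y i) =
      ∑ j, fun y : Fin M → ℂ => (((vmat M).adjugate i j : ℤ) : ℂ) * y j ^ 4 := by
    funext y
    simp [wv, Finset.sum_apply]
  rw [h]
  exact Finset.analyticAt_sum _ fun j _ => analyticAt_const.mul ((analyticAt_proj j x).pow 4)

private lemma cov_analyticAt_al {M : ℕ} (x : Fin (M + 1) → ℂ) :
    AnalyticAt ℂ (al : (Fin (M + 1) → ℂ) → Fin M → ℂ) x := by
  rw [analyticAt_pi_iff]
  intro j
  have h := analyticAt_pi_iff.1 (cov_analyticAt_wv x)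
  exact ((h j.castSucc).pow 4).sub ((h j.succ).pow 4)

private lemma cov_analyticAt_th (N : ℕ) (x : Fin (N + 2) → ℂ) :
    AnalyticAt ℂ (th N : (Fin (N + 2) → ℂ) → Fin 2 → ℂ) x := by
  induction N with
  | zero => exact analyticAt_id
  | succ N ih => exact (ih (al x)).comp (cov_analyticAt_al x)

/-- pullback of a hyperbolic cone -/
private lemma cov_pullback {ι κ : Type*} [Fintype ι] [Fintype κ] (Q : (κ → ℂ) → ℂ)
    (hQc : Continuous Q) (hsm : ∀ (t : ℂ) (x : κ → ℂ), t ≠ 0 → (Q (t • x) = 0 ↔ Q x = 0))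
    (hQh : BrodyHyperbolic {x : ℙ ℂ (κ → ℂ) | Q x.rep = 0})
    (G : (ι → ℂ) → (κ → ℂ)) (hG : ∀ x, AnalyticAt ℂ G x) (r : ℕ)
    (hom : ∀ (t : ℂ) x, G (t • x) = t ^ r • G x)
    (hinj : ∀ x y : ι → ℂ, G x ≠ 0 → G y ≠ 0 → (∃ c : ℂ, G x = c • G y) → ∃ t : ℂ, x = t • y)
    (hZ : BrodyHyperbolic {x : ℙ ℂ (ι → ℂ) | G x.rep = 0}) :
    BrodyHyperbolic {x : ℙ ℂ (ι → ℂ) | Q (G x.rep) = 0} := by
  intro φ hφ hφY
  by_cases hall : ∀ z, G (φ z).rep = 0
  · exact hZ φ hφ hall
  · push Not at hall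
    obtain ⟨z₀, hz₀⟩ := hall
    obtain ⟨ψ, hψ, hψ1, hψ2⟩ := exists_division hφ G hG r hom hz₀
    have hψT : ∀ z, ψ z ∈ {x : ℙ ℂ (κ → ℂ) | Q x.rep = 0} := by
      intro z
      refine (hψ z).zero_of_punctured Q hQc hsm ?_
      filter_upwards [hψ2 z] with w hw
      obtain ⟨t, ht, hrep⟩ := exists_rep_eq (hψ1 w hw)
      rw [hrep, hsm _ _ ht]
      exact hφY w
    have hψc := hQh ψ hψ hψT
    have hev : ∀ᶠ w in 𝓝[≠] z₀, φ w = φ z₀ := by
      filter_upwards [hψ2 z₀] with w hw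
      have h1 := hψ1 w hw
      have h2 := hψ1 z₀ hz₀
      rw [hψc w z₀, h2, Projectivization.mk_eq_mk_iff'] at h1
      obtain ⟨c, hc⟩ := h1
      obtain ⟨t, ht⟩ := hinj (φ w).rep (φ z₀).rep hw hz₀ ⟨c⁻¹, by
        rw [← hc, smul_smul, inv_mul_cancel₀, one_smul]
        rintro rfl
        rw [zero_smul] at hc
        exact hz₀ hc.symm⟩
      rw [← (φ w).mk_rep, ← (φ z₀).mk_rep, Projectivization.mk_eq_mk_iff']
      exact ⟨t, ht.symm⟩
    have hc := eq_of_eventually_const hφ hev.frequently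
    intro z w
    rw [hc z, hc w]

/-- the point of the curve `ceCurve` -/
private def covg (u : Fin 2 → ℂ) (v : ℂ) : Fin 5 → ℂ :=
  ![u 0 ^ 4, u 0 ^ 3 * u 1, u 0 * u 1 ^ 3, u 1 ^ 4, v]

private lemma covg_smul (t : ℂ) (u : Fin 2 → ℂ) (v : ℂ) :
    covg (t • u) (t ^ 4 * v) = t ^ 4 • covg u v := by
  funext l
  fin_cases l <;> simp [covg] <;> ring

private lemma covg_an {E : Type*} [NormedAddCommGroup E] [NormedSpace ℂ E] {u : E → Fin 2 → ℂ}
    {v : E → ℂ} {p : E} (hu : AnalyticAt ℂ u p) (hv : AnalyticAt ℂ v p) :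
    AnalyticAt ℂ (fun p => covg (u p) (v p)) p := by
  have h := analyticAt_pi_iff.1 hu
  rw [analyticAt_pi_iff]
  intro l
  fin_cases l
  · exact (h 0).pow 4
  · exact ((h 0).pow 3).mul (h 1)
  · exact (h 0).mul ((h 1).pow 3)
  · exact (h 1).pow 4
  · exact hv

private lemma covg_mem {e : ℕ} {v : Fin 5 → ℂ} {r t : ℂ} {u : Fin 2 → ℂ} (hv : v = t • covg u r)
    (hr : r ^ e = u 0 ^ (4 * e) + u 1 ^ (4 * e)) :
    v 0 * v 3 - v 1 * v 2 = 0 ∧ v 1 ^ 3 - v 0 ^ 2 * v 2 = 0 ∧ v 2 ^ 3 - v 3 ^ 2 * v 1 = 0 ∧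
      v 4 ^ e - (v 0 ^ e + v 3 ^ e) = 0 := by
  subst hv
  refine ⟨?_, ?_, ?_, ?_⟩
  · simp [covg]
    ring
  · simp [covg]
    ring
  · simp [covg]
    ring
  · simp [covg, mul_pow]
    rw [hr, ← pow_mul, ← pow_mul]
    ring

/-- the main argument, for a pencil `AB` of degree `D` -/
private lemma cov_main {ι : Type*} [Fintype ι] {D e : ℕ} (hD : 1 ≤ D) (he : 2 ≤ e)
    (hCE : BrodyHyperbolic (ceCurve e)) (AB : (ι → ℂ) → Fin 2 → ℂ)
    (hAB : ∀ x, AnalyticAt ℂ AB x) (hom : ∀ (t : ℂ) x, AB (t • x) = t ^ D • AB x)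
    (hpen : ∀ c : Fin 2 → ℂ, c ≠ 0 →
      BrodyHyperbolic {x : ℙ ℂ (ι → ℂ) | c 0 * AB x.rep 0 + c 1 * AB x.rep 1 = 0})
    (Φ : ℂ → ℙ ℂ (Option (Fin (4 * D) → ι) → ℂ)) (hΦ : ∀ z, HolomorphicAt Φ z)
    (hdata : ∀ z, ∃ (x : ι → ℂ) (y s : ℂ), s ≠ 0 ∧ x ≠ 0 ∧
      y ^ e = AB x 0 ^ (4 * e) + AB x 1 ^ (4 * e) ∧
      (∀ α, (Φ z).rep (some α) = s * ∏ a, x (α a)) ∧ (Φ z).rep none = s * y) :
    ∀ z w, Φ z = Φ w := by
  classical
  choose x y s hs hx hy hpα hpn using hdata
  obtain ⟨i, hi⟩ := Function.ne_iff.1 (hx 0)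
  have hi : x 0 i ≠ 0 := hi
  obtain ⟨q, hq⟩ : ∃ q, 4 * D = q + 1 := ⟨4 * D - 1, by omega⟩
  have hq3 : 3 ≤ q := by omega
  let a₀ : Fin (4 * D) := ⟨0, by omega⟩
  let β : ι → Fin (4 * D) → ι := fun j => Function.update (fun _ => i) a₀ j
  have hβ : ∀ (v : ι → ℂ) j, ∏ a, v (β j a) = v j * v i ^ q := by
    intro v j
    have h1 : (fun a => v (β j a)) = Function.update (fun _ => v i) a₀ (v j) := by
      funext a
      by_cases ha : a = a₀
      · subst ha
        simp [β]
      · simp [β, ha]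
    rw [h1, Finset.prod_update_of_mem (Finset.mem_univ _), Finset.prod_const]
    congr 2
    rw [Finset.card_sdiff_of_subset (Finset.subset_univ _), Finset.card_univ, Fintype.card_fin,
      Finset.card_singleton]
    omega
  have hβi : ∀ v : ι → ℂ, ∏ _a : Fin (4 * D), v i = v i ^ (q + 1) := by
    intro v
    rw [Finset.prod_const, Finset.card_univ, Fintype.card_fin, hq]
  -- the curve of the points
  let Lx : (Option (Fin (4 * D) → ι) → ℂ) →L[ℂ] (ι → ℂ) := ContinuousLinearMap.pi fun j =>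
    ContinuousLinearMap.proj (R := ℂ) (φ := fun _ : Option (Fin (4 * D) → ι) => ℂ) (some (β j))
  have hLx : ∀ p j, Lx p j = p (some (β j)) := fun p j => rfl
  have hLxΦ : ∀ z, Lx (Φ z).rep = (s z * x z i ^ q) • x z := by
    intro z
    funext j
    rw [hLx, hpα, hβ, Pi.smul_apply, smul_eq_mul]
    ring
  have hLx0 : Lx (Φ 0).rep ≠ 0 := by
    rw [hLxΦ]
    exact smul_ne_zero (mul_ne_zero (hs 0) (pow_ne_zero _ hi)) (hx 0)
  obtain ⟨χ, hχ, hχ1, hχ2⟩ := exists_division hΦ (fun p => Lx p) (fun p => Lx.analyticAt p) 1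
    (fun t p => by rw [map_smul, pow_one]) hLx0
  have hxi : ∀ w, Lx (Φ w).rep ≠ 0 → x w i ≠ 0 := by
    intro w hw h0
    apply hw
    rw [hLxΦ, h0, zero_pow (by omega), mul_zero, zero_smul]
  have hχrep : ∀ w, Lx (Φ w).rep ≠ 0 → ∃ u : ℂ, u ≠ 0 ∧ (χ w).rep = u • x w := by
    intro w hw
    obtain ⟨t, ht, hrep⟩ := exists_rep_eq (hχ1 w hw)
    refine ⟨t * (s w * x w i ^ q), mul_ne_zero ht
      (mul_ne_zero (hs w) (pow_ne_zero _ (hxi w hw))), ?_⟩
    rw [hrep, hLxΦ, smul_smul]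
  -- the curve in the curve `ceCurve`
  let G5 : (Option (Fin (4 * D) → ι) → ℂ) → Fin 5 → ℂ := fun p =>
    covg (AB (Lx p)) (p none * p (some fun _ => i) ^ q)
  have hG5hom : ∀ (t : ℂ) p, G5 (t • p) = t ^ (4 * D) • G5 p := by
    intro t p
    have h4 : (t ^ D) ^ 4 = t * t ^ q := by rw [← pow_mul, mul_comm D 4, hq, pow_succ']
    have h5 : t ^ (4 * D) = (t ^ D) ^ 4 := by rw [← pow_mul, mul_comm]
    have h6 : (t • p) none * (t • p) (some fun _ => i) ^ q =
        (t ^ D) ^ 4 * (p none * p (some fun _ => i) ^ q) := by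
      rw [h4]
      simp only [Pi.smul_apply, smul_eq_mul, mul_pow]
      ring
    simp only [G5]
    rw [map_smul, hom, h6, covg_smul, h5]
  have hG5an : ∀ p, AnalyticAt ℂ G5 p := fun p =>
    covg_an (AnalyticAt.fun_comp (hAB (Lx p)) (Lx.analyticAt p))
      ((analyticAt_proj none p).mul ((analyticAt_proj (some fun _ => i) p).pow q))
  have hG5Φ : ∀ z, G5 (Φ z).rep = (s z * x z i ^ q) ^ (4 * D) • covg (AB (x z)) (y z) := by
    intro z
    have h5 : (s z * x z i ^ q) ^ (4 * D) = ((s z * x z i ^ q) ^ D) ^ 4 := by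
      rw [← pow_mul, mul_comm 4 D]
    have h6 : (Φ z).rep none * (Φ z).rep (some fun _ => i) ^ q =
        ((s z * x z i ^ q) ^ D) ^ 4 * y z := by
      rw [← h5, hpn, hpα, hβi, hq]
      ring
    simp only [G5]
    rw [hLxΦ, hom, h6, covg_smul, h5]
  -- the curve lies in one member of the pencil
  have hmem : ∃ c : Fin 2 → ℂ, c ≠ 0 ∧ ∀ w, Lx (Φ w).rep ≠ 0 →
      c 0 * AB (x w) 0 + c 1 * AB (x w) 1 = 0 := by
    have hlam : ∀ w, Lx (Φ w).rep ≠ 0 → (s w * x w i ^ q) ^ (4 * D) ≠ 0 := fun w hw =>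
      pow_ne_zero _ (mul_ne_zero (hs w) (pow_ne_zero _ (hxi w hw)))
    by_cases hall : ∀ z, G5 (Φ z).rep = 0
    · refine ⟨![1, 0], by simp, fun w hw => ?_⟩
      have h1 := hG5Φ w
      rw [hall w] at h1
      have h2 := congrFun h1 0
      simp only [Pi.zero_apply, Pi.smul_apply, smul_eq_mul, covg, Matrix.cons_val_zero] at h2
      have h3 := (mul_eq_zero.1 h2.symm).resolve_left (hlam w hw)
      have h4 : AB (x w) 0 = 0 := pow_eq_zero_iff (by norm_num) |>.1 h3
      simp [h4]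
    · push Not at hall
      obtain ⟨z₀, hz₀⟩ := hall
      obtain ⟨ψ, hψ, hψ1, hψ2⟩ := exists_division hΦ G5 hG5an (4 * D) hG5hom hz₀
      have hrel : ∀ w, G5 (Φ w).rep ≠ 0 → ∃ u : ℂ, (ψ w).rep = u • covg (AB (x w)) (y w) := by
        intro w hw
        obtain ⟨t, ht, hrep⟩ := exists_rep_eq (hψ1 w hw)
        exact ⟨t * (s w * x w i ^ q) ^ (4 * D), by rw [hrep, hG5Φ, smul_smul]⟩
      have hψce : ∀ z, ψ z ∈ ceCurve e := by
        intro z
        have e1 : (fun v : Fin 5 → ℂ => v 0 * v 3 - v 1 * v 2) (ψ z).rep = 0 := by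
          refine (hψ z).zero_of_punctured
            (fun v : Fin 5 → ℂ => v 0 * v 3 - v 1 * v 2) (by fun_prop) ?_ ?_
          · intro t v ht
            have : (t • v) 0 * (t • v) 3 - (t • v) 1 * (t • v) 2 =
                t ^ 2 * (v 0 * v 3 - v 1 * v 2) := by
              simp only [Pi.smul_apply, smul_eq_mul]
              ring
            simp only [this]
            simp [ht]
          · filter_upwards [hψ2 z] with w hw
            obtain ⟨u, hu⟩ := hrel w hw
            exact (covg_mem hu (hy w)).1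
        have e2 : (fun v : Fin 5 → ℂ => v 1 ^ 3 - v 0 ^ 2 * v 2) (ψ z).rep = 0 := by
          refine (hψ z).zero_of_punctured
            (fun v : Fin 5 → ℂ => v 1 ^ 3 - v 0 ^ 2 * v 2) (by fun_prop) ?_ ?_
          · intro t v ht
            have : (t • v) 1 ^ 3 - (t • v) 0 ^ 2 * (t • v) 2 =
                t ^ 3 * (v 1 ^ 3 - v 0 ^ 2 * v 2) := by
              simp only [Pi.smul_apply, smul_eq_mul]
              ring
            simp only [this]
            simp [ht]
          · filter_upwards [hψ2 z] with w hw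
            obtain ⟨u, hu⟩ := hrel w hw
            exact (covg_mem hu (hy w)).2.1
        have e3 : (fun v : Fin 5 → ℂ => v 2 ^ 3 - v 3 ^ 2 * v 1) (ψ z).rep = 0 := by
          refine (hψ z).zero_of_punctured
            (fun v : Fin 5 → ℂ => v 2 ^ 3 - v 3 ^ 2 * v 1) (by fun_prop) ?_ ?_
          · intro t v ht
            have : (t • v) 2 ^ 3 - (t • v) 3 ^ 2 * (t • v) 1 =
                t ^ 3 * (v 2 ^ 3 - v 3 ^ 2 * v 1) := by
              simp only [Pi.smul_apply, smul_eq_mul]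
              ring
            simp only [this]
            simp [ht]
          · filter_upwards [hψ2 z] with w hw
            obtain ⟨u, hu⟩ := hrel w hw
            exact (covg_mem hu (hy w)).2.2.1
        have e4 : (fun v : Fin 5 → ℂ => v 4 ^ e - (v 0 ^ e + v 3 ^ e)) (ψ z).rep = 0 := by
          refine (hψ z).zero_of_punctured
            (fun v : Fin 5 → ℂ => v 4 ^ e - (v 0 ^ e + v 3 ^ e)) (by fun_prop) ?_ ?_
          · intro t v ht
            have : (t • v) 4 ^ e - ((t • v) 0 ^ e + (t • v) 3 ^ e) =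
                t ^ e * (v 4 ^ e - (v 0 ^ e + v 3 ^ e)) := by
              simp only [Pi.smul_apply, smul_eq_mul, mul_pow]
              ring
            simp only [this]
            simp [ht]
          · filter_upwards [hψ2 z] with w hw
            obtain ⟨u, hu⟩ := hrel w hw
            exact (covg_mem hu (hy w)).2.2.2
        exact ⟨sub_eq_zero.1 e1, sub_eq_zero.1 e2, sub_eq_zero.1 e3, sub_eq_zero.1 e4⟩
      have hψc := hCE ψ hψ hψce
      set k := (ψ 0).rep with hk
      have hprop : ∀ w, Lx (Φ w).rep ≠ 0 → ∃ u : ℂ, covg (AB (x w)) (y w) = u • k := by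
        intro w hw
        by_cases h0 : G5 (Φ w).rep = 0
        · refine ⟨0, ?_⟩
          rw [hG5Φ] at h0
          rw [(smul_eq_zero.1 h0).resolve_left (hlam w hw), zero_smul]
        · obtain ⟨u, hu⟩ := hrel w h0
          rw [hψc w 0, ← hk] at hu
          have hu0 : u ≠ 0 := by
            rintro rfl
            rw [zero_smul] at hu
            exact (ψ 0).rep_nonzero hu
          exact ⟨u⁻¹, by rw [hu, smul_smul, inv_mul_cancel₀ hu0, one_smul]⟩
      have hprop' : ∀ w, Lx (Φ w).rep ≠ 0 → ∃ u : ℂ, AB (x w) 0 ^ 4 = u * k 0 ∧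
          AB (x w) 0 ^ 3 * AB (x w) 1 = u * k 1 ∧ AB (x w) 1 ^ 4 = u * k 3 := by
        intro w hw
        obtain ⟨u, hu⟩ := hprop w hw
        exact ⟨u, congrFun hu 0, congrFun hu 1, congrFun hu 3⟩
      by_cases hk0 : k 0 = 0
      · refine ⟨![1, 0], by simp, fun w hw => ?_⟩
        obtain ⟨u, h1, -⟩ := hprop' w hw
        rw [hk0, mul_zero] at h1
        have h4 : AB (x w) 0 = 0 := pow_eq_zero_iff (by norm_num) |>.1 h1
        simp [h4]
      · refine ⟨![k 1, -k 0], ?_, fun w hw => ?_⟩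
        · intro h
          have := congrFun h 1
          simp at this
          exact hk0 this
        · obtain ⟨u, h1, h2, h3⟩ := hprop' w hw
          by_cases h0 : AB (x w) 0 = 0
          · rw [h0, zero_pow (by norm_num)] at h1
            rw [(mul_eq_zero.1 h1.symm).resolve_right hk0, zero_mul] at h3
            have h4 : AB (x w) 1 = 0 := pow_eq_zero_iff (by norm_num) |>.1 h3
            simp [h0, h4]
          · have h3 : AB (x w) 0 ^ 3 ≠ 0 := pow_ne_zero _ h0
            have h4 : AB (x w) 0 ^ 3 * (k 1 * AB (x w) 0 + -k 0 * AB (x w) 1) = 0 := by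
              linear_combination k 1 * h1 - k 0 * h2
            simpa using (mul_eq_zero.1 h4).resolve_left h3
  obtain ⟨c, hc0, hc⟩ := hmem
  -- the curve of the points is constant
  have hABc : ∀ l, Continuous fun v => AB v l := fun l =>
    continuous_iff_continuousAt.2 fun v => ((analyticAt_pi_iff.1 (hAB v)) l).continuousAt
  have hχpen : ∀ z, c 0 * AB (χ z).rep 0 + c 1 * AB (χ z).rep 1 = 0 := by
    intro z
    have hsc : ∀ (t : ℂ) v, c 0 * AB (t • v) 0 + c 1 * AB (t • v) 1 =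
        t ^ D * (c 0 * AB v 0 + c 1 * AB v 1) := by
      intro t v
      rw [hom]
      simp only [Pi.smul_apply, smul_eq_mul]
      ring
    refine (hχ z).zero_of_punctured (fun v => c 0 * AB v 0 + c 1 * AB v 1)
      ((continuous_const.mul (hABc 0)).add (continuous_const.mul (hABc 1))) ?_ ?_
    · intro t v ht
      simp only [hsc]
      simp [ht]
    · filter_upwards [hχ2 z] with w hw
      obtain ⟨u, hu, hrep⟩ := hχrep w hw
      rw [hrep, hsc, hc w hw, mul_zero]
  have hχc := hpen c hc0 χ hχ hχpen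
  -- conclusion
  have hxc : ∀ w, Lx (Φ w).rep ≠ 0 → ∃ u : ℂ, x w = u • x 0 := by
    intro w hw
    obtain ⟨u, hu, hrep⟩ := hχrep w hw
    obtain ⟨u', hu', hrep'⟩ := hχrep 0 hLx0
    rw [hχc w 0, hrep'] at hrep
    refine ⟨u⁻¹ * u', ?_⟩
    rw [mul_smul, hrep, smul_smul, inv_mul_cancel₀ hu, one_smul]
  let K : Option (Fin (4 * D) → ι) → ℂ := fun o => (Φ 0).rep o ^ e
  have hcross : ∀ w, Lx (Φ w).rep ≠ 0 → ∀ o o', K o' * (Φ w).rep o ^ e = K o * (Φ w).rep o' ^ e := by
    intro w hw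
    obtain ⟨u, hu⟩ := hxc w hw
    have h1 : ∀ o, ((Φ w).rep o * s 0) ^ e = ((Φ 0).rep o * (s w * u ^ (4 * D))) ^ e := by
      rintro (_ | α)
      · rw [hpn, hpn]
        have h2 := hy w
        have h3 := hy 0
        rw [hu, hom] at h2
        simp only [Pi.smul_apply, smul_eq_mul, mul_pow] at h2
        have h4 : (u ^ D) ^ (4 * e) = (u ^ (4 * D)) ^ e := by
          rw [← pow_mul, ← pow_mul]
          congr 1
          ring
        rw [h4, ← mul_add, ← h3] at h2
        simp only [mul_pow]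
        rw [h2]
        ring
      · rw [hpα, hpα, hu]
        congr 1
        simp only [Pi.smul_apply, smul_eq_mul, Finset.prod_mul_distrib, Finset.prod_const,
          Finset.card_univ, Fintype.card_fin]
        ring
    intro o o'
    have h2 := h1 o
    have h3 := h1 o'
    rw [mul_pow, mul_pow] at h2 h3
    have hs0 : s 0 ^ e ≠ 0 := pow_ne_zero _ (hs 0)
    apply mul_right_cancel₀ hs0
    simp only [K]
    linear_combination (Φ 0).rep o' ^ e * h2 - (Φ 0).rep o ^ e * h3
  have hcross' : ∀ w, ∀ o o', K o' * (Φ w).rep o ^ e = K o * (Φ w).rep o' ^ e := by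
    intro w o o'
    have h1 : (fun v : Option (Fin (4 * D) → ι) → ℂ => K o' * v o ^ e - K o * v o' ^ e)
        (Φ w).rep = 0 := by
      refine (hΦ w).zero_of_punctured
        (fun v : Option (Fin (4 * D) → ι) → ℂ => K o' * v o ^ e - K o * v o' ^ e) (by fun_prop) ?_ ?_
      · intro t v ht
        have : K o' * (t • v) o ^ e - K o * (t • v) o' ^ e =
            t ^ e * (K o' * v o ^ e - K o * v o' ^ e) := by
          simp only [Pi.smul_apply, smul_eq_mul, mul_pow]
          ring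
        simp only [this]
        simp [ht]
      · filter_upwards [hχ2 w] with w' hw'
        exact sub_eq_zero.2 (hcross w' hw' o o')
    exact sub_eq_zero.1 h1
  obtain ⟨o₀, ho₀⟩ := Function.ne_iff.1 (Φ 0).rep_nonzero
  have hK0 : K o₀ ≠ 0 := pow_ne_zero _ ho₀
  refine const_of_pow_prop hΦ (d := e) (by omega) K fun z => ⟨(Φ z).rep o₀ ^ e / K o₀, fun o => ?_⟩
  rw [div_mul_eq_mul_div, eq_div_iff hK0]
  linear_combination hcross' z o o₀

theorem p_COV : S_COV := by
  intro hCE hPEN ι κ k _ _ P δ hP r hr N eqv heqv e he σ hZ Φ hΦ hΦY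
  have hr1 : 1 ≤ r := lt_of_le_of_lt (Nat.zero_le _) (hr (eqv 0).1)
  have hD : 1 ≤ r * 16 ^ N := Nat.mul_pos hr1 (by positivity)
  set G : (ι → ℂ) → (Fin (N + 2) → ℂ) := fun x i => (gfam P δ r (eqv i)).eval₂ σ x with hG
  have hGan : ∀ x, AnalyticAt ℂ G x := by
    intro x
    rw [analyticAt_pi_iff]
    intro i
    exact analyticAt_eval₂ _ σ x
  have hGhom : ∀ (t : ℂ) x, G (t • x) = t ^ r • G x := by
    intro t x
    funext i
    exact eval₂_smul_homog (gfam_homog hP hr _) σ t x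
  have hthc : ∀ l, Continuous fun v : Fin (N + 2) → ℂ => th N v l := fun l =>
    continuous_iff_continuousAt.2 fun v =>
      ((analyticAt_pi_iff.1 (cov_analyticAt_th N v)) l).continuousAt
  have hom : ∀ (t : ℂ) x, th N (G (t • x)) = t ^ (r * 16 ^ N) • th N (G x) := by
    intro t x
    rw [hGhom, cov_th_smul, ← pow_mul]
  have hev : ∀ x : ι → ℂ, (cyF e P δ r eqv).eval₂ σ x =
      th N (G x) 0 ^ (4 * e) + th N (G x) 1 ^ (4 * e) := by
    intro x
    have h1 : ∀ l, (th N (fun i => gfam P δ r (eqv i)) l).eval₂ σ x = th N (G x) l := by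
      intro l
      have := cov_th_map (eval₂Hom σ x) N (fun i => gfam P δ r (eqv i)) l
      simp only [coe_eval₂Hom] at this
      exact this.symm
    rw [cyF, eval₂_add, eval₂_pow, eval₂_pow, h1, h1]
  refine cov_main hD he (hCE e he) (fun x => th N (G x)) ?_ hom ?_ Φ hΦ ?_
  · intro x
    exact AnalyticAt.fun_comp (cov_analyticAt_th N (G x)) (hGan x)
  · intro c hc
    refine cov_pullback (fun v => c 0 * th N v 0 + c 1 * th N v 1)
      ((continuous_const.mul (hthc 0)).add (continuous_const.mul (hthc 1))) ?_ (hPEN N c hc)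
      G hGan r hGhom ?_ ?_
    · intro t v ht
      have : c 0 * th N (t • v) 0 + c 1 * th N (t • v) 1 =
          t ^ (16 ^ N) * (c 0 * th N v 0 + c 1 * th N v 1) := by
        rw [cov_th_smul]
        simp only [Pi.smul_apply, smul_eq_mul]
        ring
      simp only [this]
      simp [ht]
    · intro x y hx _ ⟨c, hc⟩
      obtain ⟨i, hi⟩ := Function.ne_iff.1 hx
      refine gfam_inj σ (c₀ := (eqv i).1) (a₀ := (eqv i).2.1) (b₀ := (eqv i).2.2) hi (t := c) ?_
      intro c'
      obtain ⟨i', rfl⟩ := heqv c'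
      exact congrFun hc i'
    · have h2 : {x : ℙ ℂ (ι → ℂ) | G x.rep = 0} = points σ (Set.range P) := by
        ext x
        simp only [points, Set.mem_range, forall_exists_index, forall_apply_eq_imp_iff]
        rw [Set.mem_ofPred_eq, Set.mem_ofPred_eq,
          ← gfam_zero_iff (δ := δ) (e := r) σ x.rep_nonzero]
        constructor
        · intro h c
          obtain ⟨i', rfl⟩ := heqv c
          exact congrFun h i'
        · intro h
          funext i
          exact h (eqv i)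
      rw [h2]
      exact hZ
  · intro z
    obtain ⟨x, y, h, hy, hΦz⟩ := hΦY z
    rw [hev] at hy
    obtain ⟨s, hs, hrep⟩ := exists_rep_eq hΦz
    refine ⟨x, y, s, hs, ?_, hy, fun α => by rw [hrep]; rfl, by rw [hrep]; rfl⟩
    rintro rfl
    apply h
    have h0 : th N (G 0) = 0 := by
      have := hom 0 0
      rwa [zero_smul, zero_pow (by omega), zero_smul] at this
    rw [h0] at hy
    simp only [Pi.zero_apply] at hy
    rw [zero_pow (by omega), add_zero] at hy
    have hy0 : y = 0 := pow_eq_zero_iff (by omega) |>.1 hy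
    funext o
    rcases o with _ | α
    · exact hy0
    · show ∏ a, (0 : ι → ℂ) (α a) = 0
      have : Nonempty (Fin (4 * (r * 16 ^ N))) := ⟨⟨0, by omega⟩⟩
      rw [Pi.zero_def, Finset.prod_const, Finset.card_univ, Fintype.card_fin,
        zero_pow (by omega)]

end Pool.Agent.Lib.MP_627a61_nt
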