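import Pool.Agent.Lib.MP_627a61_nt.Cy.Stm

/-!
# CYCLIC COVERS, piece EQS: equations of the cover
-/

open scoped LinearAlgebra.Projectivization Topology
open Filter MvPolynomial

namespace Pool.Agent.Lib.MP_627a61_nt

/-! ### Exponents -/

/-- the exponent of the monomial `∏ a, X (α a)` -/
private noncomputable def eqs_mon {n e : ℕ} (α : Fin e → Fin n) : Fin n →₀ ℕ :=
  ∑ a, Finsupp.single (α a) 1

/-- the value of a monomial -/
private noncomputable def eqs_mv {K : Type} [Field K] {n : ℕ} (x : Fin n → K)
    (m : Fin n →₀ ℕ) : K := m.prod fun i j => x i ^ j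

private lemma eqs_mv_add {K : Type} [Field K] {n : ℕ} (x : Fin n → K) (m m' : Fin n →₀ ℕ) :
    eqs_mv x (m + m') = eqs_mv x m * eqs_mv x m' := by
  unfold eqs_mv
  exact Finsupp.prod_add_index' (fun i => pow_zero _) (fun i a b => pow_add _ _ _)

private lemma eqs_mv_mon {K : Type} [Field K] {n e : ℕ} (x : Fin n → K) (α : Fin e → Fin n) :
    eqs_mv x (eqs_mon α) = ∏ a, x (α a) := by
  unfold eqs_mon
  have h : ∀ s : Finset (Fin e), eqs_mv x (∑ a ∈ s, Finsupp.single (α a) 1) =
      ∏ a ∈ s, x (α a) := by
    intro s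
    induction s using Finset.induction_on with
    | empty =>
      rw [Finset.sum_empty, Finset.prod_empty]
      unfold eqs_mv
      exact Finsupp.prod_zero_index
    | insert b s hb ih =>
      rw [Finset.sum_insert hb, Finset.prod_insert hb, eqs_mv_add, ih]
      congr 1
      unfold eqs_mv
      have h1 := Finsupp.prod_single_index (a := α b) (b := 1) (h := fun i j => x i ^ j)
        (pow_zero _)
      rw [h1, pow_one]
  exact h Finset.univ

/-- every exponent of degree `d` comes from a tuple -/
private lemma eqs_exists_tuple {n : ℕ} : ∀ (d : ℕ) (m : Fin n →₀ ℕ), m.degree = d →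
    ∃ γ : Fin d → Fin n, eqs_mon γ = m := by
  intro d
  induction d with
  | zero =>
    intro m hm
    refine ⟨Fin.elim0, ?_⟩
    rw [Finsupp.degree_eq_zero_iff] at hm
    rw [hm]
    unfold eqs_mon
    rw [Finset.univ_eq_empty, Finset.sum_empty]
  | succ d ih =>
    intro m hm
    have hm0 : m ≠ 0 := by
      rintro rfl
      rw [map_zero] at hm
      omega
    obtain ⟨i, hi⟩ : ∃ i, m i ≠ 0 := by
      by_contra h
      push Not at h
      exact hm0 (Finsupp.ext h)
    have hle : Finsupp.single i 1 ≤ m := by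
      rw [Finsupp.single_le_iff]
      omega
    have hsum : Finsupp.single i 1 + (m - Finsupp.single i 1) = m := add_tsub_cancel_of_le hle
    have hdeg : (m - Finsupp.single i 1).degree = d := by
      have h1 := congrArg Finsupp.degree hsum
      rw [map_add, Finsupp.degree_single, hm] at h1
      omega
    obtain ⟨γ, hγ⟩ := ih _ hdeg
    refine ⟨Fin.cons i γ, ?_⟩
    unfold eqs_mon at hγ ⊢
    rw [Fin.sum_univ_succ, Fin.cons_zero]
    simp only [Fin.cons_succ]
    rw [hγ, hsum]

private lemma eqs_mon_update {n e : ℕ} (α : Fin e → Fin n) (b : Fin e) (j : Fin n) :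
    eqs_mon (Function.update α b j) + Finsupp.single (α b) 1 =
      eqs_mon α + Finsupp.single j 1 := by
  unfold eqs_mon
  have h1 := Finset.add_sum_erase Finset.univ
    (fun a => (Finsupp.single (Function.update α b j a) 1 : Fin n →₀ ℕ)) (Finset.mem_univ b)
  have h2 := Finset.add_sum_erase Finset.univ
    (fun a => (Finsupp.single (α a) 1 : Fin n →₀ ℕ)) (Finset.mem_univ b)
  have h3 : ∑ a ∈ Finset.univ.erase b,
      (Finsupp.single (Function.update α b j a) 1 : Fin n →₀ ℕ) =
      ∑ a ∈ Finset.univ.erase b, (Finsupp.single (α a) 1 : Fin n →₀ ℕ) := by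
    refine Finset.sum_congr rfl fun a ha => ?_
    rw [Function.update_of_ne (Finset.ne_of_mem_erase ha)]
  rw [← h1, ← h2, h3]
  simp only [Function.update_self]
  abel

/-! ### The relations -/

section rel

variable {K : Type} [Field K] {n e : ℕ}

/-- the vector `y` satisfies the equations of the Veronese variety, for the values `l` -/
private def EqsRel (y : (Fin (e + 1) → Fin n) → K) (l : (Fin n →₀ ℕ) → K) : Prop :=
  ∀ α β, y α * y β = l (eqs_mon α + eqs_mon β)

private lemma eqs_relA {y : (Fin (e + 1) → Fin n) → K} {l : (Fin n →₀ ℕ) → K}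
    (hy : EqsRel y l) (i : Fin n) (α : Fin (e + 1) → Fin n) (b : Fin (e + 1)) :
    y α * y (fun _ => i) =
      y (Function.update α b i) * y (Function.update (fun _ => i) 0 (α b)) := by
  rw [hy, hy]
  congr 1
  have h1 := eqs_mon_update α b i
  have h2 := eqs_mon_update (fun _ : Fin (e + 1) => i) 0 (α b)
  have h3 : eqs_mon (Function.update α b i) +
      eqs_mon (Function.update (fun _ : Fin (e + 1) => i) 0 (α b)) +
      (Finsupp.single (α b) 1 + Finsupp.single i 1) =
      eqs_mon α + eqs_mon (fun _ : Fin (e + 1) => i) +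
      (Finsupp.single (α b) 1 + Finsupp.single i 1) := by
    calc _ = (eqs_mon (Function.update α b i) + Finsupp.single (α b) 1) +
        (eqs_mon (Function.update (fun _ : Fin (e + 1) => i) 0 (α b)) + Finsupp.single i 1) := by
          abel
      _ = (eqs_mon α + Finsupp.single i 1) +
        (eqs_mon (fun _ : Fin (e + 1) => i) + Finsupp.single (α b) 1) := by rw [h1, h2]
      _ = _ := by abel
  exact (add_right_cancel h3).symm

private lemma eqs_relB {y : (Fin (e + 1) → Fin n) → K} {l : (Fin n →₀ ℕ) → K}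
    (hy : EqsRel y l) (α : Fin (e + 1) → Fin n) (b : Fin (e + 1)) :
    y α * y α = y (Function.update α b (α 0)) * y (Function.update α 0 (α b)) := by
  rw [hy, hy]
  congr 1
  have h1 := eqs_mon_update α b (α 0)
  have h2 := eqs_mon_update α 0 (α b)
  have h3 : eqs_mon (Function.update α b (α 0)) + eqs_mon (Function.update α 0 (α b)) +
      (Finsupp.single (α b) 1 + Finsupp.single (α 0) 1) =
      eqs_mon α + eqs_mon α + (Finsupp.single (α b) 1 + Finsupp.single (α 0) 1) := by
    calc _ = (eqs_mon (Function.update α b (α 0)) + Finsupp.single (α b) 1) +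
        (eqs_mon (Function.update α 0 (α b)) + Finsupp.single (α 0) 1) := by
          abel
      _ = (eqs_mon α + Finsupp.single (α 0) 1) +
        (eqs_mon α + Finsupp.single (α b) 1) := by rw [h1, h2]
      _ = _ := by abel
  exact (add_right_cancel h3).symm

/-- one of the pure powers is not zero -/
private lemma eqs_exists_const {y : (Fin (e + 1) → Fin n) → K} {l : (Fin n →₀ ℕ) → K}
    (hy : EqsRel y l) (h0 : y ≠ 0) : ∃ i, y (fun _ => i) ≠ 0 := by
  by_contra hc
  push Not at hc
  apply h0
  have key : ∀ (m : ℕ) (i : Fin n) (α : Fin (e + 1) → Fin n), α 0 = i →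
      (Finset.univ.filter fun b => α b ≠ i).card = m → y α = 0 := by
    intro m
    induction m with
    | zero =>
      intro i α h1 h2
      rw [Finset.card_eq_zero, Finset.filter_eq_empty_iff] at h2
      have h3 : α = fun _ => i := by
        funext b
        exact not_not.mp (h2 (Finset.mem_univ b))
      rw [h3]
      exact hc i
    | succ m ih =>
      intro i α h1 h2
      obtain ⟨b, hb⟩ : (Finset.univ.filter fun b => α b ≠ i).Nonempty := by
        rw [← Finset.card_pos]
        omega
      have hb' : α b ≠ i := (Finset.mem_filter.mp hb).2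
      have hb0 : b ≠ 0 := by
        rintro rfl
        exact hb' h1
      have h3 : y (Function.update α b i) = 0 := by
        apply ih i
        · rw [Function.update_of_ne hb0.symm, h1]
        · have h4 : (Finset.univ.filter fun a => Function.update α b i a ≠ i) =
              (Finset.univ.filter fun a => α a ≠ i).erase b := by
            ext a
            rw [Finset.mem_filter, Finset.mem_erase, Finset.mem_filter]
            by_cases hab : a = b
            · subst hab
              simp
            · rw [Function.update_of_ne hab]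
              simp [hab]
          rw [h4, Finset.card_erase_of_mem hb, h2]
          rfl
      have h5 := eqs_relB hy α b
      rw [h1, h3, zero_mul] at h5
      exact mul_self_eq_zero.mp h5
  funext α
  exact key _ (α 0) α rfl rfl

/-- the point of projective space -/
private def eqs_x (i : Fin n) (y : (Fin (e + 1) → Fin n) → K) : Fin n → K :=
  fun j => y (Function.update (fun _ => i) 0 j)

omit [Field K] in
private lemma eqs_x_self (i : Fin n) (y : (Fin (e + 1) → Fin n) → K) :
    eqs_x i y i = y (fun _ => i) := by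
  unfold eqs_x
  congr 1
  exact Function.update_eq_self 0 (fun _ : Fin (e + 1) => i)

private lemma eqs_prod {y : (Fin (e + 1) → Fin n) → K} {l : (Fin n →₀ ℕ) → K}
    (hy : EqsRel y l) (i : Fin n) (hi : y (fun _ => i) ≠ 0) (α : Fin (e + 1) → Fin n) :
    ∏ a, eqs_x i y (α a) = y (fun _ => i) ^ e * y α := by
  have key : ∀ s : Finset (Fin (e + 1)), y (fun _ => i) ^ s.card * y α =
      (∏ a ∈ s, eqs_x i y (α a)) * y (fun a => if a ∈ s then i else α a) := by
    intro s
    induction s using Finset.induction_on with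
    | empty =>
      simp
    | insert b s hb ih =>
      rw [Finset.card_insert_of_notMem hb, Finset.prod_insert hb, pow_succ]
      have h1 := eqs_relA hy i (fun a => if a ∈ s then i else α a) b
      have h2 : Function.update (fun a => if a ∈ s then i else α a) b i =
          fun a => if a ∈ insert b s then i else α a := by
        funext a
        by_cases hab : a = b
        · subst hab
          simp
        · rw [Function.update_of_ne hab]
          simp only [Finset.mem_insert, hab, false_or]
      rw [h2] at h1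
      simp only [hb, if_false] at h1
      have h3 : y (Function.update (fun _ => i) 0 (α b)) = eqs_x i y (α b) := rfl
      rw [h3] at h1
      calc y (fun _ => i) ^ s.card * y (fun _ => i) * y α =
          (y (fun _ => i) ^ s.card * y α) * y (fun _ => i) := by ring
        _ = (∏ a ∈ s, eqs_x i y (α a)) *
            (y (fun a => if a ∈ s then i else α a) * y (fun _ => i)) := by rw [ih]; ring
        _ = _ := by rw [h1]; ring
  have h := key Finset.univ
  simp only [Finset.mem_univ, if_true, Finset.card_univ, Fintype.card_fin] at h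
  have h2 : y (fun _ => i) * (y (fun _ => i) ^ e * y α) =
      y (fun _ => i) * ∏ a, eqs_x i y (α a) := by
    rw [← mul_assoc, ← pow_succ', h]
    ring
  exact (mul_left_cancel₀ hi h2).symm

end rel

/-- the relations between the products give an `EqsRel` -/
private lemma eqs_rel_of {K : Type} [Field K] {n e : ℕ} {y : (Fin (e + 1) → Fin n) → K}
    (h : ∀ α β α' β', eqs_mon α + eqs_mon β = eqs_mon α' + eqs_mon β' →
      y α * y β = y α' * y β') : ∃ l, EqsRel y l := by
  classical
  refine ⟨fun m => if h : ∃ p : (Fin (e + 1) → Fin n) × (Fin (e + 1) → Fin n),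
    eqs_mon p.1 + eqs_mon p.2 = m then y h.choose.1 * y h.choose.2 else 0, fun α β => ?_⟩
  have hex : ∃ p : (Fin (e + 1) → Fin n) × (Fin (e + 1) → Fin n),
    eqs_mon p.1 + eqs_mon p.2 = eqs_mon α + eqs_mon β := ⟨(α, β), rfl⟩
  beta_reduce
  rw [dif_pos hex]
  exact h _ _ _ _ hex.choose_spec.symm

private lemma eqs_exists_tuples {n : ℕ} (e m : ℕ) (s : Fin n →₀ ℕ) (hs : s.degree = e * m) :
    ∃ γ : Fin e → Fin m → Fin n, ∑ a, eqs_mon (γ a) = s := by
  obtain ⟨γ, hγ⟩ := eqs_exists_tuple (e * m) s hs
  refine ⟨fun a b => γ (finProdFinEquiv (a, b)), ?_⟩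
  rw [← hγ]
  unfold eqs_mon
  have h1 : ∑ a : Fin e, ∑ b : Fin m,
      (Finsupp.single (γ (finProdFinEquiv (a, b))) 1 : Fin n →₀ ℕ) =
      ∑ p : Fin e × Fin m, (Finsupp.single (γ (finProdFinEquiv p)) 1 : Fin n →₀ ℕ) :=
    (Fintype.sum_prod_type (fun p : Fin e × Fin m =>
      (Finsupp.single (γ (finProdFinEquiv p)) 1 : Fin n →₀ ℕ))).symm
  rw [h1]
  exact Fintype.sum_equiv finProdFinEquiv _ _ (fun _ => rfl)

private lemma eqs_mv_sum {K : Type} [Field K] {n m : ℕ} (x : Fin n → K) {e : ℕ}
    (γ : Fin e → Fin m → Fin n) :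
    eqs_mv x (∑ a, eqs_mon (γ a)) = ∏ a, ∏ b, x (γ a b) := by
  have h : ∀ t : Finset (Fin e), eqs_mv x (∑ a ∈ t, eqs_mon (γ a)) =
      ∏ a ∈ t, ∏ b, x (γ a b) := by
    intro t
    induction t using Finset.induction_on with
    | empty =>
      rw [Finset.sum_empty, Finset.prod_empty]
      unfold eqs_mv
      exact Finsupp.prod_zero_index
    | insert b t hb ih =>
      rw [Finset.sum_insert hb, Finset.prod_insert hb, eqs_mv_add, ih, eqs_mv_mon]
  exact h Finset.univ

/-- a choice of tuples -/
private noncomputable def eqs_tup {n : ℕ} (e m : ℕ) (s : Fin n →₀ ℕ) (hs : s.degree = e * m) :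
    Fin e → Fin m → Fin n := (eqs_exists_tuples e m s hs).choose

private lemma eqs_tup_spec {n : ℕ} (e m : ℕ) (s : Fin n →₀ ℕ) (hs : s.degree = e * m) :
    ∑ a, eqs_mon (eqs_tup e m s hs a) = s := (eqs_exists_tuples e m s hs).choose_spec

section eqs

variable {k : Type} [Field k] {n : ℕ}

/-- the polynomial `F~` -/
private noncomputable def eqs_ftilde (e m : ℕ) (F : MvPolynomial (Fin n) k)
    (hF : F.IsHomogeneous (e * m)) : MvPolynomial (Option (Fin m → Fin n)) k :=
  ∑ s ∈ F.support.attach, C (F.coeff s.1) *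
    ∏ a, X (some (eqs_tup e m s.1 (hF.degree_eq_sum_deg_support s.2).symm a))

private lemma eqs_ftilde_homog (e m : ℕ) (F : MvPolynomial (Fin n) k)
    (hF : F.IsHomogeneous (e * m)) : (eqs_ftilde e m F hF).IsHomogeneous e := by
  unfold eqs_ftilde
  refine IsHomogeneous.sum _ _ _ fun s _ => ?_
  refine IsHomogeneous.C_mul ?_ _
  have h := IsHomogeneous.prod (Finset.univ : Finset (Fin e))
    (fun a => (X (some (eqs_tup e m s.1 (hF.degree_eq_sum_deg_support s.2).symm a)) :
      MvPolynomial (Option (Fin m → Fin n)) k)) (fun _ => 1) (fun a _ => isHomogeneous_X k _)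
  simpa using h

private lemma eqs_ftilde_eval {K : Type} [Field K] (τ : k →+* K) (e m : ℕ)
    (F : MvPolynomial (Fin n) k) (hF : F.IsHomogeneous (e * m))
    (p : Option (Fin m → Fin n) → K) (x : Fin n → K) (c : K)
    (h : ∀ α, c * p (some α) = ∏ b, x (α b)) :
    c ^ e * (eqs_ftilde e m F hF).eval₂ τ p = F.eval₂ τ x := by
  unfold eqs_ftilde
  rw [eval₂_sum, Finset.mul_sum, eval₂_eq,
    ← Finset.sum_attach F.support (fun s => τ (F.coeff s) * ∏ i ∈ s.support, x i ^ s i)]
  refine Finset.sum_congr rfl fun s _ => ?_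
  rw [eval₂_mul, eval₂_C, eval₂_prod]
  have h1 : ∏ j ∈ s.1.support, x j ^ s.1 j = eqs_mv x s.1 := rfl
  have h2 : eqs_mv x s.1 = ∏ a, ∏ b,
      x (eqs_tup e m s.1 (hF.degree_eq_sum_deg_support s.2).symm a b) := by
    conv_lhs => rw [← eqs_tup_spec e m s.1 (hF.degree_eq_sum_deg_support s.2).symm]
    exact eqs_mv_sum x _
  rw [h1, h2]
  have h3 : ∏ a, ∏ b, x (eqs_tup e m s.1 (hF.degree_eq_sum_deg_support s.2).symm a b) =
      c ^ e * ∏ a, eval₂ τ p (X (some (eqs_tup e m s.1
        (hF.degree_eq_sum_deg_support s.2).symm a))) := by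
    have h4 : c ^ e = ∏ _a : Fin e, c := by
      rw [Finset.prod_const, Finset.card_univ, Fintype.card_fin]
    rw [h4, ← Finset.prod_mul_distrib]
    refine Finset.prod_congr rfl fun a _ => ?_
    rw [eval₂_X, h]
  rw [h3]
  ring

/-- the equations -/
private noncomputable def eqs_S (e m : ℕ) (F : MvPolynomial (Fin n) k)
    (hF : F.IsHomogeneous (e * m)) : Set (MvPolynomial (Option (Fin m → Fin n)) k) :=
  {P | (∃ α β α' β' : Fin m → Fin n, eqs_mon α + eqs_mon β = eqs_mon α' + eqs_mon β' ∧
    P = X (some α) * X (some β) - X (some α') * X (some β')) ∨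
    P = X none ^ e - eqs_ftilde e m F hF}

private lemma eqs_S_homog (e m : ℕ) (F : MvPolynomial (Fin n) k)
    (hF : F.IsHomogeneous (e * m)) : Homog (eqs_S e m F hF) := by
  rintro P (⟨α, β, α', β', -, rfl⟩ | rfl)
  · exact ⟨1 + 1, ((isHomogeneous_X k _).mul (isHomogeneous_X k _)).sub
      ((isHomogeneous_X k _).mul (isHomogeneous_X k _))⟩
  · refine ⟨e, IsHomogeneous.sub ?_ (eqs_ftilde_homog e m F hF)⟩
    have h := (isHomogeneous_X k (none : Option (Fin m → Fin n))).pow e
    simpa using h

end eqs

theorem p_EQS : S_EQS := by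
  intro n k _ e m' he hm' F hF
  obtain ⟨m, rfl⟩ : ∃ m, m' = m + 1 := ⟨m' - 1, by omega⟩
  refine ⟨eqs_S e (m + 1) F hF, eqs_S_homog _ _ _ _, ?_⟩
  intro K _ τ
  ext p
  constructor
  · intro hp
    have hA : ∀ α β α' β' : Fin (m + 1) → Fin (n + 1),
        eqs_mon α + eqs_mon β = eqs_mon α' + eqs_mon β' →
        p.rep (some α) * p.rep (some β) = p.rep (some α') * p.rep (some β') := by
      intro α β α' β' h
      have h1 := hp _ (Or.inl ⟨α, β, α', β', h, rfl⟩)
      rw [eval₂_sub, eval₂_mul, eval₂_mul, eval₂_X, eval₂_X, eval₂_X, eval₂_X] at h1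
      exact sub_eq_zero.mp h1
    have hB : p.rep none ^ e = (eqs_ftilde e (m + 1) F hF).eval₂ τ p.rep := by
      have h1 := hp _ (Or.inr rfl)
      rw [eval₂_sub, eval₂_pow, eval₂_X] at h1
      exact sub_eq_zero.mp h1
    obtain ⟨l, hl⟩ := eqs_rel_of (y := fun α => p.rep (some α)) hA
    have hne : (fun α : Fin (m + 1) → Fin (n + 1) => p.rep (some α)) ≠ 0 := by
      intro h0
      apply p.rep_nonzero
      have h1 := eqs_ftilde_eval τ e (m + 1) F hF p.rep (0 : Fin (n + 1) → K) 1
        (fun α => by
          rw [one_mul]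
          have := congrFun h0 α
          simp only [Pi.zero_apply] at this
          rw [this]
          symm
          exact Finset.prod_eq_zero (Finset.mem_univ 0) rfl)
      have h2 : F.eval₂ τ (0 : Fin (n + 1) → K) = 0 := by
        have h3 := eval₂_smul_homog hF τ 0 (0 : Fin (n + 1) → K)
        rw [smul_zero] at h3
        rw [h3, zero_pow (by positivity), zero_mul]
      rw [one_pow, one_mul, h2] at h1
      rw [h1] at hB
      funext c
      rcases c with _ | α
      · exact eq_zero_of_pow_eq_zero hB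
      · exact congrFun h0 α
    obtain ⟨i, hi⟩ := eqs_exists_const hl hne
    set c := p.rep (some fun _ => i) with hc
    set x : Fin (n + 1) → K := eqs_x i (fun α => p.rep (some α)) with hx
    have hprod : ∀ α : Fin (m + 1) → Fin (n + 1), c ^ m * p.rep (some α) = ∏ b, x (α b) :=
      fun α => (eqs_prod hl i hi α).symm
    have hcm : c ^ m ≠ 0 := pow_ne_zero _ hi
    have hvec : coverVec (m + 1) x (c ^ m * p.rep none) = c ^ m • p.rep := by
      funext a
      rcases a with _ | α
      · rfl
      · exact (hprod α).symm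
    have hvec0 : coverVec (m + 1) x (c ^ m * p.rep none) ≠ 0 := by
      rw [hvec]
      exact smul_ne_zero hcm p.rep_nonzero
    refine ⟨x, c ^ m * p.rep none, hvec0, ?_, ?_⟩
    · rw [mul_pow, hB]
      exact eqs_ftilde_eval τ e (m + 1) F hF p.rep x (c ^ m) hprod
    · have h1 : p = Projectivization.mk K p.rep p.rep_nonzero := p.mk_rep.symm
      conv_lhs => rw [h1]
      rw [Projectivization.mk_eq_mk_iff']
      refine ⟨(c ^ m)⁻¹, ?_⟩
      rw [hvec, smul_smul, inv_mul_cancel₀ hcm, one_smul]
  · rintro ⟨x, y, h, hy, rfl⟩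
    rw [mem_points_mk (eqs_S_homog e (m + 1) F hF)]
    rintro P (⟨α, β, α', β', hab, rfl⟩ | rfl)
    · rw [eval₂_sub, eval₂_mul, eval₂_mul, eval₂_X, eval₂_X, eval₂_X, eval₂_X]
      show (∏ a, x (α a)) * (∏ a, x (β a)) - (∏ a, x (α' a)) * (∏ a, x (β' a)) = 0
      rw [← eqs_mv_mon, ← eqs_mv_mon, ← eqs_mv_mon, ← eqs_mv_mon, ← eqs_mv_add, ← eqs_mv_add,
        hab, sub_self]
    · rw [eval₂_sub, eval₂_pow, eval₂_X]
      have h1 := eqs_ftilde_eval τ e (m + 1) F hF (coverVec (m + 1) x y) x 1
        (fun α => by rw [one_mul]; rfl)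
      rw [one_pow, one_mul] at h1
      rw [h1]
      show y ^ e - _ = 0
      rw [hy, sub_self]

end Pool.Agent.Lib.MP_627a61_nt
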