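import Pool.Agent.Lib.MP_627a61_nt.Cy.Stm

/-!
# CYCLIC COVERS, piece HH: the fibres of the maps `al` are hyperbolic
-/

open scoped LinearAlgebra.Projectivization Topology
open Filter

namespace Pool.Agent.Lib.MP_627a61_nt

private lemma hh_wv_smul {L : Type*} [CommRing L] {M : ℕ} (t : L) (x : Fin M → L) :
    wv (t • x) = t ^ 4 • wv x := by
  funext i
  simp only [wv, Pi.smul_apply, smul_eq_mul, mul_pow, Finset.mul_sum]
  exact Finset.sum_congr rfl fun j _ => by ring

private lemma hh_vmat_wv {L : Type*} [CommRing L] {M : ℕ} (x : Fin M → L) (m : Fin M) :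
    ∑ i, ((vmat M m i : ℤ) : L) * wv x i = ((vmat M).det : L) * x m ^ 4 := by
  have h : vmat M * (vmat M).adjugate = (vmat M).det • 1 := Matrix.mul_adjugate _
  have h1 : ∀ j, ∑ i, vmat M m i * (vmat M).adjugate i j = if m = j then (vmat M).det else 0 := by
    intro j
    have := congrFun (congrFun h m) j
    simpa [Matrix.mul_apply, Matrix.one_apply] using this
  simp only [wv, Finset.mul_sum]
  rw [Finset.sum_comm, Finset.sum_eq_single m]
  · have h2 := congrArg (Int.cast : ℤ → L) (h1 m)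
    rw [if_pos rfl, Int.cast_sum] at h2
    simp only [Int.cast_mul] at h2
    rw [← h2, Finset.sum_mul]
    exact Finset.sum_congr rfl fun i _ => by ring
  · intro j _ hj
    have h2 := congrArg (Int.cast : ℤ → L) (h1 j)
    rw [if_neg hj.symm, Int.cast_sum] at h2
    simp only [Int.cast_mul, Int.cast_zero] at h2
    have h3 : ∑ i, ((vmat M m i : ℤ) : L) * (((vmat M).adjugate i j : ℤ) * x j ^ 4) =
        (∑ i, ((vmat M m i : ℤ) : L) * ((vmat M).adjugate i j : ℤ)) * x j ^ 4 := by
      rw [Finset.sum_mul]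
      exact Finset.sum_congr rfl fun i _ => by ring
    rw [h3, h2, zero_mul]
  · intro h
    exact absurd (Finset.mem_univ _) h

private lemma hh_det (M : ℕ) : (vmat M).det ≠ 0 := by
  have h : vmat M = Matrix.vandermonde fun m : Fin M => (9 : ℤ) ^ ((m : ℕ) + 1) := by
    ext i j
    simp [vmat, Matrix.vandermonde_apply]
  rw [h, Matrix.det_vandermonde_ne_zero_iff]
  intro i j hij
  have h1 := pow_right_injective₀ (a := (9 : ℤ)) (by norm_num) (by norm_num) hij
  exact Fin.ext (by simpa using h1)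

private lemma hh_analyticAt_wv {M : ℕ} (x : Fin M → ℂ) :
    AnalyticAt ℂ (wv : (Fin M → ℂ) → Fin M → ℂ) x := by
  rw [analyticAt_pi_iff]
  intro i
  have h : (fun y : Fin M → ℂ => wv y i) =
      ∑ j, fun y : Fin M → ℂ => (((vmat M).adjugate i j : ℤ) : ℂ) * y j ^ 4 := by
    funext y
    simp [wv, Finset.sum_apply]
  rw [h]
  exact Finset.analyticAt_sum _ fun j _ => analyticAt_const.mul ((analyticAt_proj j x).pow 4)

private lemma hh_ne {M : ℕ} {x : Fin M → ℂ} (hx : x ≠ 0) : wv x ≠ 0 := by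
  intro h
  apply hx
  funext m
  have h1 := hh_vmat_wv x m
  rw [h] at h1
  simp only [Pi.zero_apply, mul_zero, Finset.sum_const_zero] at h1
  have h2 : (((vmat M).det : ℤ) : ℂ) ≠ 0 := by exact_mod_cast hh_det M
  have h3 := (mul_eq_zero.1 h1.symm).resolve_left h2
  exact pow_eq_zero_iff (by norm_num) |>.1 h3

/-- two coordinates of `wv` with the same fourth powers along a curve are proportional -/
private lemma hh_factor {M : ℕ} {ψ : ℂ → ℙ ℂ (Fin M → ℂ)} (hψ : ∀ z, HolomorphicAt ψ z)
    (j l : Fin M) (h : ∀ z, wv (ψ z).rep j ^ 4 = wv (ψ z).rep l ^ 4) :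
    ∃ κ : ℂ, ‖κ‖ = 1 ∧ ∀ z, wv (ψ z).rep j = κ * wv (ψ z).rep l := by
  by_contra hcon
  push Not at hcon
  have key : ∀ κ : ℂ, ‖κ‖ = 1 → ∀ᶠ z in 𝓝[≠] (0 : ℂ), wv (ψ z).rep j - κ * wv (ψ z).rep l ≠ 0 := by
    intro κ hκ
    obtain ⟨z₀, hz₀⟩ := hcon κ hκ
    obtain ⟨_, _, _, h3⟩ := exists_division hψ
      (fun x (_ : Fin 1) => wv x j - κ * wv x l)
      (fun x => by
        rw [analyticAt_pi_iff]
        intro _
        have hj := (analyticAt_pi_iff.1 (hh_analyticAt_wv x)) j
        have hl := (analyticAt_pi_iff.1 (hh_analyticAt_wv x)) l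
        exact hj.sub (analyticAt_const.mul hl)) 4
      (fun t x => by
        funext _
        rw [hh_wv_smul]
        simp only [Pi.smul_apply, smul_eq_mul]
        ring) (z₀ := z₀) (fun h0 => by
        have h1 := congrFun h0 0
        simp only [Pi.zero_apply] at h1
        exact hz₀ (sub_eq_zero.1 h1))
    filter_upwards [h3 0] with z hz h0
    exact hz (funext fun _ => h0)
  have k1 := key 1 (by simp)
  have k2 := key (-1) (by simp)
  have k3 := key Complex.I (by simp)
  have k4 := key (-Complex.I) (by simp)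
  obtain ⟨z, h1, h2, h3, h4⟩ := (k1.and (k2.and (k3.and k4))).exists
  have hprod := mul_ne_zero (mul_ne_zero h1 h2) (mul_ne_zero h3 h4)
  apply hprod
  have hI : Complex.I ^ 2 = -1 := Complex.I_sq
  linear_combination h z - (wv (ψ z).rep j ^ 2 * wv (ψ z).rep l ^ 2 -
    wv (ψ z).rep l ^ 4) * hI

theorem p_HH (hV : S_VAND) (hF : S_LEMF) : S_HH := by
  intro M ψ hψ c hc
  classical
  set W : ℂ → Fin (M + 3) → ℂ := fun z => wv (ψ z).rep with hW
  have hWne : ∀ z, W z ≠ 0 := fun z => hh_ne (ψ z).rep_nonzero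
  have hdet : (((vmat (M + 3)).det : ℤ) : ℂ) ≠ 0 := by exact_mod_cast hh_det (M + 3)
  have hx : ∀ z m, (ψ z).rep m ^ 4 =
      (∑ i, ((vmat (M + 3) m i : ℤ) : ℂ) * W z i) / ((vmat (M + 3)).det : ℤ) := by
    intro z m
    rw [eq_div_iff hdet, hh_vmat_wv, mul_comm]
  choose t ht using hc
  -- the numbers `a`
  set a : Fin (M + 3) → ℂ := fun m => -∑ i : Fin (M + 2), if (i : ℕ) < m then c i else 0 with ha
  have ha0 : a 0 = 0 := by simp [ha]
  have has : ∀ j : Fin (M + 2), a j.succ = a j.castSucc - c j := by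
    intro j
    have h1 : ∀ i : Fin (M + 2), (if (i : ℕ) < j.succ then c i else 0) =
        (if (i : ℕ) < j.castSucc then c i else 0) + if i = j then c j else 0 := by
      intro i
      simp only [Fin.val_succ, Fin.val_castSucc]
      rcases lt_trichotomy (i : ℕ) (j : ℕ) with h | h | h
      · have h3 : i ≠ j := fun h' => by rw [h'] at h; exact lt_irrefl _ h
        simp [h, h3, Nat.lt_succ_of_lt h]
      · have h3 : i = j := Fin.ext h
        subst h3
        simp
      · have h3 : i ≠ j := fun h' => by rw [h'] at h; exact lt_irrefl _ h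
        have h4 : ¬ (i : ℕ) < j := by omega
        have h5 : ¬ (i : ℕ) < (j : ℕ) + 1 := by omega
        simp [h3, h4, h5]
    simp only [ha]
    rw [Finset.sum_congr rfl fun i _ => h1 i, Finset.sum_add_distrib]
    simp only [Finset.sum_ite_eq', Finset.mem_univ, if_true]
    ring
  have hw4 : ∀ z m, W z m ^ 4 = W z 0 ^ 4 + t z * a m := by
    intro z m
    induction m using Fin.induction with
    | zero => simp [ha0]
    | succ j ihj =>
      have h1 := congrFun (ht z) j
      simp only [al, Pi.smul_apply, smul_eq_mul] at h1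
      have h2 : W z j.castSucc ^ 4 - W z j.succ ^ 4 = t z * c j := h1
      rw [has]
      linear_combination ihj - h2
  by_cases h3 : ∃ i l, a i ≠ 0 ∧ a l ≠ 0 ∧ a i ≠ a l
  · obtain ⟨i, l, hi, hl, hil⟩ := h3
    obtain ⟨ω, hω, hω1, -⟩ := exists_division hψ wv hh_analyticAt_wv 4 hh_wv_smul (hWne 0)
    have hωc : ∀ z w, ω z = ω w := by
      refine hF _ ω hω (fun _ => 1) a ![0, i, l] ?_ ?_ ?_ ?_
      · simpa [ha0] using hi
      · simpa [ha0] using hl
      · simpa using sub_ne_zero.2 hil.symm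
      · intro z
        obtain ⟨s, hs, hrep⟩ := exists_rep_eq (hω1 z (hWne z))
        refine ⟨s ^ 4 * W z 0 ^ 4, s ^ 4 * t z, fun m => ?_⟩
        rw [hrep, Pi.smul_apply, smul_eq_mul, mul_pow]
        have := hw4 z m
        simp only [hW] at this ⊢
        rw [this]
        ring
    have hWs : ∀ z, ∃ s : ℂ, W z = s • W 0 := by
      intro z
      have h1 := hω1 z (hWne z)
      have h2 := hω1 0 (hWne 0)
      rw [hωc z 0, h2, Projectivization.mk_eq_mk_iff'] at h1
      obtain ⟨s, hs⟩ := h1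
      have hs0 : s ≠ 0 := by
        rintro rfl
        rw [zero_smul] at hs
        exact hWne 0 hs.symm
      refine ⟨s⁻¹, ?_⟩
      have hs' : s • W z = W 0 := hs
      rw [← hs', smul_smul, inv_mul_cancel₀ hs0, one_smul]
    refine const_of_pow_prop hψ (d := 4) (by norm_num)
      (fun m => (∑ i, ((vmat (M + 3) m i : ℤ) : ℂ) * W 0 i) / ((vmat (M + 3)).det : ℤ)) fun z => ?_
    obtain ⟨s, hs⟩ := hWs z
    refine ⟨s, fun m => ?_⟩
    rw [hx z m, hs, mul_div_assoc', Finset.mul_sum]
    congr 1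
    refine Finset.sum_congr rfl fun i _ => ?_
    simp only [Pi.smul_apply, smul_eq_mul]
    ring
  · push Not at h3
    set I : Finset (Fin (M + 3)) := Finset.univ.filter fun l => a l = 0 with hI
    have h0I : (0 : Fin (M + 3)) ∈ I := by simp [hI, ha0]
    -- the second base point
    obtain ⟨j₀, hj₀⟩ : ∃ j₀ : Fin (M + 3), ∀ l ∈ Iᶜ, a l = a j₀ := by
      by_cases hne : Iᶜ.Nonempty
      · obtain ⟨j₀, hj⟩ := hne
        refine ⟨j₀, fun l hl => ?_⟩
        simp only [hI, Finset.mem_compl, Finset.mem_filter, Finset.mem_univ, true_and] at hj hl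
        exact h3 l j₀ hl hj
      · exact ⟨0, fun l hl => absurd ⟨l, hl⟩ hne⟩
    have hκ : ∀ l : Fin (M + 3), ∃ κ : ℂ, ‖κ‖ = 1 ∧
        ∀ z, W z l = κ * (if l ∈ I then W z 0 else W z j₀) := by
      intro l
      by_cases hl : l ∈ I
      · have hl' : a l = 0 := by simpa [hI] using hl
        obtain ⟨κ, h1, h2⟩ := hh_factor hψ l 0 fun z => by
          have := hw4 z l
          rw [hl', mul_zero, add_zero] at this
          exact this
        exact ⟨κ, h1, fun z => by rw [if_pos hl]; exact h2 z⟩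
      · obtain ⟨κ, h1, h2⟩ := hh_factor hψ l j₀ fun z => by
          have e1 := hw4 z l
          have e2 := hw4 z j₀
          rw [hj₀ l (by simpa using hl), ← e2] at e1
          exact e1
        exact ⟨κ, h1, fun z => by rw [if_neg hl]; exact h2 z⟩
    choose κ hκ1 hκ2 using hκ
    have hsum : ∀ z m, ∑ i, ((vmat (M + 3) m i : ℤ) : ℂ) * W z i =
        W z 0 * (∑ l ∈ I, κ l * (9 ^ ((m : ℕ) + 1)) ^ (l : ℕ)) +
        W z j₀ * (∑ l ∈ Iᶜ, κ l * (9 ^ ((m : ℕ) + 1)) ^ (l : ℕ)) := by
      intro z m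
      rw [← Finset.sum_add_sum_compl I, Finset.mul_sum, Finset.mul_sum]
      congr 1
      · refine Finset.sum_congr rfl fun l hl => ?_
        rw [hκ2 l z, if_pos hl]
        simp only [vmat, Matrix.of_apply]
        push_cast
        ring
      · refine Finset.sum_congr rfl fun l hl => ?_
        rw [hκ2 l z, if_neg (by simpa using hl)]
        simp only [vmat, Matrix.of_apply]
        push_cast
        ring
    have hxm : ∀ z m, (ψ z).rep m ^ 4 = W z 0 / ((vmat (M + 3)).det : ℤ) *
        (∑ l ∈ I, κ l * (9 ^ ((m : ℕ) + 1)) ^ (l : ℕ)) +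
        W z j₀ / ((vmat (M + 3)).det : ℤ) *
        (∑ l ∈ Iᶜ, κ l * (9 ^ ((m : ℕ) + 1)) ^ (l : ℕ)) := by
      intro z m
      rw [hx z m, hsum z m]
      ring
    by_cases hne : Iᶜ.Nonempty
    · refine hF _ ψ hψ _ _ ![0, 1, 2] ?_ ?_ ?_ fun z =>
        ⟨W z 0 / ((vmat (M + 3)).det : ℤ), W z j₀ / ((vmat (M + 3)).det : ℤ), fun m => hxm z m⟩
      · exact hV _ I κ hκ1 ⟨0, h0I⟩ hne 0 1 (by simp)
      · exact hV _ I κ hκ1 ⟨0, h0I⟩ hne 0 2 (by
          intro h
          have := congrArg Fin.val h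
          simp only [Fin.coe_ofNat_eq_mod, Nat.zero_mod] at this
          rw [Nat.mod_eq_of_lt (by omega : 2 < M + 3)] at this
          omega)
      · exact hV _ I κ hκ1 ⟨0, h0I⟩ hne 1 2 (by
          intro h
          have := congrArg Fin.val h
          simp only [Fin.coe_ofNat_eq_mod] at this
          rw [Nat.mod_eq_of_lt (by omega : 2 < M + 3),
            Nat.mod_eq_of_lt (by omega : 1 < M + 3)] at this
          omega)
    · rw [Finset.not_nonempty_iff_eq_empty] at hne
      refine const_of_pow_prop hψ (d := 4) (by norm_num)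
        (fun m : Fin (M + 3) => ∑ l ∈ I, κ l * (9 ^ ((m : ℕ) + 1)) ^ (l : ℕ)) fun z =>
        ⟨W z 0 / ((vmat (M + 3)).det : ℤ), fun m => ?_⟩
      rw [hxm z m, hne, Finset.sum_empty, mul_zero, add_zero]

end Pool.Agent.Lib.MP_627a61_nt
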