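import Pool.Agent.Lib.MP_627a61_nt.Cy.Defs

/-!
# Statements of the pieces of CYCLIC COVERS (not used in any proof; the pieces are theorems with
these statements, in their own files)
-/

open scoped LinearAlgebra.Projectivization Topology
open Filter MvPolynomial

namespace Pool.Agent.Lib.MP_627a61_nt

/-- VAND. Let `Q = 9 ^ (m + 1)`, `R = 9 ^ (n + 1) ≥ 9 Q`. For a nonempty set `I` with largest
element `i`, `7 / 8 * Q ^ i ≤ ‖∑_(l ∈ I) κ l * Q ^ l‖ ≤ 9 / 8 * Q ^ i`, because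
`∑_(l < i) Q ^ l ≤ Q ^ i / (Q - 1)`. Let `j` be the largest element of the complement, say
`j < i`; the two products are at least `49 / 64 * R ^ i * Q ^ j` and at most
`81 / 64 * Q ^ i * R ^ j`, and `R ^ (i - j) ≥ 9 * Q ^ (i - j)`. -/
def S_VAND : Prop := ∀ (M : ℕ) (I : Finset (Fin M)) (κ : Fin M → ℂ), (∀ l, ‖κ l‖ = 1) →
  I.Nonempty → Iᶜ.Nonempty → ∀ m n : Fin M, m ≠ n →
  (∑ l ∈ I, κ l * (9 ^ ((m : ℕ) + 1)) ^ (l : ℕ)) * (∑ l ∈ Iᶜ, κ l * (9 ^ ((n : ℕ) + 1)) ^ (l : ℕ)) -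
  (∑ l ∈ I, κ l * (9 ^ ((n : ℕ) + 1)) ^ (l : ℕ)) * (∑ l ∈ Iᶜ, κ l * (9 ^ ((m : ℕ) + 1)) ^ (l : ℕ)) ≠ 0

/-- LEMF. With `D_mn = a_m b_n - a_n b_m` the fourth powers satisfy
`D_12 X_0 - D_02 X_1 + D_01 X_2 = 0`, so `(α x_0, β x_1, γ x_2)` is on the Fermat quartic for
fourth roots `α, β, γ`; it is never zero (otherwise `u = v = 0` and all coordinates are zero),
so it is constant by `brodyHyperbolic_fermat4`, so `(u, v)` and all fourth powers are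
proportional to constants: `const_of_pow_prop`. See the end of `brodyHyperbolic_tower`. -/
def S_LEMF : Prop := ∀ (ι : Type) [Fintype ι] (ψ : ℂ → ℙ ℂ (ι → ℂ)), (∀ z, HolomorphicAt ψ z) →
  ∀ (a b : ι → ℂ) (i : Fin 3 → ι), a (i 0) * b (i 1) - a (i 1) * b (i 0) ≠ 0 →
  a (i 0) * b (i 2) - a (i 2) * b (i 0) ≠ 0 → a (i 1) * b (i 2) - a (i 2) * b (i 1) ≠ 0 →
  (∀ z, ∃ u v : ℂ, ∀ m, (ψ z).rep m ^ 4 = u * a m + v * b m) → ∀ z w, ψ z = ψ w

/-- HH. Choose `a` with `a 0 = 0`, `a_j - a_(j+1) = c_j`; `w = wv (ψ z).rep` satisfies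
`w_j ^ 4 = w_0 ^ 4 - t a_j`... If `0`, `a_i`, `a_l` are distinct, LEMF for the curve `[w]`
(`w` is never zero: `vmat *ᵥ w = det • x ^ 4`, `det ≠ 0`), so `w` and `x ^ 4` are proportional
to constants (`const_of_pow_prop`). Otherwise let `I = {a_l = 0}`, `J` the complement: the
`w_l ^ 4`, `l ∈ I`, are all equal, and those for `l ∈ J` too. `w_l ^ 4 - w_0 ^ 4` is the product
of the `w_l - κ w_0`, `κ ^ 4 = 1`; by `exists_division` (third conclusion) one factor is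
identically zero. So `w_l = κ_l u` on `I`, `κ_l v` on `J` and
`det * x_m ^ 4 = u a'_m + v b'_m`, `a'_m = ∑_I κ_l Q_m ^ l`, `b'_m = ∑_J κ_l Q_m ^ l`: VAND and LEMF
if `J` is not empty, `const_of_pow_prop` otherwise. -/
def S_HH : Prop := ∀ (M : ℕ) (ψ : ℂ → ℙ ℂ (Fin (M + 3) → ℂ)), (∀ z, HolomorphicAt ψ z) →
  ∀ c : Fin (M + 2) → ℂ, (∀ z, ∃ t : ℂ, al (ψ z).rep = t • c) → ∀ z w, ψ z = ψ w

/-- PEN, by induction from HH. -/
def S_PEN : Prop := ∀ (N : ℕ) (c : Fin 2 → ℂ), c ≠ 0 →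
  BrodyHyperbolic {x : ℙ ℂ (Fin (N + 2) → ℂ) | c 0 * th N x.rep 0 + c 1 * th N x.rep 1 = 0}

/-- CE. On the chart `p 0 ≠ 0`: `p = (1, u, u ^ 3, u ^ 4, v)`, `v ^ e = 1 + u ^ (4 e)`,
`h = u' v - u v' / 4`, `h v ^ (e-1) = u'`; similarly on the chart `p 3 ≠ 0`. The function
`‖h‖ ^ 2 * ‖p‖ ^ (2 e - 3)` does not depend on the chart and is at most `C * speed ^ 2`:
`ahlfors_schwarz`. -/
def S_CE : Prop := ∀ e : ℕ, 2 ≤ e → BrodyHyperbolic (ceCurve e)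

/-- COV. Let `Φ` be a curve in the cover, `x` the curve in projective space (as in VER1, with
`exists_division`). The linear map `(A ^ 4, A ^ 3 B, A B ^ 3, B ^ 4, y)` (`A ^ 4` etc. are linear
forms in the products of `m = 4 * (r * 16 ^ N)` coordinates) gives a curve in `ceCurve e`,
constant by CE. So `c_0 A + c_1 B = 0` along `x`. If all `gfam` vanish along `x`, it is a curve in
`points σ (range P)`, constant; otherwise `exists_division` gives a curve in the set of PEN,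
constant, and `gfam_inj` shows that `x` is constant. Then the `e`-th powers of the coordinates of
`Φ` are proportional to constants: `const_of_pow_prop`. -/
def S_COV : Prop := S_CE → S_PEN → ∀ (ι κ k : Type) [Fintype ι] [Field k]
  (P : κ → MvPolynomial ι k) (δ : κ → ℕ), (∀ c, (P c).IsHomogeneous (δ c)) →
  ∀ r : ℕ, (∀ c, δ c < r) → ∀ (N : ℕ) (eqv : Fin (N + 2) → κ × ι × ι),
  Function.Surjective eqv → ∀ e : ℕ, 2 ≤ e → ∀ σ : k →+* ℂ,
  BrodyHyperbolic (points σ (Set.range P)) →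
  BrodyHyperbolic (cyclicCover σ e (4 * (r * 16 ^ N)) (cyF e P δ r eqv))

/-- CLO. Limits of points of covers: with coordinates `x` of maximum modulus one, compactness. -/
def S_CLO : Prop := ∀ (ι : Type) [Fintype ι] (e m : ℕ), 1 ≤ e → 1 ≤ m →
  ∀ F : ℕ → (ι → ℂ) → ℂ, ∀ F₀ : (ι → ℂ) → ℂ, (∀ k (t : ℂ) x, F k (t • x) = t ^ (e * m) * F k x) →
  ∀ l : Ultrafilter ℕ, (∀ (x : ℕ → ι → ℂ) (x₀ : ι → ℂ), Tendsto x l (𝓝 x₀) →
    Tendsto (fun k => F k (x k)) l (𝓝 (F₀ x₀))) →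
  ∀ (q : ℕ → ℙ ℂ (Option (Fin m → ι) → ℂ)) (p : ℙ ℂ (Option (Fin m → ι) → ℂ)),
  (∀ k, ∃ (x : ι → ℂ) (y : ℂ) (h : coverVec m x y ≠ 0), y ^ e = F k x ∧
    q k = Projectivization.mk ℂ (coverVec m x y) h) →
  Tendsto (fun k => pm (q k)) l (𝓝 (pm p)) →
  ∃ (x : ι → ℂ) (y : ℂ) (h : coverVec m x y ≠ 0), y ^ e = F₀ x ∧
    p = Projectivization.mk ℂ (coverVec m x y) h

/-- CLOSED, from CLO and `PClosed.of_seq` -/
def S_CLOSED : Prop := ∀ (ι k : Type) [Fintype ι] [CommSemiring k] (σ : k →+* ℂ) (e m : ℕ),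
  1 ≤ e → 1 ≤ m → ∀ F : MvPolynomial ι k, F.IsHomogeneous (e * m) → PClosed (cyclicCover σ e m F)

/-- OPEN, from CLO and `eventually_brodyHyperbolic` -/
def S_OPEN : Prop := ∀ (ι k : Type) [Fintype ι] [Field k] [CharZero k] (σ : k →+* ℂ) (e m : ℕ),
  1 ≤ e → 1 ≤ m → ∀ F₀ E : MvPolynomial ι k, F₀.IsHomogeneous (e * m) →
  E.IsHomogeneous (e * m) → BrodyHyperbolic (cyclicCover σ e m F₀) →
  ∀ᶠ M : ℕ in atTop, BrodyHyperbolic (cyclicCover σ e m (F₀ + C ((M : k)⁻¹) * E))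

/-- SCALE. `(x, y) ↦ (x, σ(c) y)` is a linear isomorphism of the ambient projective space. -/
def S_SCALE : Prop := ∀ (ι k : Type) [Fintype ι] [Field k] (σ : k →+* ℂ) (e m : ℕ)
  (F : MvPolynomial ι k) (c : k), c ≠ 0 → BrodyHyperbolic (cyclicCover σ e m F) →
  BrodyHyperbolic (cyclicCover σ e m (C (c ^ e) * F))

/-- RENAME. -/
def S_REN : Prop := ∀ (ι ι' k : Type) [Fintype ι] [Fintype ι'] [Field k] (f : ι ≃ ι')
  (σ : k →+* ℂ) (e m : ℕ) (F : MvPolynomial ι k), BrodyHyperbolic (cyclicCover σ e m F) →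
  BrodyHyperbolic (cyclicCover σ e m (rename f F))

/-- EQS. The equations: `p_α p_β = p_α' p_β'` if the monomials agree, and `p_none ^ e = F~(p)`,
`F~` of degree `e` in the `p_α` with `F~(products) = F`. Conversely (see the lemmas `ver1_...` in
`Sq/P_VER1.lean`) `c = p_(const i) ≠ 0` for one `i`, `x_j = p_(update (const i) 0 j)`,
`∏ x_(α a) = c ^ (m - 1) p_α`, `y = c ^ (m - 1) p_none`. -/
def S_EQS : Prop := ∀ (n : ℕ) (k : Type) [Field k] (e m : ℕ), 1 ≤ e → 1 ≤ m →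
  ∀ F : MvPolynomial (Fin (n + 1)) k, F.IsHomogeneous (e * m) →
  ∃ S : Set (MvPolynomial (Option (Fin m → Fin (n + 1))) k), Homog S ∧
    ∀ (K : Type) [Field K] (τ : k →+* K), points τ S = cyclicCover τ e m F

/-- EMB, from COV, OPEN, REN as in `exists_smooth_hypersurface`,
`exists_smooth_hypersurface_fin`. -/
def S_EMBCY : Prop := ∀ (k : Type) [Field k] [CharZero k] (n₀ : ℕ)
  (S : Set (MvPolynomial (Fin (n₀ + 1)) k)), Homog S → ∀ T : Set (k →+* ℂ), T.Finite →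
  (∀ σ ∈ T, BrodyHyperbolic (points σ S)) → ∀ e : ℕ, 2 ≤ e → ∀ g : ℕ → ℕ,
  ∃ n₁, ∀ n, n₁ ≤ n → ∃ m, g n < m ∧ ∃ F : MvPolynomial (Fin (n + 1)) k,
    F.IsHomogeneous (e * m) ∧ SmoothHypersurface F ∧
    (∀ σ ∈ T, BrodyHyperbolic (cyclicCover σ e m F)) ∧
    ∃ Ψ : (Fin (n₀ + 1) → k) → (Fin (n + 1) → k),
      (∀ x, x ≠ 0 → Ψ x ≠ 0) ∧
      (∀ x y, x ≠ 0 → y ≠ 0 → (∃ t : k, Ψ x = t • Ψ y) → ∃ s : k, x = s • y) ∧
      (∀ x, (∀ P ∈ S, P.eval₂ (RingHom.id k) x = 0) → F.eval₂ (RingHom.id k) (Ψ x) = 0)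

/-- PRIM. `x ↦ [x]` is two to one on primitive vectors. -/
def S_PRIM : Prop := ∀ (n : ℕ) (Y : Set (ℙ ℚ (Fin (n + 1) → ℚ))), Y.Finite →
  {x : Fin (n + 1) → ℤ | (∀ d : ℤ, (∀ i, d ∣ x i) → IsUnit d) ∧
    ∃ h : (fun i => (x i : ℚ)) ≠ 0, Projectivization.mk ℚ (fun i => (x i : ℚ)) h ∈ Y}.Finite

/-- the final theorem over one field -/
def S_SAMECY : Prop := ∀ (e : ℕ), 2 ≤ e → ∀ (g : ℕ → ℕ) (k : Type) [Field k] [CharZero k]
  (T : Set (k →+* ℂ)), T.Finite → ∀ A : Set ℕ, A.Infinite →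
  List.TFAE [
    ∀ (n : ℕ) (S : Set (MvPolynomial (Fin (n + 1)) k)), (∀ P ∈ S, ∃ m, P.IsHomogeneous m) →
      (∀ σ ∈ T, KobayashiHyperbolic (points σ S)) → (points (RingHom.id k) S).Finite,
    ∀ n ∈ A, ∀ m, g n < m → ∀ F : MvPolynomial (Fin (n + 1)) k, F.IsHomogeneous (e * m) →
      SmoothHypersurface F → (∀ σ ∈ T, KobayashiHyperbolic (cyclicCover σ e m F)) →
      (cyclicCover (RingHom.id k) e m F).Finite,
    ∀ n ∈ A, ∀ m, g n < m → ∀ F : MvPolynomial (Fin (n + 1)) k, F.IsHomogeneous (e * m) →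
      SmoothHypersurface F → (∀ σ ∈ T, KobayashiHyperbolic (cyclicCover σ e m F)) →
      {x : ℙ k (Fin (n + 1) → k) | ∃ y : k, y ^ e = MvPolynomial.eval x.rep F}.Finite]

/-- the final theorem over the integers -/
def S_INTCY : Prop := ∀ (e : ℕ), 2 ≤ e → ∀ (g : ℕ → ℕ) (A : Set ℕ), A.Infinite →
  ((∀ (k : Type) [Field k] [NumberField k] (n : ℕ) (S : Set (MvPolynomial (Fin (n + 1)) k)),
      (∀ P ∈ S, ∃ m, P.IsHomogeneous m) → (∀ σ : k →+* ℂ, KobayashiHyperbolic (points σ S)) →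
      (points (RingHom.id k) S).Finite) ↔
    ∀ n ∈ A, ∀ m, g n < m → ∀ F : MvPolynomial (Fin (n + 1)) ℤ, F.IsHomogeneous (e * m) →
      SmoothHypersurface (MvPolynomial.map (Int.castRingHom ℚ) F) →
      KobayashiHyperbolic (cyclicCover (Int.castRingHom ℂ) e m F) →
      {x : Fin (n + 1) → ℤ | (∀ d : ℤ, (∀ i, d ∣ x i) → IsUnit d) ∧
        ∃ y : ℤ, y ^ e = MvPolynomial.eval x F}.Finite)

end Pool.Agent.Lib.MP_627a61_nt
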