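import Pool.Agent.Lib.MP_627a61_nt.Tower
import Pool.Agent.Lib.MP_627a61_nt.Cy.Stm

/-!
# Piece LEMF (helper27): fourth powers that depend linearly on two unknown functions
-/

open scoped LinearAlgebra.Projectivization Topology
open Filter MvPolynomial

namespace Pool.Agent.Lib.MP_627a61_nt

theorem p_LEMF : S_LEMF := by
  intro ι _ ψ hψ a b i h01 h02 h12 huv
  choose u v huv using huv
  set D01 := a (i 0) * b (i 1) - a (i 1) * b (i 0) with hD01
  set D02 := a (i 0) * b (i 2) - a (i 2) * b (i 0) with hD02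
  set D12 := a (i 1) * b (i 2) - a (i 2) * b (i 1) with hD12
  obtain ⟨α, hα⟩ := IsAlgClosed.exists_pow_nat_eq D12 (n := 4) (by norm_num)
  obtain ⟨β, hβ⟩ := IsAlgClosed.exists_pow_nat_eq (-D02) (n := 4) (by norm_num)
  obtain ⟨γ, hγ⟩ := IsAlgClosed.exists_pow_nat_eq D01 (n := 4) (by norm_num)
  have hα0 : α ≠ 0 := by
    rintro rfl
    rw [zero_pow (by norm_num)] at hα
    exact h12 hα.symm
  have hβ0 : β ≠ 0 := by
    rintro rfl
    rw [zero_pow (by norm_num), eq_comm, neg_eq_zero] at hβ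
    exact h02 hβ
  let H : (ι → ℂ) → (Fin 3 → ℂ) := fun x => ![α * x (i 0), β * x (i 1), γ * x (i 2)]
  have hHan : ∀ x, AnalyticAt ℂ H x := by
    intro x
    rw [analyticAt_pi_iff]
    intro m
    fin_cases m
    · exact analyticAt_const.mul (analyticAt_proj (i 0) x)
    · exact analyticAt_const.mul (analyticAt_proj (i 1) x)
    · exact analyticAt_const.mul (analyticAt_proj (i 2) x)
  have hHhom : ∀ (s : ℂ) x, H (s • x) = s ^ 1 • H x := by
    intro s x
    funext m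
    fin_cases m <;> simp [H] <;> ring
  have hquart : ∀ z, H (ψ z).rep 0 ^ 4 + H (ψ z).rep 1 ^ 4 + H (ψ z).rep 2 ^ 4 = 0 := by
    intro z
    have k0 : H (ψ z).rep 0 ^ 4 = D12 * (u z * a (i 0) + v z * b (i 0)) := by
      change (α * (ψ z).rep (i 0)) ^ 4 = _
      rw [mul_pow, hα, huv]
    have k1 : H (ψ z).rep 1 ^ 4 = -D02 * (u z * a (i 1) + v z * b (i 1)) := by
      change (β * (ψ z).rep (i 1)) ^ 4 = _
      rw [mul_pow, hβ, huv]
    have k2 : H (ψ z).rep 2 ^ 4 = D01 * (u z * a (i 2) + v z * b (i 2)) := by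
      change (γ * (ψ z).rep (i 2)) ^ 4 = _
      rw [mul_pow, hγ, huv]
    rw [k0, k1, k2, hD01, hD02, hD12]
    ring
  have hH0 : ∀ z, H (ψ z).rep ≠ 0 := by
    intro z hz
    have e0 : (ψ z).rep (i 0) = 0 := by
      have : α * (ψ z).rep (i 0) = 0 := congrFun hz 0
      exact (mul_eq_zero.1 this).resolve_left hα0
    have e1 : (ψ z).rep (i 1) = 0 := by
      have : β * (ψ z).rep (i 1) = 0 := congrFun hz 1
      exact (mul_eq_zero.1 this).resolve_left hβ0
    have f0 := huv z (i 0)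
    have f1 := huv z (i 1)
    rw [e0, zero_pow (by norm_num)] at f0
    rw [e1, zero_pow (by norm_num)] at f1
    have g1 : u z * D01 = 0 := by
      rw [hD01]
      linear_combination b (i 0) * f1 - b (i 1) * f0
    have g2 : v z * D01 = 0 := by
      rw [hD01]
      linear_combination a (i 1) * f0 - a (i 0) * f1
    have hu0 := (mul_eq_zero.1 g1).resolve_right h01
    have hv0 := (mul_eq_zero.1 g2).resolve_right h01
    apply (ψ z).rep_nonzero
    funext m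
    have h := huv z m
    rw [hu0, hv0, zero_mul, zero_mul, add_zero] at h
    exact eq_zero_of_pow_eq_zero h
  obtain ⟨θ, hθ, hθ1, hθ2⟩ := exists_division hψ H hHan 1 hHhom (hH0 0)
  have hsm : ∀ (s : ℂ) (x : Fin 3 → ℂ), s ≠ 0 →
      ((s • x) 0 ^ 4 + (s • x) 1 ^ 4 + (s • x) 2 ^ 4 = 0 ↔
        x 0 ^ 4 + x 1 ^ 4 + x 2 ^ 4 = 0) := by
    intro s x hs
    have : (s • x) 0 ^ 4 + (s • x) 1 ^ 4 + (s • x) 2 ^ 4 =
        s ^ 4 * (x 0 ^ 4 + x 1 ^ 4 + x 2 ^ 4) := by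
      simp only [Pi.smul_apply, smul_eq_mul]
      ring
    rw [this]
    simp [hs]
  have hθF : ∀ z, θ z ∈ fermat4 := by
    intro z
    obtain ⟨s, hs, hrep⟩ := exists_rep_eq (hθ1 z (hH0 z))
    show (θ z).rep 0 ^ 4 + (θ z).rep 1 ^ 4 + (θ z).rep 2 ^ 4 = 0
    rw [hrep, hsm s _ hs]
    exact hquart z
  have hθc := brodyHyperbolic_fermat4 θ hθ hθF
  have hHw : ∀ z, ∃ w : ℂ, H (ψ z).rep = w • (θ 0).rep := by
    intro z
    obtain ⟨s, hs, hrep⟩ := exists_rep_eq (hθ1 z (hH0 z))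
    refine ⟨s⁻¹, ?_⟩
    rw [hθc 0 z, hrep, smul_smul, inv_mul_cancel₀ hs, one_smul]
  set E := (θ 0).rep with hE
  refine const_of_pow_prop hψ (d := 4) (by norm_num) (fun m =>
    ((E 0 ^ 4 / D12) * b (i 1) - (E 1 ^ 4 / -D02) * b (i 0)) / D01 * a m +
    ((E 1 ^ 4 / -D02) * a (i 0) - (E 0 ^ 4 / D12) * a (i 1)) / D01 * b m) fun z => ?_
  obtain ⟨w, hw⟩ := hHw z
  refine ⟨w ^ 4, fun m => ?_⟩
  have k0 : (ψ z).rep (i 0) ^ 4 = w ^ 4 * (E 0 ^ 4 / D12) := by
    have h : (α * (ψ z).rep (i 0)) ^ 4 = (w * E 0) ^ 4 :=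
      congrArg (fun y => y ^ 4) (congrFun hw 0)
    rw [mul_pow, hα, mul_pow] at h
    rw [mul_div_assoc', eq_div_iff h12, mul_comm, h]
  have k1 : (ψ z).rep (i 1) ^ 4 = w ^ 4 * (E 1 ^ 4 / -D02) := by
    have h : (β * (ψ z).rep (i 1)) ^ 4 = (w * E 1) ^ 4 :=
      congrArg (fun y => y ^ 4) (congrFun hw 1)
    rw [mul_pow, hβ, mul_pow] at h
    rw [mul_div_assoc', eq_div_iff (neg_ne_zero.2 h02), mul_comm, h]
  have f0 := huv z (i 0)
  have f1 := huv z (i 1)
  rw [k0] at f0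
  rw [k1] at f1
  set p := E 0 ^ 4 / D12 with hp
  set q := E 1 ^ 4 / -D02 with hq
  have g1 : u z = w ^ 4 * ((p * b (i 1) - q * b (i 0)) / D01) := by
    rw [mul_div_assoc', eq_div_iff h01, hD01]
    linear_combination b (i 0) * f1 - b (i 1) * f0
  have g2 : v z = w ^ 4 * ((q * a (i 0) - p * a (i 1)) / D01) := by
    rw [mul_div_assoc', eq_div_iff h01, hD01]
    linear_combination a (i 1) * f0 - a (i 0) * f1
  rw [huv z m, g1, g2]
  ring

end Pool.Agent.Lib.MP_627a61_nt
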