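import Pool.Agent.Lib.MP_627a61_nt.Cy.Stm

/-!
# Piece PEN of CYCLIC COVERS: the members of the pencil are Brody hyperbolic
-/

open scoped LinearAlgebra.Projectivization Topology
open Filter MvPolynomial

namespace Pool.Agent.Lib.MP_627a61_nt

/-! ### Homogeneity -/

lemma wv_smul {L : Type*} [CommRing L] {M : ℕ} (t : L) (x : Fin M → L) :
    wv (t • x) = t ^ 4 • wv x := by
  funext i
  simp only [wv, Pi.smul_apply, smul_eq_mul, mul_pow, Finset.mul_sum]
  refine Finset.sum_congr rfl fun j _ => ?_
  ring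

lemma al_smul {L : Type*} [CommRing L] {M : ℕ} (t : L) (x : Fin (M + 1) → L) :
    al (t • x) = t ^ 16 • al x := by
  funext j
  simp only [al, wv_smul, Pi.smul_apply, smul_eq_mul, mul_pow]
  ring

lemma th_smul {L : Type*} [CommRing L] (N : ℕ) (t : L) (x : Fin (N + 2) → L) :
    th N (t • x) = t ^ (16 ^ N) • th N x := by
  induction N generalizing t with
  | zero => simp [th]
  | succ N ih => rw [th, al_smul, ih, th, ← pow_mul, ← pow_succ']

/-! ### Ring homomorphisms -/

lemma wv_map {L M : Type*} [CommRing L] [CommRing M] (f : L →+* M) {N : ℕ} (x : Fin N → L) :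
    wv (fun i => f (x i)) = fun i => f (wv x i) := by
  funext i
  simp only [wv, map_sum, map_mul, map_pow, map_intCast]

lemma al_map {L M : Type*} [CommRing L] [CommRing M] (f : L →+* M) {N : ℕ}
    (x : Fin (N + 1) → L) : al (fun i => f (x i)) = fun i => f (al x i) := by
  funext i
  simp only [al, wv_map, map_sub, map_pow]

lemma th_map {L M : Type*} [CommRing L] [CommRing M] (f : L →+* M) (N : ℕ)
    (x : Fin (N + 2) → L) : th N (fun i => f (x i)) = fun j => f (th N x j) := by
  induction N with
  | zero => simp [th]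
  | succ N ih =>
    rw [th, th, ← ih, al_map]

/-! ### Analyticity -/

lemma analyticAt_wv {M : ℕ} (x : Fin M → ℂ) :
    AnalyticAt ℂ (wv : (Fin M → ℂ) → Fin M → ℂ) x := by
  rw [analyticAt_pi_iff]
  intro i
  exact Finset.analyticAt_fun_sum _ fun j _ => analyticAt_const.mul ((analyticAt_proj j x).pow 4)

lemma analyticAt_al {M : ℕ} (x : Fin (M + 1) → ℂ) :
    AnalyticAt ℂ (al : (Fin (M + 1) → ℂ) → Fin M → ℂ) x := by
  rw [analyticAt_pi_iff]
  intro j
  have h := analyticAt_pi_iff.1 (analyticAt_wv x)
  exact ((h _).pow 4).sub ((h _).pow 4)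

lemma analyticAt_th (N : ℕ) (x : Fin (N + 2) → ℂ) :
    AnalyticAt ℂ (th N : (Fin (N + 2) → ℂ) → Fin 2 → ℂ) x := by
  induction N with
  | zero => exact analyticAt_id
  | succ N ih => exact (ih (al x)).comp (analyticAt_al x)

lemma continuous_th (N : ℕ) : Continuous (th N : (Fin (N + 2) → ℂ) → Fin 2 → ℂ) :=
  continuous_iff_continuousAt.2 fun x => (analyticAt_th N x).continuousAt

/-! ### Homogeneous polynomials -/

lemma wv_homog {ι k : Type*} [CommRing k] {M r : ℕ} {p : Fin M → MvPolynomial ι k}
    (h : ∀ i, (p i).IsHomogeneous r) (i : Fin M) : (wv p i).IsHomogeneous (r * 4) := by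
  refine IsHomogeneous.sum _ _ _ fun j _ => ?_
  have e : (((vmat M).adjugate i j : ℤ) : MvPolynomial ι k) =
      C (((vmat M).adjugate i j : ℤ) : k) := by simp
  rw [e]
  have := (isHomogeneous_C ι (((vmat M).adjugate i j : ℤ) : k)).mul ((h j).pow 4)
  rwa [zero_add] at this

lemma al_homog {ι k : Type*} [CommRing k] {M r : ℕ} {p : Fin (M + 1) → MvPolynomial ι k}
    (h : ∀ i, (p i).IsHomogeneous r) (i : Fin M) : (al p i).IsHomogeneous (r * 16) := by
  have e : r * 16 = r * 4 * 4 := by ring
  rw [e]
  exact ((wv_homog h _).pow 4).sub ((wv_homog h _).pow 4)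

lemma th_homog {ι k : Type*} [CommRing k] (N : ℕ) {r : ℕ} {p : Fin (N + 2) → MvPolynomial ι k}
    (h : ∀ i, (p i).IsHomogeneous r) (j : Fin 2) : (th N p j).IsHomogeneous (r * 16 ^ N) := by
  induction N generalizing r with
  | zero => simpa [th] using h j
  | succ N ih =>
    have := ih (al_homog h)
    rw [mul_assoc, ← pow_succ'] at this
    exact this

/-! ### The members of the pencil -/

/-- The condition is invariant under scaling. -/
lemma pen_smul {N : ℕ} (c : Fin 2 → ℂ) {t : ℂ} (ht : t ≠ 0) (x : Fin (N + 2) → ℂ) :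
    (c 0 * th N (t • x) 0 + c 1 * th N (t • x) 1 = 0 ↔ c 0 * th N x 0 + c 1 * th N x 1 = 0) := by
  have : c 0 * th N (t • x) 0 + c 1 * th N (t • x) 1 =
      t ^ (16 ^ N) * (c 0 * th N x 0 + c 1 * th N x 1) := by
    rw [th_smul]
    simp only [Pi.smul_apply, smul_eq_mul]
    ring
  rw [this]
  simp [ht]

/-- **Piece PEN.** -/
theorem p_PEN : S_HH → S_PEN := by
  intro hHH N c hc
  induction N with
  | zero =>
    intro φ hφ hφP
    refine const_of_pow_prop hφ one_ne_zero ![c 1, -c 0] fun z => ?_
    have h : c 0 * (φ z).rep 0 + c 1 * (φ z).rep 1 = 0 := hφP z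
    by_cases h0 : c 0 = 0
    · have h1 : c 1 ≠ 0 := by
        intro h1
        apply hc
        funext j
        fin_cases j
        · exact h0
        · exact h1
      have h2 : (φ z).rep 1 = 0 := by
        rw [h0, zero_mul, zero_add, mul_eq_zero] at h
        exact h.resolve_left h1
      refine ⟨(φ z).rep 0 / c 1, fun m => ?_⟩
      fin_cases m
      · simp only [Fin.zero_eta, pow_one, Matrix.cons_val_zero]
        field_simp
      · simp [h0, h2]
    · refine ⟨-(φ z).rep 1 / c 0, fun m => ?_⟩
      fin_cases m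
      · simp only [Fin.zero_eta, pow_one, Matrix.cons_val_zero]
        field_simp
        linear_combination h
      · simp only [Fin.mk_one, pow_one, Matrix.cons_val_one, Matrix.cons_val_fin_one]
        field_simp
  | succ N ih =>
    intro φ hφ hφP
    by_cases hB : ∀ z, al (φ z).rep = 0
    · refine hHH N φ hφ 0 fun z => ⟨0, ?_⟩
      rw [hB z, smul_zero]
    · push Not at hB
      obtain ⟨z₀, hz₀⟩ := hB
      obtain ⟨ψ, hψ, hψ1, hψ2⟩ := exists_division hφ al analyticAt_al 16 al_smul hz₀
      have hψP : ∀ z, ψ z ∈ {x : ℙ ℂ (Fin (N + 2) → ℂ) |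
          c 0 * th N x.rep 0 + c 1 * th N x.rep 1 = 0} := by
        have hne : ∀ z, al (φ z).rep ≠ 0 →
            c 0 * th N (ψ z).rep 0 + c 1 * th N (ψ z).rep 1 = 0 := by
          intro z hz
          obtain ⟨t, ht, hrep⟩ := exists_rep_eq (hψ1 z hz)
          rw [hrep, pen_smul c ht]
          exact hφP z
        intro z
        have hcont : Continuous fun x : Fin (N + 2) → ℂ => c 0 * th N x 0 + c 1 * th N x 1 :=
          (continuous_const.mul ((continuous_apply 0).comp (continuous_th N))).add
            (continuous_const.mul ((continuous_apply 1).comp (continuous_th N)))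
        refine (hψ z).zero_of_punctured _ hcont (fun t x ht => pen_smul c ht x) ?_
        filter_upwards [hψ2 z] with w hw using hne w hw
      have hψc := ih ψ hψ hψP
      refine hHH N φ hφ (ψ 0).rep fun z => ?_
      by_cases hz : al (φ z).rep = 0
      · exact ⟨0, by rw [hz, zero_smul]⟩
      · obtain ⟨t, ht, hrep⟩ := exists_rep_eq (hψ1 z hz)
        refine ⟨t⁻¹, ?_⟩
        rw [hψc 0 z, hrep, smul_smul, inv_mul_cancel₀ ht, one_smul]

end Pool.Agent.Lib.MP_627a61_nt
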