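import Pool.Agent.Lib.MP_627a61_nt.Cy.Stm

/-!
# PRIM: a point has at most two primitive integral coordinate vectors
-/

set_option autoImplicit false

open scoped LinearAlgebra.Projectivization Topology
open Filter MvPolynomial

namespace Pool.Agent.Lib.MP_627a61_nt

private lemma PRIM_pm {ι : Type} (x x' : ι → ℤ) (hx : ∀ d : ℤ, (∀ i, d ∣ x i) → IsUnit d)
    (hx' : ∀ d : ℤ, (∀ i, d ∣ x' i) → IsUnit d) (a : ℚ) (ha : ∀ i, (x' i : ℚ) = a * x i) :
    x' = x ∨ x' = -x := by
  have h1 : ∀ i, (a.den : ℤ) * x' i = a.num * x i := by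
    intro i
    have h2 := ha i
    have h3 : (a.den : ℚ) * a = a.num := by
      rw [mul_comm]; exact Rat.mul_den_eq_num a
    have h4 : ((a.den : ℤ) * x' i : ℚ) = (a.num * x i : ℚ) := by
      rw [h2]
      push_cast
      rw [← mul_assoc, h3]
    exact_mod_cast h4
  have hc : IsCoprime a.num (a.den : ℤ) := by
    rw [Int.isCoprime_iff_nat_coprime]
    simpa using a.reduced
  have h5 : IsUnit (a.den : ℤ) := hx _ fun i =>
    hc.symm.dvd_of_dvd_mul_left ⟨x' i, (h1 i).symm⟩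
  have h6 : IsUnit a.num := hx' _ fun i => hc.dvd_of_dvd_mul_left ⟨x i, h1 i⟩
  have h7 : (a.den : ℤ) = 1 := by
    rcases Int.isUnit_iff.1 h5 with h | h
    · exact h
    · have : (0 : ℤ) ≤ a.den := Int.natCast_nonneg _
      omega
  rcases Int.isUnit_iff.1 h6 with h | h
  · left
    funext i
    have := h1 i
    rw [h7, h] at this
    linarith
  · right
    funext i
    have := h1 i
    rw [h7, h] at this
    rw [Pi.neg_apply]
    linarith

theorem p_PRIM : S_PRIM := by
  intro n Y hY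
  have h1 : ∀ y : ℙ ℚ (Fin (n + 1) → ℚ),
      {x : Fin (n + 1) → ℤ | (∀ d : ℤ, (∀ i, d ∣ x i) → IsUnit d) ∧
        ∃ h : (fun i => (x i : ℚ)) ≠ 0,
          Projectivization.mk ℚ (fun i => (x i : ℚ)) h = y}.Finite := by
    intro y
    by_cases hn : ∃ x₀ : Fin (n + 1) → ℤ, (∀ d : ℤ, (∀ i, d ∣ x₀ i) → IsUnit d) ∧
        ∃ h : (fun i => (x₀ i : ℚ)) ≠ 0, Projectivization.mk ℚ (fun i => (x₀ i : ℚ)) h = y
    · obtain ⟨x₀, h0, hne, hy⟩ := hn
      refine (Set.toFinite {x₀, -x₀}).subset ?_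
      rintro x ⟨h2, hne', hy'⟩
      rw [← hy, Projectivization.mk_eq_mk_iff'] at hy'
      obtain ⟨a, ha⟩ := hy'
      have h3 := PRIM_pm x₀ x h0 h2 a fun i => by
        have := congrFun ha i
        simpa using this.symm
      simpa using h3
    · refine Set.finite_empty.subset ?_
      intro x hx
      exact hn ⟨x, hx⟩
  refine (hY.biUnion fun y _ => h1 y).subset ?_
  rintro x ⟨h2, h3, h4⟩
  exact Set.mem_biUnion h4 ⟨h2, h3, rfl⟩

end Pool.Agent.Lib.MP_627a61_nt
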