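import Pool.Agent.Lib.MP_627a61_nt.Cy.Stm

/-!
# Piece SCALE: linear isomorphisms of the ambient space of a cyclic cover
-/

open scoped LinearAlgebra.Projectivization Topology
open Filter MvPolynomial

namespace Pool.Agent.Lib.MP_627a61_nt

/-- Brody hyperbolicity and injective linear maps -/
theorem scale_brody {V V' : Type*} [Fintype V] [Fintype V'] (A : (V' → ℂ) →ₗ[ℂ] (V → ℂ))
    (hA : ∀ v, A v = 0 → v = 0) {Y : Set (ℙ ℂ (V → ℂ))} {Y' : Set (ℙ ℂ (V' → ℂ))}
    (hY : BrodyHyperbolic Y)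
    (h : ∀ x ∈ Y', ∀ hne : A x.rep ≠ 0, Projectivization.mk ℂ (A x.rep) hne ∈ Y) :
    BrodyHyperbolic Y' := by
  intro φ hφ hφY
  have hne : ∀ z, A (φ z).rep ≠ 0 := fun z h => (φ z).rep_nonzero (hA _ h)
  obtain ⟨ψ, hψ, hψ1, -⟩ := exists_division hφ (fun x => A x)
    (fun x => (LinearMap.toContinuousLinearMap A).analyticAt x) 1
    (by
      intro t x
      rw [pow_one, map_smul]) (hne 0)
  have hψY : ∀ z, ψ z ∈ Y := by
    intro z
    rw [hψ1 z (hne z)]
    exact h _ (hφY z) _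
  have hψc := hY ψ hψ hψY
  intro z w
  have h1 := hψc z w
  rw [hψ1 z (hne z), hψ1 w (hne w), Projectivization.mk_eq_mk_iff'] at h1
  obtain ⟨t, ht⟩ := h1
  rw [← (φ z).mk_rep, ← (φ w).mk_rep, Projectivization.mk_eq_mk_iff']
  refine ⟨t, sub_eq_zero.1 (hA _ ?_)⟩
  rw [map_sub, map_smul, sub_eq_zero]
  exact ht

/-- the image of a point under a linear map -/
theorem scale_mk {V V' : Type*} (A : (V' → ℂ) →ₗ[ℂ] (V → ℂ))
    {v : V' → ℂ} (hv : v ≠ 0) {w : V → ℂ} (hw : w ≠ 0) (h : A v = w)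
    (hne : A (Projectivization.mk ℂ v hv).rep ≠ 0) :
    Projectivization.mk ℂ (A (Projectivization.mk ℂ v hv).rep) hne = Projectivization.mk ℂ w hw := by
  obtain ⟨t, ht, hrep⟩ := exists_rep_eq (p := Projectivization.mk ℂ v hv) (v := v) (hv := hv) rfl
  rw [Projectivization.mk_eq_mk_iff']
  exact ⟨t, by rw [hrep, map_smul, h]⟩

/-- multiplication of the coordinate `y` by a number -/
noncomputable def scaleMap {ι : Type*} (m : ℕ) (d : ℂ) :
    (Option (Fin m → ι) → ℂ) →ₗ[ℂ] (Option (Fin m → ι) → ℂ) where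
  toFun v o := match o with
    | none => d * v none
    | some α => v (some α)
  map_add' u v := by
    funext o
    cases o
    · simp only [Pi.add_apply]
      ring
    · rfl
  map_smul' t v := by
    funext o
    cases o
    · simp only [Pi.smul_apply, smul_eq_mul, RingHom.id_apply]
      ring
    · rfl

theorem scaleMap_cover {ι : Type*} (m : ℕ) (d : ℂ) (x : ι → ℂ) (y : ℂ) :
    scaleMap m d (coverVec m x y) = coverVec m x (d * y) := by
  funext o
  cases o <;> rfl

theorem scaleMap_inj {ι : Type*} (m : ℕ) {d : ℂ} (hd : d ≠ 0) (v : Option (Fin m → ι) → ℂ)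
    (h : scaleMap m d v = 0) : v = 0 := by
  funext o
  have h1 := congrFun h o
  cases o
  · exact (mul_eq_zero.1 h1).resolve_left hd
  · exact h1

theorem p_SCALE : S_SCALE := by
  intro ι k _ _ σ e m F c hc hF
  classical
  have hσ : σ c ≠ 0 := by
    rw [Ne, map_eq_zero]
    exact hc
  refine scale_brody (scaleMap m (σ c)⁻¹) (scaleMap_inj m (inv_ne_zero hσ)) hF ?_
  rintro _ ⟨x, y, h, hy, rfl⟩ hne
  have h2 : coverVec m x ((σ c)⁻¹ * y) ≠ 0 := by
    rw [← scaleMap_cover]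
    exact fun h0 => h (scaleMap_inj m (inv_ne_zero hσ) _ h0)
  refine ⟨x, (σ c)⁻¹ * y, h2, ?_, scale_mk _ h h2 (scaleMap_cover m _ x y) hne⟩
  rw [mul_pow, hy, eval₂_mul, eval₂_C, map_pow, inv_pow, inv_mul_cancel_left₀ (pow_ne_zero e hσ)]

/-- renaming of the coordinates of the ambient space of a cover -/
noncomputable def renMap {ι ι' : Type*} (m : ℕ) (f : ι ≃ ι') :
    (Option (Fin m → ι') → ℂ) →ₗ[ℂ] (Option (Fin m → ι) → ℂ) where
  toFun v o := v (o.map fun α => f ∘ α)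
  map_add' _ _ := rfl
  map_smul' _ _ := rfl

theorem renMap_cover {ι ι' : Type*} (m : ℕ) (f : ι ≃ ι') (x : ι' → ℂ) (y : ℂ) :
    renMap m f (coverVec m x y) = coverVec m (x ∘ f) y := by
  funext o
  cases o <;> rfl

theorem renMap_inj {ι ι' : Type*} (m : ℕ) (f : ι ≃ ι') (v : Option (Fin m → ι') → ℂ)
    (h : renMap m f v = 0) : v = 0 := by
  funext o
  have h1 := congrFun h (o.map fun α => f.symm ∘ α)
  cases o
  · exact h1
  · rename_i α
    have h2 : v (some (f ∘ (f.symm ∘ α))) = 0 := h1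
    rw [← Function.comp_assoc, Equiv.self_comp_symm, Function.id_comp] at h2
    exact h2

theorem p_REN : S_REN := by
  intro ι ι' k _ _ _ f σ e m F hF
  classical
  refine scale_brody (renMap m f) (renMap_inj m f) hF ?_
  rintro _ ⟨x, y, h, hy, rfl⟩ hne
  have h2 : coverVec m (x ∘ f) y ≠ 0 := by
    rw [← renMap_cover]
    exact fun h0 => h (renMap_inj m f _ h0)
  refine ⟨x ∘ f, y, h2, ?_, scale_mk _ h h2 (renMap_cover m f x y) hne⟩
  rw [hy, eval₂_rename]

end Pool.Agent.Lib.MP_627a61_nt
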