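import Pool.Agent.Lib.MP_627a61_nt.Cy.P_VAND
import Pool.Agent.Lib.MP_627a61_nt.Cy.P_LEMF
import Pool.Agent.Lib.MP_627a61_nt.Cy.P_HH
import Pool.Agent.Lib.MP_627a61_nt.Cy.P_PEN
import Pool.Agent.Lib.MP_627a61_nt.Cy.P_CE
import Pool.Agent.Lib.MP_627a61_nt.Cy.P_COV
import Pool.Agent.Lib.MP_627a61_nt.Cy.P_CLO
import Pool.Agent.Lib.MP_627a61_nt.Cy.P_SCALE
import Pool.Agent.Lib.MP_627a61_nt.Cy.P_EQS
import Pool.Agent.Lib.MP_627a61_nt.Cy.P_EMB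
import Pool.Agent.Lib.MP_627a61_nt.Cy.P_PRIM
import Pool.Agent.Lib.MP_627a61_nt.Cy.Final

/-!
# Assembly of CYCLIC COVERS
-/

open scoped LinearAlgebra.Projectivization Topology
open Filter MvPolynomial

namespace Pool.Agent.Lib.MP_627a61_nt

theorem cyclic_pen : S_PEN := p_PEN (p_HH p_VAND p_LEMF)

theorem cyclic_emb : S_EMBCY := p_EMBCY p_COV p_CE cyclic_pen (p_OPEN p_CLO) p_REN

theorem cyclic_same : S_SAMECY := p_SAMECY cyclic_emb p_EQS (p_CLOSED p_CLO)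

theorem cyclic_int : S_INTCY := p_INTCY cyclic_same p_SCALE p_PRIM (p_CLOSED p_CLO)

end Pool.Agent.Lib.MP_627a61_nt
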