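import Pool.Agent.Lib.MP_627a61_nt.Reduction
import Pool.Agent.Lib.MP_627a61_nt.CyclicDefs

/-!
# Auxiliary definitions for the reduction to cyclic covers: a pencil of forms with hyperbolic
members
-/

open scoped LinearAlgebra.Projectivization Topology
open Filter MvPolynomial

namespace Pool.Agent.Lib.MP_627a61_nt

/-- Vandermonde matrix of the nodes `9 ^ (m + 1)` -/
def vmat (M : ℕ) : Matrix (Fin M) (Fin M) ℤ :=
  Matrix.of fun m l => (9 ^ ((m : ℕ) + 1)) ^ (l : ℕ)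

/-- the linear map with matrix `adj (vmat M)` of the fourth powers -/
def wv {L : Type*} [CommRing L] {M : ℕ} (x : Fin M → L) : Fin M → L := fun i =>
  ∑ j, ((vmat M).adjugate i j : L) * x j ^ 4

/-- the differences of the fourth powers of `wv x` -/
def al {L : Type*} [CommRing L] {M : ℕ} (x : Fin (M + 1) → L) : Fin M → L := fun j =>
  wv x j.castSucc ^ 4 - wv x j.succ ^ 4

/-- the pencil of forms of degree `16 ^ N` in `N + 2` variables -/
def th {L : Type*} [CommRing L] : (N : ℕ) → (Fin (N + 2) → L) → Fin 2 → L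
  | 0, x => x
  | N + 1, x => th N (al x)

/-- the curve `y ^ e = a ^ (4 e) + b ^ (4 e)` in projective space with the coordinates
`(a ^ 4, a ^ 3 b, a b ^ 3, b ^ 4, y)` -/
def ceCurve (e : ℕ) : Set (ℙ ℂ (Fin 5 → ℂ)) :=
  {p | p.rep 0 * p.rep 3 = p.rep 1 * p.rep 2 ∧ p.rep 1 ^ 3 = p.rep 0 ^ 2 * p.rep 2 ∧
    p.rep 2 ^ 3 = p.rep 3 ^ 2 * p.rep 1 ∧ p.rep 4 ^ e = p.rep 0 ^ e + p.rep 3 ^ e}

/-- the form `A ^ (4 e) + B ^ (4 e)` for the pencil `(A, B) = th N` at the polynomials `gfam` -/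
noncomputable def cyF {ι κ k : Type*} [Field k] (e : ℕ) (P : κ → MvPolynomial ι k) (δ : κ → ℕ)
    (r : ℕ) {N : ℕ} (eqv : Fin (N + 2) → κ × ι × ι) : MvPolynomial ι k :=
  th N (fun i => gfam P δ r (eqv i)) 0 ^ (4 * e) + th N (fun i => gfam P δ r (eqv i)) 1 ^ (4 * e)

end Pool.Agent.Lib.MP_627a61_nt
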