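import Pool.Agent.Lib.MP_627a61_nt.Cy.Stm
import Pool.Agent.Lib.MP_627a61_nt.CyclicDimDefs
import Pool.Agent.Lib.MP_627a61_nt.Hy.TStm

/-!
# Dimension-explicit cyclic covers: definitions and statements of the pieces
(the pieces are theorems with these statements, in their own files)
-/

open scoped LinearAlgebra.Projectivization Topology
open Filter MvPolynomial

namespace Pool.Agent.Lib.MP_627a61_nt

/-- The restriction of the form `Q` to the coordinate subspace `A` is smooth: no nonzero vector of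
the subspace is a zero of all partial derivatives in the directions of `A`. -/
def SmoothOn {V k : Type} [Field k] (Q : MvPolynomial V k) (A : Set V) : Prop :=
  ∀ x : V → AlgebraicClosure k, (∀ v, v ∉ A → x v = 0) →
    (∀ v ∈ A, aeval x (pderiv v Q) = 0) → x = 0

/-- The restriction of `Q` to the coordinate line `z₀, z₁` is not zero and has no multiple
zero. -/
def SmoothLine {ι k : Type} [Field k] (Q : MvPolynomial ι k) (z₀ z₁ : ι) : Prop :=
  ∀ x : ι → AlgebraicClosure k, x ≠ 0 → (∀ v, v ≠ z₀ → v ≠ z₁ → x v = 0) → aeval x Q = 0 →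
    aeval x (pderiv z₀ Q) ≠ 0 ∨ aeval x (pderiv z₁ Q) ≠ 0

open Classical in
/-- extension by zero -/
noncomputable def extZ {V K : Type} [Field K] (A : Set V) (x : A → K) : V → K :=
  fun v => if h : v ∈ A then x ⟨v, h⟩ else 0

open Classical in
/-- restriction of polynomials to the coordinate subspace `A` -/
noncomputable def resP {V k : Type} [Field k] (A : Set V) :
    MvPolynomial V k →ₐ[k] MvPolynomial A (AlgebraicClosure k) :=
  aeval fun v => if h : v ∈ A then X ⟨v, h⟩ else 0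

/-- linear substitution -/
noncomputable def subM {ι κ k : Type} [Fintype κ] [Field k] (A : Matrix ι κ k) :
    MvPolynomial ι k →ₐ[k] MvPolynomial κ k :=
  aeval fun i => ∑ j, C (A i j) * X j

/-- RES. Restriction to coordinate subspaces; everything follows from `aeval` and induction on
polynomials (the third: `pderiv` is a derivation). -/
def S_RES : Prop := ∀ (V k : Type) [Field k] (A : Set V) (Q : MvPolynomial V k),
  (∀ t, Q.IsHomogeneous t → (resP A Q).IsHomogeneous t) ∧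
  (∀ x : A → AlgebraicClosure k, MvPolynomial.eval x (resP A Q) = aeval (extZ A x) Q) ∧
  (∀ a : A, pderiv a (resP A Q) = resP A (pderiv a.1 Q)) ∧
  (SmoothOn Q A ↔ ∀ x : A → AlgebraicClosure k,
    (∀ a, MvPolynomial.eval x (pderiv a (resP A Q)) = 0) → x = 0)

/-- STEP. `finite_singular_pencil` for `resP A' P`, `resP A' Q`: for all but finitely many `M`,
every `x` of the subspace `A'` with `∂_v (M P + Q) (x) = 0`, `v ∈ A'`, has `P(x) = 0`. If
`∂_v Q = 0` then `∂_v P (x) = 0` (`M ≠ 0`), so the hypothesis gives that `x` is in the subspace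
`A` and `∂_v P (x) = 0` for all `v ∈ A'`, hence `∂_v Q (x) = 0` for all `v ∈ A`. -/
def S_STEP : Prop := ∀ (V k : Type) [Fintype V] [Field k] [CharZero k] (t : ℕ), t ≠ 0 →
  ∀ Q P : MvPolynomial V k, Q.IsHomogeneous t → P.IsHomogeneous t → ∀ A A' : Set V, A ⊆ A' →
  SmoothOn Q A →
  (∀ x : V → AlgebraicClosure k, (∀ v, v ∉ A' → x v = 0) → aeval x P = 0 →
    (∀ v ∈ A', pderiv v Q = 0 → aeval x (pderiv v P) = 0) →
    (∀ v, v ∉ A → x v = 0) ∧ ∀ v ∈ A', aeval x (pderiv v P) = 0) →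
  ∀ᶠ M : ℕ in atTop, SmoothOn (C (M : k) * P + Q) A'

/-- PERT. `finite_singular` (Smooth.lean, with `k` and `K` the algebraic closure) for
`resP A F`, `resP A E`. Its hypothesis (all monomials of some degree `R` are combinations of the
partial derivatives of `resP A E` with homogeneous coefficients of degree `R - (t - 1)`): the
partial derivatives have no common zero except `0`, so by the Nullstellensatz
(`MvPolynomial.vanishingIdeal_zeroLocus_eq_radical`) a power of every variable is in the ideal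
they generate, so are all monomials of large degree; take homogeneous components. -/
def S_PERT : Prop := ∀ (V k : Type) [Fintype V] [Field k] [CharZero k] (t : ℕ), 2 ≤ t →
  ∀ F E : MvPolynomial V k, F.IsHomogeneous t → E.IsHomogeneous t → ∀ A : Set V, SmoothOn E A →
  ∀ᶠ M : ℕ in atTop, SmoothOn (C (M : k) * F + E) A

/-- SMO, from STEP. `t = e m`. First `M X_(i₀) ^ t + Q` with `M = N ^ e`, `N` large (STEP with
`A' = A ∪ {i₀}`). Then by induction on `j < r` add `M_j P_j`, with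
`P_j = X_(b_j) ^ t + X_(b_j) * X_(a_j) ^ (t - 1)` (without the second term if `a_j` is `none`),
`A' = A ∪ {a_j, b_j}`: the polynomial `Q` of STEP (the sum so far) does not contain `X_(b_j)`, so
`t b ^ (t - 1) + a ^ (t - 1) = 0`, with `P_j = 0` this gives `(t - 1) b ^ t = 0`, `b = 0`, `a = 0`. -/
def S_SMO : Prop := ∀ (V k : Type) [Fintype V] [Field k] [CharZero k] (e m : ℕ), 1 ≤ e →
  2 ≤ e * m → ∀ Q : MvPolynomial V k, Q.IsHomogeneous (e * m) → ∀ A : Set V, SmoothOn Q A →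
  ∀ i₀ : V, ∀ (r : ℕ) (a : Fin r → Option V) (b : Fin r → V), Function.Injective b →
  (∀ j, b j ≠ i₀) → (∀ i j, a i ≠ some (b j)) → (∀ j, pderiv (b j) Q = 0) →
  ∃ (N : ℕ) (E : MvPolynomial V k), 1 ≤ N ∧ E.IsHomogeneous (e * m) ∧
    SmoothOn E (A ∪ {v | v = i₀ ∨ (∃ j, a j = some v) ∨ ∃ j, b j = v}) ∧
    ∀ x : V → k, (∀ j, x (b j) = 0) →
      MvPolynomial.eval x E = MvPolynomial.eval x Q + (N * x i₀ ^ m) ^ e

/-- BINV. `V = 1` if `r = 0`, otherwise `V = X_(z₀) ^ r + c X_(z₁) ^ r`, where `c` is a natural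
number, `c ≠ 0`, such that `G` and `V` have no common zero on the line (`G` has only finitely many
zeros `[x_(z₀) : x_(z₁)]` there, each of them is on `V = 0` for at most one `c`). At a point of
the line where both derivatives of `G V` are zero, `G V = 0` by Euler's formula; if `G = 0` and
`V ≠ 0` then `∂(G V) = V ∂G`, if `V = 0` and `G ≠ 0` then `∂(G V) = G ∂V`. -/
def S_BINV : Prop := ∀ (ι k : Type) [Fintype ι] [Field k] [CharZero k] (z₀ z₁ : ι), z₀ ≠ z₁ →
  ∀ (G : MvPolynomial ι k) (δ : ℕ), G.IsHomogeneous δ → SmoothLine G z₀ z₁ → ∀ r : ℕ,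
  1 ≤ δ + r → ∃ V : MvPolynomial ι k, V.IsHomogeneous r ∧ SmoothOn (G * V) {z₀, z₁}

/-- RADH. `R = UniqueFactorizationMonoid.radical G` (or the product of the different irreducible
factors); `R ∣ G ∣ R ^ n`, and divisors of a nonzero homogeneous polynomial are homogeneous. -/
def S_RADH : Prop := ∀ (n : ℕ) (k : Type) [Field k] (G : MvPolynomial (Fin n) k) (δ : ℕ),
  G ≠ 0 → G.IsHomogeneous δ →
  ∃ (δ' : ℕ) (R : MvPolynomial (Fin n) k), R.IsHomogeneous δ' ∧ Squarefree R ∧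
    ∀ (L : Type) [Field L] (τ : k →+* L) (x : Fin n → L), R.eval₂ τ x = 0 ↔ G.eval₂ τ x = 0

/-- SEPL. A squarefree form has no multiple zeros on some line: choose `v` with `R(v) ≠ 0`.
`P(T) = R(T v + x)` is squarefree in `k[x][T]` (image of `R` under an automorphism of `k[x][T]`),
with leading coefficient `R(v)`, so it is squarefree over the fraction field of `k[x]` (Gauss),
hence separable, and `a P + b P' = r(x) ≠ 0` with `a, b` in `k[x][T]`. Choose `c` with
`r(c) ≠ 0`, not a multiple of `v`; the first two columns of `A` are `v, c`. -/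
def S_SEPL : Prop := ∀ (N : ℕ) (k : Type) [Field k] [CharZero k]
  (R : MvPolynomial (Fin (N + 2)) k) (δ : ℕ), R.IsHomogeneous δ → Squarefree R →
  ∃ A B : Matrix (Fin (N + 2)) (Fin (N + 2)) k, A * B = 1 ∧ B * A = 1 ∧
    SmoothLine (subM A R) 0 1

/-- LINH. Linear changes of coordinates (`exists_division` for the hyperbolicity, see
`cyf_brody_rename` in Cy/Final.lean; `finite_transfer` for the points). -/
def S_LINH : Prop := ∀ (ι k : Type) [Fintype ι] [DecidableEq ι] [Field k] (A B : Matrix ι ι k),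
  A * B = 1 → B * A = 1 → ∀ (G : MvPolynomial ι k) (δ : ℕ), G.IsHomogeneous δ →
  (subM A G).IsHomogeneous δ ∧
  (∀ σ : k →+* ℂ, BrodyHyperbolic (points σ {G}) → BrodyHyperbolic (points σ {subM A G})) ∧
  ((points (RingHom.id k) {subM A G}).Finite → (points (RingHom.id k) {G}).Finite)

/-- KD3. A variety missing a linear subspace of codimension `r` has dimension less than `r`. By
the Nullstellensatz (or a point of `Spec` over `span (S ∪ l)` which is not the irrelevant ideal)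
the `l_j` have no common zero on the cone over any extension field, so by `Hy.S_FIN` (proved:
`Hy.p_FIN Hy.p_RAD`; `e = 1`) all `X_α` are integral over `k[l_1, ..., l_r]` modulo `span S`:
`k[X] / (S)` is integral over the image of `k[T_1, ..., T_r]`, so the Krull dimension is at most
that of `k[T_1, ..., T_r]`, which is `r` (incomparability: `Ideal.comap` is strictly monotone on
primes for integral extensions, `Order.krullDim_le_of_strictMono`). -/
def S_KD3 : Prop := ∀ (ι k : Type) [Fintype ι] [Field k] (S : Set (MvPolynomial ι k)),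
  (∀ P ∈ S, ∃ a, P.IsHomogeneous a) → ∀ (r : ℕ) (l : Fin r → MvPolynomial ι k),
  (∀ j, (l j).IsHomogeneous 1) →
  (∀ x : ι → AlgebraicClosure k, (∀ P ∈ S, aeval x P = 0) → (∀ j, aeval x (l j) = 0) → x = 0) →
  ringKrullDim (MvPolynomial ι k ⧸ Ideal.span S) ≤ ((r : ℕ) : WithBot ℕ∞)

/-- KDREN. Renaming variables (`Ideal.quotientEquiv`, `ringKrullDim_eq_of_ringEquiv`). -/
def S_KDREN : Prop := ∀ (ι κ k : Type) [Field k] (e : ι ≃ κ),
  (∀ S : Set (MvPolynomial ι k), ringKrullDim (MvPolynomial κ k ⧸ Ideal.span (rename e '' S)) =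
    ringKrullDim (MvPolynomial ι k ⧸ Ideal.span S)) ∧
  ∀ (F : MvPolynomial ι k) (s : ℕ), SingDimLT F s → SingDimLT (rename e F) s

/-- WD. Weil restriction with dimension: the proof of `exists_weil_model` (Weil.lean) with one
more conclusion. For `x ∈ k ^ ι` and `s = 0, ..., D d`, `D = [k:ℚ]`, let
`n_s(x) = norm (∑_j l_j(x) s ^ j) ∈ ℚ` (over `ℂ`: the product over `σ` of the
`∑_j σ(l_j(x)) s ^ j`); by `norm_linear` it is a linear combination of the `chr j x`, so
`n_s(x) = λ_s(Ψ x)` with a linear form `λ_s = C_s ∘ L` over `ℂ`; as `n_s(x)` and `Ψ x` are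
rational, there is a linear form `l'_s` over `ℚ` with `l'_s(Ψ x) = n_s(x)` for all `x` (restrict
`λ_s` to the `ℚ`-span of the `Ψ x` and extend), and by `hdesc` (degree one) `l'_s(p) = λ_s(p)` for
the points `p` of `S'` over `ℂ`. `L p` is a nonzero multiple of `j ↦ ∏_σ x_σ(j_σ)` with nonzero
`x_σ` on `Z_σ` (`SegreCond`, see Segre.lean); if all `l'_s(p) = 0`, the product over `σ` of the
nonzero polynomials `∑_j σ(l_j)(x_σ) T ^ j`, of degree at most `D d`, vanishes at
`T = 0, ..., D d`, so it is zero: contradiction. -/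
def S_WD : Prop := ∀ (ι k : Type) [Fintype ι] [Field k] [NumberField k]
  (S : Set (MvPolynomial ι k)), Homog S →
  (∀ σ : k →+* ℂ, BrodyHyperbolic (points σ S)) → ∀ (d : ℕ) (l : Fin (d + 1) → ι → k),
  (∀ (σ : k →+* ℂ) (x : ι → ℂ), (∀ P ∈ S, P.eval₂ σ x = 0) →
    (∀ j, ∑ i, σ (l j i) * x i = 0) → x = 0) →
  ∃ (r : ℕ) (S' : Set (MvPolynomial (Fin r) ℚ)) (Ψ : (ι → k) → (Fin r → ℚ)),
    Homog S' ∧ BrodyHyperbolic (points (algebraMap ℚ ℂ) S') ∧
    (∀ x, x ≠ 0 → Ψ x ≠ 0) ∧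
    (∀ x y, x ≠ 0 → y ≠ 0 → (∃ t : ℚ, Ψ x = t • Ψ y) → ∃ s : k, x = s • y) ∧
    (∀ x, (∀ F ∈ S, F.eval₂ (RingHom.id k) x = 0) →
      ∀ Q ∈ S', Q.eval₂ (RingHom.id ℚ) (Ψ x) = 0) ∧
    ∃ l' : Fin (Module.finrank ℚ k * d + 1) → Fin r → ℚ, ∀ x : Fin r → ℂ,
      (∀ Q ∈ S', Q.eval₂ (algebraMap ℚ ℂ) x = 0) →
      (∀ j, ∑ i, ((l' j i : ℚ) : ℂ) * x i = 0) → x = 0

/-- EMBA, from COV (`cyclicCover` of `cyF` is hyperbolic), OPEN, PERT, SMO, BINV; compare
`emb_sum` in Cy/P_EMB.lean. `F₀ = cyF e (extP κ P) ..` for `P = G`, `r` large, so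
`e m = e (4 (r 16 ^ N))`; `Q` = the product of `G` and `V` of BINV (renamed by `Sum.inl`); SMO
with `b` an enumeration of the variables `κ` and `a_j` an enumeration of the variables of `ι`
different from `z₀, z₁, i₀` as long as there are any, then `none`; `F = F₀ + N₁ ^ (-e) E` with
`N₁` large (OPEN and PERT hold for all large `M`, take `M = N₁ ^ e`). On `G(x) = 0`, `y = 0`:
`F₀ = 0`, `F = (N x_(i₀) ^ m / N₁) ^ e`. -/
def S_EMBA : Prop := ∀ (ι κ k : Type) [Fintype ι] [Fintype κ] [Field k] [CharZero k]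
  (z₀ z₁ : ι), z₀ ≠ z₁ → ∀ (G : MvPolynomial ι k) (δ : ℕ), G.IsHomogeneous δ →
  SmoothLine G z₀ z₁ → ∀ T : Set (k →+* ℂ), T.Finite →
  (∀ σ ∈ T, BrodyHyperbolic (points σ {G})) → ∀ e : ℕ, 2 ≤ e → ∀ g s : ℕ,
  Fintype.card ι ≤ Fintype.card κ + s + 3 → ∀ i₀ : ι, i₀ ≠ z₀ → i₀ ≠ z₁ →
  ∃ m, g < m ∧ ∃ F : MvPolynomial (ι ⊕ κ) k, F.IsHomogeneous (e * m) ∧
    (∃ A : Set (ι ⊕ κ), SmoothOn F A ∧ Aᶜ.ncard ≤ s) ∧
    (∀ σ ∈ T, BrodyHyperbolic (cyclicCover σ e m F)) ∧
    ∀ x : ι → k, MvPolynomial.eval x G = 0 →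
      ∃ y : k, y ^ e = MvPolynomial.eval (Sum.elim x 0) F ∧ (x i₀ ≠ 0 → y ≠ 0)

/-- EMBN, from EMBA with `κ = Fin (n + 1 - card ι)`, KD3 for the partial derivatives and the
variables outside of `A`, REN, KDREN. -/
def S_EMBN : Prop := ∀ (ι k : Type) [Fintype ι] [Field k] [CharZero k]
  (z₀ z₁ : ι), z₀ ≠ z₁ → ∀ (G : MvPolynomial ι k) (δ : ℕ), G.IsHomogeneous δ →
  SmoothLine G z₀ z₁ → ∀ T : Set (k →+* ℂ), T.Finite →
  (∀ σ ∈ T, BrodyHyperbolic (points σ {G})) → ∀ e : ℕ, 2 ≤ e → ∀ g n s : ℕ,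
  Fintype.card ι ≤ n + 1 → 2 * Fintype.card ι ≤ n + s + 4 → ∀ i₀ : ι, i₀ ≠ z₀ → i₀ ≠ z₁ →
  ∃ m, g < m ∧ ∃ F : MvPolynomial (Fin (n + 1)) k, F.IsHomogeneous (e * m) ∧ SingDimLT F s ∧
    (∀ σ ∈ T, BrodyHyperbolic (cyclicCover σ e m F)) ∧
    ∃ Ψ : (ι → k) → (Fin (n + 1) → k), (∀ x, x ≠ 0 → Ψ x ≠ 0) ∧
      (∀ x y, x ≠ 0 → y ≠ 0 → (∃ t : k, Ψ x = t • Ψ y) → ∃ t : k, x = t • y) ∧
      ∀ x, MvPolynomial.eval x G = 0 →
        ∃ y : k, y ^ e = MvPolynomial.eval (Ψ x) F ∧ (x i₀ ≠ 0 → y ≠ 0)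

/-- FINL. The restriction of `G` to the line spanned by the first two coordinates is not zero, so
it has finitely many zeros; all other points are in one of the finite sets. -/
def S_FINL : Prop := ∀ (N : ℕ) (k : Type) [Field k] (G : MvPolynomial (Fin (N + 2)) k) (δ : ℕ),
  G.IsHomogeneous δ → SmoothLine G 0 1 →
  (∀ i : Fin (N + 2), i ≠ 0 → i ≠ 1 →
    {p ∈ points (RingHom.id k) {G} | p.rep i ≠ 0}.Finite) →
  (points (RingHom.id k) {G}).Finite

/-- INTN. From integral to rational forms, as in `p_INTCY` (Cy/Final.lean): `c ^ e F` is integral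
for some integer `c ≠ 0`, the ideal of its partial derivatives is the same, SCALE. -/
def S_INTN : Prop := ∀ e : ℕ, 2 ≤ e → ∀ g n s : ℕ,
  (∀ m, g < m → ∀ F : MvPolynomial (Fin (n + 1)) ℤ, F.IsHomogeneous (e * m) →
    SingDimLT (MvPolynomial.map (Int.castRingHom ℚ) F) s →
    KobayashiHyperbolic (cyclicCover (Int.castRingHom ℂ) e m F) →
    {x : Fin (n + 1) → ℤ | (∀ a : ℤ, (∀ i, a ∣ x i) → IsUnit a) ∧
      ∃ y : ℤ, y ≠ 0 ∧ y ^ e = MvPolynomial.eval x F}.Finite) →
  ∀ m, g < m → ∀ F : MvPolynomial (Fin (n + 1)) ℚ, F.IsHomogeneous (e * m) → SingDimLT F s →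
    BrodyHyperbolic (cyclicCover (algebraMap ℚ ℂ) e m F) →
    {x : ℙ ℚ (Fin (n + 1) → ℚ) | ∃ y : ℚ, y ≠ 0 ∧ y ^ e = MvPolynomial.eval x.rep F}.Finite

/-- ONE: the first part of the theorem. EQS gives equations of the cover over `ℚ`; KD3 with the
`n + 1` forms `X_(some (const i))` (if `x_i ^ m = 0` for all `i` then `x = 0`, `y ^ e = F(0) = 0`);
rename the variables (KDREN, `cyf_of_fin`), then as in `p_SAMECY` and the first half of `p_INTCY`
(Cy/Final.lean). -/
def S_ONE : Prop := ∀ e n : ℕ, 1 ≤ e → FiniteInDim ℚ n →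
  ∀ m, 1 ≤ m → ∀ F : MvPolynomial (Fin (n + 1)) ℤ, F.IsHomogeneous (e * m) →
    KobayashiHyperbolic (cyclicCover (Int.castRingHom ℂ) e m F) →
    {x : Fin (n + 1) → ℤ | (∀ a : ℤ, (∀ i, a ∣ x i) → IsUnit a) ∧
      ∃ y : ℤ, y ^ e = MvPolynomial.eval x F}.Finite

/-- TWO: the second part of the theorem, from `Hy.kd1`, WD, KD3, `Hy.top_geo` (S_GEO), RADH, SEPL,
LINH, FINL, EMBN, INTN. -/
def S_TWO : Prop := ∀ e : ℕ, 2 ≤ e → ∀ (g n : ℕ) (k : Type) [Field k] [NumberField k]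
  (d s : ℕ), Module.finrank ℚ k * d < n → 2 * (Module.finrank ℚ k * d) ≤ n + s →
  (∀ m, g < m → ∀ F : MvPolynomial (Fin (n + 1)) ℤ, F.IsHomogeneous (e * m) →
    SingDimLT (MvPolynomial.map (Int.castRingHom ℚ) F) s →
    KobayashiHyperbolic (cyclicCover (Int.castRingHom ℂ) e m F) →
    {x : Fin (n + 1) → ℤ | (∀ a : ℤ, (∀ i, a ∣ x i) → IsUnit a) ∧
      ∃ y : ℤ, y ≠ 0 ∧ y ^ e = MvPolynomial.eval x F}.Finite) →
  FiniteInDim k d

end Pool.Agent.Lib.MP_627a61_nt
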