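import Pool.Agent.Lib.MP_627a61_nt.Cy.NStm
import Mathlib.RingTheory.MvPolynomial.EulerIdentity

/-!
# Piece BINV of the dimension-explicit cyclic covers
-/

open MvPolynomial

namespace Pool.Agent.Lib.MP_627a61_nt

private lemma BINV_scale {ι k K : Type} [Field k] [Field K] [Algebra k K]
    {F : MvPolynomial ι k} {n : ℕ} (h : F.IsHomogeneous n) (s : K) (x : ι → K) :
    aeval (fun i => s * x i) F = s ^ n * aeval x F := by
  rw [aeval_def, aeval_def, eval₂_eq, eval₂_eq, Finset.mul_sum]
  apply Finset.sum_congr rfl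
  intro d hd
  have h1 := h (mem_support_iff.mp hd)
  rw [Finsupp.weight_apply, Finsupp.sum] at h1
  have h2 : ∑ i ∈ d.support, d i = n := by simpa using h1
  simp only [mul_pow]
  rw [Finset.prod_mul_distrib, Finset.prod_pow_eq_pow_sum, h2]
  ring

open Classical in
/-- The point `(t, 1)` of the line. -/
private noncomputable def BINV_pt {ι K : Type} [Field K] (z₀ z₁ : ι) (t : K) : ι → K :=
  fun v => if v = z₀ then t else if v = z₁ then 1 else 0

open Classical in
/-- The restriction of `G` to the line, dehomogenised. -/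
private noncomputable def BINV_g {ι k : Type} [Field k] (z₀ z₁ : ι) :
    MvPolynomial ι k →ₐ[k] Polynomial (AlgebraicClosure k) :=
  aeval fun v => if v = z₀ then Polynomial.X else if v = z₁ then 1 else 0

private lemma BINV_g_eval {ι k : Type} [Field k] (z₀ z₁ : ι) (G : MvPolynomial ι k)
    (t : AlgebraicClosure k) :
    (BINV_g z₀ z₁ G).eval t = aeval (BINV_pt z₀ z₁ t) G := by
  induction G using MvPolynomial.induction_on with
  | C a =>
    simp [BINV_g]
  | add p q hp hq => rw [map_add, Polynomial.eval_add, hp, hq, map_add]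
  | mul_X p i hp =>
    rw [map_mul, Polynomial.eval_mul, hp, map_mul]
    congr 1
    simp only [BINV_g, aeval_X, BINV_pt]
    split_ifs <;> simp

private lemma BINV_g_der {ι k : Type} [Field k] {z₀ z₁ : ι} (hz : z₀ ≠ z₁)
    (G : MvPolynomial ι k) :
    Polynomial.derivative (BINV_g z₀ z₁ G) = BINV_g z₀ z₁ (pderiv z₀ G) := by
  classical
  induction G using MvPolynomial.induction_on with
  | C a =>
    rw [pderiv_C, map_zero]
    have : BINV_g z₀ z₁ (C a : MvPolynomial ι k) =
        Polynomial.C (algebraMap k (AlgebraicClosure k) a) := by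
      simp [BINV_g]
    rw [this, Polynomial.derivative_C]
  | add p q hp hq => rw [map_add, Polynomial.derivative_add, hp, hq, map_add, map_add]
  | mul_X p i hp =>
    rw [map_mul, Polynomial.derivative_mul, hp, pderiv_mul, map_add, map_mul, map_mul]
    congr 2
    simp only [BINV_g, aeval_X]
    by_cases h0 : i = z₀
    · subst h0
      simp
    · rw [pderiv_X_of_ne (fun e => h0 e), map_zero, if_neg h0]
      split_ifs <;> simp

private lemma BINV_euler {ι k : Type} [Fintype ι] [Field k] {F : MvPolynomial ι k} {n : ℕ}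
    (h : F.IsHomogeneous n) {z₀ z₁ : ι} (hz : z₀ ≠ z₁) (x : ι → AlgebraicClosure k)
    (hx : ∀ v, v ≠ z₀ → v ≠ z₁ → x v = 0) :
    (n : AlgebraicClosure k) * aeval x F =
      x z₀ * aeval x (pderiv z₀ F) + x z₁ * aeval x (pderiv z₁ F) := by
  classical
  have h1 := congrArg (aeval x) h.sum_X_mul_pderiv
  rw [map_sum, map_nsmul, nsmul_eq_mul] at h1
  rw [← h1]
  rw [← Finset.sum_subset (Finset.subset_univ {z₀, z₁}), Finset.sum_pair hz]
  · simp
  · intro v _ hv
    have h2 : v ≠ z₀ ∧ v ≠ z₁ := by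
      constructor
      · rintro rfl; exact hv (by simp)
      · rintro rfl; exact hv (by simp)
    rw [map_mul, aeval_X, hx v h2.1 h2.2, zero_mul]

private lemma BINV_ne {ι k : Type} [Fintype ι] [Field k] [CharZero k] {z₀ z₁ : ι} (hz : z₀ ≠ z₁)
    {G : MvPolynomial ι k} {δ : ℕ} (hG : G.IsHomogeneous δ) (hs : SmoothLine G z₀ z₁) :
    BINV_g z₀ z₁ G ≠ 0 := by
  classical
  intro h0
  have e0 : ∀ v, v ≠ z₀ → v ≠ z₁ → BINV_pt z₀ z₁ (0 : AlgebraicClosure k) v = 0 := by
    intro v h1 h2
    simp [BINV_pt, h1, h2]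
  have e1 : BINV_pt z₀ z₁ (0 : AlgebraicClosure k) z₁ = 1 := by
    simp [BINV_pt, hz.symm]
  have e2 : BINV_pt z₀ z₁ (0 : AlgebraicClosure k) z₀ = 0 := by
    simp [BINV_pt]
  have a0 : aeval (BINV_pt z₀ z₁ (0 : AlgebraicClosure k)) G = 0 := by
    rw [← BINV_g_eval, h0, Polynomial.eval_zero]
  have a1 : aeval (BINV_pt z₀ z₁ (0 : AlgebraicClosure k)) (pderiv z₀ G) = 0 := by
    rw [← BINV_g_eval, ← BINV_g_der hz, h0, Polynomial.derivative_zero, Polynomial.eval_zero]
  have a2 : aeval (BINV_pt z₀ z₁ (0 : AlgebraicClosure k)) (pderiv z₁ G) = 0 := by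
    have := BINV_euler hG hz _ e0
    rw [a0, mul_zero, e2, zero_mul, zero_add, e1, one_mul] at this
    exact this.symm
  rcases hs _ (fun e => one_ne_zero (by rw [← e1, e]; rfl)) e0 a0 with h | h
  · exact h a1
  · exact h a2

/-- PIECE BINV. -/
theorem p_BINV : S_BINV := by
  classical
  intro ι k _ _ _ z₀ z₁ hz G δ hG hs r hr
  have key : ∀ V : MvPolynomial ι k, V.IsHomogeneous r →
      (∀ x : ι → AlgebraicClosure k, x ≠ 0 → (∀ v, v ≠ z₀ → v ≠ z₁ → x v = 0) →
        aeval x V = 0 → aeval x G ≠ 0 ∧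
          (aeval x (pderiv z₀ V) ≠ 0 ∨ aeval x (pderiv z₁ V) ≠ 0)) →
      SmoothOn (G * V) {z₀, z₁} := by
    intro V hV hc x hx hd
    by_contra hx0
    have hx' : ∀ v, v ≠ z₀ → v ≠ z₁ → x v = 0 := by
      intro v h1 h2
      exact hx v (by simp [h1, h2])
    have d0 := hd z₀ (by simp)
    have d1 := hd z₁ (by simp)
    have hE := BINV_euler (hG.mul hV) hz x hx'
    rw [d0, d1, mul_zero, mul_zero, add_zero] at hE
    have hne : ((δ + r : ℕ) : AlgebraicClosure k) ≠ 0 := by
      have : CharZero (AlgebraicClosure k) := charZero_of_injective_algebraMap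
        (algebraMap k (AlgebraicClosure k)).injective
      exact Nat.cast_ne_zero.2 (by omega)
    have h0 := (mul_eq_zero.1 hE).resolve_left hne
    rw [map_mul] at h0
    rw [pderiv_mul, map_add, map_mul, map_mul] at d0 d1
    by_cases hv : aeval x V = 0
    · obtain ⟨hg, hp⟩ := hc x hx0 hx' hv
      rw [hv, mul_zero, zero_add] at d0 d1
      rcases hp with hp | hp
      · exact hp ((mul_eq_zero.1 d0).resolve_left hg)
      · exact hp ((mul_eq_zero.1 d1).resolve_left hg)
    · have hg := (mul_eq_zero.1 h0).resolve_right hv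
      rw [hg, zero_mul, add_zero] at d0 d1
      rcases hs x hx0 hx' hg with hp | hp
      · exact hp ((mul_eq_zero.1 d0).resolve_right hv)
      · exact hp ((mul_eq_zero.1 d1).resolve_right hv)
  rcases Nat.eq_zero_or_pos r with rfl | hr0
  · refine ⟨1, isHomogeneous_one _ _, key 1 (isHomogeneous_one _ _) ?_⟩
    intro x _ _ h
    rw [map_one] at h
    exact absurd h one_ne_zero
  -- the choice of `c`
  have hchar : CharZero (AlgebraicClosure k) := charZero_of_injective_algebraMap
    (algebraMap k (AlgebraicClosure k)).injective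
  let S : Finset (AlgebraicClosure k) :=
    (BINV_g z₀ z₁ G).roots.toFinset.image (fun t => -t ^ r)
  have hinj : Function.Injective (fun n : ℕ => ((n + 1 : ℕ) : AlgebraicClosure k)) := by
    intro a b hab
    have := Nat.cast_injective (R := AlgebraicClosure k) hab
    omega
  obtain ⟨n, hn⟩ := (S.preimage (fun n : ℕ => ((n + 1 : ℕ) : AlgebraicClosure k))
    hinj.injOn).exists_notMem
  rw [Finset.mem_preimage] at hn
  have hn0 : (((n + 1 : ℕ) : AlgebraicClosure k)) ≠ 0 := Nat.cast_ne_zero.2 (by omega)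
  let V : MvPolynomial ι k := X z₀ ^ r + C (((n + 1 : ℕ) : k)) * X z₁ ^ r
  have hV : V.IsHomogeneous r := by
    apply IsHomogeneous.add
    · simpa using (isHomogeneous_X k z₀).pow r
    · have h1 := (isHomogeneous_C ι (((n + 1 : ℕ) : k))).mul ((isHomogeneous_X k z₁).pow r)
      simpa using h1
  refine ⟨V, hV, key V hV ?_⟩
  intro x hx0 hx' hv
  have ev : aeval x V = x z₀ ^ r + ((n + 1 : ℕ) : AlgebraicClosure k) * x z₁ ^ r := by
    simp only [V, map_add, map_mul, map_pow, aeval_X, aeval_C, map_natCast]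
  rw [ev] at hv
  have h1 : x z₁ ≠ 0 := by
    intro h
    rw [h, zero_pow (by omega), mul_zero, add_zero] at hv
    have h0 : x z₀ = 0 := pow_eq_zero_iff (by omega) |>.1 hv
    apply hx0
    funext v
    by_cases e0 : v = z₀
    · rw [e0, h0]; rfl
    · by_cases e1 : v = z₁
      · rw [e1, h]; rfl
      · rw [hx' v e0 e1]; rfl
  constructor
  · intro hg
    have hxe : x = fun i => x z₁ * BINV_pt z₀ z₁ (x z₀ / x z₁) i := by
      funext i
      simp only [BINV_pt]
      split_ifs with e0 e1
      · rw [e0, mul_div_cancel₀ _ h1]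
      · rw [e1, mul_one]
      · rw [hx' i e0 e1, mul_zero]
    rw [hxe, BINV_scale hG] at hg
    have hg' := (mul_eq_zero.1 hg).resolve_left (pow_ne_zero _ h1)
    rw [← BINV_g_eval] at hg'
    apply hn
    rw [Finset.mem_image]
    refine ⟨x z₀ / x z₁, ?_, ?_⟩
    · rw [Multiset.mem_toFinset, Polynomial.mem_roots (BINV_ne hz hG hs)]
      exact hg'
    · rw [div_pow, ← neg_div, div_eq_iff (pow_ne_zero _ h1)]
      linear_combination -hv
  · right
    have : pderiv z₁ V = C (((n + 1 : ℕ) : k)) * ((r : MvPolynomial ι k) * X z₁ ^ (r - 1)) := by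
      simp only [V, map_add, pderiv_C_mul, pderiv_pow, pderiv_X_self, mul_one]
      rw [pderiv_X_of_ne hz, mul_zero, zero_add]
    rw [this]
    simp only [map_mul, map_pow, aeval_X, aeval_C, map_natCast]
    exact mul_ne_zero hn0 (mul_ne_zero (Nat.cast_ne_zero.2 (by omega)) (pow_ne_zero _ h1))

end Pool.Agent.Lib.MP_627a61_nt
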