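import Pool.Agent.Lib.MP_627a61_nt.Cy.NStm

/-!
# EMBN: the embedding theorem in a projective space of given dimension
-/

open scoped LinearAlgebra.Projectivization Topology
open Filter MvPolynomial

namespace Pool.Agent.Lib.MP_627a61_nt

/-- If the form is smooth on a coordinate subspace of codimension `s` then its singular locus has
dimension less than `s`. -/
private theorem embn_sing (hKD3 : S_KD3) {V k : Type} [Fintype V] [Field k]
    {F : MvPolynomial V k} {t : ℕ} (hF : F.IsHomogeneous t) {A : Set V} (hA : SmoothOn F A)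
    {s : ℕ} (hs : Aᶜ.ncard ≤ s) : SingDimLT F s := by
  let E : (Aᶜ : Set V) ≃ Fin Aᶜ.ncard := Finite.equivFinOfCardEq rfl
  have h1 := hKD3 V k (Set.range fun i => pderiv i F) (by
    rintro _ ⟨i, rfl⟩
    exact ⟨_, hF.pderiv⟩) Aᶜ.ncard (fun j => X (E.symm j).1) (fun j => isHomogeneous_X _ _) (by
    intro x hx1 hx2
    refine hA x (fun v hv => ?_) (fun v _ => hx1 _ ⟨v, rfl⟩)
    have h2 := hx2 (E ⟨v, hv⟩)
    rw [Equiv.symm_apply_apply, aeval_X] at h2
    exact h2)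
  have h3 : ((Aᶜ.ncard : ℕ) : WithBot ℕ∞) ≤ ((s : ℕ) : WithBot ℕ∞) := by exact_mod_cast hs
  exact h1.trans h3

theorem p_EMBN (hEMBA : S_EMBA) (hKD3 : S_KD3) (hREN : S_REN) (hKDREN : S_KDREN) : S_EMBN := by
  classical
  intro ι k _ _ _ z₀ z₁ hz G δ hG hline T hT hyp e he g n s hn1 hn2 i₀ hi₀ hi₁
  obtain ⟨m, hm, F, hF, ⟨A, hA, hAs⟩, hF2, hF3⟩ := hEMBA ι (Fin (n + 1 - Fintype.card ι)) k z₀ z₁
    hz G δ hG hline T hT hyp e he g s (by rw [Fintype.card_fin]; omega) i₀ hi₀ hi₁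
  obtain ⟨eq⟩ : Nonempty (ι ⊕ Fin (n + 1 - Fintype.card ι) ≃ Fin (n + 1)) := by
    refine ⟨Fintype.equivOfCardEq ?_⟩
    rw [Fintype.card_sum, Fintype.card_fin, Fintype.card_fin]
    omega
  refine ⟨m, hm, rename eq F, hF.rename_isHomogeneous, (hKDREN _ _ k eq).2 F s
    (embn_sing hKD3 hF hA hAs), fun σ hσ => hREN _ _ _ eq σ _ _ F (hF2 σ hσ),
    fun x => Sum.elim x 0 ∘ eq.symm, ?_, ?_, ?_⟩
  · intro x hx h0
    apply hx
    funext i
    have := congrFun h0 (eq (Sum.inl i))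
    simpa using this
  · rintro x y - - ⟨t, ht⟩
    refine ⟨t, ?_⟩
    funext i
    have := congrFun ht (eq (Sum.inl i))
    simpa using this
  · intro x hx
    obtain ⟨y, hy1, hy2⟩ := hF3 x hx
    refine ⟨y, ?_, hy2⟩
    rw [eval_rename]
    have h1 : (Sum.elim x 0 ∘ eq.symm) ∘ eq = (Sum.elim x 0 : _ → k) := by
      funext c
      simp
    rw [h1]
    exact hy1

end Pool.Agent.Lib.MP_627a61_nt
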