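import Pool.Agent.Lib.MP_627a61_nt.Cy.NStm

/-! Piece `FINL` of project CYCLIC DIMENSIONS (helper16). -/

open scoped LinearAlgebra.Projectivization Topology
open Filter MvPolynomial

namespace Pool.Agent.Lib.MP_627a61_nt

private lemma FINL_smul {ι k : Type} [Field k] {F : MvPolynomial ι k} {n : ℕ}
    (hF : F.IsHomogeneous n) (t : k) (v : ι → k) :
    F.eval₂ (RingHom.id k) (t • v) = t ^ n * F.eval₂ (RingHom.id k) v := by
  rw [eval₂_eq, eval₂_eq, Finset.mul_sum]
  refine Finset.sum_congr rfl fun d hd => ?_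
  have h1 : ∑ i ∈ d.support, d i = n := (hF.degree_eq_sum_deg_support hd).symm
  simp only [Pi.smul_apply, smul_eq_mul, mul_pow, Finset.prod_mul_distrib,
    Finset.prod_pow_eq_pow_sum, h1]
  ring

/-- the line -/
private noncomputable def FINL_c (N : ℕ) (k : Type) [Field k] : Fin (N + 2) → Polynomial k :=
  fun i => if i = 0 then Polynomial.X else if i = 1 then 1 else 0

/-- the points of the line -/
private def FINL_v (N : ℕ) {k : Type} [Field k] (t : k) : Fin (N + 2) → k :=
  fun i => if i = 0 then t else if i = 1 then 1 else 0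

/-- the point at infinity of the line -/
private def FINL_w (N : ℕ) {k : Type} [Field k] : Fin (N + 2) → k :=
  fun i => if i = 0 then 1 else 0

private lemma FINL_deriv {N : ℕ} {k : Type} [Field k] (G : MvPolynomial (Fin (N + 2)) k) :
    Polynomial.derivative (aeval (FINL_c N k) G) = aeval (FINL_c N k) (pderiv 0 G) := by
  induction G using MvPolynomial.induction_on with
  | C a => simp [Polynomial.algebraMap_eq]
  | add p q hp hq => simp [hp, hq]
  | mul_X p i hp =>
    have h1 : Polynomial.derivative (FINL_c N k i) =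
        aeval (FINL_c N k) (pderiv 0 (X i : MvPolynomial (Fin (N + 2)) k)) := by
      by_cases hi : i = 0
      · subst hi
        simp [FINL_c]
      · rw [pderiv_X_of_ne hi, map_zero]
        by_cases hi1 : i = 1
        · simp [FINL_c, hi1]
        · simp [FINL_c, hi, hi1]
    rw [map_mul, aeval_X, Polynomial.derivative_mul, hp, pderiv_mul, map_add, map_mul, map_mul,
      aeval_X, h1]

private lemma FINL_eval {N : ℕ} {k : Type} [Field k] (G : MvPolynomial (Fin (N + 2)) k) (t : k) :
    Polynomial.eval t (aeval (FINL_c N k) G) = G.eval₂ (RingHom.id k) (FINL_v N t) := by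
  induction G using MvPolynomial.induction_on with
  | C a => simp [Polynomial.algebraMap_eq]
  | add p q hp hq => rw [map_add, Polynomial.eval_add, hp, hq, eval₂_add]
  | mul_X p i hp =>
    rw [map_mul, aeval_X, Polynomial.eval_mul, hp, eval₂_mul, eval₂_X]
    congr 1
    by_cases hi : i = 0
    · simp [FINL_c, FINL_v, hi]
    · by_cases hi1 : i = 1
      · simp [FINL_c, FINL_v, hi1]
      · simp [FINL_c, FINL_v, hi, hi1]

private lemma FINL_ne {N : ℕ} {k : Type} [Field k] (t : k) : FINL_v N t ≠ 0 := by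
  intro h
  have h1 := congrFun h 1
  simp [FINL_v] at h1

private lemma FINL_new {N : ℕ} {k : Type} [Field k] : FINL_w N (k := k) ≠ 0 := by
  intro h
  have h1 := congrFun h 0
  simp [FINL_w] at h1

private lemma FINL_poly {N : ℕ} {k : Type} [Field k] {G : MvPolynomial (Fin (N + 2)) k} {δ : ℕ}
    (hG : G.IsHomogeneous δ) (hs : SmoothLine G 0 1) : aeval (FINL_c N k) G ≠ 0 := by
  intro h0
  have e0 : G.eval₂ (RingHom.id k) (FINL_v N 0) = 0 := by
    rw [← FINL_eval, h0, Polynomial.eval_zero]
  have e1 : (pderiv 0 G).eval₂ (RingHom.id k) (FINL_v N 0) = 0 := by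
    rw [← FINL_eval, ← FINL_deriv, h0, Polynomial.derivative_zero, Polynomial.eval_zero]
  have e2 : (pderiv 1 G).eval₂ (RingHom.id k) (FINL_v N 0) = 0 := by
    have h1 : (∑ i : Fin (N + 2), X i * pderiv i G).eval₂ (RingHom.id k) (FINL_v N (0 : k)) =
        (δ • G).eval₂ (RingHom.id k) (FINL_v N (0 : k)) := by rw [hG.sum_X_mul_pderiv]
    rw [eval₂_sum, Finset.sum_eq_single (1 : Fin (N + 2))] at h1
    · rw [eval₂_mul, eval₂_X, nsmul_eq_mul, eval₂_mul, e0, mul_zero] at h1
      have h2 : FINL_v N (0 : k) 1 = 1 := by simp [FINL_v]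
      rwa [h2, one_mul] at h1
    · intro b _ hb
      rw [eval₂_mul, eval₂_X]
      have h2 : FINL_v N (0 : k) b = 0 := by simp [FINL_v, hb]
      rw [h2, zero_mul]
    · intro h
      exact absurd (Finset.mem_univ _) h
  have key : ∀ P : MvPolynomial (Fin (N + 2)) k, P.eval₂ (RingHom.id k) (FINL_v N 0) = 0 →
      aeval (fun i => algebraMap k (AlgebraicClosure k) (FINL_v N 0 i)) P = 0 := by
    intro P hP
    have h1 : aeval (fun i => algebraMap k (AlgebraicClosure k) (FINL_v N 0 i)) P =
        algebraMap k (AlgebraicClosure k) (P.eval₂ (RingHom.id k) (FINL_v N 0)) := by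
      rw [eval₂_id, ← aeval_eq_eval]
      exact (MvPolynomial.aeval_algebraMap_apply (AlgebraicClosure k) (FINL_v N 0) P)
    rw [h1, hP, map_zero]
  have hx0 : (fun i => algebraMap k (AlgebraicClosure k) (FINL_v N 0 i)) ≠ 0 := by
    intro h
    have h1 := congrFun h 1
    simp [FINL_v] at h1
  have hx1 : ∀ v : Fin (N + 2), v ≠ 0 → v ≠ 1 →
      (fun i => algebraMap k (AlgebraicClosure k) (FINL_v N 0 i)) v = 0 := by
    intro v hv0 hv1
    simp [FINL_v, hv1]
  rcases hs _ hx0 hx1 (key G e0) with h | h
  · exact h (key _ e1)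
  · exact h (key _ e2)

theorem p_FINL : S_FINL := by
  intro N k _ G δ hG hs hfin
  have hq := FINL_poly hG hs
  set q := aeval (FINL_c N k) G with hqdef
  have hroots : {t : k | q.IsRoot t}.Finite := by
    classical
    refine (q.roots.toFinset.finite_toSet).subset ?_
    intro t ht
    rw [Finset.mem_coe, Multiset.mem_toFinset, Polynomial.mem_roots hq]
    exact ht
  have hL : (insert (Projectivization.mk k (FINL_w N) FINL_new)
      ((fun t : k => Projectivization.mk k (FINL_v N t) (FINL_ne t)) ''
        {t : k | q.IsRoot t})).Finite := (hroots.image _).insert _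
  have hU : (⋃ i : Fin (N + 2), ⋃ _ : i ≠ 0 ∧ i ≠ 1,
      {p ∈ points (RingHom.id k) {G} | p.rep i ≠ 0}).Finite := by
    refine Set.finite_iUnion fun i => ?_
    by_cases hi : i ≠ 0 ∧ i ≠ 1
    · refine (hfin i hi.1 hi.2).subset ?_
      exact Set.iUnion_subset fun _ => le_rfl
    · refine Set.finite_empty.subset ?_
      exact Set.iUnion_subset fun h => absurd h hi
  refine (hL.union hU).subset ?_
  intro p hp
  by_cases hex : ∃ i : Fin (N + 2), i ≠ 0 ∧ i ≠ 1 ∧ p.rep i ≠ 0
  · obtain ⟨i, hi0, hi1, hi⟩ := hex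
    refine Or.inr (Set.mem_iUnion.2 ⟨i, Set.mem_iUnion.2 ⟨⟨hi0, hi1⟩, hp, hi⟩⟩)
  · push Not at hex
    left
    have hG0 : G.eval₂ (RingHom.id k) p.rep = 0 := hp G (Set.mem_singleton G)
    by_cases h1 : p.rep 1 = 0
    · left
      rw [← p.mk_rep, Projectivization.mk_eq_mk_iff']
      refine ⟨p.rep 0, ?_⟩
      funext i
      rw [Pi.smul_apply, smul_eq_mul]
      by_cases hi0 : i = 0
      · simp [FINL_w, hi0]
      · by_cases hi1 : i = 1
        · subst hi1
          rw [h1]
          simp [FINL_w]
        · rw [hex i hi0 hi1]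
          simp [FINL_w, hi0]
    · right
      have hvec : p.rep 1 • FINL_v N (p.rep 0 / p.rep 1) = p.rep := by
        funext i
        rw [Pi.smul_apply, smul_eq_mul]
        by_cases hi0 : i = 0
        · subst hi0
          simp only [FINL_v, if_true]
          field_simp
        · by_cases hi1 : i = 1
          · subst hi1
            simp [FINL_v]
          · rw [hex i hi0 hi1]
            simp [FINL_v, hi0, hi1]
      refine ⟨p.rep 0 / p.rep 1, ?_, ?_⟩
      · rw [← hvec, FINL_smul hG] at hG0
        have h2 := (mul_eq_zero.1 hG0).resolve_left (pow_ne_zero _ h1)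
        change Polynomial.eval _ q = 0
        rw [hqdef, FINL_eval]
        exact h2
      · simp only
        refine Eq.trans ?_ p.mk_rep
        rw [Projectivization.mk_eq_mk_iff']
        refine ⟨(p.rep 1)⁻¹, ?_⟩
        rw [inv_smul_eq_iff₀ h1]
        exact hvec.symm

end Pool.Agent.Lib.MP_627a61_nt
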