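import Pool.Agent.Lib.MP_627a61_nt.Cy.NStm
import Pool.Agent.Lib.MP_627a61_nt.Cy.P_CLO

/-!
# Dimension-explicit cyclic covers, piece INTN: from integral to rational forms
-/

open scoped LinearAlgebra.Projectivization Topology
open Filter MvPolynomial

namespace Pool.Agent.Lib.MP_627a61_nt

/-- primitive integral representatives -/
private lemma INTN_exists_primitive {n : ℕ} {w : Fin (n + 1) → ℚ} (hw : w ≠ 0) :
    ∃ (v : Fin (n + 1) → ℤ) (t : ℚ), t ≠ 0 ∧ (∀ i, (v i : ℚ) = t * w i) ∧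
      ∀ d : ℤ, (∀ i, d ∣ v i) → IsUnit d := by
  obtain ⟨b, hb⟩ := IsLocalization.exist_integer_multiples_of_finite (nonZeroDivisors ℤ) w
  choose u hu using hb
  have hb0 : (b : ℤ) ≠ 0 := nonZeroDivisors.ne_zero b.2
  have hu' : ∀ i, (u i : ℚ) = (b : ℤ) * w i := by
    intro i
    have := hu i
    rw [zsmul_eq_mul] at this
    simpa using this
  obtain ⟨v, hv1, hv2⟩ := Finset.extract_gcd u (s := Finset.univ) Finset.univ_nonempty
  set G : ℤ := Finset.univ.gcd u with hG
  have hG0 : G ≠ 0 := by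
    intro h0
    apply hw
    funext i
    have h1 := hv1 i (Finset.mem_univ i)
    rw [h0, zero_mul] at h1
    have h2 := hu' i
    rw [h1] at h2
    have h3 : ((b : ℤ) : ℚ) ≠ 0 := by exact_mod_cast hb0
    have h4 : ((b : ℤ) : ℚ) * w i = 0 := by
      rw [← h2]
      simp
    exact (mul_eq_zero.1 h4).resolve_left h3
  have hGq : (G : ℚ) ≠ 0 := by exact_mod_cast hG0
  refine ⟨v, (b : ℤ) / G, ?_, ?_, ?_⟩
  · have h3 : ((b : ℤ) : ℚ) ≠ 0 := by exact_mod_cast hb0
    exact div_ne_zero h3 hGq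
  · intro i
    have h1 := hv1 i (Finset.mem_univ i)
    have h2 : (u i : ℚ) = G * v i := by
      rw [h1]
      push_cast
      ring
    have h3 := hu' i
    rw [h2] at h3
    field_simp
    linear_combination h3
  · intro d hd
    have h1 : d ∣ Finset.univ.gcd v := Finset.dvd_gcd fun i _ => hd i
    rw [hv2] at h1
    exact isUnit_of_dvd_one h1

/-- clearing denominators -/
private lemma INTN_exists_integral {ι : Type*} (F : MvPolynomial ι ℚ) :
    ∃ (c : ℤ) (G : MvPolynomial ι ℤ), c ≠ 0 ∧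
      MvPolynomial.map (Int.castRingHom ℚ) G = C (c : ℚ) * F := by
  obtain ⟨b, hb⟩ := IsLocalization.exist_integer_multiples (nonZeroDivisors ℤ) F.support
    (fun s => F.coeff s)
  have hb' : ∀ s, ∃ z : ℤ, s ∈ F.support → (z : ℚ) = (b : ℤ) * F.coeff s := by
    intro s
    by_cases hs : s ∈ F.support
    · obtain ⟨z, hz⟩ := hb s hs
      refine ⟨z, fun _ => ?_⟩
      rw [zsmul_eq_mul] at hz
      simpa using hz
    · exact ⟨0, fun h => absurd h hs⟩
  choose z hz using hb'
  refine ⟨b, ∑ s ∈ F.support, monomial s (z s), nonZeroDivisors.ne_zero b.2, ?_⟩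
  rw [map_sum]
  conv_rhs => rw [F.as_sum, Finset.mul_sum]
  refine Finset.sum_congr rfl fun s hs => ?_
  rw [map_monomial, C_mul_monomial]
  congr 1
  exact hz s hs

/-- an `e`-th power of a rational number which is an integer -/
private lemma INTN_int_root {e : ℕ} (he : 1 ≤ e) {y : ℚ} {z : ℤ} (h : y ^ e = z) :
    ∃ y' : ℤ, (y' : ℚ) = y := by
  have h1 : IsIntegral ℤ (y ^ e) := by
    rw [h]
    exact isIntegral_algebraMap (R := ℤ) (A := ℚ) (x := z)
  obtain ⟨y', hy'⟩ := IsIntegrallyClosed.exists_algebraMap_eq_of_isIntegral_pow (R := ℤ) (K := ℚ)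
    (by omega) h1
  exact ⟨y', by simpa using hy'⟩

private lemma INTN_eval_int {ι : Type*} (F : MvPolynomial ι ℤ) (v : ι → ℤ) :
    MvPolynomial.eval (fun i => (v i : ℚ)) (MvPolynomial.map (Int.castRingHom ℚ) F) =
      ((MvPolynomial.eval v F : ℤ) : ℚ) := by
  rw [eval_map]
  have := eval₂_comp_left (Int.castRingHom ℚ) (RingHom.id ℤ) v F
  rw [RingHom.comp_id] at this
  exact this.symm

private lemma INTN_cover_map {ι : Type*} (e m : ℕ) (F : MvPolynomial ι ℤ) :
    cyclicCover (algebraMap ℚ ℂ) e m (MvPolynomial.map (Int.castRingHom ℚ) F) =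
      cyclicCover (Int.castRingHom ℂ) e m F := by
  have h1 : ∀ x : ι → ℂ, (MvPolynomial.map (Int.castRingHom ℚ) F).eval₂ (algebraMap ℚ ℂ) x =
      F.eval₂ (Int.castRingHom ℂ) x := by
    intro x
    rw [eval₂_map, Subsingleton.elim ((algebraMap ℚ ℂ).comp (Int.castRingHom ℚ))
      (Int.castRingHom ℂ)]
  simp only [cyclicCover, h1]

private lemma INTN_sing {ι k : Type} [Field k] {F : MvPolynomial ι k} {c : k} (hc : c ≠ 0) (s : ℕ)
    (h : SingDimLT F s) : SingDimLT (C c * F) s := by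
  have h1 : Ideal.span (Set.range fun i => MvPolynomial.pderiv i (C c * F)) =
      Ideal.span (Set.range fun i => MvPolynomial.pderiv i F) := by
    apply le_antisymm
    · rw [Ideal.span_le]
      rintro _ ⟨i, rfl⟩
      simp only [pderiv_C_mul]
      exact Ideal.mul_mem_left _ _ (Ideal.subset_span ⟨i, rfl⟩)
    · rw [Ideal.span_le]
      rintro _ ⟨i, rfl⟩
      have h2 : pderiv i F = C c⁻¹ * pderiv i (C c * F) := by
        rw [pderiv_C_mul, ← mul_assoc, ← C_mul, inv_mul_cancel₀ hc, C_1, one_mul]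
      simp only
      rw [h2]
      exact Ideal.mul_mem_left _ _ (Ideal.subset_span ⟨i, rfl⟩)
  unfold SingDimLT at h ⊢
  rw [h1]
  exact h

theorem p_INTN (hSCALE : S_SCALE) (hCLOSED : S_CLOSED) : S_INTN := by
  intro e he g n s h m hm F hF hF2 hσ
  obtain ⟨c, G, hc, hG⟩ := INTN_exists_integral F
  have hcq : (c : ℚ) ≠ 0 := by exact_mod_cast hc
  obtain ⟨e', rfl⟩ : ∃ e', e = e' + 1 := ⟨e - 1, by omega⟩
  have hG2 : MvPolynomial.map (Int.castRingHom ℚ) (C (c ^ e') * G) =
      C ((c : ℚ) ^ (e' + 1)) * F := by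
    rw [map_mul, hG, map_C, ← mul_assoc, ← C_mul]
    congr 2
    simp [pow_succ]
  have hGhom : (C (c ^ e') * G).IsHomogeneous ((e' + 1) * m) := by
    refine IsHomogeneous.of_map (f := Int.castRingHom ℚ) Int.cast_injective ?_
    rw [hG2]
    exact hF.C_mul _
  have hfin := h m hm (C (c ^ e') * G) hGhom (by
      rw [hG2]
      exact INTN_sing (pow_ne_zero _ hcq) s hF2)
    (by
      rw [← INTN_cover_map, hG2]
      refine BrodyHyperbolic.kobayashi ?_
        (hCLOSED _ _ _ _ _ (by omega) (by omega) _ (hF.C_mul _))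
      exact hSCALE _ _ _ _ _ _ _ hcq hσ)
  classical
  -- the primitive vectors
  let f : (Fin (n + 1) → ℤ) → ℙ ℚ (Fin (n + 1) → ℚ) := fun v =>
    if hv : (fun i => (v i : ℚ)) ≠ 0 then Projectivization.mk ℚ _ hv
    else Projectivization.mk ℚ (fun _ => 1) (fun h0 => one_ne_zero (congrFun h0 0))
  refine (hfin.image f).subset ?_
  rintro p ⟨y, hy0, hy⟩
  obtain ⟨v, t, ht, hv, hprim⟩ := INTN_exists_primitive p.rep_nonzero
  have hv' : (fun i => (v i : ℚ)) = t • p.rep := by
    funext i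
    exact hv i
  have hv0 : (fun i => (v i : ℚ)) ≠ 0 := by
    rw [hv']
    exact smul_ne_zero ht p.rep_nonzero
  have h1 : (c * t ^ m * y) ^ (e' + 1) = ((MvPolynomial.eval v (C (c ^ e') * G) : ℤ) : ℚ) := by
    rw [← INTN_eval_int, hG2, hv']
    have h2 := eval₂_smul_homog (hF.C_mul ((c : ℚ) ^ (e' + 1))) (RingHom.id ℚ) t p.rep
    rw [eval₂_id, eval₂_id] at h2
    rw [h2, map_mul, eval_C, ← hy]
    ring
  obtain ⟨y', hy'⟩ := INTN_int_root (by omega) h1
  refine ⟨v, ⟨hprim, y', ?_, ?_⟩, ?_⟩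
  · rintro rfl
    have h3 : (c * t ^ m * y : ℚ) = 0 := by
      rw [← hy']
      simp
    exact mul_ne_zero (mul_ne_zero hcq (pow_ne_zero _ ht)) hy0 h3
  · rw [← hy'] at h1
    exact_mod_cast h1
  · simp only [f]
    rw [dif_pos hv0]
    conv_rhs => rw [← p.mk_rep]
    rw [Projectivization.mk_eq_mk_iff']
    exact ⟨t, hv'.symm⟩

end Pool.Agent.Lib.MP_627a61_nt
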