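import Pool.Agent.Lib.MP_627a61_nt.Cy.NStm
import Pool.Agent.Lib.MP_627a61_nt.Hy.P.fin

/-!
# KD3: the dimension of a variety missing a linear subspace
-/

set_option autoImplicit false

open MvPolynomial

namespace Pool.Agent.Lib.MP_627a61_nt

/-- integral extensions do not raise the dimension -/
theorem KD3_dim {R A : Type*} [CommRing R] [CommRing A] [Algebra R A] [Algebra.IsIntegral R A] :
    ringKrullDim A ≤ ringKrullDim R := by
  apply Order.krullDim_le_of_strictMono (PrimeSpectrum.comap (algebraMap R A))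
  intro I J h
  exact Ideal.IsIntegral.comap_lt_comap h

theorem p_KD3 : S_KD3 := by
  intro ι k _ _ S hS r l hl h0
  classical
  -- powers of the variables
  have hpow : ∀ α, ∃ N : ℕ, (X α : MvPolynomial ι k) ^ N ∈ Ideal.span (S ∪ Set.range l) := by
    intro α
    have h1 : (X α : MvPolynomial ι k) ∈ (Ideal.span (S ∪ Set.range l)).radical := by
      rw [← vanishingIdeal_zeroLocus_eq_radical (K := AlgebraicClosure k)]
      rw [mem_vanishingIdeal_iff]
      intro x hx
      rw [mem_zeroLocus_iff] at hx
      have h2 : x = 0 := h0 x (fun P hP => hx P (Ideal.subset_span (Or.inl hP)))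
        (fun j => hx (l j) (Ideal.subset_span (Or.inr ⟨j, rfl⟩)))
      rw [h2, aeval_X]
      rfl
    exact h1
  have hfin := Hy.p_FIN.{0} S hS 1 le_rfl l hl (by
    intro Ω _ τ x hx hj
    funext α
    obtain ⟨N, hN⟩ := hpow α
    have h1 : Ideal.span (S ∪ Set.range l) ≤ RingHom.ker (eval₂Hom τ x) := by
      rw [Ideal.span_le]
      rintro P (hP | ⟨j, rfl⟩)
      · exact hx P hP
      · exact hj j
    have h2 := h1 hN
    rw [RingHom.mem_ker, map_pow, eval₂Hom_X'] at h2
    exact eq_zero_of_pow_eq_zero h2)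
  let φ : MvPolynomial (Fin r) k →+* (MvPolynomial ι k ⧸ Ideal.span S) :=
    (Ideal.Quotient.mk (Ideal.span S)).comp (aeval (R := k) l).toRingHom
  let _ : Algebra (MvPolynomial (Fin r) k) (MvPolynomial ι k ⧸ Ideal.span S) := φ.toAlgebra
  have hint : Algebra.IsIntegral (MvPolynomial (Fin r) k) (MvPolynomial ι k ⧸ Ideal.span S) := by
    constructor
    intro a
    obtain ⟨G, rfl⟩ := Ideal.Quotient.mk_surjective a
    induction G using MvPolynomial.induction_on with
    | C c =>
      have h1 : Ideal.Quotient.mk (Ideal.span S) (C c) =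
          algebraMap (MvPolynomial (Fin r) k) (MvPolynomial ι k ⧸ Ideal.span S) (C c) := by
        show Ideal.Quotient.mk (Ideal.span S) (C c) =
          Ideal.Quotient.mk (Ideal.span S) (aeval l (C c))
        rw [aeval_C]
        rfl
      rw [h1]
      exact isIntegral_algebraMap
    | add p q hp hq =>
      rw [map_add]
      exact hp.add hq
    | mul_X p α hp =>
      rw [map_mul]
      refine hp.mul ?_
      obtain ⟨p, hp1, -, hp3⟩ := hfin α
      refine ⟨p, hp1, ?_⟩
      rw [← Ideal.Quotient.eq_zero_iff_mem, Polynomial.hom_eval₂] at hp3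
      exact hp3
  have h1 : ringKrullDim (MvPolynomial ι k ⧸ Ideal.span S) ≤
      ringKrullDim (MvPolynomial (Fin r) k) := KD3_dim
  have h2 : ringKrullDim (MvPolynomial (Fin r) k) = ((r : ℕ) : WithBot ℕ∞) := by
    rw [MvPolynomial.ringKrullDim_of_isNoetherianRing, ringKrullDim_eq_zero_of_field, zero_add,
      Nat.card_eq_fintype_card, Fintype.card_fin]
  rw [← h2]
  exact h1

end Pool.Agent.Lib.MP_627a61_nt
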