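import Pool.Agent.Lib.MP_627a61_nt.Cy.NStm

/-!
# Piece KDREN of the dimension-explicit cyclic covers: renaming variables
-/

open MvPolynomial

namespace Pool.Agent.Lib.MP_627a61_nt

private theorem KDREN_dim (ι κ k : Type) [Field k] (e : ι ≃ κ) (S : Set (MvPolynomial ι k)) :
    ringKrullDim (MvPolynomial κ k ⧸ Ideal.span (rename e '' S)) =
      ringKrullDim (MvPolynomial ι k ⧸ Ideal.span S) := by
  have h : Ideal.span (rename e '' S) =
      (Ideal.span S).map ((renameEquiv k e).toRingEquiv : MvPolynomial ι k →+* MvPolynomial κ k) := by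
    rw [Ideal.map_span]
    congr 1
  exact (ringKrullDim_eq_of_ringEquiv
    (Ideal.quotientEquiv _ _ (renameEquiv k e).toRingEquiv h)).symm

theorem p_KDREN : S_KDREN := by
  intro ι κ k _ e
  refine ⟨KDREN_dim ι κ k e, fun F s hF => ?_⟩
  have h : (Set.range fun i => pderiv i (rename e F)) =
      rename e '' (Set.range fun i => pderiv i F) := by
    ext p
    simp only [Set.mem_range, Set.mem_image, exists_exists_eq_and]
    constructor
    · rintro ⟨i, rfl⟩
      refine ⟨e.symm i, ?_⟩
      rw [← pderiv_rename e.injective, e.apply_symm_apply]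
    · rintro ⟨i, rfl⟩
      exact ⟨e i, pderiv_rename e.injective i F⟩
  rw [SingDimLT, h, KDREN_dim]
  exact hF

end Pool.Agent.Lib.MP_627a61_nt
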