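import Pool.Agent.Lib.MP_627a61_nt.Cy.NStm

open scoped LinearAlgebra.Projectivization Topology
open Filter MvPolynomial

namespace Pool.Agent.Lib.MP_627a61_nt

private lemma LINH_eval₂ {ι κ k L : Type} [Fintype κ] [Field k] [Field L] (A : Matrix ι κ k)
    (τ : k →+* L) (P : MvPolynomial ι k) (x : κ → L) :
    (subM A P).eval₂ τ x = P.eval₂ τ (fun i => ∑ j, τ (A i j) * x j) := by
  unfold subM
  induction P using MvPolynomial.induction_on with
  | C a => simp
  | add p q hp hq => rw [map_add, eval₂_add, eval₂_add, hp, hq]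
  | mul_X p i hp =>
    rw [map_mul, eval₂_mul, eval₂_mul, hp, aeval_X, eval₂_X]
    congr 1
    rw [eval₂_sum]
    refine Finset.sum_congr rfl fun j _ => ?_
    rw [eval₂_mul, eval₂_C, eval₂_X]

private lemma LINH_homog {ι κ k : Type} [Fintype κ] [Field k] (A : Matrix ι κ k)
    {P : MvPolynomial ι k} {δ : ℕ} (hP : P.IsHomogeneous δ) : (subM A P).IsHomogeneous δ := by
  have h := hP.aeval (fun i => ∑ j, C (A i j) * X j) (n := 1) (fun i =>
    IsHomogeneous.sum _ _ _ fun j _ => by
      have h1 := (isHomogeneous_C κ (A i j)).mul (isHomogeneous_X k j)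
      simpa using h1)
  rw [one_mul] at h
  exact h

/-- multiplication by `A` over `L` -/
private def LINH_mul {ι κ k L : Type} [Fintype κ] [Field k] [Field L] (A : Matrix ι κ k)
    (τ : k →+* L) (x : κ → L) : ι → L := fun i => ∑ j, τ (A i j) * x j

private lemma LINH_inv {ι k L : Type} [Fintype ι] [DecidableEq ι] [Field k] [Field L]
    {A B : Matrix ι ι k} (h : A * B = 1) (τ : k →+* L) (x : ι → L) :
    LINH_mul A τ (LINH_mul B τ x) = x := by
  have h1 : ∀ (M : Matrix ι ι k) (y : ι → L), LINH_mul M τ y = (M.map τ).mulVec y := by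
    intro M y
    rfl
  have h2 : A.map τ * B.map τ = 1 := by
    rw [← Matrix.map_mul, h]
    exact Matrix.map_one _ (map_zero τ) (map_one τ)
  rw [h1, h1, Matrix.mulVec_mulVec, h2, Matrix.one_mulVec]

private lemma LINH_smul {ι κ k L : Type} [Fintype κ] [Field k] [Field L] (A : Matrix ι κ k)
    (τ : k →+* L) (t : L) (x : κ → L) : LINH_mul A τ (t • x) = t • LINH_mul A τ x := by
  funext i
  unfold LINH_mul
  rw [Pi.smul_apply, smul_eq_mul, Finset.mul_sum]
  refine Finset.sum_congr rfl fun j _ => ?_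
  rw [Pi.smul_apply, smul_eq_mul]
  ring

private lemma LINH_ne {ι k L : Type} [Fintype ι] [DecidableEq ι] [Field k] [Field L]
    {A B : Matrix ι ι k} (h : B * A = 1) (τ : k →+* L) {x : ι → L} (hx : x ≠ 0) :
    LINH_mul A τ x ≠ 0 := by
  intro h0
  apply hx
  rw [← LINH_inv h τ x, h0]
  funext i
  unfold LINH_mul
  simp

theorem p_LINH : S_LINH := by
  intro ι k _ _ _ A B hAB hBA G δ hG
  refine ⟨LINH_homog A hG, ?_, ?_⟩
  · intro σ h φ hφ hφY
    have hne : ∀ z, LINH_mul A σ (φ z).rep ≠ 0 := fun z => LINH_ne hBA σ (φ z).rep_nonzero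
    obtain ⟨ψ, hψ, hψ1, -⟩ := exists_division hφ (LINH_mul A σ)
      (by
        intro x
        rw [analyticAt_pi_iff]
        intro i
        unfold LINH_mul
        exact Finset.analyticAt_fun_sum _ fun j _ => analyticAt_const.mul (analyticAt_proj _ x)) 1
      (by
        intro t x
        rw [pow_one]
        exact LINH_smul A σ t x) (hne 0)
    have hψZ : ∀ z, ψ z ∈ points σ {G} := by
      intro z
      rw [hψ1 z (hne z), mem_points_mk (fun P hP => ⟨δ, (Set.mem_singleton_iff.1 hP) ▸ hG⟩) σ]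
      intro P hP
      rw [Set.mem_singleton_iff] at hP
      subst hP
      have h1 := hφY z _ rfl
      rw [LINH_eval₂] at h1
      exact h1
    have hψc := h ψ hψ hψZ
    intro z w
    have h1 := hψc z w
    rw [hψ1 z (hne z), hψ1 w (hne w), Projectivization.mk_eq_mk_iff'] at h1
    obtain ⟨t, ht⟩ := h1
    rw [← (φ z).mk_rep, ← (φ w).mk_rep, Projectivization.mk_eq_mk_iff']
    refine ⟨t, ?_⟩
    rw [← LINH_inv hBA σ (φ z).rep, ← ht, LINH_smul, LINH_inv hBA]
  · intro hfin
    refine finite_transfer (LINH_mul B (RingHom.id k)) (fun x hx => LINH_ne hAB _ hx) ?_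
      (S' := {subM A G}) (fun P hP => ⟨δ, (Set.mem_singleton_iff.1 hP) ▸ LINH_homog A hG⟩) ?_ hfin
    · rintro x y - - ⟨t, ht⟩
      refine ⟨t, ?_⟩
      rw [← LINH_inv hAB (RingHom.id k) x, ht, LINH_smul, LINH_inv hAB]
    · intro x hx Q hQ
      rw [Set.mem_singleton_iff] at hQ
      subst hQ
      rw [LINH_eval₂]
      have h1 := hx G rfl
      rw [← LINH_inv hAB (RingHom.id k) x] at h1
      exact h1

end Pool.Agent.Lib.MP_627a61_nt
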