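import Pool.Agent.Lib.MP_627a61_nt.Cy.NStm
import Pool.Agent.Lib.MP_627a61_nt.Cy.P_CLO

/-!
# Dimension-explicit cyclic covers: the first part of the theorem
-/

open scoped LinearAlgebra.Projectivization Topology
open Filter MvPolynomial

namespace Pool.Agent.Lib.MP_627a61_nt

/-- renaming the variables preserves hyperbolicity -/
private lemma one_brody_rename {V V' k : Type*} [Fintype V] [Fintype V'] [Field k] (e : V ≃ V')
    {S : Set (MvPolynomial V k)} (hS : Homog S) (σ : k →+* ℂ)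
    (h : BrodyHyperbolic (points σ S)) : BrodyHyperbolic (points σ (rename e '' S)) := by
  intro φ hφ hφY
  have hne : ∀ z, (fun i => (φ z).rep (e i)) ≠ (0 : V → ℂ) := by
    intro z h
    apply (φ z).rep_nonzero
    funext c
    have := congrFun h (e.symm c)
    simpa using this
  obtain ⟨ψ, hψ, hψ1, -⟩ := exists_division hφ (fun x i => x (e i) : (V' → ℂ) → (V → ℂ))
    (by
      intro x
      rw [analyticAt_pi_iff]
      intro i
      exact analyticAt_proj _ x) 1
    (by
      intro t x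
      funext i
      simp) (hne 0)
  have hψZ : ∀ z, ψ z ∈ points σ S := by
    intro z
    rw [hψ1 z (hne z), mem_points_mk hS σ]
    intro P hP
    have h1 := hφY z _ ⟨P, hP, rfl⟩
    rw [eval₂_rename] at h1
    exact h1
  have hψc := h ψ hψ hψZ
  intro z w
  have h1 := hψc z w
  rw [hψ1 z (hne z), hψ1 w (hne w), Projectivization.mk_eq_mk_iff'] at h1
  obtain ⟨t, ht⟩ := h1
  rw [← (φ z).mk_rep, ← (φ w).mk_rep, Projectivization.mk_eq_mk_iff']
  refine ⟨t, ?_⟩
  funext c
  have := congrFun ht (e.symm c)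
  simpa using this

private lemma one_homog_rename {V V' k : Type*} [Field k] (e : V ≃ V')
    {S : Set (MvPolynomial V k)} (hS : Homog S) : Homog (rename e '' S) := by
  rintro _ ⟨P, hP, rfl⟩
  obtain ⟨n, hn⟩ := hS P hP
  exact ⟨n, hn.rename_isHomogeneous⟩

/-- the map to projective space -/
private lemma one_coverVec_inj {ι K : Type*} [Field K] {m : ℕ} (hm : 1 ≤ m) {x x' : ι → K}
    {y y' t : K} (hx : x ≠ 0) (h : coverVec m x y = t • coverVec m x' y') :
    ∃ s : K, x = s • x' := by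
  obtain ⟨j, hj⟩ : ∃ j, x j ≠ 0 := by
    by_contra h
    push Not at h
    exact hx (funext h)
  obtain ⟨m, rfl⟩ : ∃ m', m = m' + 1 := ⟨m - 1, by omega⟩
  refine ⟨t * x' j ^ m / x j ^ m, ?_⟩
  funext i
  have h1 := congrFun h (some (Fin.cons i fun _ => j))
  simp only [coverVec, Pi.smul_apply, smul_eq_mul, Fin.prod_univ_succ, Fin.cons_zero,
    Fin.cons_succ, Finset.prod_const, Finset.card_univ, Fintype.card_fin] at h1
  have h2 : x j ^ m ≠ 0 := pow_ne_zero _ hj
  rw [Pi.smul_apply, smul_eq_mul]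
  field_simp
  linear_combination h1

private lemma one_finite_of_cover {k : Type*} [Field k] {ι : Type*} {e m : ℕ} (hm : 1 ≤ m)
    (F : MvPolynomial ι k) (h : (cyclicCover (RingHom.id k) e m F).Finite) :
    {x : ℙ k (ι → k) | ∃ y : k, y ^ e = MvPolynomial.eval x.rep F}.Finite := by
  have hy : ∀ x : ↥{x : ℙ k (ι → k) | ∃ y : k, y ^ e = MvPolynomial.eval x.rep F},
      ∃ y : k, y ^ e = MvPolynomial.eval x.1.rep F := fun x => x.2
  choose y hy using hy
  have : Finite ↥(cyclicCover (RingHom.id k) e m F) := h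
  have hF : Function.Injective
      fun x : ↥{x : ℙ k (ι → k) | ∃ y : k, y ^ e = MvPolynomial.eval x.rep F} =>
      (⟨Projectivization.mk k (coverVec m x.1.rep (y x))
        (clo_coverVec_ne_zero x.1.rep_nonzero (y x)),
        ⟨x.1.rep, y x, clo_coverVec_ne_zero x.1.rep_nonzero (y x), hy x, rfl⟩⟩ :
        ↥(cyclicCover (RingHom.id k) e m F)) := by
    intro p q hpq
    have h1 := congrArg Subtype.val hpq
    dsimp only at h1
    rw [Projectivization.mk_eq_mk_iff'] at h1
    obtain ⟨t, ht⟩ := h1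
    obtain ⟨s, hs⟩ := one_coverVec_inj hm p.1.rep_nonzero ht.symm
    apply Subtype.ext
    rw [← p.1.mk_rep, ← q.1.mk_rep, Projectivization.mk_eq_mk_iff']
    exact ⟨s, hs.symm⟩
  exact Finite.of_injective _ hF

private lemma one_eval_int {ι : Type*} (F : MvPolynomial ι ℤ) (v : ι → ℤ) :
    MvPolynomial.eval (fun i => (v i : ℚ)) (MvPolynomial.map (Int.castRingHom ℚ) F) =
      ((MvPolynomial.eval v F : ℤ) : ℚ) := by
  rw [eval_map]
  have := eval₂_comp_left (Int.castRingHom ℚ) (RingHom.id ℤ) v F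
  rw [RingHom.comp_id] at this
  exact this.symm

private lemma one_cover_map {ι : Type*} (e m : ℕ) (F : MvPolynomial ι ℤ) :
    cyclicCover (algebraMap ℚ ℂ) e m (MvPolynomial.map (Int.castRingHom ℚ) F) =
      cyclicCover (Int.castRingHom ℂ) e m F := by
  have h1 : ∀ x : ι → ℂ, (MvPolynomial.map (Int.castRingHom ℚ) F).eval₂ (algebraMap ℚ ℂ) x =
      F.eval₂ (Int.castRingHom ℂ) x := by
    intro x
    rw [eval₂_map, Subsingleton.elim ((algebraMap ℚ ℂ).comp (Int.castRingHom ℚ))
      (Int.castRingHom ℂ)]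
  simp only [cyclicCover, h1]


/-- finiteness for arbitrary finite index types, with the dimension -/
private lemma one_of_dim {k : Type} [Field k] {d : ℕ} (h1 : FiniteInDim k d)
    (hKDREN : S_KDREN) {ι : Type} [Fintype ι] [Nonempty ι] {S : Set (MvPolynomial ι k)}
    (hS : Homog S)
    (hdim : ringKrullDim (MvPolynomial ι k ⧸ Ideal.span S) ≤ ((d + 1 : ℕ) : WithBot ℕ∞))
    (hZ : ∀ σ : k →+* ℂ, BrodyHyperbolic (points σ S)) : (points (RingHom.id k) S).Finite := by
  obtain ⟨n, hn⟩ : ∃ n, Fintype.card ι = n + 1 :=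
    ⟨Fintype.card ι - 1, by have := Fintype.card_pos (α := ι); omega⟩
  let e : ι ≃ Fin (n + 1) := Fintype.equivFinOfCardEq hn
  have hS' := one_homog_rename e hS
  refine finite_transfer (fun x => x ∘ e.symm) ?_ ?_ hS' ?_ (h1 n (rename e '' S) hS' ?_ ?_)
  · intro x hx h0
    apply hx
    funext i
    simpa using congrFun h0 (e i)
  · rintro x y - - ⟨t, ht⟩
    refine ⟨t, ?_⟩
    funext i
    simpa using congrFun ht (e i)
  · rintro x hx _ ⟨P, hP, rfl⟩
    rw [eval₂_rename]
    have h2 : (x ∘ e.symm) ∘ e = x := by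
      funext i
      simp
    rw [h2]
    exact hx P hP
  · rw [(hKDREN ι (Fin (n + 1)) k e).1 S]
    exact hdim
  · intro σ
    exact (one_brody_rename e hS σ (hZ σ)).kobayashi (pclosed_points hS' σ)

/-- the dimension of the cover -/
private lemma one_dim (hKD3 : S_KD3) {n e m : ℕ} (he : 1 ≤ e) (hm : 1 ≤ m)
    {F : MvPolynomial (Fin (n + 1)) ℚ} (hF : F.IsHomogeneous (e * m))
    {S : Set (MvPolynomial (Option (Fin m → Fin (n + 1))) ℚ)} (hS : Homog S)
    (hpts : ∀ (K : Type) [Field K] (τ : ℚ →+* K), points τ S = cyclicCover τ e m F) :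
    ringKrullDim (MvPolynomial (Option (Fin m → Fin (n + 1))) ℚ ⧸ Ideal.span S) ≤
      ((n + 1 : ℕ) : WithBot ℕ∞) := by
  refine hKD3 _ ℚ S hS (n + 1) (fun j => X (some fun _ => j)) (fun j => isHomogeneous_X _ _) ?_
  intro x hx hl
  by_contra hx0
  have hp : Projectivization.mk (AlgebraicClosure ℚ) x hx0 ∈
      points (algebraMap ℚ (AlgebraicClosure ℚ)) S := by
    rw [mem_points_mk hS]
    exact hx
  rw [hpts] at hp
  obtain ⟨x', y, h, hy, heq⟩ := hp
  rw [Projectivization.mk_eq_mk_iff'] at heq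
  obtain ⟨t, ht⟩ := heq
  have ht0 : t ≠ 0 := by
    rintro rfl
    rw [zero_smul] at ht
    exact hx0 ht.symm
  have hx' : x' = 0 := by
    funext j
    have h1 := congrFun ht (some fun _ => j)
    have h2 : x (some fun _ => j) = 0 := by
      have := hl j
      rwa [aeval_X] at this
    rw [h2, Pi.smul_apply, smul_eq_mul, mul_eq_zero] at h1
    have h3 := h1.resolve_left ht0
    simp only [coverVec, Finset.prod_const, Finset.card_univ, Fintype.card_fin] at h3
    exact (pow_eq_zero_iff (by omega)).1 h3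
  subst hx'
  have h4 : F.eval₂ (algebraMap ℚ (AlgebraicClosure ℚ)) 0 = 0 := by
    have h5 := eval₂_smul_homog hF (algebraMap ℚ (AlgebraicClosure ℚ)) 0 0
    rw [zero_smul, zero_pow (by
      have : 0 < e * m := Nat.mul_pos he hm
      omega), zero_mul] at h5
    exact h5
  rw [h4] at hy
  have hy0 : y = 0 := (pow_eq_zero_iff (by omega)).1 hy
  apply h
  funext α
  cases α with
  | none => exact hy0
  | some α =>
    show ∏ a, (0 : Fin (n + 1) → AlgebraicClosure ℚ) (α a) = 0
    refine Finset.prod_eq_zero (Finset.mem_univ (⟨0, hm⟩ : Fin m)) rfl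

theorem p_ONE (hEQS : S_EQS) (hCLOSED : S_CLOSED) (hKD3 : S_KD3) (hKDREN : S_KDREN)
    (hPRIM : S_PRIM) : S_ONE := by
  intro e n he hfd m hm F hF hσ
  obtain ⟨S, hS, hpts⟩ := hEQS n ℚ e m he hm (MvPolynomial.map (Int.castRingHom ℚ) F) (hF.map _)
  have hfin0 : (points (RingHom.id ℚ) S).Finite := by
    refine one_of_dim hfd hKDREN hS (one_dim hKD3 he hm (hF.map _) hS hpts) fun σ => ?_
    rw [hpts ℂ σ, Subsingleton.elim σ (algebraMap ℚ ℂ), one_cover_map]
    exact hσ.brody
  rw [hpts ℚ (RingHom.id ℚ)] at hfin0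
  have hfin := one_finite_of_cover hm _ hfin0
  refine (hPRIM n _ hfin).subset ?_
  rintro x ⟨hx, y, hy⟩
  have hx0 : (fun i => (x i : ℚ)) ≠ 0 := by
    intro h0
    have h1 : IsUnit (0 : ℤ) := hx 0 fun i => by
      have := congrFun h0 i
      have h2 : x i = 0 := by
        have h3 : (x i : ℚ) = 0 := this
        exact_mod_cast h3
      rw [h2]
    exact not_isUnit_zero h1
  refine ⟨hx, hx0, ?_⟩
  obtain ⟨t, ht, hrep⟩ := exists_rep_eq
    (p := Projectivization.mk ℚ (fun i => (x i : ℚ)) hx0) (hv := hx0) rfl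
  refine ⟨t ^ m * y, ?_⟩
  rw [hrep]
  have h1 := eval₂_smul_homog (hF.map (Int.castRingHom ℚ)) (RingHom.id ℚ) t
    (fun i => (x i : ℚ))
  have h2 := one_eval_int F x
  rw [← hy] at h2
  rw [eval₂_id, eval₂_id, h2] at h1
  rw [h1, mul_pow, ← pow_mul, mul_comm m e]
  push_cast
  ring

end Pool.Agent.Lib.MP_627a61_nt
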