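import Pool.Agent.Lib.MP_627a61_nt.Cy.NStm
import Pool.Agent.Lib.MP_627a61_nt.Smooth

/-!
# PERT: smooth members of the pencil `M F + E` on a coordinate subspace
-/

open scoped LinearAlgebra.Projectivization Topology
open Filter MvPolynomial

namespace Pool.Agent.Lib.MP_627a61_nt

section

attribute [local instance] MvPolynomial.gradedAlgebra

private lemma PERT_comp {ι : Type} {k : Type} [Field k] {F : MvPolynomial ι k} {e : ℕ}
    (hF : F.IsHomogeneous e) (h : MvPolynomial ι k) (n : ℕ) (hen : e ≤ n) :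
    homogeneousComponent n (h * F) = homogeneousComponent (n - e) h * F := by
  have hF' : F ∈ homogeneousSubmodule ι k e := hF
  have key : ∀ (i : ℕ) (P : MvPolynomial ι k),
      (DirectSum.decompose (homogeneousSubmodule ι k) P i : MvPolynomial ι k) =
        homogeneousComponent i P := fun i P => decomposition.decompose'_apply P i
  rw [← key, ← key]
  exact DirectSum.coe_decompose_mul_of_right_mem_of_le _ hF' hen

end

private lemma PERT_monos {ι : Type} [Fintype ι] {k : Type} [Field k]
    {I : Ideal (MvPolynomial ι k)} (h : ∀ α, ∃ N : ℕ, (X α : MvPolynomial ι k) ^ N ∈ I) :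
    ∃ N : ℕ, ∀ m : ι →₀ ℕ, N ≤ m.degree → monomial m (1 : k) ∈ I := by
  classical
  choose N hN using h
  refine ⟨∑ α, N α + 1, fun m hm => ?_⟩
  have h1 : ∃ α, N α ≤ m α := by
    by_contra hc
    push Not at hc
    have h2 : m.degree = ∑ α, m α := Finsupp.degree_eq_sum m
    have h3 : ∑ α, m α ≤ ∑ α, N α := Finset.sum_le_sum fun α _ => (hc α).le
    omega
  obtain ⟨α, hα⟩ := h1
  have h2 : monomial m (1 : k) =
      monomial (m - Finsupp.single α (N α)) (1 : k) * X α ^ N α := by
    rw [X_pow_eq_monomial, monomial_mul, one_mul, tsub_add_cancel_of_le]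
    exact Finsupp.single_le_iff.2 hα
  rw [h2]
  exact Ideal.mul_mem_left _ _ (hN α)

/-- The decomposition of the monomials of large degree. -/
private lemma PERT_dec {ι K : Type} [Fintype ι] [DecidableEq ι] [Field K] [IsAlgClosed K]
    {E : MvPolynomial ι K} {t : ℕ} (hE : E.IsHomogeneous t)
    (hs : ∀ x : ι → K, (∀ a, MvPolynomial.eval x (pderiv a E) = 0) → x = 0) :
    ∃ R : ℕ, t - 1 ≤ R ∧
      ∀ α ∈ (Finset.univ : Finset ι).finsuppAntidiag R, ∃ A : ι → MvPolynomial ι K,
        (∀ i, (A i).IsHomogeneous (R - (t - 1))) ∧ ∑ i, A i * pderiv i E = monomial α 1 := by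
  set I : Ideal (MvPolynomial ι K) := Ideal.span (Set.range fun a => pderiv a E) with hI
  have h1 : ∀ α, ∃ N : ℕ, (X α : MvPolynomial ι K) ^ N ∈ I := by
    intro α
    have h2 : (X α : MvPolynomial ι K) ∈ I.radical := by
      rw [← MvPolynomial.vanishingIdeal_zeroLocus_eq_radical (K := K) I]
      rw [MvPolynomial.mem_vanishingIdeal_iff]
      intro x hx
      have h3 : x = 0 := by
        apply hs
        intro a
        have h4 := hx (pderiv a E) (Ideal.subset_span ⟨a, rfl⟩)
        rw [← h4]
        rfl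
      rw [h3]
      simp
    exact h2
  obtain ⟨N, hN⟩ := PERT_monos h1
  refine ⟨N + (t - 1), by omega, ?_⟩
  intro α hα
  rw [Finset.mem_finsuppAntidiag] at hα
  have hdeg : α.degree = N + (t - 1) := by
    rw [Finsupp.degree_eq_sum]
    exact hα.1
  have hmem := hN α (by omega)
  obtain ⟨c, hc⟩ := Ideal.mem_span_range_iff_exists_fun.1 hmem
  refine ⟨fun i => homogeneousComponent (N + (t - 1) - (t - 1)) (c i),
    fun i => homogeneousComponent_isHomogeneous _ _, ?_⟩
  have h5 : homogeneousComponent (N + (t - 1)) (monomial α (1 : K)) = monomial α 1 :=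
    homogeneousComponent_eq_self (isHomogeneous_monomial _ hdeg)
  rw [← h5, ← hc, map_sum]
  refine Finset.sum_congr rfl fun i _ => ?_
  exact (PERT_comp (isHomogeneous_pderiv hE i) (c i) _ (by omega)).symm

theorem p_PERT (hRES : S_RES) : S_PERT := by
  intro V k _ _ _ t ht F E hF hE A hA
  classical
  obtain ⟨r1, r2, r3, r4⟩ := hRES V k A E
  obtain ⟨q1, q2, q3, q4⟩ := hRES V k A F
  obtain ⟨R, hR, hdec⟩ := PERT_dec (r1 t hE) (r4.1 hA)
  have hfin := finite_singular (k := AlgebraicClosure k) (K := AlgebraicClosure k)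
    (q1 t hF) hR hdec
  rw [← Nat.cofinite_eq_atTop]
  refine Set.Finite.subset hfin ?_
  intro M hM
  have hM' : ¬ SmoothOn (C (M : k) * F + E) A := hM
  rw [(hRES V k A (C (M : k) * F + E)).2.2.2] at hM'
  push Not at hM'
  obtain ⟨x, hx, hx0⟩ := hM'
  refine ⟨x, hx0, fun i => ?_⟩
  have h6 : resP A (C (M : k) * F + E) =
      (M : MvPolynomial A (AlgebraicClosure k)) * resP A F + resP A E := by
    rw [map_add, map_mul, map_natCast C M, map_natCast]
  rw [← h6]
  exact hx i

end Pool.Agent.Lib.MP_627a61_nt
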