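import Pool.Agent.Lib.MP_627a61_nt.Cy.NStm

/-!
# RADH: the radical of a form
-/

open MvPolynomial

namespace Pool.Agent.Lib.MP_627a61_nt

section RADH

variable {V k : Type} [Field k]

/-- the homogenisation `X_i ↦ T X_i` -/
private noncomputable def RADH_phi :
    MvPolynomial V k →ₐ[k] Polynomial (MvPolynomial V k) :=
  aeval fun i => Polynomial.C (X i) * Polynomial.X

private lemma RADH_phi_monomial (d : V →₀ ℕ) (r : k) :
    RADH_phi (monomial d r) = Polynomial.C (monomial d r) * Polynomial.X ^ d.degree := by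
  unfold RADH_phi
  rw [aeval_monomial, monomial_eq, Finsupp.prod, Finsupp.prod, Finsupp.degree_apply]
  simp only [mul_pow, Finset.prod_mul_distrib, Finset.prod_pow_eq_pow_sum, map_mul, map_prod,
    map_pow]
  rw [← mul_assoc]
  rfl

private lemma RADH_coeff (A : MvPolynomial V k) (d : V →₀ ℕ) (n : ℕ) :
    coeff d ((RADH_phi A).coeff n) = if d.degree = n then coeff d A else 0 := by
  classical
  induction A using MvPolynomial.induction_on' with
  | monomial e r =>
    rw [RADH_phi_monomial, Polynomial.coeff_C_mul_X_pow, coeff_monomial]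
    by_cases h1 : n = e.degree
    · rw [if_pos h1, coeff_monomial]
      by_cases h2 : e = d
      · rw [if_pos h2, if_pos (by rw [h1, h2])]
      · rw [if_neg h2]
        split_ifs <;> rfl
    · rw [if_neg h1, coeff_zero]
      by_cases h2 : e = d
      · rw [if_neg]
        intro h3
        exact h1 (by rw [← h3, h2])
      · rw [if_neg h2]
        split_ifs <;> rfl
  | add p q hp hq =>
    rw [map_add, Polynomial.coeff_add, coeff_add, hp, hq, coeff_add]
    split_ifs
    · rfl
    · rw [add_zero]

private lemma RADH_inj (A : MvPolynomial V k) (hA : A ≠ 0) : RADH_phi A ≠ 0 := by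
  intro h
  apply hA
  ext d
  have h1 := RADH_coeff A d d.degree
  rw [h, if_pos rfl, Polynomial.coeff_zero] at h1
  exact h1.symm

private lemma RADH_homog {A B G : MvPolynomial V k} {δ : ℕ} (hG : G.IsHomogeneous δ) (h0 : G ≠ 0)
    (hAB : G = A * B) : ∃ a, A.IsHomogeneous a := by
  have hA : A ≠ 0 := fun h => h0 (by rw [hAB, h, zero_mul])
  have hB : B ≠ 0 := fun h => h0 (by rw [hAB, h, mul_zero])
  have hA' := RADH_inj A hA
  have hB' := RADH_inj B hB
  have h1 : RADH_phi G = Polynomial.C G * Polynomial.X ^ δ := by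
    ext n d
    rw [RADH_coeff, Polynomial.coeff_C_mul_X_pow]
    by_cases h : d.degree = n
    · rw [if_pos h]
      by_cases h2 : n = δ
      · rw [if_pos h2]
      · rw [if_neg h2, coeff_zero]
        exact hG.coeff_eq_zero (by rw [h]; exact h2)
    · rw [if_neg h]
      by_cases h2 : n = δ
      · rw [if_pos h2]
        exact (hG.coeff_eq_zero (by rw [← h2]; exact h)).symm
      · rw [if_neg h2, coeff_zero]
  have h2 : RADH_phi A * RADH_phi B = Polynomial.C G * Polynomial.X ^ δ := by
    rw [← map_mul, ← hAB, h1]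
  have h3 : (RADH_phi A).natDegree + (RADH_phi B).natDegree = δ := by
    rw [← Polynomial.natDegree_mul hA' hB', h2, Polynomial.natDegree_C_mul_X_pow _ _ h0]
  have h4 : (RADH_phi A).natTrailingDegree + (RADH_phi B).natTrailingDegree = δ := by
    rw [← Polynomial.natTrailingDegree_mul hA' hB', h2]
    rw [Polynomial.C_mul_X_pow_eq_monomial, Polynomial.natTrailingDegree_monomial h0]
  have h5 := Polynomial.natTrailingDegree_le_natDegree (RADH_phi A)
  have h6 := Polynomial.natTrailingDegree_le_natDegree (RADH_phi B)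
  have h7 : (RADH_phi A).natTrailingDegree = (RADH_phi A).natDegree := by omega
  refine ⟨(RADH_phi A).natDegree, ?_⟩
  intro d hd
  have h10 : (Finsupp.weight (1 : V → ℕ)) d = d.degree :=
    (DFunLike.congr_fun Finsupp.degree_eq_weight_one d).symm
  rw [h10]
  by_contra hne
  have h8 := RADH_coeff A d d.degree
  rw [if_pos rfl] at h8
  have h9 : (RADH_phi A).coeff d.degree = 0 := by
    rcases lt_or_gt_of_ne hne with h | h
    · exact Polynomial.coeff_eq_zero_of_lt_natTrailingDegree (by rw [h7]; exact h)
    · exact Polynomial.coeff_eq_zero_of_natDegree_lt h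
  rw [h9, coeff_zero] at h8
  exact hd h8.symm

end RADH

/-- RADH. The radical of a form. -/
theorem p_RADH : S_RADH := by
  intro n k _ G δ h0 hG
  classical
  let _ : StrongNormalizationMonoid (MvPolynomial (Fin n) k) :=
    UniqueFactorizationMonoid.strongNormalizationMonoid
  obtain ⟨B, hB⟩ : UniqueFactorizationMonoid.radical G ∣ G :=
    UniqueFactorizationMonoid.radical_dvd_self
  obtain ⟨a, ha⟩ := RADH_homog hG h0 hB
  obtain ⟨m, hm⟩ := UniqueFactorizationMonoid.exists_dvd_radical_self_pow h0
  refine ⟨a, UniqueFactorizationMonoid.radical G, ha,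
    UniqueFactorizationMonoid.squarefree_radical, fun L _ τ x => ⟨fun h => ?_, fun h => ?_⟩⟩
  · obtain ⟨B', hB'⟩ := (⟨B, hB⟩ : UniqueFactorizationMonoid.radical G ∣ G)
    rw [hB', eval₂_mul, h, zero_mul]
  · obtain ⟨D, hD⟩ := hm
    have h1 : (eval₂Hom τ x) (UniqueFactorizationMonoid.radical G) ^ m = 0 := by
      rw [← map_pow, hD, map_mul]
      have h2 : (eval₂Hom τ x) G = 0 := h
      rw [h2, zero_mul]
    exact eq_zero_of_pow_eq_zero h1

end Pool.Agent.Lib.MP_627a61_nt
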