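import Pool.Agent.Lib.MP_627a61_nt.Cy.NStm

/-!
# RES: restriction of polynomials to coordinate subspaces
-/

set_option autoImplicit false

open scoped LinearAlgebra.Projectivization Topology
open Filter MvPolynomial

namespace Pool.Agent.Lib.MP_627a61_nt

private theorem RES_X_mem {V k : Type} [Field k] (A : Set V) {v : V} (h : v ∈ A) :
    resP A (X v : MvPolynomial V k) = X ⟨v, h⟩ := by
  unfold resP
  rw [aeval_X, dif_pos h]

private theorem RES_X_notMem {V k : Type} [Field k] (A : Set V) {v : V} (h : v ∉ A) :
    resP A (X v : MvPolynomial V k) = 0 := by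
  unfold resP
  rw [aeval_X, dif_neg h]

private theorem RES_C {V k : Type} [Field k] (A : Set V) (c : k) :
    resP A (C c : MvPolynomial V k) = C (algebraMap k (AlgebraicClosure k) c) := by
  unfold resP
  rw [aeval_C]
  rfl

private theorem RES_hom {V k : Type} [Field k] (A : Set V) (Q : MvPolynomial V k) (t : ℕ)
    (hQ : Q.IsHomogeneous t) : (resP A Q).IsHomogeneous t := by
  have h1 : ∀ v : V, (resP A (X v : MvPolynomial V k)).IsHomogeneous 1 := by
    intro v
    by_cases h : v ∈ A
    · rw [RES_X_mem A h]; exact isHomogeneous_X _ _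
    · rw [RES_X_notMem A h]; exact isHomogeneous_zero _ _ _
  have h2 := hQ.eval₂ (algebraMap k (MvPolynomial A (AlgebraicClosure k)))
    (fun v => resP A (X v : MvPolynomial V k)) (fun r => isHomogeneous_C _ _) h1
  rw [one_mul] at h2
  have h3 : resP A Q = eval₂ (algebraMap k (MvPolynomial A (AlgebraicClosure k)))
      (fun v => resP A (X v : MvPolynomial V k)) Q := by
    have h4 : (resP A : MvPolynomial V k →ₐ[k] _) =
        aeval (fun v => resP A (X v : MvPolynomial V k)) := by
      apply MvPolynomial.algHom_ext
      intro v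
      rw [aeval_X]
    conv_lhs => rw [h4]
    rfl
  rw [h3]
  exact h2

private theorem RES_eval {V k : Type} [Field k] (A : Set V) (Q : MvPolynomial V k)
    (x : A → AlgebraicClosure k) : MvPolynomial.eval x (resP A Q) = aeval (extZ A x) Q := by
  induction Q using MvPolynomial.induction_on with
  | C c => rw [RES_C, eval_C, aeval_C]
  | add p q hp hq => rw [map_add, map_add, map_add, hp, hq]
  | mul_X p v hp =>
    rw [map_mul, map_mul, map_mul, hp, aeval_X]
    congr 1
    by_cases h : v ∈ A
    · rw [RES_X_mem A h, eval_X, extZ, dif_pos h]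
    · rw [RES_X_notMem A h, map_zero, extZ, dif_neg h]

private theorem RES_pderiv {V k : Type} [Field k] (A : Set V) (Q : MvPolynomial V k) (a : A) :
    pderiv a (resP A Q) = resP A (pderiv a.1 Q) := by
  classical
  induction Q using MvPolynomial.induction_on with
  | C c => rw [RES_C, pderiv_C, pderiv_C, map_zero]
  | add p q hp hq => rw [map_add, map_add, map_add, map_add, hp, hq]
  | mul_X p v hp =>
    rw [map_mul, pderiv_mul, pderiv_mul, hp, map_add, map_mul, map_mul]
    congr 2
    by_cases h : v ∈ A
    · rw [RES_X_mem A h, pderiv_X, pderiv_X]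
      by_cases hv : v = a.1
      · have h2 : (⟨v, h⟩ : A) = a := Subtype.ext hv
        rw [h2, hv, Pi.single_eq_same, Pi.single_eq_same, map_one]
      · have h2 : (⟨v, h⟩ : A) ≠ a := fun h3 => hv (congrArg Subtype.val h3)
        rw [Pi.single_eq_of_ne h2, Pi.single_eq_of_ne hv, map_zero]
    · rw [RES_X_notMem A h, map_zero, pderiv_X, Pi.single_eq_of_ne, map_zero]
      intro h2
      exact h (h2 ▸ a.2)

/-- **RES** -/
theorem p_RES : S_RES := by
  intro V k _ A Q
  refine ⟨fun t hQ => RES_hom A Q t hQ, RES_eval A Q, RES_pderiv A Q, ?_⟩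
  have h1 : ∀ (x : A → AlgebraicClosure k) (a : A),
      MvPolynomial.eval x (pderiv a (resP A Q)) = aeval (extZ A x) (pderiv a.1 Q) := by
    intro x a
    rw [RES_pderiv, RES_eval]
  constructor
  · intro h x hx
    have h2 : extZ A x = 0 := by
      apply h
      · intro v hv
        rw [extZ, dif_neg hv]
      · intro v hv
        have := hx ⟨v, hv⟩
        rwa [h1] at this
    funext a
    have h3 := congrFun h2 a.1
    rw [extZ, dif_pos a.2] at h3
    exact h3
  · intro h x hx hd
    have h2 : extZ A (fun a : A => x a.1) = x := by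
      funext v
      by_cases hv : v ∈ A
      · rw [extZ, dif_pos hv]
      · rw [extZ, dif_neg hv, hx v hv]
    have h3 : (fun a : A => x a.1) = 0 := by
      apply h
      intro a
      rw [h1, h2]
      exact hd a.1 a.2
    rw [← h2, h3]
    funext v
    by_cases hv : v ∈ A
    · rw [extZ, dif_pos hv]; rfl
    · rw [extZ, dif_neg hv]; rfl

end Pool.Agent.Lib.MP_627a61_nt
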