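import Pool.Agent.Lib.MP_627a61_nt.Cy.NStm

/-!
# Piece SEPL: a squarefree form has no multiple zeros on some line (helper98)
-/

open scoped LinearAlgebra.Projectivization Topology
open Filter MvPolynomial

namespace Pool.Agent.Lib.MP_627a61_nt

/-! ### Polynomials in one variable over a domain -/

/-- top coefficients of products -/
theorem SEPL_prod {ι S : Type} [CommRing S] (s : Finset ι) (h : ι → Polynomial S) (d : ι → ℕ)
    (H : ∀ i ∈ s, (h i).natDegree ≤ d i) :
    (∏ i ∈ s, h i).natDegree ≤ ∑ i ∈ s, d i ∧
      (∏ i ∈ s, h i).coeff (∑ i ∈ s, d i) = ∏ i ∈ s, (h i).coeff (d i) := by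
  classical
  induction s using Finset.induction_on with
  | empty => simp
  | insert a s ha ih =>
    obtain ⟨h1, h2⟩ := ih fun i hi => H i (Finset.mem_insert_of_mem hi)
    have h3 := H a (Finset.mem_insert_self a s)
    rw [Finset.prod_insert ha, Finset.sum_insert ha, Finset.prod_insert ha]
    refine ⟨Polynomial.natDegree_mul_le.trans (add_le_add h3 h1), ?_⟩
    rw [Polynomial.coeff_mul_add_eq_of_natDegree_le h3 h1, h2]

/-- a squarefree element is squarefree as a constant polynomial -/
theorem SEPL_C {S : Type} [CommRing S] [IsDomain S] {R : S} (hR : Squarefree R) (hR0 : R ≠ 0) :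
    Squarefree (Polynomial.C R) := by
  intro q hq
  have hCR : Polynomial.C R ≠ 0 := Polynomial.C_ne_zero.mpr hR0
  have hq0 : q ≠ 0 := by
    rintro rfl
    rw [mul_zero, zero_dvd_iff] at hq
    exact hCR hq
  have h1 := Polynomial.natDegree_le_of_dvd hq hCR
  rw [Polynomial.natDegree_mul hq0 hq0, Polynomial.natDegree_C] at h1
  have h2 : q.natDegree = 0 := by omega
  rw [Polynomial.natDegree_eq_zero] at h2
  obtain ⟨a, rfl⟩ := h2
  rw [← Polynomial.C_mul, Polynomial.C_dvd_iff_dvd_coeff] at hq
  have h3 := hq 0
  rw [Polynomial.coeff_C_zero] at h3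
  exact (hR a h3).map Polynomial.C

/-- a monic squarefree polynomial over a normal domain of characteristic zero and its derivative
have no common zero, explicitly -/
theorem SEPL_bezout {S : Type} [CommRing S] [IsDomain S] [IsIntegrallyClosed S] [CharZero S]
    (P : Polynomial S) (hP : P.Monic) (hsq : Squarefree P) :
    ∃ (a b : Polynomial S) (r : S), r ≠ 0 ∧
      a * P + b * Polynomial.derivative P = Polynomial.C r := by
  classical
  let K := FractionRing S
  have hinj : Function.Injective (algebraMap S K) := IsFractionRing.injective S K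
  have : CharZero K := charZero_of_injective_algebraMap hinj
  have hsqK : Squarefree (P.map (algebraMap S K)) := by
    intro Q hQ
    have hPK : P.map (algebraMap S K) ≠ 0 := (hP.map _).ne_zero
    have hQ0 : Q ≠ 0 := by
      rintro rfl
      rw [mul_zero, zero_dvd_iff] at hQ
      exact hPK hQ
    have hl : Q.leadingCoeff ≠ 0 := Polynomial.leadingCoeff_ne_zero.mpr hQ0
    obtain ⟨Q0, hQ0'⟩ := IsIntegrallyClosed.eq_map_mul_C_of_dvd K hP
      ((dvd_mul_right Q Q).trans hQ)
    have hmon : Q0.Monic := by
      have h1 := congrArg Polynomial.leadingCoeff hQ0'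
      rw [Polynomial.leadingCoeff_mul, Polynomial.leadingCoeff_C,
        Polynomial.leadingCoeff_map_of_injective hinj] at h1
      have h2 : algebraMap S K Q0.leadingCoeff = 1 := by
        have h3 : (algebraMap S K Q0.leadingCoeff - 1) * Q.leadingCoeff = 0 := by
          rw [sub_mul, h1, one_mul, sub_self]
        rcases mul_eq_zero.mp h3 with h4 | h4
        · exact sub_eq_zero.mp h4
        · exact absurd h4 hl
      exact hinj (by rw [h2, map_one])
    have hdvd : (Q0 * Q0).map (algebraMap S K) ∣ P.map (algebraMap S K) := by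
      refine dvd_trans ?_ hQ
      rw [Polynomial.map_mul]
      refine ⟨Polynomial.C Q.leadingCoeff * Polynomial.C Q.leadingCoeff, ?_⟩
      calc Q * Q = (Q0.map (algebraMap S K) * Polynomial.C Q.leadingCoeff) *
          (Q0.map (algebraMap S K) * Polynomial.C Q.leadingCoeff) := by rw [hQ0']
        _ = _ := by ring
    rw [Polynomial.map_dvd_map _ hinj (hmon.mul hmon)] at hdvd
    have hu : IsUnit Q0 := hsq Q0 hdvd
    rw [← hQ0']
    exact (hu.map (Polynomial.mapRingHom (algebraMap S K))).mul
      ((isUnit_iff_ne_zero.mpr hl).map Polynomial.C)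
  have hsep : (P.map (algebraMap S K)).Separable := PerfectField.separable_iff_squarefree.mpr hsqK
  obtain ⟨a', b', hab⟩ := hsep
  obtain ⟨ba, hba, ha⟩ := IsLocalization.integerNormalization_spec (nonZeroDivisors S) a'
  obtain ⟨bb, hbb, hb⟩ := IsLocalization.integerNormalization_spec (nonZeroDivisors S) b'
  set A := IsLocalization.integerNormalization (nonZeroDivisors S) a'
  set B := IsLocalization.integerNormalization (nonZeroDivisors S) b'
  refine ⟨Polynomial.C bb * A, Polynomial.C ba * B, ba * bb,
    mul_ne_zero (nonZeroDivisors.ne_zero hba) (nonZeroDivisors.ne_zero hbb), ?_⟩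
  apply Polynomial.map_injective (algebraMap S K) hinj
  have e1 : A.map (algebraMap S K) = Polynomial.C (algebraMap S K ba) * a' := by
    rw [ha, ← Polynomial.smul_eq_C_mul]
    exact algebra_compatible_smul K ba a'
  have e2 : B.map (algebraMap S K) = Polynomial.C (algebraMap S K bb) * b' := by
    rw [hb, ← Polynomial.smul_eq_C_mul]
    exact algebra_compatible_smul K bb b'
  rw [Polynomial.map_add, Polynomial.map_mul, Polynomial.map_mul, Polynomial.map_mul,
    Polynomial.map_mul, Polynomial.map_C, Polynomial.map_C, Polynomial.map_C, e1, e2,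
    ← Polynomial.derivative_map, map_mul, Polynomial.C_mul]
  linear_combination (Polynomial.C (algebraMap S K ba) * Polynomial.C (algebraMap S K bb)) * hab

/-! ### The translation in direction `v` -/

section

variable {n : ℕ} {k : Type} [Field k]

/-- `R ↦ R (x + T v)` -/
noncomputable def SEPL_tr (v : Fin n → k) :
    MvPolynomial (Fin n) k →+* Polynomial (MvPolynomial (Fin n) k) :=
  MvPolynomial.eval₂Hom (Polynomial.C.comp MvPolynomial.C)
    (fun i => Polynomial.C (X i) + Polynomial.C (C (v i)) * Polynomial.X)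

/-- the automorphism `X i ↦ X i + T v i`, `T ↦ T` -/
noncomputable def SEPL_au (v : Fin n → k) :
    Polynomial (MvPolynomial (Fin n) k) →+* Polynomial (MvPolynomial (Fin n) k) :=
  Polynomial.eval₂RingHom (SEPL_tr v) Polynomial.X

theorem SEPL_au_C (v : Fin n → k) (R : MvPolynomial (Fin n) k) :
    SEPL_au v (Polynomial.C R) = SEPL_tr v R := by
  unfold SEPL_au
  rw [Polynomial.coe_eval₂RingHom, Polynomial.eval₂_C]

theorem SEPL_au_X (v : Fin n → k) : SEPL_au v Polynomial.X = Polynomial.X := by
  unfold SEPL_au
  rw [Polynomial.coe_eval₂RingHom, Polynomial.eval₂_X]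

theorem SEPL_tr_C (v : Fin n → k) (a : k) : SEPL_tr v (C a) = Polynomial.C (C a) := by
  unfold SEPL_tr
  rw [MvPolynomial.coe_eval₂Hom, MvPolynomial.eval₂_C]
  rfl

theorem SEPL_tr_X (v : Fin n → k) (i : Fin n) :
    SEPL_tr v (X i) = Polynomial.C (X i) + Polynomial.C (C (v i)) * Polynomial.X := by
  unfold SEPL_tr
  rw [MvPolynomial.coe_eval₂Hom, MvPolynomial.eval₂_X]

theorem SEPL_au_au (v w : Fin n → k) (h : ∀ i, v i + w i = 0)
    (q : Polynomial (MvPolynomial (Fin n) k)) : SEPL_au v (SEPL_au w q) = q := by
  have key : (SEPL_au v).comp (SEPL_au w) = RingHom.id _ := by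
    apply Polynomial.ringHom_ext'
    · apply MvPolynomial.ringHom_ext
      · intro a
        simp only [RingHom.comp_apply, RingHom.id_apply]
        rw [SEPL_au_C, SEPL_tr_C, SEPL_au_C, SEPL_tr_C]
      · intro i
        simp only [RingHom.comp_apply, RingHom.id_apply]
        rw [SEPL_au_C, SEPL_tr_X, map_add, map_mul, SEPL_au_C, SEPL_au_C, SEPL_au_X, SEPL_tr_C,
          SEPL_tr_X, add_assoc, ← add_mul, ← Polynomial.C_add, ← C_add, h i, C_0,
          Polynomial.C_0, zero_mul, add_zero]
    · simp only [RingHom.comp_apply, RingHom.id_apply]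
      rw [SEPL_au_X, SEPL_au_X]
  exact DFunLike.congr_fun key q

theorem SEPL_tr_squarefree (v : Fin n → k) {R : MvPolynomial (Fin n) k} (hR : Squarefree R) :
    Squarefree (SEPL_tr v R) := by
  have hR0 : R ≠ 0 := hR.ne_zero
  have hC := SEPL_C hR hR0
  intro q hq
  have h1 : SEPL_au (fun i => -v i) q * SEPL_au (fun i => -v i) q ∣ Polynomial.C R := by
    have h2 := map_dvd (SEPL_au (fun i => -v i)) hq
    rw [map_mul, ← SEPL_au_C, SEPL_au_au _ _ (fun i => neg_add_cancel (v i))] at h2
    exact h2
  have h3 := (hC _ h1).map (SEPL_au v)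
  rwa [SEPL_au_au _ _ (fun i => add_neg_cancel (v i))] at h3

/-- degree and leading coefficient -/
theorem SEPL_tr_coeff (v : Fin n → k) {R : MvPolynomial (Fin n) k} {δ : ℕ}
    (hR : R.IsHomogeneous δ) :
    (SEPL_tr v R).natDegree ≤ δ ∧ (SEPL_tr v R).coeff δ = C (MvPolynomial.eval v R) := by
  have hexp : SEPL_tr v R = ∑ d ∈ R.support, Polynomial.C (C (R.coeff d)) *
      ∏ i, (Polynomial.C (X i) + Polynomial.C (C (v i)) * Polynomial.X) ^ d i := by
    unfold SEPL_tr
    rw [MvPolynomial.coe_eval₂Hom, MvPolynomial.eval₂_eq']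
    rfl
  have hev : MvPolynomial.eval v R = ∑ d ∈ R.support, R.coeff d * ∏ i, v i ^ d i :=
    MvPolynomial.eval_eq' v R
  have hlin : ∀ i, (Polynomial.C (X i : MvPolynomial (Fin n) k) +
      Polynomial.C (C (v i)) * Polynomial.X).natDegree ≤ 1 ∧
      (Polynomial.C (X i : MvPolynomial (Fin n) k) +
      Polynomial.C (C (v i)) * Polynomial.X).coeff 1 = C (v i) := by
    intro i
    constructor
    · rw [add_comm]
      exact Polynomial.natDegree_linear_le
    · rw [Polynomial.coeff_add, Polynomial.coeff_C_mul, Polynomial.coeff_X_one, mul_one,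
        Polynomial.coeff_C, if_neg one_ne_zero, zero_add]
  have hterm : ∀ d ∈ R.support, (∏ i, (Polynomial.C (X i : MvPolynomial (Fin n) k) +
      Polynomial.C (C (v i)) * Polynomial.X) ^ d i).natDegree ≤ δ ∧
      (∏ i, (Polynomial.C (X i : MvPolynomial (Fin n) k) +
      Polynomial.C (C (v i)) * Polynomial.X) ^ d i).coeff δ = C (∏ i, v i ^ d i) := by
    intro d hd
    have hsum : ∑ i, d i = δ := by
      have h2 := hR (MvPolynomial.mem_support_iff.mp hd)
      have h4 : Finsupp.degree d = Finsupp.weight 1 d :=
        DFunLike.congr_fun (Finsupp.degree_eq_weight_one (R := ℕ)) d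
      rw [← h2, ← h4, Finsupp.degree_eq_sum]
    have h5 := SEPL_prod Finset.univ (fun i => (Polynomial.C (X i : MvPolynomial (Fin n) k) +
      Polynomial.C (C (v i)) * Polynomial.X) ^ d i) (fun i => d i) (fun i _ => by
        refine Polynomial.natDegree_pow_le.trans ?_
        calc d i * _ ≤ d i * 1 := Nat.mul_le_mul_left _ (hlin i).1
          _ = d i := mul_one _)
    rw [hsum] at h5
    refine ⟨h5.1, ?_⟩
    rw [h5.2, map_prod]
    apply Finset.prod_congr rfl
    intro i _
    have h6 := Polynomial.coeff_pow_of_natDegree_le (m := d i) (hlin i).1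
    rw [mul_one] at h6
    rw [h6, (hlin i).2, C_pow]
  constructor
  · rw [hexp]
    apply Polynomial.natDegree_sum_le_of_forall_le
    intro d hd
    exact (Polynomial.natDegree_C_mul_le _ _).trans (hterm d hd).1
  · rw [hexp, Polynomial.finset_sum_coeff, hev, map_sum]
    apply Finset.sum_congr rfl
    intro d hd
    rw [Polynomial.coeff_C_mul, (hterm d hd).2, C_mul]

/-- specialisation -/
theorem SEPL_tr_map {L : Type} [Field L] [Algebra k L] (v c : Fin n → k)
    (R : MvPolynomial (Fin n) k) :
    (SEPL_tr v R).map ((algebraMap k L).comp (MvPolynomial.eval c)) =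
      MvPolynomial.aeval (fun i => Polynomial.C (algebraMap k L (c i)) +
        Polynomial.C (algebraMap k L (v i)) * Polynomial.X) R := by
  have key : (Polynomial.mapRingHom ((algebraMap k L).comp (MvPolynomial.eval c))).comp
      (SEPL_tr v) = ((MvPolynomial.aeval (fun i => Polynomial.C (algebraMap k L (c i)) +
        Polynomial.C (algebraMap k L (v i)) * Polynomial.X) :
        MvPolynomial (Fin n) k →ₐ[k] Polynomial L) : MvPolynomial (Fin n) k →+* Polynomial L) := by
    apply MvPolynomial.ringHom_ext
    · intro a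
      simp only [RingHom.comp_apply]
      rw [SEPL_tr_C]
      simp
    · intro i
      simp only [RingHom.comp_apply]
      rw [SEPL_tr_X]
      simp
  exact DFunLike.congr_fun key R

end

/-! ### The line -/

/-- homogeneous polynomials and scaling -/
theorem SEPL_scale {n : ℕ} {k L : Type} [Field k] [Field L] [Algebra k L]
    {Q : MvPolynomial (Fin n) k} {a : ℕ} (hQ : Q.IsHomogeneous a) (t : L) (x : Fin n → L) :
    aeval (fun i => t * x i) Q = t ^ a * aeval x Q := by
  rw [MvPolynomial.aeval_def, MvPolynomial.aeval_def, MvPolynomial.eval₂_eq',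
    MvPolynomial.eval₂_eq', Finset.mul_sum]
  refine Finset.sum_congr rfl fun d hd => ?_
  have h1 : ∑ i, d i = a := by
    have h2 := hQ (MvPolynomial.mem_support_iff.mp hd)
    have h4 : Finsupp.degree d = Finsupp.weight 1 d :=
      DFunLike.congr_fun (Finsupp.degree_eq_weight_one (R := ℕ)) d
    rw [← h2, ← h4, Finsupp.degree_eq_sum]
  have h3 : ∏ i, (t * x i) ^ d i = t ^ a * ∏ i, x i ^ d i := by
    simp_rw [mul_pow]
    rw [Finset.prod_mul_distrib, Finset.prod_pow_eq_pow_sum, h1]
  rw [h3]
  ring

/-- the restriction to the line `(T, 1, 0, ...)` and derivatives -/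
theorem SEPL_deriv {n : ℕ} {k L : Type} [Field k] [Field L] [Algebra k L]
    (y : Fin (n + 1) → L) (Q : MvPolynomial (Fin (n + 1)) k) :
    Polynomial.derivative (aeval (Fin.cons Polynomial.X (fun i => Polynomial.C (y i.succ)) :
        Fin (n + 1) → Polynomial L) Q) =
      aeval (Fin.cons Polynomial.X (fun i => Polynomial.C (y i.succ)) :
        Fin (n + 1) → Polynomial L) (pderiv 0 Q) := by
  induction Q using MvPolynomial.induction_on with
  | C a =>
    rw [MvPolynomial.aeval_C, MvPolynomial.pderiv_C, map_zero, IsScalarTower.algebraMap_apply k L,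
      Polynomial.algebraMap_eq, Polynomial.derivative_C]
  | add p q hp hq => rw [map_add, Polynomial.derivative_add, hp, hq, map_add, map_add]
  | mul_X p i hp =>
    rw [map_mul, Polynomial.derivative_mul, hp, MvPolynomial.aeval_X, Derivation.leibniz,
      MvPolynomial.pderiv_X, map_add, smul_eq_mul, smul_eq_mul, map_mul, map_mul,
      MvPolynomial.aeval_X]
    refine Fin.cases ?_ (fun j => ?_) i
    · simp
      ring
    · have h1 : (Pi.single (0 : Fin (n + 1)) (1 : MvPolynomial (Fin (n + 1)) k) :
          Fin (n + 1) → MvPolynomial (Fin (n + 1)) k) j.succ = 0 := by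
        rw [Pi.single_eq_of_ne (Fin.succ_ne_zero j)]
      simp
      ring

/-- values of `subM A R` on the first coordinate line -/
theorem SEPL_val {N : ℕ} {k M : Type} [Field k] [CommRing M] [Algebra k M]
    (A : Matrix (Fin (N + 2)) (Fin (N + 2)) k) (R : MvPolynomial (Fin (N + 2)) k)
    (x : Fin (N + 2) → M) (hx : ∀ j, j ≠ 0 → j ≠ 1 → x j = 0) :
    aeval x (subM A R) = aeval (fun i => algebraMap k M (A i 0) * x 0 +
      algebraMap k M (A i 1) * x 1) R := by
  classical
  have h01 : (0 : Fin (N + 2)) ≠ 1 := by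
    intro h
    have := congrArg Fin.val h
    simp at this
  unfold subM
  rw [← AlgHom.comp_apply, MvPolynomial.comp_aeval]
  have hf : (fun i => aeval x (∑ j, C (A i j) * X j : MvPolynomial (Fin (N + 2)) k)) =
      fun i => algebraMap k M (A i 0) * x 0 + algebraMap k M (A i 1) * x 1 := by
    funext i
    rw [map_sum]
    have h1 : ∀ j, aeval x (C (A i j) * X j : MvPolynomial (Fin (N + 2)) k) =
        (if j = 0 then algebraMap k M (A i 0) * x 0 else 0) +
        (if j = 1 then algebraMap k M (A i 1) * x 1 else 0) := by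
      intro j
      rw [map_mul, MvPolynomial.aeval_C, MvPolynomial.aeval_X]
      by_cases hj0 : j = 0
      · subst hj0
        rw [if_pos rfl, if_neg h01, add_zero]
      · rw [if_neg hj0, zero_add]
        by_cases hj1 : j = 1
        · subst hj1
          rw [if_pos rfl]
        · rw [if_neg hj1, hx j hj0 hj1, mul_zero]
    rw [Finset.sum_congr rfl (fun j _ => h1 j), Finset.sum_add_distrib, Finset.sum_ite_eq',
      Finset.sum_ite_eq', if_pos (Finset.mem_univ _), if_pos (Finset.mem_univ _)]
  rw [hf]

/-- the computation on the line -/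
theorem SEPL_line {N : ℕ} {k L : Type} [Field k] [Field L] [Algebra k L]
    (A : Matrix (Fin (N + 2)) (Fin (N + 2)) k) (R : MvPolynomial (Fin (N + 2)) k)
    (a b : Polynomial (MvPolynomial (Fin (N + 2)) k)) (r : MvPolynomial (Fin (N + 2)) k)
    (hab : a * SEPL_tr (fun i => A i 0) R +
      b * Polynomial.derivative (SEPL_tr (fun i => A i 0) R) = Polynomial.C r)
    (y : Fin (N + 2) → L) (hy1 : y 1 = 1) (hyz : ∀ j, j ≠ 0 → j ≠ 1 → y j = 0)
    (hQy : aeval y (subM A R) = 0) (hDy : aeval y (pderiv 0 (subM A R)) = 0) :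
    algebraMap k L (MvPolynomial.eval (fun i => A i 1) r) = 0 := by
  set χ : Fin (N + 2) → Polynomial L :=
    Fin.cons Polynomial.X (fun i => Polynomial.C (y i.succ)) with hχ
  have hχ0 : χ 0 = Polynomial.X := rfl
  have hevχ : ∀ Q : MvPolynomial (Fin (N + 2)) k,
      Polynomial.eval (y 0) (aeval χ Q) = aeval y Q := by
    intro Q
    have h1 : Polynomial.eval (y 0) (aeval χ Q) =
        aeval (fun i => Polynomial.eval (y 0) (χ i)) Q := by
      rw [MvPolynomial.aeval_def, MvPolynomial.aeval_def, ← Polynomial.coe_evalRingHom,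
        MvPolynomial.eval₂_comp_left]
      congr 1
      ext z
      simp only [RingHom.comp_apply]
      rw [IsScalarTower.algebraMap_apply k L (Polynomial L), Polynomial.algebraMap_eq,
        Polynomial.coe_evalRingHom, Polynomial.eval_C]
    have h2 : (fun i => Polynomial.eval (y 0) (χ i)) = y := by
      funext i
      refine Fin.cases ?_ (fun j => ?_) i
      · rw [hχ0, Polynomial.eval_X]
      · rw [hχ, Fin.cons_succ, Polynomial.eval_C]
    rw [h1, h2]
  have hχz : ∀ j, j ≠ 0 → j ≠ 1 → χ j = 0 := by
    intro j h0 h1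
    obtain ⟨i, rfl⟩ := Fin.exists_succ_eq.mpr h0
    rw [hχ, Fin.cons_succ, hyz _ h0 h1, Polynomial.C_0]
  have hχ1 : χ 1 = 1 := by
    have h1 : χ 1 = Polynomial.C (y 1) := by
      have h2 : (1 : Fin (N + 2)) = Fin.succ 0 := rfl
      rw [h2, hχ, Fin.cons_succ]
    rw [h1, hy1, Polynomial.C_1]
  have hP : aeval χ (subM A R) = (SEPL_tr (fun i => A i 0) R).map
      ((algebraMap k L).comp (MvPolynomial.eval (fun i => A i 1))) := by
    rw [SEPL_val A R χ hχz, SEPL_tr_map]
    have hf : (fun i => algebraMap k (Polynomial L) (A i 0) * χ 0 +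
        algebraMap k (Polynomial L) (A i 1) * χ 1) =
        fun i => Polynomial.C (algebraMap k L (A i 1)) +
          Polynomial.C (algebraMap k L (A i 0)) * Polynomial.X := by
      funext i
      rw [hχ1, mul_one, hχ0, IsScalarTower.algebraMap_apply k L (Polynomial L),
        IsScalarTower.algebraMap_apply k L (Polynomial L), Polynomial.algebraMap_eq, add_comm]
    rw [hf]
  have hab' := congrArg (fun q => Polynomial.eval (y 0)
    (Polynomial.map ((algebraMap k L).comp (MvPolynomial.eval (fun i => A i 1))) q)) hab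
  simp only [Polynomial.map_add, Polynomial.map_mul, Polynomial.map_C, Polynomial.eval_add,
    Polynomial.eval_mul, Polynomial.eval_C] at hab'
  rw [← Polynomial.derivative_map, ← hP, hevχ, hQy, SEPL_deriv, hevχ, hDy, mul_zero, mul_zero,
    add_zero] at hab'
  exact hab'.symm

/-- PIECE SEPL -/
theorem p_SEPL : S_SEPL := by
  intro N k _ _ R δ hR hsq
  classical
  have hR0 : R ≠ 0 := hsq.ne_zero
  -- the first column
  obtain ⟨v, hv⟩ : ∃ v : Fin (N + 2) → k, MvPolynomial.eval v (R * X 0) ≠ 0 := by
    by_contra hc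
    push Not at hc
    have h1 : R * X 0 = 0 := MvPolynomial.funext (fun x => by rw [hc x, map_zero])
    exact mul_ne_zero hR0 (X_ne_zero 0) h1
  rw [map_mul, eval_X] at hv
  have hRv : MvPolynomial.eval v R ≠ 0 := left_ne_zero_of_mul hv
  have hv0 : v 0 ≠ 0 := right_ne_zero_of_mul hv
  -- separability over the function field
  have htr := SEPL_tr_coeff v hR
  obtain ⟨a, b, r, hr, hab⟩ : ∃ (a b : Polynomial (MvPolynomial (Fin (N + 2)) k))
      (r : MvPolynomial (Fin (N + 2)) k), r ≠ 0 ∧
      a * SEPL_tr v R + b * Polynomial.derivative (SEPL_tr v R) = Polynomial.C r := by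
    set u : k := (MvPolynomial.eval v R)⁻¹ with hu
    have hu0 : u ≠ 0 := inv_ne_zero hRv
    have hunit : IsUnit (Polynomial.C (C u : MvPolynomial (Fin (N + 2)) k)) :=
      ((isUnit_iff_ne_zero.mpr hu0).map C).map Polynomial.C
    have hmon : (Polynomial.C (C u : MvPolynomial (Fin (N + 2)) k) * SEPL_tr v R).Monic := by
      apply Polynomial.monic_of_natDegree_le_of_coeff_eq_one δ
      · exact (Polynomial.natDegree_C_mul_le _ _).trans htr.1
      · rw [Polynomial.coeff_C_mul, htr.2, ← C_mul, hu, inv_mul_cancel₀ hRv, C_1]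
    have hsq1 : Squarefree (Polynomial.C (C u : MvPolynomial (Fin (N + 2)) k) * SEPL_tr v R) := by
      intro q hq
      apply SEPL_tr_squarefree v hsq q
      exact (hunit.dvd_mul_left).mp hq
    have hch : CharZero (MvPolynomial (Fin (N + 2)) k) :=
      charZero_of_injective_algebraMap (R := k) (MvPolynomial.C_injective _ _)
    obtain ⟨a, b, r, hr, h⟩ := SEPL_bezout _ hmon hsq1
    refine ⟨a * Polynomial.C (C u), b * Polynomial.C (C u), r, hr, ?_⟩
    rw [← h, Polynomial.derivative_C_mul]
    ring
  -- the second column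
  obtain ⟨c, hc⟩ : ∃ c : Fin (N + 2) → k,
      MvPolynomial.eval c (r * (C (v 0) * X 1 - C (v 1) * X 0)) ≠ 0 := by
    by_contra hc
    push Not at hc
    have h1 : r * (C (v 0) * X 1 - C (v 1) * X 0) = 0 :=
      MvPolynomial.funext (fun x => by rw [hc x, map_zero])
    rcases mul_eq_zero.mp h1 with h2 | h2
    · exact hr h2
    · have h3 := congrArg (MvPolynomial.eval (Pi.single (1 : Fin (N + 2)) (1 : k))) h2
      simp at h3
      exact hv0 h3
  rw [map_mul] at hc
  have hrc : MvPolynomial.eval c r ≠ 0 := left_ne_zero_of_mul hc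
  have hdet : v 0 * c 1 - v 1 * c 0 ≠ 0 := by
    have h1 := right_ne_zero_of_mul hc
    simpa using h1
  -- the matrix
  let A : Matrix (Fin (N + 2)) (Fin (N + 2)) k := fun i j =>
    if j = 0 then v i else if j = 1 then c i else if i = j then 1 else 0
  have h01 : (0 : Fin (N + 2)) ≠ 1 := by
    intro h
    have := congrArg Fin.val h
    simp at this
  have hA : A.det ≠ 0 := by
    intro h0
    obtain ⟨x, hx0, hx⟩ := Matrix.exists_mulVec_eq_zero_iff.mpr h0
    apply hx0
    have hrow : ∀ i, v i * x 0 + c i * x 1 + (if i = 0 ∨ i = 1 then 0 else x i) = 0 := by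
      intro i
      have h1 := congrFun hx i
      rw [Matrix.mulVec, dotProduct, Pi.zero_apply] at h1
      have h2 : ∑ j, A i j * x j = v i * x 0 + c i * x 1 +
          (if i = 0 ∨ i = 1 then 0 else x i) := by
        have h3 : ∀ j, A i j * x j = (if j = 0 then v i * x 0 else 0) +
            (if j = 1 then c i * x 1 else 0) +
            (if j = i then (if i = 0 ∨ i = 1 then 0 else x i) else 0) := by
          intro j
          simp only [A]
          by_cases hj0 : j = 0
          · subst hj0
            rw [if_pos rfl, if_pos rfl, if_neg h01]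
            by_cases hi : (0 : Fin (N + 2)) = i
            · rw [if_pos hi, if_pos (Or.inl hi.symm)]; ring
            · rw [if_neg hi]; ring
          · rw [if_neg hj0, if_neg hj0]
            by_cases hj1 : j = 1
            · subst hj1
              rw [if_pos rfl, if_pos rfl]
              by_cases hi : (1 : Fin (N + 2)) = i
              · rw [if_pos hi, if_pos (Or.inr hi.symm)]; ring
              · rw [if_neg hi]; ring
            · rw [if_neg hj1, if_neg hj1]
              by_cases hi : i = j
              · subst hi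
                rw [if_pos rfl, if_pos rfl, if_neg (by tauto)]; ring
              · rw [if_neg hi, if_neg (fun h => hi h.symm)]; ring
        rw [Finset.sum_congr rfl (fun j _ => h3 j), Finset.sum_add_distrib,
          Finset.sum_add_distrib, Finset.sum_ite_eq', Finset.sum_ite_eq', Finset.sum_ite_eq']
        simp
      rw [← h2]
      exact h1
    have r0 := hrow 0
    have r1 := hrow 1
    rw [if_pos (Or.inl rfl)] at r0
    rw [if_pos (Or.inr rfl)] at r1
    have hx1 : x 1 = 0 := by
      have h1 : (v 0 * c 1 - v 1 * c 0) * x 1 = 0 := by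
        linear_combination v 0 * r1 - v 1 * r0
      exact (mul_eq_zero.mp h1).resolve_left hdet
    have hx0' : x 0 = 0 := by
      have h1 : v 0 * x 0 = 0 := by
        rw [hx1] at r0
        linear_combination r0
      exact (mul_eq_zero.mp h1).resolve_left hv0
    funext i
    by_cases hi : i = 0 ∨ i = 1
    · rcases hi with rfl | rfl
      · exact hx0'
      · exact hx1
    · have h1 := hrow i
      rw [if_neg hi, hx0', hx1, mul_zero, mul_zero, zero_add, zero_add] at h1
      exact h1
  have hAu : IsUnit A.det := isUnit_iff_ne_zero.mpr hA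
  refine ⟨A, A⁻¹, Matrix.mul_nonsing_inv A hAu, Matrix.nonsing_inv_mul A hAu, ?_⟩
  have hA0 : (fun i => A i 0) = v := by
    funext i
    simp only [A, if_true]
  have hA1 : (fun i => A i 1) = c := by
    funext i
    show (if (1 : Fin (N + 2)) = 0 then v i else if (1 : Fin (N + 2)) = 1 then c i else
      if i = 1 then 1 else 0) = c i
    rw [if_neg h01.symm, if_pos rfl]
  have hhom : (subM A R).IsHomogeneous δ := by
    unfold subM
    have h1 := MvPolynomial.IsHomogeneous.aeval hR
      (fun i => ∑ j, C (A i j) * X j : Fin (N + 2) → MvPolynomial (Fin (N + 2)) k) (n := 1)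
      (fun i => MvPolynomial.IsHomogeneous.sum _ _ _ fun j _ => by
        have := (MvPolynomial.isHomogeneous_C (Fin (N + 2)) (A i j)).mul
          (MvPolynomial.isHomogeneous_X k j)
        simpa using this)
    rwa [one_mul] at h1
  intro x hx0 hxz hxQ
  by_contra hcon
  rw [not_or, not_not, not_not] at hcon
  by_cases ht : x 1 = 0
  · -- the point `v`
    have hs : x 0 ≠ 0 := by
      intro hs
      apply hx0
      funext j
      by_cases hj0 : j = 0
      · rw [hj0]; exact hs
      · by_cases hj1 : j = 1
        · rw [hj1]; exact ht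
        · exact hxz j hj0 hj1
    have h1 : aeval (fun i => algebraMap k (AlgebraicClosure k) (A i 0) * x 0 +
        algebraMap k (AlgebraicClosure k) (A i 1) * x 1) R =
        x 0 ^ δ * algebraMap k (AlgebraicClosure k) (MvPolynomial.eval v R) := by
      have h2 : (fun i => algebraMap k (AlgebraicClosure k) (A i 0) * x 0 +
          algebraMap k (AlgebraicClosure k) (A i 1) * x 1) =
          fun i => x 0 * algebraMap k (AlgebraicClosure k) (v i) := by
        funext i
        rw [ht, mul_zero, add_zero, mul_comm, ← hA0]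
      rw [h2, SEPL_scale hR]
      congr 1
      exact (MvPolynomial.aeval_algebraMap_apply (AlgebraicClosure k) v R).trans
        (by rw [MvPolynomial.aeval_eq_eval])
    rw [SEPL_val A R x hxz, h1] at hxQ
    rcases mul_eq_zero.mp hxQ with h3 | h3
    · exact pow_ne_zero _ hs h3
    · exact hRv ((algebraMap k (AlgebraicClosure k)).injective (by rw [h3, map_zero]))
  · -- the points `s v + c`
    have hab2 : a * SEPL_tr (fun i => A i 0) R +
        b * Polynomial.derivative (SEPL_tr (fun i => A i 0) R) = Polynomial.C r := by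
      rw [hA0]
      exact hab
    have h3 := SEPL_line (L := AlgebraicClosure k) A R a b r hab2 (fun i => (x 1)⁻¹ * x i)
      (inv_mul_cancel₀ ht)
      (by
        intro j h0 h1
        show (x 1)⁻¹ * x j = 0
        rw [hxz j h0 h1, mul_zero])
      (by rw [SEPL_scale hhom, hxQ, mul_zero])
      (by rw [SEPL_scale hhom.pderiv, hcon.1, mul_zero])
    rw [hA1] at h3
    exact hrc ((algebraMap k (AlgebraicClosure k)).injective (by rw [h3, map_zero]))

end Pool.Agent.Lib.MP_627a61_nt
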