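import Pool.Agent.Lib.MP_627a61_nt.Cy.NStm

/-!
# Piece SMO: smooth forms on larger coordinate subspaces
-/

open scoped LinearAlgebra.Projectivization Topology
open Filter MvPolynomial

namespace Pool.Agent.Lib.MP_627a61_nt

open Classical in
/-- the form added for the pair `(a, b)` -/
private noncomputable def smoP {V k : Type} [Field k] (t : ℕ) (a : Option V) (b : V) :
    MvPolynomial V k :=
  X b ^ t + X b * a.elim 0 (fun a => X a ^ (t - 1))

private lemma smo_hom {V k : Type} [Field k] (t : ℕ) (ht : 2 ≤ t) (a : Option V) (b : V) :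
    (smoP (k := k) t a b).IsHomogeneous t := by
  unfold smoP
  have h1 : ((X b : MvPolynomial V k) ^ t).IsHomogeneous t := by
    simpa using (isHomogeneous_X k b).pow t
  refine h1.add ?_
  cases a with
  | none => simpa using isHomogeneous_zero V k t
  | some a =>
    have h2 : ((X a : MvPolynomial V k) ^ (t - 1)).IsHomogeneous (t - 1) := by
      simpa using (isHomogeneous_X k a).pow (t - 1)
    have h3 := (isHomogeneous_X k b).mul h2
    have e : 1 + (t - 1) = t := by omega
    rw [e] at h3
    exact h3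

private lemma smo_pd {V k : Type} [Field k] (t : ℕ) (_ht : 2 ≤ t) (a : Option V) (b v : V)
    (h1 : v ≠ b) (h2 : a ≠ some v) : pderiv v (smoP (k := k) t a b) = 0 := by
  unfold smoP
  have e1 : pderiv v (X b : MvPolynomial V k) = 0 := pderiv_X_of_ne (Ne.symm h1)
  cases a with
  | none => simp [Derivation.leibniz_pow, e1]
  | some a =>
    have h3 : a ≠ v := fun h => h2 (by rw [h])
    have e2 : pderiv v (X a : MvPolynomial V k) = 0 := pderiv_X_of_ne h3
    simp [Derivation.leibniz_pow, Derivation.leibniz, e1, e2]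

private lemma smo_eval {V k : Type} [Field k] (t : ℕ) (ht : 2 ≤ t) (a : Option V) (b : V)
    (x : V → k) (h : x b = 0) : MvPolynomial.eval x (smoP (k := k) t a b) = 0 := by
  unfold smoP
  have : t ≠ 0 := by omega
  simp [h, this]

private lemma smo_key {V k : Type} [Field k] [CharZero k] (t : ℕ) (ht : 2 ≤ t) (a : Option V)
    (b : V) (hab : a ≠ some b) (x : V → AlgebraicClosure k)
    (h1 : aeval x (smoP (k := k) t a b) = 0)
    (h2 : aeval x (pderiv b (smoP (k := k) t a b)) = 0) :
    x b = 0 ∧ (∀ v, a = some v → x v = 0) ∧ ∀ v, aeval x (pderiv v (smoP (k := k) t a b)) = 0 := by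
  classical
  have : CharZero (AlgebraicClosure k) :=
    charZero_of_injective_algebraMap (algebraMap k (AlgebraicClosure k)).injective
  obtain ⟨s, rfl⟩ : ∃ s, t = s + 2 := ⟨t - 2, by omega⟩
  have key : x b = 0 ∧ (∀ v, a = some v → x v = 0) := by
    cases a with
    | none =>
      refine ⟨?_, fun v h => by cases h⟩
      unfold smoP at h1
      simp only [Option.elim_none, mul_zero, add_zero, map_pow, aeval_X] at h1
      exact pow_eq_zero_iff (by omega) |>.1 h1
    | some a =>
      have hne : a ≠ b := fun h => hab (by rw [h])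
      unfold smoP at h1 h2
      simp only [Option.elim_some, map_add, map_mul, map_pow, aeval_X] at h1
      have e2 : pderiv b ((X b : MvPolynomial V k) ^ (s + 2) + X b * X a ^ (s + 2 - 1))
          = ((s + 2 : ℕ) : MvPolynomial V k) * X b ^ (s + 1) + X a ^ (s + 1) := by
        have e3 : pderiv b (X a : MvPolynomial V k) = 0 := pderiv_X_of_ne hne
        simp [Derivation.leibniz_pow, Derivation.leibniz, e3]
        try ring
      simp only [Option.elim_some] at h2
      rw [e2] at h2
      simp only [map_add, map_mul, map_pow, aeval_X, map_natCast] at h2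
      have h3 : (((s + 1 : ℕ)) : AlgebraicClosure k) * x b ^ (s + 2) = 0 := by
        have e4 : (s + 2 - 1) = s + 1 := by omega
        rw [e4] at h1
        have : x b * ((((s + 2 : ℕ)) : AlgebraicClosure k) * x b ^ (s + 1) + x a ^ (s + 1))
            - (x b ^ (s + 2) + x b * x a ^ (s + 1)) = 0 := by rw [h1, h2]; simp
        have e5 : x b * ((((s + 2 : ℕ)) : AlgebraicClosure k) * x b ^ (s + 1) + x a ^ (s + 1))
            - (x b ^ (s + 2) + x b * x a ^ (s + 1))
            = (((s + 1 : ℕ)) : AlgebraicClosure k) * x b ^ (s + 2) := by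
          push_cast
          ring
        rw [e5] at this
        exact this
      have h4 : x b = 0 := by
        rcases mul_eq_zero.1 h3 with h | h
        · exact absurd h (by exact_mod_cast Nat.succ_ne_zero s)
        · exact pow_eq_zero_iff (by omega) |>.1 h
      refine ⟨h4, fun v hv => ?_⟩
      cases hv
      rw [h4] at h2
      simp only [ne_eq, Nat.succ_ne_zero, not_false_eq_true, zero_pow, mul_zero, zero_add] at h2
      exact pow_eq_zero_iff (by omega) |>.1 h2
  refine ⟨key.1, key.2, fun v => ?_⟩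
  unfold smoP
  cases a with
  | none =>
    simp [Derivation.leibniz_pow, key.1]
  | some a =>
    have h5 := key.2 a rfl
    simp [Derivation.leibniz_pow, Derivation.leibniz, key.1, h5]

theorem p_SMO (hSTEP : S_STEP) : S_SMO := by
  intro V k _ _ _ e m he ht Q hQ A hA i₀ r a b hb hbi hab hbQ
  classical
  set t := e * m with htdef
  -- the first step
  have h0 : ∀ᶠ M : ℕ in atTop, SmoothOn (C (M : k) * X i₀ ^ t + Q) (A ∪ {i₀}) := by
    refine hSTEP V k t (by omega) Q (X i₀ ^ t) hQ ?_ A (A ∪ {i₀}) Set.subset_union_left hA ?_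
    · simpa using (isHomogeneous_X k i₀).pow t
    · intro x hx h1 _
      have h2 : x i₀ = 0 := by
        simp only [map_pow, aeval_X] at h1
        exact pow_eq_zero_iff (by omega) |>.1 h1
      refine ⟨fun v hv => ?_, fun v _ => ?_⟩
      · by_cases h : v = i₀
        · rw [h, h2]
        · exact hx v (fun h' => h'.elim hv h)
      · have : t - 1 ≠ 0 := by omega
        simp [Derivation.leibniz_pow, h2, this]
  have h0' : ∀ᶠ N : ℕ in atTop, SmoothOn (C ((N ^ e : ℕ) : k) * X i₀ ^ t + Q) (A ∪ {i₀}) :=
    (tendsto_pow_atTop (by omega : e ≠ 0)).eventually h0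
  obtain ⟨N, hN, hN1⟩ := (h0'.and (eventually_ge_atTop 1)).exists
  -- the induction
  have key : ∀ s : ℕ, s ≤ r → ∃ E : MvPolynomial V k, E.IsHomogeneous t ∧
      SmoothOn E (A ∪ {v | v = i₀ ∨ (∃ j : Fin r, (j : ℕ) < s ∧ a j = some v) ∨
        ∃ j : Fin r, (j : ℕ) < s ∧ b j = v}) ∧
      (∀ j : Fin r, s ≤ (j : ℕ) → pderiv (b j) E = 0) ∧
      ∀ x : V → k, (∀ j, x (b j) = 0) →
        MvPolynomial.eval x E = MvPolynomial.eval x Q + (N * x i₀ ^ m) ^ e := by
    intro s
    induction s with
    | zero =>
      intro _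
      refine ⟨C ((N ^ e : ℕ) : k) * X i₀ ^ t + Q, ?_, ?_, ?_, ?_⟩
      · refine IsHomogeneous.add ?_ hQ
        have h1 : ((X i₀ : MvPolynomial V k) ^ t).IsHomogeneous t := by
          simpa using (isHomogeneous_X k i₀).pow t
        simpa using (isHomogeneous_C V ((N ^ e : ℕ) : k)).mul h1
      · have e1 : (A ∪ {v | v = i₀ ∨ (∃ j : Fin r, (j : ℕ) < 0 ∧ a j = some v) ∨
            ∃ j : Fin r, (j : ℕ) < 0 ∧ b j = v}) = A ∪ {i₀} := by
          ext v
          simp
        rw [e1]
        exact hN
      · intro j _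
        have e1 : pderiv (b j) (X i₀ : MvPolynomial V k) = 0 := pderiv_X_of_ne (Ne.symm (hbi j))
        simp [Derivation.leibniz_pow, Derivation.leibniz, e1, hbQ j]
      · intro x _
        simp only [map_add, map_mul, map_pow, eval_X, eval_C]
        rw [htdef]
        push_cast
        ring
    | succ s ih =>
      intro hs
      obtain ⟨E, hE1, hE2, hE3, hE4⟩ := ih (by omega)
      set j₀ : Fin r := ⟨s, by omega⟩ with hj₀
      have hst : ∀ᶠ M : ℕ in atTop, SmoothOn (C (M : k) * smoP t (a j₀) (b j₀) + E)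
          (A ∪ {v | v = i₀ ∨ (∃ j : Fin r, (j : ℕ) < s + 1 ∧ a j = some v) ∨
            ∃ j : Fin r, (j : ℕ) < s + 1 ∧ b j = v}) := by
        refine hSTEP V k t (by omega) E (smoP t (a j₀) (b j₀)) hE1 (smo_hom t ht _ _) _ _ ?_ hE2 ?_
        · rintro v (hv | hv | ⟨j, hj, hv⟩ | ⟨j, hj, hv⟩)
          · exact Or.inl hv
          · exact Or.inr (Or.inl hv)
          · exact Or.inr (Or.inr (Or.inl ⟨j, by omega, hv⟩))
          · exact Or.inr (Or.inr (Or.inr ⟨j, by omega, hv⟩))
        · intro x hx h1 h2
          have h3 := h2 (b j₀) (Or.inr (Or.inr (Or.inr ⟨j₀, by simp [hj₀], rfl⟩)))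
            (hE3 j₀ (by simp [hj₀]))
          obtain ⟨h4, h5, h6⟩ := smo_key t ht (a j₀) (b j₀) (hab j₀ j₀) x h1 h3
          refine ⟨fun v hv => ?_, fun v _ => h6 v⟩
          by_cases h7 : a j₀ = some v
          · exact h5 v h7
          by_cases h8 : b j₀ = v
          · rw [← h8, h4]
          refine hx v fun h9 => hv ?_
          rcases h9 with h9 | h9 | ⟨j, hj, h9⟩ | ⟨j, hj, h9⟩
          · exact Or.inl h9
          · exact Or.inr (Or.inl h9)
          · have : (j : ℕ) < s := by
              by_contra hc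
              have : j = j₀ := Fin.ext (by simp [hj₀]; omega)
              rw [this] at h9
              exact h7 h9
            exact Or.inr (Or.inr (Or.inl ⟨j, this, h9⟩))
          · have : (j : ℕ) < s := by
              by_contra hc
              have : j = j₀ := Fin.ext (by simp [hj₀]; omega)
              rw [this] at h9
              exact h8 h9
            exact Or.inr (Or.inr (Or.inr ⟨j, this, h9⟩))
      obtain ⟨M, hM⟩ := hst.exists
      refine ⟨C (M : k) * smoP t (a j₀) (b j₀) + E, ?_, hM, ?_, ?_⟩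
      · refine IsHomogeneous.add ?_ hE1
        simpa using (isHomogeneous_C V (M : k)).mul (smo_hom (k := k) t ht (a j₀) (b j₀))
      · intro j hj
        have h1 : b j ≠ b j₀ := fun h => by
          have := hb h
          rw [this] at hj
          simp [hj₀] at hj
        have h2 := smo_pd (k := k) t ht (a j₀) (b j₀) (b j) h1 (hab j₀ j)
        simp [Derivation.leibniz, h2, hE3 j (by omega)]
      · intro x hx
        have h1 := smo_eval t ht (a j₀) (b j₀) x (hx j₀)
        rw [map_add, map_mul, h1, mul_zero, zero_add]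
        exact hE4 x hx
  obtain ⟨E, hE1, hE2, _, hE4⟩ := key r le_rfl
  refine ⟨N, E, hN1, hE1, ?_, hE4⟩
  have e1 : (A ∪ {v | v = i₀ ∨ (∃ j : Fin r, (j : ℕ) < r ∧ a j = some v) ∨
      ∃ j : Fin r, (j : ℕ) < r ∧ b j = v}) =
      A ∪ {v | v = i₀ ∨ (∃ j, a j = some v) ∨ ∃ j, b j = v} := by
    ext v
    simp
  rw [← e1]
  exact hE2

end Pool.Agent.Lib.MP_627a61_nt
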