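import Pool.Agent.Lib.MP_627a61_nt.Cy.NStm
import Pool.Agent.Lib.MP_627a61_nt.Pencil

/-!
# Dimension-explicit cyclic covers: piece STEP
-/

open scoped LinearAlgebra.Projectivization Topology
open Filter MvPolynomial

namespace Pool.Agent.Lib.MP_627a61_nt

theorem p_STEP (hRES : S_RES) : S_STEP := by
  classical
  intro V k _ _ _ t ht Q P hQ hP A A' hAA hsm hyp
  obtain ⟨P1, P2, P3, _⟩ := hRES V k A' P
  obtain ⟨Q1, Q2, Q3, _⟩ := hRES V k A' Q
  have : CharZero (AlgebraicClosure k) :=
    charZero_of_injective_algebraMap (algebraMap k (AlgebraicClosure k)).injective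
  have hfin := finite_singular_pencil ht (P1 t hP) (Q1 t hQ)
  have h1 : ∀ᶠ M : ℕ in atTop, ¬ ∃ x : A' → AlgebraicClosure k,
      (∀ v, MvPolynomial.eval x (pderiv v ((M : MvPolynomial A' (AlgebraicClosure k)) *
        resP A' P + resP A' Q)) = 0) ∧ MvPolynomial.eval x (resP A' P) ≠ 0 := by
    rw [← Nat.cofinite_eq_atTop]
    exact hfin.compl_mem_cofinite
  filter_upwards [h1, eventually_gt_atTop 0] with M hM hM0
  obtain ⟨_, _, _, R4⟩ := hRES V k A' (C (M : k) * P + Q)
  have hres : resP A' (C (M : k) * P + Q) =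
      (M : MvPolynomial A' (AlgebraicClosure k)) * resP A' P + resP A' Q := by
    have h0 : (C (M : k) : MvPolynomial V k) = (M : MvPolynomial V k) := map_natCast C M
    rw [map_add, map_mul, h0, map_natCast]
  rw [R4, hres]
  intro x hx
  have hF : MvPolynomial.eval x (resP A' P) = 0 := by
    by_contra h
    exact hM ⟨x, hx, h⟩
  have hMK : (M : AlgebraicClosure k) ≠ 0 := by exact_mod_cast hM0.ne'
  have hd : ∀ a : A', (M : AlgebraicClosure k) * aeval (extZ A' x) (pderiv a.1 P) +
      aeval (extZ A' x) (pderiv a.1 Q) = 0 := by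
    intro a
    have h2 := hx a
    have h3 : pderiv a ((M : MvPolynomial A' (AlgebraicClosure k)) * resP A' P + resP A' Q) =
        (M : MvPolynomial A' (AlgebraicClosure k)) * resP A' (pderiv a.1 P) +
          resP A' (pderiv a.1 Q) := by
      rw [map_add, Derivation.leibniz, P3, Q3, ← map_natCast (C (σ := A')) M, pderiv_C, smul_zero,
        add_zero, smul_eq_mul]
    rw [h3, map_add, map_mul, map_natCast] at h2
    rw [(hRES V k A' (pderiv a.1 P)).2.1 x, (hRES V k A' (pderiv a.1 Q)).2.1 x] at h2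
    exact h2
  have hX0 : ∀ v, v ∉ A' → extZ A' x v = 0 := by
    intro v hv
    unfold extZ
    rw [dif_neg hv]
  obtain ⟨h4, h5⟩ := hyp (extZ A' x) hX0 (by rw [← P2 x]; exact hF) (by
    intro v hv hQ0
    have h6 := hd ⟨v, hv⟩
    rw [hQ0, map_zero, add_zero] at h6
    exact (mul_eq_zero.1 h6).resolve_left hMK)
  have h7 : extZ A' x = 0 := by
    refine hsm (extZ A' x) h4 fun v hv => ?_
    have h6 := hd ⟨v, hAA hv⟩
    rw [h5 v (hAA hv), mul_zero, zero_add] at h6
    exact h6
  funext a
  have h8 := congrFun h7 a.1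
  unfold extZ at h8
  rw [dif_pos a.2] at h8
  exact h8

end Pool.Agent.Lib.MP_627a61_nt
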