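import Pool.Agent.Lib.MP_627a61_nt.Cy.NStm

/-!
# TWO: the second part of the theorem
-/

open scoped LinearAlgebra.Projectivization Topology
open Filter MvPolynomial

namespace Pool.Agent.Lib.MP_627a61_nt

/-- the linear form with given coefficients -/
private lemma two_lin_homog {ι k : Type} [Fintype ι] [Field k] (a : ι → k) :
    (∑ i, C (a i) * X i : MvPolynomial ι k).IsHomogeneous 1 :=
  IsHomogeneous.sum _ _ _ fun i _ => (isHomogeneous_X k i).C_mul _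

private lemma two_kd (hKD3 : S_KD3) {k : Type} [Field k] (τ : k →+* ℂ) {r M : ℕ}
    (S' : Set (MvPolynomial (Fin r) k)) (hS' : Homog S') (l' : Fin (M + 1) → Fin r → k)
    (hl' : ∀ x : Fin r → ℂ, (∀ Q ∈ S', Q.eval₂ τ x = 0) →
      (∀ j, ∑ i, τ (l' j i) * x i = 0) → x = 0) :
    ringKrullDim (MvPolynomial (Fin r) k ⧸ Ideal.span S') ≤ ((M + 1 : ℕ) : WithBot ℕ∞) := by
  refine hKD3 _ k S' hS' (M + 1) (fun j => ∑ i, C (l' j i) * X i)
    (fun j => two_lin_homog _) ?_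
  intro x hx hlx
  let _ : Algebra k ℂ := τ.toAlgebra
  let f : AlgebraicClosure k →ₐ[k] ℂ := IsAlgClosed.lift
  have hfx : ∀ P : MvPolynomial (Fin r) k,
      P.eval₂ τ (fun i => f (x i)) = f (aeval x P) := by
    intro P
    have h1 := comp_aeval_apply x f P
    rw [h1, aeval_def]
    rfl
  have h2 : (fun i => f (x i)) = 0 := by
    apply hl'
    · intro Q hQ
      rw [hfx, hx Q hQ, map_zero]
    · intro j
      have h3 := hfx (∑ i, C (l' j i) * X i)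
      rw [hlx j, map_zero] at h3
      rw [← h3]
      simp [eval₂_sum, eval₂_mul]
  funext i
  have h3 := congrFun h2 i
  exact (map_eq_zero f).1 h3

theorem p_TWO (hKD1 : Hy.S_KD1) (hGEO : Hy.S_GEO) (hWD : S_WD) (hKD3 : S_KD3) (hRADH : S_RADH)
    (hSEPL : S_SEPL) (hLINH : S_LINH) (hFINL : S_FINL) (hEMBN : S_EMBN) (hINTN : S_INTN) :
    S_TWO := by
  intro e he g n k _ _ d s hM hs h N S hS hdim hZ
  obtain ⟨l, hl⟩ := hKD1 k N d S hS hdim
  obtain ⟨r, S', Φ, hS', hS'1, hΦ0, hΦ1, hΦ2, l', hl'⟩ :=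
    hWD (Fin (N + 1)) k S hS (fun σ => (hZ σ).brody) d l fun σ x hx hlx => hl ℂ σ x hx hlx
  obtain ⟨r', rfl⟩ : ∃ r', r = r' + 1 := by
    refine ⟨r - 1, ?_⟩
    have h1 : r ≠ 0 := by
      rintro rfl
      apply hΦ0 (fun _ => 1)
      · intro h0
        exact one_ne_zero (congrFun h0 0)
      · funext i
        exact Fin.elim0 i
    omega
  refine finite_transfer Φ hΦ0 hΦ1 hS' hΦ2 ?_
  revert hM hs l'
  generalize Module.finrank ℚ k * d = M
  intro hM hs l' hl'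
  -- the dimension of the rational model
  have hdim' : Hy.PDimLE S' M := by
    refine two_kd hKD3 (algebraMap ℚ ℂ) S' hS' l' fun x hx hlx => hl' x hx fun j => ?_
    rw [← hlx j]
    refine Finset.sum_congr rfl fun i _ => ?_
    rw [eq_ratCast]
  obtain ⟨a, F, δ, G, -, hG0, hG, -, -, hfin, hhyp⟩ := hGEO ℚ r' M S' hS' hdim'
  refine hfin ℚ (RingHom.id ℚ) ?_
  obtain ⟨δ', R, hR, hRsq, hRz⟩ := hRADH (M + 2) ℚ G δ hG0 hG
  have hpts : ∀ (L : Type) [Field L] (τ : ℚ →+* L), points τ {G} = points τ {R} := by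
    intro L _ τ
    ext x
    simp only [points, Set.mem_singleton_iff, forall_eq, Set.mem_ofPred_eq]
    exact (hRz L τ x.rep).symm
  obtain ⟨A, B, hAB, hBA, hline⟩ := hSEPL M ℚ R δ' hR hRsq
  obtain ⟨hAR, hAh, hAf⟩ := hLINH (Fin (M + 2)) ℚ A B hAB hBA R δ' hR
  rw [hpts]
  apply hAf
  refine hFINL M ℚ (subM A R) δ' hAR hline ?_
  intro i hi0 hi1
  have hyp : ∀ σ ∈ ({algebraMap ℚ ℂ} : Set (ℚ →+* ℂ)),
      BrodyHyperbolic (points σ {subM A R}) := by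
    intro σ hσ
    rw [Set.mem_singleton_iff] at hσ
    subst hσ
    apply hAh
    rw [← hpts]
    exact ((hhyp (algebraMap ℚ ℂ)).2 (hS'1.kobayashi (pclosed_points hS' _))).brody
  obtain ⟨m, hm, F', hF'1, hF'2, hF'3, Ψ, hΨ0, hΨ1, hΨ2⟩ :=
    hEMBN (Fin (M + 2)) ℚ 0 1 (by simp) (subM A R) δ' hAR hline {algebraMap ℚ ℂ}
      (Set.finite_singleton _) hyp e he g n s (by rw [Fintype.card_fin]; omega)
      (by rw [Fintype.card_fin]; omega) i hi0 hi1
  have hfin' := hINTN e he g n s h m hm F' hF'1 hF'2 (hF'3 _ rfl)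
  let H : ℙ ℚ (Fin (M + 2) → ℚ) → ℙ ℚ (Fin (n + 1) → ℚ) := fun p =>
    Projectivization.mk ℚ (Ψ p.rep) (hΨ0 _ p.rep_nonzero)
  refine Set.Finite.of_injOn (f := H) ?_ ?_ hfin'
  · rintro p ⟨hp, hpi⟩
    obtain ⟨t, ht, hrep⟩ := exists_rep_eq (p := H p) (v := Ψ p.rep)
      (hv := hΨ0 _ p.rep_nonzero) rfl
    have hp0 : MvPolynomial.eval p.rep (subM A R) = 0 := by
      have h1 := hp _ rfl
      rwa [eval₂_id] at h1
    obtain ⟨y, hy, hy0⟩ := hΨ2 p.rep hp0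
    refine ⟨t ^ m * y, mul_ne_zero (pow_ne_zero _ ht) (hy0 hpi), ?_⟩
    have h1 := eval₂_smul_homog hF'1 (RingHom.id ℚ) t (Ψ p.rep)
    rw [eval₂_id, eval₂_id, ← hy, ← hrep] at h1
    rw [h1, mul_pow, ← pow_mul, mul_comm m e]
  · intro p _ q _ hpq
    have hpq' : Projectivization.mk ℚ (Ψ p.rep) (hΨ0 _ p.rep_nonzero) =
      Projectivization.mk ℚ (Ψ q.rep) (hΨ0 _ q.rep_nonzero) := hpq
    rw [Projectivization.mk_eq_mk_iff'] at hpq'
    obtain ⟨t, ht⟩ := hpq'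
    obtain ⟨u, hu⟩ := hΨ1 _ _ p.rep_nonzero q.rep_nonzero ⟨t, ht.symm⟩
    rw [← p.mk_rep, ← q.mk_rep, Projectivization.mk_eq_mk_iff']
    exact ⟨u, hu.symm⟩

end Pool.Agent.Lib.MP_627a61_nt
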