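import Pool.Agent.Lib.MP_627a61_nt.Cy.NStm
import Pool.Agent.Lib.MP_627a61_nt.Weil

/-!
# WD: Weil restriction with dimension
-/

open scoped LinearAlgebra.Projectivization Topology
open Filter MvPolynomial

namespace Pool.Agent.Lib.MP_627a61_nt

/-- a vector satisfying the exchange relations is a pure tensor -/
private lemma wd_pure {E ι : Type*} [Fintype E] [DecidableEq E] (w : (E → ι) → ℂ) (j₀ : E → ι)
    (hsw : ∀ (j j' : E → ι) (e : E),
      w j * w j' = w (Function.update j e (j' e)) * w (Function.update j' e (j e))) (j : E → ι) :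
    w j * w j₀ ^ Fintype.card E = w j₀ * ∏ e, w (Function.update j₀ e (j e)) := by
  have hind : ∀ (A : Finset E) (j : E → ι), (∀ e, e ∉ A → j e = j₀ e) →
      w j * w j₀ ^ A.card = w j₀ * ∏ e ∈ A, w (Function.update j₀ e (j e)) := by
    intro A
    induction A using Finset.induction_on with
    | empty =>
      intro j hj
      have : j = j₀ := funext fun e => hj e (by simp)
      rw [this]
      simp
    | insert e A he ih =>
      intro j hj
      set j₁ := Function.update j e (j₀ e) with hj₁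
      set j₂ := Function.update j₀ e (j e) with hj₂
      have h1 : w j₁ * w j₀ ^ A.card = w j₀ * ∏ e' ∈ A, w (Function.update j₀ e' (j₁ e')) := by
        apply ih
        intro e' he'
        by_cases h : e' = e
        · rw [hj₁, h, Function.update_self]
        · rw [hj₁, Function.update_of_ne h]
          exact hj e' (by simp [h, he'])
      have h2 : ∏ e' ∈ A, w (Function.update j₀ e' (j₁ e')) =
          ∏ e' ∈ A, w (Function.update j₀ e' (j e')) := by
        refine Finset.prod_congr rfl fun e' he' => ?_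
        have : e' ≠ e := fun h => he (h ▸ he')
        rw [hj₁, Function.update_of_ne this]
      have h3 : w j₁ * w j₂ = w j * w j₀ := by
        have := hsw j₁ j₂ e
        rw [this]
        congr 2
        · rw [hj₁, hj₂]; simp
        · rw [hj₁, hj₂]; simp
      rw [Finset.card_insert_of_notMem he, Finset.prod_insert he]
      rw [h2] at h1
      calc w j * w j₀ ^ (A.card + 1) = (w j * w j₀) * w j₀ ^ A.card := by ring
        _ = w j₂ * (w j₁ * w j₀ ^ A.card) := by rw [← h3]; ring
        _ = w j₀ * (w j₂ * ∏ e' ∈ A, w (Function.update j₀ e' (j e'))) := by rw [h1]; ring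
  exact hind Finset.univ j (fun e he => absurd (Finset.mem_univ e) he)

variable {ι k₀ k : Type*} [Field k₀] [CharZero k₀] [Algebra k₀ ℂ] [Field k] [Algebra k₀ k]
  [FiniteDimensional k₀ k]

/-- Weil restriction with dimension. -/
theorem wd_model [Fintype ι]
    (S : Set (MvPolynomial ι k)) (hS : Homog S)
    (hZ : ∀ σ : k →ₐ[k₀] ℂ, BrodyHyperbolic (points (σ : k →+* ℂ) S)) (d : ℕ)
    (ll : Fin (d + 1) → ι → k)
    (hll : ∀ (σ : k →ₐ[k₀] ℂ) (x : ι → ℂ), (∀ P ∈ S, P.eval₂ (σ : k →+* ℂ) x = 0) →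
      (∀ j, ∑ i, σ (ll j i) * x i = 0) → x = 0) :
    ∃ (r : ℕ) (S' : Set (MvPolynomial (Fin r) k₀)) (Ψ : (ι → k) → (Fin r → k₀)),
      Homog S' ∧ BrodyHyperbolic (points (algebraMap k₀ ℂ) S') ∧
      (∀ x, x ≠ 0 → Ψ x ≠ 0) ∧
      (∀ x y, x ≠ 0 → y ≠ 0 → (∃ t : k₀, Ψ x = t • Ψ y) → ∃ s : k, x = s • y) ∧
      (∀ x, (∀ F ∈ S, F.eval₂ (RingHom.id k) x = 0) →
        ∀ Q ∈ S', Q.eval₂ (RingHom.id k₀) (Ψ x) = 0) ∧
      ∃ l' : Fin (Fintype.card (k →ₐ[k₀] ℂ) * d + 1) → Fin r → k₀, ∀ x : Fin r → ℂ,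
        (∀ Q ∈ S', Q.eval₂ (algebraMap k₀ ℂ) x = 0) →
        (∀ j, ∑ i, algebraMap k₀ ℂ (l' j i) * x i = 0) → x = 0 := by
  classical
  obtain ⟨r, a, ha⟩ := exists_points k₀ k (ι := ι)
  -- the linear map
  let M : (((k →ₐ[k₀] ℂ) → ι) → ℂ) →ₗ[ℂ] (Fin r → ℂ) :=
    LinearMap.pi fun i => ∑ j, (chr k₀ j (a i)) • LinearMap.proj j
  have hM : ∀ w i, M w i = ∑ j, w j * chr k₀ j (a i) := by
    intro w i
    simp only [M, LinearMap.pi_apply, LinearMap.sum_apply, LinearMap.smul_apply,
      LinearMap.proj_apply, smul_eq_mul]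
    refine Finset.sum_congr rfl fun j _ => mul_comm _ _
  have hker : LinearMap.ker M = ⊥ := by
    rw [LinearMap.ker_eq_bot']
    intro w hw
    apply ha
    intro i
    rw [finsum_eq_sum_of_fintype, ← hM, hw]
    rfl
  obtain ⟨L, hL⟩ := LinearMap.exists_leftInverse_of_injective M hker
  have hLM : ∀ w, L (M w) = w := fun w => LinearMap.congr_fun hL w
  -- the norm forms
  let Ψ : (ι → k) → (Fin r → k₀) := fun x i => Algebra.norm k₀ (∑ l, a i l * x l)
  have hΨ : ∀ x, (fun i => algebraMap k₀ ℂ (Ψ x i)) = M (fun j => chr k₀ j x) := by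
    intro x
    funext i
    rw [hM, norm_linear, finsum_eq_sum_of_fintype]
  let Sg : Set (Fin r → k₀) := Ψ '' {x | ∀ F ∈ S, F.eval₂ (RingHom.id k) x = 0}
  let S' : Set (MvPolynomial (Fin r) k₀) := {Q | (∃ n, Q.IsHomogeneous n) ∧
    ∀ y ∈ Sg, MvPolynomial.eval y Q = 0}
  -- consequences of descent
  have hdesc : ∀ p ∈ points (algebraMap k₀ ℂ) S', ∀ (n : ℕ) (G : MvPolynomial (Fin r) ℂ),
      G.IsHomogeneous n → (∀ x : ι → k, (∀ F ∈ S, F.eval₂ (RingHom.id k) x = 0) →
        MvPolynomial.eval (M (fun j => chr k₀ j x)) G = 0) → MvPolynomial.eval p.rep G = 0 := by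
    intro p hp n G hG h0
    refine descent Sg p.rep (fun m Q hQ hQ0 => hp Q ⟨⟨m, hQ⟩, hQ0⟩) G hG ?_
    rintro _ ⟨x, hx, rfl⟩
    rw [hΨ]
    exact h0 x hx
  have hML : ∀ p ∈ points (algebraMap k₀ ℂ) S', M (L p.rep) = p.rep := by
    intro p hp
    funext i
    have h1 := hdesc p hp 1 (lf (LinearMap.proj i - (LinearMap.proj i).comp (M.comp L)))
      (lf_homog _) (by
        intro x _
        rw [eval_lf]
        simp [hLM])
    rw [eval_lf] at h1
    simp only [LinearMap.sub_apply, LinearMap.proj_apply, LinearMap.comp_apply] at h1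
    linear_combination -h1
  have hSC : ∀ p ∈ points (algebraMap k₀ ℂ) S',
      SegreCond (fun e : k →ₐ[k₀] ℂ => (e : k →+* ℂ)) S (L p.rep) := by
    intro p hp
    constructor
    · intro j j' e
      have h1 := hdesc p hp 2 (lf ((LinearMap.proj j).comp L) * lf ((LinearMap.proj j').comp L) -
        lf ((LinearMap.proj (Function.update j e (j' e))).comp L) *
        lf ((LinearMap.proj (Function.update j' e (j e))).comp L))
        (((lf_homog _).mul (lf_homog _)).sub ((lf_homog _).mul (lf_homog _))) (by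
          intro x _
          simp only [map_sub, map_mul, eval_lf, LinearMap.comp_apply, LinearMap.proj_apply, hLM]
          rw [chr_update, chr_update, chr_eq j e, chr_eq j' e]
          ring)
      simp only [map_sub, map_mul, eval_lf, LinearMap.comp_apply, LinearMap.proj_apply] at h1
      linear_combination h1
    · intro j e F hF
      obtain ⟨n, hn⟩ := hS F hF
      have hev : ∀ y : Fin r → ℂ, MvPolynomial.eval y
          (F.eval₂ ((C : ℂ →+* MvPolynomial (Fin r) ℂ).comp (e : k →+* ℂ))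
            (fun l => lf ((LinearMap.proj (Function.update j e l)).comp L))) =
          F.eval₂ (e : k →+* ℂ) (fun l => L y (Function.update j e l)) := by
        intro y
        rw [MvPolynomial.eval₂_comp_left]
        congr 1
        · ext c
          simp
        · funext l
          rw [Function.comp_apply, eval_lf]
          rfl
      have h1 := hdesc p hp (1 * n) (F.eval₂ ((C : ℂ →+* MvPolynomial (Fin r) ℂ).comp
            (e : k →+* ℂ)) (fun l => lf ((LinearMap.proj (Function.update j e l)).comp L)))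
        (hn.eval₂ _ _ (fun c => isHomogeneous_C _ _) (fun l => lf_homog _)) (by
          intro x hx
          rw [hev, hLM]
          simp only [chr_update]
          have h2 : (fun l => e (x l) * ∏ e' ∈ Finset.univ.erase e, e' (x (j e'))) =
              (∏ e' ∈ Finset.univ.erase e, e' (x (j e'))) • fun l => e (x l) := by
            funext l
            simp only [Pi.smul_apply, smul_eq_mul]
            ring
          rw [h2, eval₂_smul_homog hn]
          have h3 := MvPolynomial.eval₂_comp_left (e : k →+* ℂ) (RingHom.id k) x F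
          rw [hx F hF, map_zero] at h3
          have h4 : (e : k →+* ℂ) ∘ x = fun l => e (x l) := rfl
          rw [RingHom.comp_id, h4] at h3
          rw [← h3, mul_zero])
      rw [hev] at h1
      exact h1
  have hw : ∀ x y : ι → k, (∃ t : k₀, Ψ x = t • Ψ y) → ∃ t : ℂ, ∀ j, chr k₀ j x = t * chr k₀ j y := by
    rintro x y ⟨t, ht⟩
    refine ⟨algebraMap k₀ ℂ t, fun j => ?_⟩
    have h1 : M (fun j => chr k₀ j x) = (algebraMap k₀ ℂ t) • M (fun j => chr k₀ j y) := by
      rw [← hΨ, ← hΨ, ht]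
      funext i
      simp
    have h2 := congrArg L h1
    rw [hLM, map_smul, hLM] at h2
    exact congrFun h2 j
  have hconst : ∀ (x : ι → k) (l : ι), x l ≠ 0 →
      chr k₀ (fun _ : k →ₐ[k₀] ℂ => l) x ≠ 0 := by
    intro x l hl
    rw [chr_apply, Finset.prod_ne_zero_iff]
    intro e _
    rw [map_ne_zero]
    exact hl
  -- the linear forms
  obtain ⟨ρ, hρ⟩ := LinearMap.exists_leftInverse_of_injective (Algebra.linearMap k₀ ℂ)
    (LinearMap.ker_eq_bot.2 (algebraMap k₀ ℂ).injective)
  have hρ' : ∀ q : k₀, ρ (algebraMap k₀ ℂ q) = q := fun q => LinearMap.congr_fun hρ q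
  let bb : ℕ → ι → k := fun s i => ∑ j : Fin (d + 1), (s : k) ^ (j : ℕ) * ll j i
  let Cs : ℕ → (((k →ₐ[k₀] ℂ) → ι) → ℂ) →ₗ[ℂ] ℂ := fun s =>
    ∑ j, (chr k₀ j (bb s)) • LinearMap.proj j
  have hCs : ∀ s w, Cs s w = ∑ j, w j * chr k₀ j (bb s) := by
    intro s w
    simp only [Cs, LinearMap.sum_apply, LinearMap.smul_apply, LinearMap.proj_apply, smul_eq_mul]
    exact Finset.sum_congr rfl fun j _ => mul_comm _ _
  let Λ : ℕ → (Fin r → ℂ) →ₗ[ℂ] ℂ := fun s => (Cs s).comp L
  have hΛ : ∀ s (x : ι → k), Λ s (M (fun j => chr k₀ j x)) =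
      algebraMap k₀ ℂ (Algebra.norm k₀ (∑ i, bb s i * x i)) := by
    intro s x
    rw [norm_linear, finsum_eq_sum_of_fintype]
    simp only [Λ, LinearMap.comp_apply, hLM, hCs]
  let l' : ℕ → Fin r → k₀ := fun s i => ρ (Λ s (Pi.single i 1))
  have hl' : ∀ s (x : ι → k), ∑ i, l' s i * Ψ x i = Algebra.norm k₀ (∑ i, bb s i * x i) := by
    intro s x
    have h1 := hΛ s x
    rw [← hΨ, LinearMap.pi_apply_eq_sum_univ (Λ s) (fun i => algebraMap k₀ ℂ (Ψ x i))] at h1
    have h2 := congrArg ρ h1
    rw [hρ', map_sum] at h2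
    rw [← h2]
    refine Finset.sum_congr rfl fun i _ => ?_
    have h4 : (fun j => if i = j then (1 : ℂ) else 0) = Pi.single i 1 := by
      funext j
      simp [Pi.single_apply, eq_comm]
    have h3 : algebraMap k₀ ℂ (Ψ x i) • Λ s (fun j => if i = j then 1 else 0) =
        Ψ x i • Λ s (Pi.single i 1) := by
      rw [h4, Algebra.smul_def (Ψ x i) (Λ s (Pi.single i 1)), smul_eq_mul]
    rw [h3, map_smul, smul_eq_mul, mul_comm]
  have hl'2 : ∀ s, ∀ p ∈ points (algebraMap k₀ ℂ) S',
      ∑ i, algebraMap k₀ ℂ (l' s i) * p.rep i = Cs s (L p.rep) := by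
    intro s p hp
    let lam : (Fin r → ℂ) →ₗ[ℂ] ℂ := ∑ i, (algebraMap k₀ ℂ (l' s i)) • LinearMap.proj i
    have hlam : ∀ y, lam y = ∑ i, algebraMap k₀ ℂ (l' s i) * y i := by
      intro y
      simp only [lam, LinearMap.sum_apply, LinearMap.smul_apply, LinearMap.proj_apply, smul_eq_mul]
    have h1 := hdesc p hp 1 (lf (lam - Λ s)) (lf_homog _) (by
      intro x _
      rw [eval_lf, LinearMap.sub_apply, hΛ, ← hΨ, hlam, ← hl', map_sum, sub_eq_zero]
      refine Finset.sum_congr rfl fun i _ => ?_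
      rw [map_mul])
    rw [eval_lf, LinearMap.sub_apply, hlam, sub_eq_zero] at h1
    exact h1
  refine ⟨r, S', Ψ, fun Q hQ => hQ.1, ?_, ?_, ?_, ?_, ?_⟩
  · refine brodyHyperbolic_segre (fun e : k →ₐ[k₀] ℂ => (e : k →+* ℂ)) S hS
      (fun e => hZ _) L _ ?_ ?_ hSC
    · rintro p hp q hq ⟨t, ht⟩
      have h1 : p.rep = t • q.rep := by
        rw [← hML p hp, ht, map_smul, hML q hq]
      rw [← p.mk_rep, ← q.mk_rep, Projectivization.mk_eq_mk_iff']
      exact ⟨t, h1.symm⟩
    · intro p hp h0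
      apply p.rep_nonzero
      rw [← hML p hp, h0, map_zero]
  · intro x hx h0
    obtain ⟨l, hl⟩ := Function.ne_iff.1 hx
    apply hconst x l hl
    have h1 : M (fun j => chr k₀ j x) = 0 := by
      rw [← hΨ, h0]
      funext i
      simp
    have h2 := congrArg L h1
    rw [hLM, map_zero] at h2
    exact congrFun h2 _
  · intro x y hx hy h
    obtain ⟨t, ht⟩ := hw x y h
    obtain ⟨l₀, hl₀⟩ := Function.ne_iff.1 hx
    let e : k →ₐ[k₀] ℂ := IsAlgClosed.lift
    have hcx := hconst x l₀ hl₀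
    have hcy : chr k₀ (fun _ : k →ₐ[k₀] ℂ => l₀) y ≠ 0 := by
      intro h0
      rw [ht, h0, mul_zero] at hcx
      exact hcx rfl
    have ht0 : t ≠ 0 := by
      rintro rfl
      rw [ht, zero_mul] at hcx
      exact hcx rfl
    have hy0 : y l₀ ≠ 0 := by
      intro h0
      apply hcy
      rw [chr_eq _ e, h0, map_zero, zero_mul]
    refine ⟨x l₀ / y l₀, ?_⟩
    funext l
    rw [Pi.smul_apply, smul_eq_mul, div_mul_eq_mul_div, eq_div_iff hy0]
    apply (e : k →+* ℂ).injective
    have h1 := ht (Function.update (fun _ => l₀) e l)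
    rw [chr_update, chr_update] at h1
    have h2 := ht (fun _ => l₀)
    rw [chr_eq _ e, chr_eq (fun _ => l₀) e y] at h2
    have h3 : ∏ e' ∈ Finset.univ.erase e, e' (y l₀) ≠ 0 := by
      intro h0
      apply hcy
      rw [chr_eq _ e, h0, mul_zero]
    have h4 : ∏ e' ∈ Finset.univ.erase e, e' (x l₀) ≠ 0 := by
      intro h0
      apply hcx
      rw [chr_eq _ e, h0, mul_zero]
    generalize (∏ e' ∈ Finset.univ.erase e, e' (y l₀)) = B at h1 h2 h3
    generalize (∏ e' ∈ Finset.univ.erase e, e' (x l₀)) = A at h1 h2 h4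
    simp only [RingHom.coe_coe, map_mul]
    apply mul_left_cancel₀ (mul_ne_zero (mul_ne_zero ht0 h3) h4)
    linear_combination t * e (y l₀) * B * h1 - t * e (y l) * B * h2
  · intro x hx Q hQ
    have h1 : MvPolynomial.eval (Ψ x) Q = 0 := hQ.2 _ ⟨x, hx, rfl⟩
    exact h1
  · refine ⟨fun s => l' s, ?_⟩
    intro x hx hxl
    by_contra hx0
    let p : ℙ ℂ (Fin r → ℂ) := Projectivization.mk ℂ x hx0
    obtain ⟨t, ht, hrep⟩ := exists_rep_eq (p := p) (v := x) (hv := hx0) rfl
    have hp : p ∈ points (algebraMap k₀ ℂ) S' := by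
      rw [mem_points_mk (fun Q hQ => hQ.1) (algebraMap k₀ ℂ)]
      exact hx
    have hSCp := hSC p hp
    set w := L p.rep with hwdef
    have hw0 : w ≠ 0 := by
      intro h0
      apply p.rep_nonzero
      rw [← hML p hp, ← hwdef, h0, map_zero]
    obtain ⟨j₀, hj₀⟩ := Function.ne_iff.1 hw0
    -- the vanishing
    have hCs0 : ∀ s : Fin (Fintype.card (k →ₐ[k₀] ℂ) * d + 1), Cs s w = 0 := by
      intro s
      rw [← hl'2 s p hp, hrep]
      have h1 : ∑ i, algebraMap k₀ ℂ (l' s i) * (t • x) i =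
          t * ∑ i, algebraMap k₀ ℂ (l' s i) * x i := by
        rw [Finset.mul_sum]
        refine Finset.sum_congr rfl fun i _ => ?_
        rw [Pi.smul_apply, smul_eq_mul]
        ring
      rw [h1, hxl s, mul_zero]
    have hexp : ∀ s : ℕ, Cs s w * w j₀ ^ Fintype.card (k →ₐ[k₀] ℂ) = w j₀ *
        ∏ e : k →ₐ[k₀] ℂ, ∑ i, w (Function.update j₀ e i) * e (bb s i) := by
      intro s
      rw [hCs, Finset.sum_mul, Finset.prod_univ_sum, Fintype.piFinset_univ, Finset.mul_sum]
      refine Finset.sum_congr rfl fun j _ => ?_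
      rw [Finset.prod_mul_distrib, ← chr_apply, mul_right_comm, wd_pure w j₀ hSCp.swap j,
        mul_assoc]
    -- the polynomials
    let Pe : (k →ₐ[k₀] ℂ) → Polynomial ℂ := fun e => ∑ j : Fin (d + 1),
      Polynomial.C (∑ i, e (ll j i) * w (Function.update j₀ e i)) * Polynomial.X ^ (j : ℕ)
    have hPe : ∀ e (s : ℕ), (Pe e).eval (s : ℂ) = ∑ i, w (Function.update j₀ e i) * e (bb s i) := by
      intro e s
      simp only [Pe, Polynomial.eval_finsetSum, Polynomial.eval_mul, Polynomial.eval_C,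
        Polynomial.eval_pow, Polynomial.eval_X, Finset.sum_mul, bb, map_sum, map_mul, map_pow,
        map_natCast, Finset.mul_sum]
      rw [Finset.sum_comm]
      refine Finset.sum_congr rfl fun i _ => Finset.sum_congr rfl fun j _ => ?_
      ring
    have hPe0 : ∀ e, Pe e ≠ 0 := by
      intro e h0
      have h1 : (fun i => w (Function.update j₀ e i)) = 0 := by
        refine hll e _ (fun F hF => hSCp.zero j₀ e F hF) fun j => ?_
        have h2 := congrArg (fun P => Polynomial.coeff P (j : ℕ)) h0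
        simp only [Pe, Polynomial.finsetSum_coeff, Polynomial.coeff_C_mul, Polynomial.coeff_X_pow,
          Polynomial.coeff_zero] at h2
        rw [Finset.sum_eq_single j] at h2
        · simpa using h2
        · intro j' _ hj'
          rw [if_neg (fun h => hj' (Fin.ext h.symm)), mul_zero]
        · intro h
          exact absurd (Finset.mem_univ j) h
      have h2 := congrFun h1 (j₀ e)
      simp only [Function.update_eq_self, Pi.zero_apply] at h2
      exact hj₀ h2
    have hPed : ∀ e, (Pe e).natDegree ≤ d := by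
      intro e
      refine Polynomial.natDegree_sum_le_of_forall_le _ _ fun j _ => ?_
      refine (Polynomial.natDegree_C_mul_X_pow_le _ _).trans ?_
      have := j.2
      omega
    have hprod0 : ∏ e, Pe e = 0 := by
      refine Polynomial.eq_zero_of_natDegree_lt_card_of_eval_eq_zero (∏ e, Pe e)
        (f := fun s : Fin (Fintype.card (k →ₐ[k₀] ℂ) * d + 1) => ((s : ℕ) : ℂ)) ?_ ?_ ?_
      · intro a b hab
        have h1 : ((a : ℕ) : ℂ) = ((b : ℕ) : ℂ) := hab
        exact Fin.ext (by exact_mod_cast h1)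
      · intro s
        rw [Polynomial.eval_prod]
        simp only [hPe]
        have h1 := hexp s
        rw [hCs0 s, zero_mul] at h1
        exact (mul_eq_zero.1 h1.symm).resolve_left hj₀
      · rw [Fintype.card_fin]
        refine Nat.lt_succ_of_le ((Polynomial.natDegree_prod_le _ _).trans ?_)
        refine (Finset.sum_le_sum fun e _ => hPed e).trans ?_
        rw [Finset.sum_const, smul_eq_mul, Finset.card_univ]
    rw [Finset.prod_eq_zero_iff] at hprod0
    obtain ⟨e, -, he⟩ := hprod0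
    exact hPe0 e he


theorem p_WD : S_WD := by
  intro ι k _ _ _ S hS hZ d l hl
  have hcard : Fintype.card (k →ₐ[ℚ] ℂ) = Module.finrank ℚ k := AlgHom.card ℚ k ℂ
  obtain ⟨r, S', Ψ, h1, h2, h3, h4, h5, l', h6⟩ := wd_model (k₀ := ℚ) S hS (fun σ => hZ _) d l
    (fun σ x hx hx' => hl (σ : k →+* ℂ) x hx hx')
  refine ⟨r, S', Ψ, h1, h2, h3, h4, h5, ?_⟩
  rw [← hcard]
  refine ⟨l', fun x hx hx' => h6 x hx fun j => ?_⟩
  have := hx' j
  exact this

end Pool.Agent.Lib.MP_627a61_nt
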