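import Pool.Agent.Lib.MP_627a61_nt.Cy.Stm

/-!
# EMB: embedding hyperbolic projective varieties in smooth hyperbolic cyclic covers
-/

open scoped LinearAlgebra.Projectivization Topology
open Filter MvPolynomial

namespace Pool.Agent.Lib.MP_627a61_nt

private lemma emb_wv_map {L L' : Type*} [CommRing L] [CommRing L'] (f : L →+* L') {M : ℕ}
    (x : Fin M → L) (i : Fin M) : f (wv x i) = wv (fun j => f (x j)) i := by
  simp [wv, map_sum, map_mul, map_pow]

private lemma emb_al_map {L L' : Type*} [CommRing L] [CommRing L'] (f : L →+* L') {M : ℕ}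
    (x : Fin (M + 1) → L) (i : Fin M) : f (al x i) = al (fun j => f (x j)) i := by
  simp [al, emb_wv_map f]

private lemma emb_th_map {L L' : Type*} [CommRing L] [CommRing L'] (f : L →+* L') (N : ℕ)
    (x : Fin (N + 2) → L) (i : Fin 2) : f (th N x i) = th N (fun j => f (x j)) i := by
  induction N with
  | zero => rfl
  | succ N ih =>
    have h1 : (fun j => f (al x j)) = al fun j => f (x j) := funext fun j => emb_al_map f x j
    show f (th N (al x) i) = th N (al fun j => f (x j)) i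
    rw [ih, h1]

private lemma emb_al_zero {L : Type*} [CommRing L] {M : ℕ} : al (0 : Fin (M + 1) → L) = 0 := by
  funext j
  simp [al, wv]

private lemma emb_th_zero {L : Type*} [CommRing L] (N : ℕ) (i : Fin 2) :
    th N (0 : Fin (N + 2) → L) i = 0 := by
  induction N with
  | zero => rfl
  | succ N ih =>
    show th N (al 0) i = 0
    rw [emb_al_zero, ih]

private lemma emb_wv_homog {ι k : Type*} [Field k] {M : ℕ} {x : Fin M → MvPolynomial ι k} {r : ℕ}
    (hx : ∀ i, (x i).IsHomogeneous r) (i : Fin M) : (wv x i).IsHomogeneous (r * 4) := by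
  unfold wv
  refine IsHomogeneous.sum _ _ _ fun j _ => ?_
  have h1 := ((hx j).pow 4).C_mul (((vmat M).adjugate i j : ℤ) : k)
  rwa [map_intCast] at h1

private lemma emb_al_homog {ι k : Type*} [Field k] {M : ℕ} {x : Fin (M + 1) → MvPolynomial ι k}
    {r : ℕ} (hx : ∀ i, (x i).IsHomogeneous r) (i : Fin M) :
    (al x i).IsHomogeneous (r * 16) := by
  have h1 := ((emb_wv_homog hx i.castSucc).pow 4).sub ((emb_wv_homog hx i.succ).pow 4)
  have h2 : r * 4 * 4 = r * 16 := by ring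
  rwa [h2] at h1

private lemma emb_th_homog {ι k : Type*} [Field k] (N : ℕ) :
    ∀ {x : Fin (N + 2) → MvPolynomial ι k} {r : ℕ}, (∀ i, (x i).IsHomogeneous r) →
    ∀ i, (th N x i).IsHomogeneous (r * 16 ^ N) := by
  induction N with
  | zero =>
    intro x r hx i
    have h1 : r * 16 ^ 0 = r := by ring
    rw [h1]
    exact hx i
  | succ N ih =>
    intro x r hx i
    have h1 := ih (emb_al_homog hx) i
    have h2 : r * 16 * 16 ^ N = r * 16 ^ (N + 1) := by ring
    rw [h2] at h1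
    exact h1

private lemma emb_cyF_homog {ι κ k : Type*} [Field k] {e : ℕ} {P : κ → MvPolynomial ι k}
    {δ : κ → ℕ} (hP : ∀ c, (P c).IsHomogeneous (δ c)) {r : ℕ} (hr : ∀ c, δ c < r) {N : ℕ}
    (eqv : Fin (N + 2) → κ × ι × ι) :
    (cyF e P δ r eqv).IsHomogeneous (e * (4 * (r * 16 ^ N))) := by
  have h1 := emb_th_homog N (x := fun i => gfam P δ r (eqv i)) fun i => gfam_homog hP hr (eqv i)
  have h2 := ((h1 0).pow (4 * e)).add ((h1 1).pow (4 * e))
  have h3 : r * 16 ^ N * (4 * e) = e * (4 * (r * 16 ^ N)) := by ring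
  rw [h3] at h2
  exact h2

private lemma emb_cyF_eval {ι κ k : Type*} [Field k] {e : ℕ} (he : e ≠ 0)
    {P : κ → MvPolynomial ι k} (δ : κ → ℕ) (r : ℕ) {N : ℕ} (eqv : Fin (N + 2) → κ × ι × ι)
    {x : ι → k} (h : ∀ c, (P c).eval₂ (RingHom.id k) x = 0) :
    (cyF e P δ r eqv).eval₂ (RingHom.id k) x = 0 := by
  have h1 : ∀ i, (th N (fun i => gfam P δ r (eqv i)) i).eval₂ (RingHom.id k) x = 0 := by
    intro i
    have h2 := emb_th_map (eval₂Hom (RingHom.id k) x) N (fun i => gfam P δ r (eqv i)) i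
    have h3 : (fun j => eval₂Hom (RingHom.id k) x (gfam P δ r (eqv j))) = 0 := by
      funext j
      show (gfam P δ r (eqv j)).eval₂ (RingHom.id k) x = 0
      rw [eval₂_gfam, h, mul_zero]
    rw [h3, emb_th_zero] at h2
    exact h2
  rw [cyF, eval₂_add, eval₂_pow, eval₂_pow, h1, h1]
  simp [he]

/-- **Embedding theorem for cyclic covers.** -/
private theorem emb_sum (hCOV : S_COV) (hCE : S_CE) (hPEN : S_PEN) (hOPEN : S_OPEN)
    {ι κ Γ k : Type} [Field k] [Fintype ι] [Nonempty ι] [Fintype κ] [Fintype Γ] [CharZero k]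
    (f : ι ↪ κ) (P : Γ → MvPolynomial ι k) {δ : Γ → ℕ} (hδ : ∀ c, (P c).IsHomogeneous (δ c))
    (T : Set (k →+* ℂ)) (hT : T.Finite)
    (hZ' : ∀ σ ∈ T, BrodyHyperbolic (points σ (Set.range P))) {e r N : ℕ} (he : 2 ≤ e)
    (hr2 : 2 ≤ r) (hrδ : ∀ c, δ c < r)
    (hN : Fintype.card ((Γ ⊕ κ) × (ι ⊕ κ) × (ι ⊕ κ)) ≤ N + 2) :
    ∃ F : MvPolynomial (ι ⊕ κ) k, F.IsHomogeneous (e * (4 * (r * 16 ^ N))) ∧
      SmoothHypersurface F ∧
      (∀ σ ∈ T, BrodyHyperbolic (cyclicCover σ e (4 * (r * 16 ^ N)) F)) ∧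
      (∀ x : ι → k, (∀ c, eval₂ (RingHom.id k) x (P c) = 0) →
        eval₂ (RingHom.id k) (Sum.elim x 0) F = 0) := by
  classical
  -- parameters
  have hr3 : ∀ c, Sum.elim δ (fun _ : κ => 1) c < r := by
    rintro (c | c)
    · exact hrδ c
    · simp only [Sum.elim_inr]; omega
  obtain ⟨i₀⟩ : Nonempty ι := inferInstance
  obtain ⟨eqv, heqv⟩ : ∃ s : Fin (N + 2) → (Γ ⊕ κ) × (ι ⊕ κ) × (ι ⊕ κ), Function.Surjective s := by
    obtain ⟨g⟩ := Function.Embedding.nonempty_of_card_le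
      (α := (Γ ⊕ κ) × (ι ⊕ κ) × (ι ⊕ κ)) (β := Fin (N + 2)) (by simpa using hN)
    have : Nonempty ((Γ ⊕ κ) × (ι ⊕ κ) × (ι ⊕ κ)) :=
      ⟨(Sum.inr (f i₀), Sum.inl i₀, Sum.inl i₀)⟩
    exact ⟨Function.invFun g, Function.invFun_surjective g.injective⟩
  set m' := 4 * (r * 16 ^ N) with hm'
  have hm'1 : 2 ≤ m' := by
    have h1 : 1 ≤ 16 ^ N := Nat.one_le_pow _ _ (by norm_num)
    nlinarith
  set F₀ := cyF e (extP κ P) (Sum.elim δ fun _ : κ => 1) r eqv with hF₀
  have hF₀hom : F₀.IsHomogeneous (e * m') := emb_cyF_homog (extP_homog hδ) hr3 eqv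
  set m := e * m' with hm
  have hm2 : 2 ≤ m := by nlinarith
  have hEhom : (smE k f m).IsHomogeneous m := smE_homog (by omega)
  have hF₀hyp : ∀ σ ∈ T, BrodyHyperbolic (cyclicCover σ e m' F₀) := by
    intro σ hσ
    exact hCOV hCE hPEN _ _ _ (extP κ P) _ (extP_homog hδ) r hr3 N eqv heqv e he σ
      (brodyHyperbolic_extP hδ σ (hZ' σ hσ))
  -- smoothness
  have hfin := finite_singular (K := AlgebraicClosure k) (m := m)
    (R := Fintype.card (ι ⊕ κ) * (2 * m)) (E := smE k f m) hF₀hom (by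
      have h2 : 1 ≤ Fintype.card (ι ⊕ κ) := Fintype.card_pos
      nlinarith [Nat.sub_le m 1]) (smE_dec hm2 le_rfl)
  have hev1 : ∀ᶠ M : ℕ in atTop, ¬ ∃ x : ι ⊕ κ → AlgebraicClosure k, x ≠ 0 ∧
      ∀ i, aeval x (pderiv i ((M : MvPolynomial (ι ⊕ κ) k) * F₀ + smE k f m)) = 0 := by
    have := hfin.compl_mem_cofinite
    rw [Nat.cofinite_eq_atTop] at this
    exact this
  have hev2 : ∀ᶠ M : ℕ in atTop, ∀ σ ∈ T,
      BrodyHyperbolic (cyclicCover σ e m' (F₀ + C ((M : k)⁻¹) * smE k f m)) := by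
    rw [Filter.eventually_all_finite hT]
    intro σ hσ
    exact hOPEN _ _ σ e m' (by omega) (by omega) F₀ (smE k f m) hF₀hom hEhom (hF₀hyp σ hσ)
  obtain ⟨M, ⟨hM1, hM2⟩, hM3⟩ := ((hev1.and hev2).and (eventually_ge_atTop 1)).exists
  have hMk : (M : k) ≠ 0 := by
    have : M ≠ 0 := by omega
    exact_mod_cast this
  refine ⟨F₀ + C ((M : k)⁻¹) * smE k f m, hF₀hom.add (hEhom.C_mul _), ?_, hM2, ?_⟩
  · intro x hx _
    by_contra hcon
    push Not at hcon
    refine hM1 ⟨x, hx, fun i => ?_⟩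
    have h1 : (M : MvPolynomial (ι ⊕ κ) k) * F₀ + smE k f m =
        C (M : k) * (F₀ + C ((M : k)⁻¹) * smE k f m) := by
      rw [mul_add, ← mul_assoc, ← C_mul, mul_inv_cancel₀ hMk, C_1, one_mul, map_natCast]
    rw [h1, pderiv_C_mul, map_mul, hcon i, mul_zero]
  · intro x hx
    have h1 : eval₂ (RingHom.id k) (Sum.elim x 0) F₀ = 0 := by
      apply emb_cyF_eval (by omega)
      rw [eval₂_extP_iff]
      exact ⟨fun c => hx c, fun j => by simp⟩
    have h2 : eval₂ (RingHom.id k) (Sum.elim x (0 : κ → k)) (smE k f m) = 0 := by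
      have hm0 : m ≠ 0 := by omega
      rw [smE, eval₂_add, eval₂_sum, eval₂_sum, Finset.sum_eq_zero, Finset.sum_eq_zero, add_zero]
      · intro l _
        rw [eval₂_pow, eval₂_X]
        simp [hm0]
      · intro j _
        rw [eval₂_mul, eval₂_X]
        simp
    rw [eval₂_add, eval₂_mul, h1, h2, mul_zero, add_zero]

theorem p_EMBCY (hCOV : S_COV) (hCE : S_CE) (hPEN : S_PEN) (hOPEN : S_OPEN) (hREN : S_REN) :
    S_EMBCY := by
  classical
  intro k _ _ n₀ S hS T hT hZ e he g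
  obtain ⟨S', hS', hS'2⟩ := exists_finite_equations S
  let P : {F // F ∈ S'} → MvPolynomial (Fin (n₀ + 1)) k := fun F => F.1
  have hP : ∀ c : {F // F ∈ S'}, ∃ n, (P c).IsHomogeneous n := fun c => hS _ (hS' c.2)
  choose δ hδ using hP
  have hZ' : ∀ σ ∈ T, BrodyHyperbolic (points σ (Set.range P)) := by
    intro σ hσ
    have : points σ (Set.range P) = points σ S := by
      ext x
      constructor
      · intro h F hF
        exact hS'2 ℂ σ x.rep (fun G hG => h G ⟨⟨G, hG⟩, rfl⟩) F hF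
      · rintro h _ ⟨c, rfl⟩
        exact h _ (hS' c.2)
    rw [this]
    exact hZ σ hσ
  obtain ⟨B, hB⟩ := (Set.finite_range δ).bddAbove
  refine ⟨2 * n₀ + 1, fun n hn => ?_⟩
  -- the embedding of index sets
  let f : Fin (n₀ + 1) ↪ Fin (n - n₀) := Fin.castLEEmb (by omega)
  have hdeg : ∀ c, δ c < g n + B + 2 := by
    intro c
    have := hB ⟨c, rfl⟩
    omega
  obtain ⟨N, hN⟩ : ∃ N, Fintype.card (({F // F ∈ S'} ⊕ Fin (n - n₀)) ×
      (Fin (n₀ + 1) ⊕ Fin (n - n₀)) × (Fin (n₀ + 1) ⊕ Fin (n - n₀))) ≤ N + 2 :=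
    ⟨_, Nat.le_add_right _ 2⟩
  obtain ⟨F, hF1, hF2, hF3, hF4⟩ := emb_sum hCOV hCE hPEN hOPEN f P hδ T hT hZ' he
    (r := g n + B + 2) (N := N) (by omega) hdeg hN
  let eq : Fin (n₀ + 1) ⊕ Fin (n - n₀) ≃ Fin (n + 1) :=
    finSumFinEquiv.trans (finCongr (by omega))
  refine ⟨4 * ((g n + B + 2) * 16 ^ N), ?_, rename eq F, hF1.rename_isHomogeneous,
    smoothHypersurface_rename eq hF2, fun σ hσ => hREN _ _ _ eq σ _ _ F (hF3 σ hσ),
    fun x => Sum.elim x 0 ∘ eq.symm, ?_, ?_, ?_⟩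
  · have h1 : 1 ≤ 16 ^ N := Nat.one_le_pow _ _ (by norm_num)
    nlinarith
  · intro x hx h0
    apply hx
    funext i
    have := congrFun h0 (eq (Sum.inl i))
    simpa using this
  · rintro x y - - ⟨t, ht⟩
    refine ⟨t, ?_⟩
    funext i
    have := congrFun ht (eq (Sum.inl i))
    simpa using this
  · intro x hx
    rw [eval₂_rename]
    have h1 : (Sum.elim x 0 ∘ eq.symm) ∘ eq = (Sum.elim x 0 : _ → k) := by
      funext c
      simp
    rw [h1]
    exact hF4 x fun c => hx _ (hS' c.2)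

end Pool.Agent.Lib.MP_627a61_nt
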