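import Pool.Agent.Lib.MP_627a61_nt.Cy.Stm

/-!
# CYCLIC COVERS, piece VAND
-/

namespace Pool.Agent.Lib.MP_627a61_nt

private lemma vand_geom (Q : ℝ) (hQ : 9 ≤ Q) : ∀ i : ℕ, ∑ l ∈ Finset.range i, Q ^ l ≤ Q ^ i / 8 := by
  intro i
  induction i with
  | zero => simp
  | succ i ih =>
    rw [Finset.sum_range_succ, pow_succ]
    have h0 : 0 < Q ^ i := pow_pos (by linarith) i
    nlinarith

private lemma vand_rest (M : ℕ) (I : Finset (Fin M)) (κ : Fin M → ℂ) (hκ : ∀ l, ‖κ l‖ = 1)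
    (i : Fin M) (hi : i ∈ I) (him : ∀ l ∈ I, l ≤ i) (Q : ℝ) (hQ : 9 ≤ Q) :
    ‖∑ l ∈ I, κ l * (Q : ℂ) ^ (l : ℕ) - κ i * (Q : ℂ) ^ (i : ℕ)‖ ≤ Q ^ (i : ℕ) / 8 := by
  have hQ0 : 0 ≤ Q := by linarith
  rw [← Finset.add_sum_erase I _ hi, add_sub_cancel_left]
  calc ‖∑ l ∈ I.erase i, κ l * (Q : ℂ) ^ (l : ℕ)‖
      ≤ ∑ l ∈ I.erase i, ‖κ l * (Q : ℂ) ^ (l : ℕ)‖ := norm_sum_le _ _
    _ = ∑ l ∈ I.erase i, Q ^ (l : ℕ) := by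
        refine Finset.sum_congr rfl fun l _ => ?_
        rw [norm_mul, hκ, one_mul, norm_pow, Complex.norm_real, Real.norm_of_nonneg hQ0]
    _ = ∑ l ∈ (I.erase i).map Fin.valEmbedding, Q ^ l := by
        rw [Finset.sum_map]
        rfl
    _ ≤ ∑ l ∈ Finset.range (i : ℕ), Q ^ l := by
        refine Finset.sum_le_sum_of_subset_of_nonneg ?_ fun l _ _ => pow_nonneg hQ0 l
        intro l hl
        rw [Finset.mem_map] at hl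
        obtain ⟨a, ha, rfl⟩ := hl
        rw [Finset.mem_erase] at ha
        rw [Finset.mem_range]
        exact lt_of_le_of_ne (him a ha.2) fun h => ha.1 (Fin.ext h)
    _ ≤ Q ^ (i : ℕ) / 8 := vand_geom Q hQ i

private lemma vand_bd (M : ℕ) (I : Finset (Fin M)) (κ : Fin M → ℂ) (hκ : ∀ l, ‖κ l‖ = 1)
    (i : Fin M) (hi : i ∈ I) (him : ∀ l ∈ I, l ≤ i) (Q : ℝ) (hQ : 9 ≤ Q) :
    7 / 8 * Q ^ (i : ℕ) ≤ ‖∑ l ∈ I, κ l * (Q : ℂ) ^ (l : ℕ)‖ ∧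
      ‖∑ l ∈ I, κ l * (Q : ℂ) ^ (l : ℕ)‖ ≤ 9 / 8 * Q ^ (i : ℕ) := by
  have h1 := vand_rest M I κ hκ i hi him Q hQ
  have h2 : ‖κ i * (Q : ℂ) ^ (i : ℕ)‖ = Q ^ (i : ℕ) := by
    rw [norm_mul, hκ, one_mul, norm_pow, Complex.norm_real, Real.norm_of_nonneg (by linarith)]
  have h3 := norm_sub_norm_le (κ i * (Q : ℂ) ^ (i : ℕ)) (∑ l ∈ I, κ l * (Q : ℂ) ^ (l : ℕ))
  rw [norm_sub_rev] at h3
  have h4 := norm_sub_norm_le (∑ l ∈ I, κ l * (Q : ℂ) ^ (l : ℕ)) (κ i * (Q : ℂ) ^ (i : ℕ))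
  rw [h2] at h3 h4
  constructor <;> linarith

private lemma vand_lt (M : ℕ) (I J : Finset (Fin M)) (κ : Fin M → ℂ) (hκ : ∀ l, ‖κ l‖ = 1)
    (i j : Fin M) (hi : i ∈ I) (him : ∀ l ∈ I, l ≤ i) (hj : j ∈ J) (hjm : ∀ l ∈ J, l ≤ j)
    (hji : j < i) (Q R : ℝ) (hQ : 9 ≤ Q) (hR : 9 * Q ≤ R) :
    ‖(∑ l ∈ I, κ l * (Q : ℂ) ^ (l : ℕ)) * (∑ l ∈ J, κ l * (R : ℂ) ^ (l : ℕ))‖ <
      ‖(∑ l ∈ I, κ l * (R : ℂ) ^ (l : ℕ)) * (∑ l ∈ J, κ l * (Q : ℂ) ^ (l : ℕ))‖ := by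
  have hR9 : 9 ≤ R := by linarith
  have hQ0 : 0 < Q := by linarith
  have hR0 : 0 < R := by linarith
  obtain ⟨a1, a2⟩ := vand_bd M I κ hκ i hi him Q hQ
  obtain ⟨b1, b2⟩ := vand_bd M J κ hκ j hj hjm Q hQ
  obtain ⟨c1, c2⟩ := vand_bd M I κ hκ i hi him R hR9
  obtain ⟨d1, d2⟩ := vand_bd M J κ hκ j hj hjm R hR9
  rw [norm_mul, norm_mul]
  have hji' : (j : ℕ) < (i : ℕ) := hji
  obtain ⟨t, ht⟩ : ∃ t : ℕ, (i : ℕ) = (j : ℕ) + (t + 1) := ⟨(i : ℕ) - j - 1, by omega⟩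
  have hkey : 9 * (Q ^ (i : ℕ) * R ^ (j : ℕ)) ≤ R ^ (i : ℕ) * Q ^ (j : ℕ) := by
    rw [ht, pow_add Q (j : ℕ) (t + 1), pow_add R (j : ℕ) (t + 1)]
    have h5 : 9 * Q ^ (t + 1) ≤ R ^ (t + 1) := by
      calc 9 * Q ^ (t + 1) ≤ 9 ^ (t + 1) * Q ^ (t + 1) := by
            apply mul_le_mul_of_nonneg_right _ (by positivity)
            calc (9 : ℝ) = 9 ^ 1 := by norm_num
              _ ≤ 9 ^ (t + 1) := pow_le_pow_right₀ (by norm_num) (by omega)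
        _ = (9 * Q) ^ (t + 1) := by rw [mul_pow]
        _ ≤ R ^ (t + 1) := pow_le_pow_left₀ (by positivity) hR _
    have h6 : 0 ≤ Q ^ (j : ℕ) * R ^ (j : ℕ) := by positivity
    nlinarith
  have hpos : 0 < Q ^ (i : ℕ) * R ^ (j : ℕ) := by positivity
  calc _ ≤ 9 / 8 * Q ^ (i : ℕ) * (9 / 8 * R ^ (j : ℕ)) :=
        mul_le_mul a2 d2 (norm_nonneg _) (by positivity)
    _ < 7 / 8 * R ^ (i : ℕ) * (7 / 8 * Q ^ (j : ℕ)) := by nlinarith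
    _ ≤ _ := mul_le_mul c1 b1 (by positivity) (norm_nonneg _)

theorem p_VAND : S_VAND := by
  intro M I κ hκ hI hIc m n hmn
  obtain ⟨i, hi, him⟩ : ∃ i ∈ I, ∀ l ∈ I, l ≤ i :=
    ⟨I.max' hI, I.max'_mem hI, fun l hl => I.le_max' l hl⟩
  obtain ⟨j, hj, hjm⟩ : ∃ j ∈ Iᶜ, ∀ l ∈ Iᶜ, l ≤ j :=
    ⟨Iᶜ.max' hIc, Iᶜ.max'_mem hIc, fun l hl => Iᶜ.le_max' l hl⟩
  have hij : i ≠ j := by
    rintro rfl
    exact (Finset.mem_compl.1 hj) hi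
  have hcast : ∀ m : Fin M, ((9 : ℂ) ^ ((m : ℕ) + 1)) = (((9 : ℝ) ^ ((m : ℕ) + 1) : ℝ) : ℂ) := by
    intro m
    push_cast
    rfl
  have h9 : ∀ m : Fin M, (9 : ℝ) ≤ 9 ^ ((m : ℕ) + 1) := by
    intro m
    calc (9 : ℝ) = 9 ^ 1 := by norm_num
      _ ≤ 9 ^ ((m : ℕ) + 1) := pow_le_pow_right₀ (by norm_num) (by omega)
  have h99 : ∀ m n : Fin M, m < n → 9 * (9 : ℝ) ^ ((m : ℕ) + 1) ≤ 9 ^ ((n : ℕ) + 1) := by
    intro m n h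
    have h' : (m : ℕ) < n := h
    rw [← pow_succ']
    exact pow_le_pow_right₀ (by norm_num) (by omega)
  intro h0
  rw [sub_eq_zero] at h0
  rw [hcast m, hcast n] at h0
  rcases lt_or_gt_of_ne hij with h | h
  · rcases lt_or_gt_of_ne hmn with h' | h'
    · have := vand_lt M Iᶜ I κ hκ j i hj hjm hi him h _ _ (h9 m) (h99 m n h')
      rw [mul_comm, ← h0, mul_comm] at this
      exact lt_irrefl _ this
    · have := vand_lt M Iᶜ I κ hκ j i hj hjm hi him h _ _ (h9 n) (h99 n m h')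
      rw [mul_comm, h0, mul_comm] at this
      exact lt_irrefl _ this
  · rcases lt_or_gt_of_ne hmn with h' | h'
    · have := vand_lt M I Iᶜ κ hκ i j hi him hj hjm h _ _ (h9 m) (h99 m n h')
      rw [h0] at this
      exact lt_irrefl _ this
    · have := vand_lt M I Iᶜ κ hκ i j hi him hj hjm h _ _ (h9 n) (h99 n m h')
      rw [h0] at this
      exact lt_irrefl _ this

end Pool.Agent.Lib.MP_627a61_nt
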