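import Pool.Agent.Lib.MP_627a61_nt.Cy.RStm
import Pool.Agent.Lib.MP_627a61_nt.Cy.P_CLO

/-!
# ONER: the first part of the theorem, relative form
-/

open scoped LinearAlgebra.Projectivization Topology
open Filter MvPolynomial

namespace Pool.Agent.Lib.MP_627a61_nt

/-- renaming the variables preserves hyperbolicity -/
private lemma oner_brody_rename {V V' k : Type*} [Fintype V] [Fintype V'] [Field k] (e : V ≃ V')
    {S : Set (MvPolynomial V k)} (hS : Homog S) (σ : k →+* ℂ)
    (h : BrodyHyperbolic (points σ S)) : BrodyHyperbolic (points σ (rename e '' S)) := by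
  intro φ hφ hφY
  have hne : ∀ z, (fun i => (φ z).rep (e i)) ≠ (0 : V → ℂ) := by
    intro z h
    apply (φ z).rep_nonzero
    funext c
    have := congrFun h (e.symm c)
    simpa using this
  obtain ⟨ψ, hψ, hψ1, -⟩ := exists_division hφ (fun x i => x (e i) : (V' → ℂ) → (V → ℂ))
    (by
      intro x
      rw [analyticAt_pi_iff]
      intro i
      exact analyticAt_proj _ x) 1
    (by
      intro t x
      funext i
      simp) (hne 0)
  have hψZ : ∀ z, ψ z ∈ points σ S := by
    intro z
    rw [hψ1 z (hne z), mem_points_mk hS σ]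
    intro P hP
    have h1 := hφY z _ ⟨P, hP, rfl⟩
    rw [eval₂_rename] at h1
    exact h1
  have hψc := h ψ hψ hψZ
  intro z w
  have h1 := hψc z w
  rw [hψ1 z (hne z), hψ1 w (hne w), Projectivization.mk_eq_mk_iff'] at h1
  obtain ⟨t, ht⟩ := h1
  rw [← (φ z).mk_rep, ← (φ w).mk_rep, Projectivization.mk_eq_mk_iff']
  refine ⟨t, ?_⟩
  funext c
  have := congrFun ht (e.symm c)
  simpa using this

private lemma oner_homog_rename {V V' k : Type*} [Field k] (e : V ≃ V')
    {S : Set (MvPolynomial V k)} (hS : Homog S) : Homog (rename e '' S) := by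
  rintro _ ⟨P, hP, rfl⟩
  obtain ⟨n, hn⟩ := hS P hP
  exact ⟨n, hn.rename_isHomogeneous⟩

/-- the map to projective space -/
private lemma oner_coverVec_inj {ι K : Type*} [Field K] {m : ℕ} (hm : 1 ≤ m) {x x' : ι → K}
    {y y' t : K} (hx : x ≠ 0) (h : coverVec m x y = t • coverVec m x' y') :
    ∃ s : K, x = s • x' := by
  obtain ⟨j, hj⟩ : ∃ j, x j ≠ 0 := by
    by_contra h
    push Not at h
    exact hx (funext h)
  obtain ⟨m, rfl⟩ : ∃ m', m = m' + 1 := ⟨m - 1, by omega⟩
  refine ⟨t * x' j ^ m / x j ^ m, ?_⟩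
  funext i
  have h1 := congrFun h (some (Fin.cons i fun _ => j))
  simp only [coverVec, Pi.smul_apply, smul_eq_mul, Fin.prod_univ_succ, Fin.cons_zero,
    Fin.cons_succ, Finset.prod_const, Finset.card_univ, Fintype.card_fin] at h1
  have h2 : x j ^ m ≠ 0 := pow_ne_zero _ hj
  rw [Pi.smul_apply, smul_eq_mul]
  field_simp
  linear_combination h1

private lemma oner_finite_of_cover {k : Type*} [Field k] {ι : Type*} {e m : ℕ} (hm : 1 ≤ m)
    (F : MvPolynomial ι k) (h : (cyclicCover (RingHom.id k) e m F).Finite) :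
    {x : ℙ k (ι → k) | ∃ y : k, y ^ e = MvPolynomial.eval x.rep F}.Finite := by
  have hy : ∀ x : ↥{x : ℙ k (ι → k) | ∃ y : k, y ^ e = MvPolynomial.eval x.rep F},
      ∃ y : k, y ^ e = MvPolynomial.eval x.1.rep F := fun x => x.2
  choose y hy using hy
  have : Finite ↥(cyclicCover (RingHom.id k) e m F) := h
  have hF : Function.Injective
      fun x : ↥{x : ℙ k (ι → k) | ∃ y : k, y ^ e = MvPolynomial.eval x.rep F} =>
      (⟨Projectivization.mk k (coverVec m x.1.rep (y x))
        (clo_coverVec_ne_zero x.1.rep_nonzero (y x)),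
        ⟨x.1.rep, y x, clo_coverVec_ne_zero x.1.rep_nonzero (y x), hy x, rfl⟩⟩ :
        ↥(cyclicCover (RingHom.id k) e m F)) := by
    intro p q hpq
    have h1 := congrArg Subtype.val hpq
    dsimp only at h1
    rw [Projectivization.mk_eq_mk_iff'] at h1
    obtain ⟨t, ht⟩ := h1
    obtain ⟨s, hs⟩ := oner_coverVec_inj hm p.1.rep_nonzero ht.symm
    apply Subtype.ext
    rw [← p.1.mk_rep, ← q.1.mk_rep, Projectivization.mk_eq_mk_iff']
    exact ⟨s, hs.symm⟩
  exact Finite.of_injective _ hF


/-- the cover has dimension at most `n` -/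
private lemma oner_dim (hKD3 : S_KD3) {n e m : ℕ} (he : 1 ≤ e) (hm : 1 ≤ m) {k : Type} [Field k]
    (F : MvPolynomial (Fin (n + 1)) k) (hF : F.IsHomogeneous (e * m))
    (S : Set (MvPolynomial (Option (Fin m → Fin (n + 1))) k)) (hS : Homog S)
    (hpts : ∀ (K : Type) [Field K] (τ : k →+* K), points τ S = cyclicCover τ e m F) :
    ringKrullDim (MvPolynomial (Option (Fin m → Fin (n + 1))) k ⧸ Ideal.span S) ≤
      ((n + 1 : ℕ) : WithBot ℕ∞) := by
  refine hKD3 _ k S hS (n + 1) (fun i => X (some fun _ => i)) (fun i => isHomogeneous_X k _) ?_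
  intro x hx hlx
  by_contra hx0
  have hmem : Projectivization.mk (AlgebraicClosure k) x hx0 ∈
      points (algebraMap k (AlgebraicClosure k)) S := by
    rw [mem_points_mk hS]
    intro P hP
    rw [← aeval_def]
    exact hx P hP
  rw [hpts] at hmem
  obtain ⟨x', y, h0, hy, hp⟩ := hmem
  rw [Projectivization.mk_eq_mk_iff'] at hp
  obtain ⟨t, ht⟩ := hp
  have ht0 : t ≠ 0 := by
    rintro rfl
    apply hx0
    rw [← ht, zero_smul]
  have hx' : x' = 0 := by
    funext i
    have h1 := congrFun ht (some fun _ => i)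
    have h2 := hlx i
    rw [aeval_X] at h2
    rw [h2] at h1
    simp only [coverVec, Pi.smul_apply, smul_eq_mul, Finset.prod_const, Finset.card_univ,
      Fintype.card_fin] at h1
    exact (pow_eq_zero_iff (by omega)).1 ((mul_eq_zero.1 h1).resolve_left ht0)
  have hF0 : F.eval₂ (algebraMap k (AlgebraicClosure k)) x' = 0 := by
    have h1 := eval₂_smul_homog hF (algebraMap k (AlgebraicClosure k)) 0 x'
    rw [zero_smul, zero_pow (by positivity), zero_mul] at h1
    rw [hx']
    exact h1
  rw [hF0] at hy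
  have hy0 : y = 0 := (pow_eq_zero_iff (by omega)).1 hy
  apply h0
  funext c
  cases c with
  | none => simp [coverVec, hy0]
  | some α =>
    simp only [coverVec, hx', Pi.zero_apply, Finset.prod_const, Finset.card_univ,
      Fintype.card_fin]
    exact zero_pow (by omega)

theorem p_ONER (hEQS : S_EQS) (hKD3 : S_KD3) (hKDREN : S_KDREN) : S_ONER := by
  intro e n he k _ τ hfin m hm F hF hyp
  obtain ⟨S, hS, hpts⟩ := hEQS n k e m he hm F hF
  obtain ⟨N, hN⟩ : ∃ N, Fintype.card (Option (Fin m → Fin (n + 1))) = N + 1 :=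
    ⟨Fintype.card (Option (Fin m → Fin (n + 1))) - 1, by
      have := Fintype.card_pos (α := Option (Fin m → Fin (n + 1))); omega⟩
  let f : Option (Fin m → Fin (n + 1)) ≃ Fin (N + 1) := Fintype.equivFinOfCardEq hN
  have hS' := oner_homog_rename f hS
  have hdim : ringKrullDim (MvPolynomial (Fin (N + 1)) k ⧸ Ideal.span (rename f '' S)) ≤
      ((n + 1 : ℕ) : WithBot ℕ∞) := by
    rw [(hKDREN _ _ k f).1 S]
    exact oner_dim hKD3 he hm F hF S hS hpts
  have hfinS' : (points (RingHom.id k) (rename f '' S)).Finite := by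
    refine hfin N (rename f '' S) hS' hdim ?_
    intro σ hσ
    rw [Set.mem_singleton_iff] at hσ
    subst hσ
    refine (oner_brody_rename f hS σ ?_).kobayashi (pclosed_points hS' σ)
    rw [hpts]
    exact hyp.brody
  have hfinS : (points (RingHom.id k) S).Finite := by
    refine finite_transfer (fun x => x ∘ f.symm) ?_ ?_ hS' ?_ hfinS'
    · intro x hx h0
      apply hx
      funext i
      simpa using congrFun h0 (f i)
    · rintro x y - - ⟨t, ht⟩
      refine ⟨t, ?_⟩
      funext i
      simpa using congrFun ht (f i)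
    · rintro x hx _ ⟨P, hP, rfl⟩
      rw [eval₂_rename]
      have h2 : (x ∘ f.symm) ∘ f = x := by
        funext i
        simp
      rw [h2]
      exact hx P hP
  rw [hpts] at hfinS
  exact oner_finite_of_cover hm F hfinS

end Pool.Agent.Lib.MP_627a61_nt
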