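import Pool.Agent.Lib.MP_627a61_nt.Cy.RStm

/-!
# TWOR: the second part of the theorem, relative form
-/

open scoped LinearAlgebra.Projectivization Topology
open Filter MvPolynomial

namespace Pool.Agent.Lib.MP_627a61_nt

/-- the linear form with given coefficients -/
private lemma twor_lin_homog {ι k : Type} [Fintype ι] [Field k] (a : ι → k) :
    (∑ i, C (a i) * X i : MvPolynomial ι k).IsHomogeneous 1 :=
  IsHomogeneous.sum _ _ _ fun i _ => (isHomogeneous_X k i).C_mul _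

private lemma twor_kd (hKD3 : S_KD3) {k : Type} [Field k] (τ : k →+* ℂ) {r M : ℕ}
    (S' : Set (MvPolynomial (Fin r) k)) (hS' : Homog S') (l' : Fin (M + 1) → Fin r → k)
    (hl' : ∀ x : Fin r → ℂ, (∀ Q ∈ S', Q.eval₂ τ x = 0) →
      (∀ j, ∑ i, τ (l' j i) * x i = 0) → x = 0) :
    ringKrullDim (MvPolynomial (Fin r) k ⧸ Ideal.span S') ≤ ((M + 1 : ℕ) : WithBot ℕ∞) := by
  refine hKD3 _ k S' hS' (M + 1) (fun j => ∑ i, C (l' j i) * X i)
    (fun j => twor_lin_homog _) ?_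
  intro x hx hlx
  let _ : Algebra k ℂ := τ.toAlgebra
  let f : AlgebraicClosure k →ₐ[k] ℂ := IsAlgClosed.lift
  have hfx : ∀ P : MvPolynomial (Fin r) k,
      P.eval₂ τ (fun i => f (x i)) = f (aeval x P) := by
    intro P
    have h1 := comp_aeval_apply x f P
    rw [h1, aeval_def]
    rfl
  have h2 : (fun i => f (x i)) = 0 := by
    apply hl'
    · intro Q hQ
      rw [hfx, hx Q hQ, map_zero]
    · intro j
      have h3 := hfx (∑ i, C (l' j i) * X i)
      rw [hlx j, map_zero] at h3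
      rw [← h3]
      simp [eval₂_sum, eval₂_mul]
  funext i
  have h3 := congrFun h2 i
  exact (map_eq_zero f).1 h3

theorem p_TWOR (hKD1 : Hy.S_KD1) (hGEO : Hy.S_GEO) (hWD : S_WDR) (hKD3 : S_KD3) (hRADH : S_RADH)
    (hSEPL : S_SEPL) (hLINH : S_LINH) (hFINL : S_FINL) (hEMBN : S_EMBN)
    (hCLOSED : S_CLOSED) : S_TWOR := by
  intro e he g n k L _ _ _ _ τ d s hM hs h N S hS hdim hZ
  have hk : CharZero k := τ.charZero
  have hL : CharZero L := charZero_of_injective_algebraMap (algebraMap k L).injective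
  obtain ⟨l, hl⟩ := hKD1 L N d S hS hdim
  obtain ⟨r, S', Φ, hS', hS'1, hΦ0, hΦ1, hΦ2, l', hl'⟩ :=
    hWD (Fin (N + 1)) k L τ S hS (fun σ hσ => (hZ σ hσ).brody) d l
      fun σ x hx hlx => hl ℂ σ x hx hlx
  obtain ⟨r', rfl⟩ : ∃ r', r = r' + 1 := by
    refine ⟨r - 1, ?_⟩
    have h1 : r ≠ 0 := by
      rintro rfl
      apply hΦ0 (fun _ => 1)
      · intro h0
        exact one_ne_zero (congrFun h0 0)
      · funext i
        exact Fin.elim0 i
    omega
  refine finite_transfer Φ hΦ0 hΦ1 hS' hΦ2 ?_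
  revert hM hs l'
  generalize Module.finrank k L * d = M
  intro hM hs l' hl'
  -- the dimension of the model
  have hdim' : Hy.PDimLE S' M := twor_kd hKD3 τ S' hS' l' hl'
  obtain ⟨a, F, δ, G, -, hG0, hG, -, -, hfin, hhyp⟩ := hGEO k r' M S' hS' hdim'
  refine hfin k (RingHom.id k) ?_
  obtain ⟨δ', R, hR, hRsq, hRz⟩ := hRADH (M + 2) k G δ hG0 hG
  have hpts : ∀ (K : Type) [Field K] (ρ : k →+* K), points ρ {G} = points ρ {R} := by
    intro K _ ρ
    ext x
    simp only [points, Set.mem_singleton_iff, forall_eq, Set.mem_ofPred_eq]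
    exact (hRz K ρ x.rep).symm
  obtain ⟨A, B, hAB, hBA, hline⟩ := hSEPL M k R δ' hR hRsq
  obtain ⟨hAR, hAh, hAf⟩ := hLINH (Fin (M + 2)) k A B hAB hBA R δ' hR
  rw [hpts]
  apply hAf
  refine hFINL M k (subM A R) δ' hAR hline ?_
  intro i hi0 hi1
  have hyp : ∀ σ ∈ ({τ} : Set (k →+* ℂ)), BrodyHyperbolic (points σ {subM A R}) := by
    intro σ hσ
    rw [Set.mem_singleton_iff] at hσ
    subst hσ
    apply hAh
    rw [← hpts]
    exact ((hhyp _).2 (hS'1.kobayashi (pclosed_points hS' _))).brody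
  obtain ⟨m, hm, F', hF'1, hF'2, hF'3, Ψ, hΨ0, hΨ1, hΨ2⟩ :=
    hEMBN (Fin (M + 2)) k 0 1 (by simp) (subM A R) δ' hAR hline {τ}
      (Set.finite_singleton _) hyp e he g n s (by rw [Fintype.card_fin]; omega)
      (by rw [Fintype.card_fin]; omega) i hi0 hi1
  have hfin' := h m hm F' hF'1 hF'2
    ((hF'3 τ rfl).kobayashi (hCLOSED _ _ τ e m (by omega) (by omega) F' hF'1))
  let H : ℙ k (Fin (M + 2) → k) → ℙ k (Fin (n + 1) → k) := fun p =>
    Projectivization.mk k (Ψ p.rep) (hΨ0 _ p.rep_nonzero)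
  refine Set.Finite.of_injOn (f := H) ?_ ?_ hfin'
  · rintro p ⟨hp, hpi⟩
    obtain ⟨t, ht, hrep⟩ := exists_rep_eq (p := H p) (v := Ψ p.rep)
      (hv := hΨ0 _ p.rep_nonzero) rfl
    have hp0 : MvPolynomial.eval p.rep (subM A R) = 0 := by
      have h1 := hp _ rfl
      rwa [eval₂_id] at h1
    obtain ⟨y, hy, hy0⟩ := hΨ2 p.rep hp0
    refine ⟨t ^ m * y, mul_ne_zero (pow_ne_zero _ ht) (hy0 hpi), ?_⟩
    have h1 := eval₂_smul_homog hF'1 (RingHom.id k) t (Ψ p.rep)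
    rw [eval₂_id, eval₂_id, ← hy, ← hrep] at h1
    rw [h1, mul_pow, ← pow_mul, mul_comm m e]
  · intro p _ q _ hpq
    have hpq' : Projectivization.mk k (Ψ p.rep) (hΨ0 _ p.rep_nonzero) =
      Projectivization.mk k (Ψ q.rep) (hΨ0 _ q.rep_nonzero) := hpq
    rw [Projectivization.mk_eq_mk_iff'] at hpq'
    obtain ⟨t, ht⟩ := hpq'
    obtain ⟨u, hu⟩ := hΨ1 _ _ p.rep_nonzero q.rep_nonzero ⟨t, ht.symm⟩
    rw [← p.mk_rep, ← q.mk_rep, Projectivization.mk_eq_mk_iff']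
    exact ⟨u, hu.symm⟩

end Pool.Agent.Lib.MP_627a61_nt
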