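import Pool.Agent.Lib.MP_627a61_nt.Cy.RStm
import Pool.Agent.Lib.MP_627a61_nt.Cy.N_WD

/-!
# WDR: Weil restriction with dimension, relative form
-/

open scoped LinearAlgebra.Projectivization Topology
open Filter MvPolynomial

namespace Pool.Agent.Lib.MP_627a61_nt

theorem p_WDR : S_WDR := by
  intro ι k L _ _ _ _ _ τ S hS hZ d l hl
  let _ : Algebra k ℂ := τ.toAlgebra
  have : CharZero k := τ.charZero
  have hσ : ∀ σ : L →ₐ[k] ℂ, (σ : L →+* ℂ).comp (algebraMap k L) = τ := by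
    intro σ
    ext x
    exact σ.commutes x
  have hcard : Fintype.card (L →ₐ[k] ℂ) = Module.finrank k L := AlgHom.card k L ℂ
  obtain ⟨r, S', Ψ, h1, h2, h3, h4, h5, l', h6⟩ := wd_model (k₀ := k) S hS
    (fun σ => hZ _ (hσ σ)) d l (fun σ x hx hx' => hl (σ : L →+* ℂ) x hx hx')
  refine ⟨r, S', Ψ, h1, h2, h3, h4, h5, ?_⟩
  rw [← hcard]
  exact ⟨l', fun x hx hx' => h6 x hx fun j => hx' j⟩

end Pool.Agent.Lib.MP_627a61_nt
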