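import Pool.Agent.Lib.MP_627a61_nt.Cy.All
import Pool.Agent.Lib.MP_627a61_nt.Hy.Top
import Pool.Agent.Lib.MP_627a61_nt.Cy.N_RES
import Pool.Agent.Lib.MP_627a61_nt.Cy.N_STEP
import Pool.Agent.Lib.MP_627a61_nt.Cy.N_PERT
import Pool.Agent.Lib.MP_627a61_nt.Cy.N_SMO
import Pool.Agent.Lib.MP_627a61_nt.Cy.N_BINV
import Pool.Agent.Lib.MP_627a61_nt.Cy.N_RADH
import Pool.Agent.Lib.MP_627a61_nt.Cy.N_SEPL
import Pool.Agent.Lib.MP_627a61_nt.Cy.N_LINH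
import Pool.Agent.Lib.MP_627a61_nt.Cy.N_KD3
import Pool.Agent.Lib.MP_627a61_nt.Cy.N_KDREN
import Pool.Agent.Lib.MP_627a61_nt.Cy.N_EMBA
import Pool.Agent.Lib.MP_627a61_nt.Cy.N_EMBN
import Pool.Agent.Lib.MP_627a61_nt.Cy.N_FINL
import Pool.Agent.Lib.MP_627a61_nt.Cy.R_WD
import Pool.Agent.Lib.MP_627a61_nt.Cy.R_ONE
import Pool.Agent.Lib.MP_627a61_nt.Cy.R_TWO

/-!
# Assembly of the dimension-explicit reduction to cyclic covers, relative form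
-/

namespace Pool.Agent.Lib.MP_627a61_nt

theorem cyclicr_embn : S_EMBN :=
  p_EMBN (p_EMBA p_COV p_CE cyclic_pen (p_OPEN p_CLO) (p_PERT p_RES)
    (p_SMO (p_STEP p_RES)) p_BINV) p_KD3 p_REN p_KDREN

theorem cyclicr_one : S_ONER := p_ONER p_EQS p_KD3 p_KDREN

theorem cyclicr_two : S_TWOR :=
  p_TWOR Hy.kd1 Hy.top_geo p_WDR p_KD3 p_RADH p_SEPL p_LINH p_FINL cyclicr_embn (p_CLOSED p_CLO)

end Pool.Agent.Lib.MP_627a61_nt
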