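import Pool.Agent.Lib.MP_627a61_nt.Cy.NStm
import Pool.Agent.Lib.MP_627a61_nt.CyclicRelDefs

/-!
# Relative form of the dimension-explicit reduction: statements
-/

open scoped LinearAlgebra.Projectivization Topology
open Filter MvPolynomial

namespace Pool.Agent.Lib.MP_627a61_nt

/-- WDR: Weil restriction with dimension, over a field with an embedding -/
def S_WDR : Prop := ∀ (ι k L : Type) [Fintype ι] [Field k] [Field L] [Algebra k L]
  [FiniteDimensional k L] (τ : k →+* ℂ) (S : Set (MvPolynomial ι L)), Homog S →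
  (∀ σ : L →+* ℂ, σ.comp (algebraMap k L) = τ → BrodyHyperbolic (points σ S)) →
  ∀ (d : ℕ) (l : Fin (d + 1) → ι → L),
  (∀ (σ : L →+* ℂ) (x : ι → ℂ), (∀ P ∈ S, P.eval₂ σ x = 0) →
    (∀ j, ∑ i, σ (l j i) * x i = 0) → x = 0) →
  ∃ (r : ℕ) (S' : Set (MvPolynomial (Fin r) k)) (Ψ : (ι → L) → (Fin r → k)),
    Homog S' ∧ BrodyHyperbolic (points τ S') ∧
    (∀ x, x ≠ 0 → Ψ x ≠ 0) ∧
    (∀ x y, x ≠ 0 → y ≠ 0 → (∃ t : k, Ψ x = t • Ψ y) → ∃ s : L, x = s • y) ∧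
    (∀ x, (∀ F ∈ S, F.eval₂ (RingHom.id L) x = 0) →
      ∀ Q ∈ S', Q.eval₂ (RingHom.id k) (Ψ x) = 0) ∧
    ∃ l' : Fin (Module.finrank k L * d + 1) → Fin r → k, ∀ x : Fin r → ℂ,
      (∀ Q ∈ S', Q.eval₂ τ x = 0) → (∀ j, ∑ i, τ (l' j i) * x i = 0) → x = 0

/-- ONER: the first part -/
def S_ONER : Prop := ∀ e n : ℕ, 1 ≤ e → ∀ (k : Type) [Field k] (τ : k →+* ℂ),
  FiniteInDimAt k {τ} n → ∀ m, 1 ≤ m → ∀ F : MvPolynomial (Fin (n + 1)) k,
    F.IsHomogeneous (e * m) → KobayashiHyperbolic (cyclicCover τ e m F) →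
    {x : ℙ k (Fin (n + 1) → k) | ∃ y : k, y ^ e = MvPolynomial.eval x.rep F}.Finite

/-- TWOR: the second part -/
def S_TWOR : Prop := ∀ e : ℕ, 2 ≤ e → ∀ (g n : ℕ) (k L : Type) [Field k] [Field L] [Algebra k L]
  [FiniteDimensional k L] (τ : k →+* ℂ) (d s : ℕ), Module.finrank k L * d < n →
  2 * (Module.finrank k L * d) ≤ n + s →
  (∀ m, g < m → ∀ F : MvPolynomial (Fin (n + 1)) k, F.IsHomogeneous (e * m) → SingDimLT F s →
    KobayashiHyperbolic (cyclicCover τ e m F) →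
    {x : ℙ k (Fin (n + 1) → k) | ∃ y : k, y ≠ 0 ∧ y ^ e = MvPolynomial.eval x.rep F}.Finite) →
  FiniteInDimAt L {σ | σ.comp (algebraMap k L) = τ} d

end Pool.Agent.Lib.MP_627a61_nt
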