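import Pool.Agent.Lib.MP_627a61_nt.Cy.NStm

/-!
# EMBV: embedding a hypersurface in a cyclic cover, with the equations of the embedding
-/

set_option autoImplicit false

open scoped LinearAlgebra.Projectivization Topology
open Filter MvPolynomial

namespace Pool.Agent.Lib.MP_627a61_nt

private lemma embv_wv_map {L L' : Type*} [CommRing L] [CommRing L'] (f : L →+* L') {M : ℕ}
    (x : Fin M → L) (i : Fin M) : f (wv x i) = wv (fun j => f (x j)) i := by
  simp [wv, map_sum, map_mul, map_pow]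

private lemma embv_al_map {L L' : Type*} [CommRing L] [CommRing L'] (f : L →+* L') {M : ℕ}
    (x : Fin (M + 1) → L) (i : Fin M) : f (al x i) = al (fun j => f (x j)) i := by
  simp [al, embv_wv_map f]

private lemma embv_th_map {L L' : Type*} [CommRing L] [CommRing L'] (f : L →+* L') (N : ℕ)
    (x : Fin (N + 2) → L) (i : Fin 2) : f (th N x i) = th N (fun j => f (x j)) i := by
  induction N with
  | zero => rfl
  | succ N ih =>
    have h1 : (fun j => f (al x j)) = al fun j => f (x j) := funext fun j => embv_al_map f x j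
    show f (th N (al x) i) = th N (al fun j => f (x j)) i
    rw [ih, h1]

private lemma embv_al_zero {L : Type*} [CommRing L] {M : ℕ} : al (0 : Fin (M + 1) → L) = 0 := by
  funext j
  simp [al, wv]

private lemma embv_th_zero {L : Type*} [CommRing L] (N : ℕ) (i : Fin 2) :
    th N (0 : Fin (N + 2) → L) i = 0 := by
  induction N with
  | zero => rfl
  | succ N ih =>
    show th N (al 0) i = 0
    rw [embv_al_zero, ih]

private lemma embv_wv_homog {ι k : Type*} [Field k] {M : ℕ} {x : Fin M → MvPolynomial ι k} {r : ℕ}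
    (hx : ∀ i, (x i).IsHomogeneous r) (i : Fin M) : (wv x i).IsHomogeneous (r * 4) := by
  unfold wv
  refine IsHomogeneous.sum _ _ _ fun j _ => ?_
  have h1 := ((hx j).pow 4).C_mul (((vmat M).adjugate i j : ℤ) : k)
  rwa [map_intCast] at h1

private lemma embv_al_homog {ι k : Type*} [Field k] {M : ℕ} {x : Fin (M + 1) → MvPolynomial ι k}
    {r : ℕ} (hx : ∀ i, (x i).IsHomogeneous r) (i : Fin M) :
    (al x i).IsHomogeneous (r * 16) := by
  have h1 := ((embv_wv_homog hx i.castSucc).pow 4).sub ((embv_wv_homog hx i.succ).pow 4)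
  have h2 : r * 4 * 4 = r * 16 := by ring
  rwa [h2] at h1

private lemma embv_th_homog {ι k : Type*} [Field k] (N : ℕ) :
    ∀ {x : Fin (N + 2) → MvPolynomial ι k} {r : ℕ}, (∀ i, (x i).IsHomogeneous r) →
    ∀ i, (th N x i).IsHomogeneous (r * 16 ^ N) := by
  induction N with
  | zero =>
    intro x r hx i
    have h1 : r * 16 ^ 0 = r := by ring
    rw [h1]
    exact hx i
  | succ N ih =>
    intro x r hx i
    have h1 := ih (embv_al_homog hx) i
    have h2 : r * 16 * 16 ^ N = r * 16 ^ (N + 1) := by ring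
    rw [h2] at h1
    exact h1

private lemma embv_cyF_homog {ι κ k : Type*} [Field k] {e : ℕ} {P : κ → MvPolynomial ι k}
    {δ : κ → ℕ} (hP : ∀ c, (P c).IsHomogeneous (δ c)) {r : ℕ} (hr : ∀ c, δ c < r) {N : ℕ}
    (eqv : Fin (N + 2) → κ × ι × ι) :
    (cyF e P δ r eqv).IsHomogeneous (e * (4 * (r * 16 ^ N))) := by
  have h1 := embv_th_homog N (x := fun i => gfam P δ r (eqv i)) fun i => gfam_homog hP hr (eqv i)
  have h2 := ((h1 0).pow (4 * e)).add ((h1 1).pow (4 * e))
  have h3 : r * 16 ^ N * (4 * e) = e * (4 * (r * 16 ^ N)) := by ring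
  rw [h3] at h2
  exact h2

private lemma embv_cyF_eval {ι κ k : Type*} [Field k] {e : ℕ} (he : e ≠ 0)
    {P : κ → MvPolynomial ι k} (δ : κ → ℕ) (r : ℕ) {N : ℕ} (eqv : Fin (N + 2) → κ × ι × ι)
    {K : Type*} [Field K] (ρ : k →+* K) {x : ι → K} (h : ∀ c, (P c).eval₂ ρ x = 0) :
    (cyF e P δ r eqv).eval₂ ρ x = 0 := by
  have h1 : ∀ i, (th N (fun i => gfam P δ r (eqv i)) i).eval₂ ρ x = 0 := by
    intro i
    have h2 := embv_th_map (eval₂Hom ρ x) N (fun i => gfam P δ r (eqv i)) i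
    have h3 : (fun j => eval₂Hom ρ x (gfam P δ r (eqv j))) = 0 := by
      funext j
      show (gfam P δ r (eqv j)).eval₂ ρ x = 0
      rw [eval₂_gfam, h, mul_zero]
    rw [h3, embv_th_zero] at h2
    exact h2
  rw [cyF, eval₂_add, eval₂_pow, eval₂_pow, h1, h1]
  simp [he]

/-- smoothness of a form on a line after adding variables -/
private lemma embv_smooth_rename {ι κ k : Type} [Field k] {z₀ z₁ : ι} {Q : MvPolynomial ι k}
    (hQ : SmoothOn Q {z₀, z₁}) :
    SmoothOn (rename (Sum.inl : ι → ι ⊕ κ) Q) {Sum.inl z₀, Sum.inl z₁} := by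
  intro x hx hd
  have h1 : (fun i => x (Sum.inl i)) = 0 := by
    refine hQ _ ?_ ?_
    · intro v hv
      refine hx _ fun h => hv ?_
      simpa using h
    · intro v hv
      have h2 := hd (Sum.inl v) (by simpa using hv)
      rw [pderiv_rename Sum.inl_injective, aeval_rename] at h2
      exact h2
  funext v
  rcases v with i | j
  · exact congrFun h1 i
  · exact hx _ (by simp)

private lemma embv_pderiv_rename {ι κ k : Type} [Field k] (Q : MvPolynomial ι k) (j : κ) :
    pderiv (Sum.inr j) (rename (Sum.inl : ι → ι ⊕ κ) Q) = 0 := by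
  classical
  apply pderiv_eq_zero_of_notMem_vars
  intro h
  have h1 := vars_rename (Sum.inl : ι → ι ⊕ κ) Q h
  simp at h1

/-- the free variables and the enumeration of the others -/
private lemma embv_enum {ι κ : Type} [Fintype ι] [Fintype κ] {z₀ z₁ i₀ : ι} (h01 : z₀ ≠ z₁)
    (h0 : i₀ ≠ z₀) (h1 : i₀ ≠ z₁) {s : ℕ}
    (hs : Fintype.card ι ≤ Fintype.card κ + s + 3) :
    ∃ (a : Fin (Fintype.card κ) → Option (ι ⊕ κ)) (b : Fin (Fintype.card κ) → ι ⊕ κ),
      Function.Injective b ∧ (∀ j, ∃ i, b j = Sum.inr i) ∧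
      (∀ i j, a i ≠ some (b j)) ∧ (∀ j, b j ≠ Sum.inl i₀) ∧ (∀ i : κ, ∃ j, b j = Sum.inr i) ∧
      (({Sum.inl z₀, Sum.inl z₁} : Set (ι ⊕ κ)) ∪
        {v | v = Sum.inl i₀ ∨ (∃ j, a j = some v) ∨ ∃ j, b j = v})ᶜ.ncard ≤ s := by
  classical
  set R : Finset ι := Finset.univ \ {z₀, z₁, i₀} with hR
  have hRc : R.card = Fintype.card ι - 3 := by
    have h3 : ({z₀, z₁, i₀} : Finset ι).card = 3 := by
      rw [Finset.card_eq_three]
      exact ⟨z₀, z₁, i₀, h01, h0.symm, h1.symm, rfl⟩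
    rw [hR, Finset.card_sdiff_of_subset (Finset.subset_univ _), h3, Finset.card_univ]
  set q := Fintype.card κ with hq
  let eR := R.equivFin
  let a : Fin q → Option (ι ⊕ κ) := fun j =>
    if h : (j : ℕ) < R.card then some (Sum.inl (eR.symm ⟨j, h⟩ : ι)) else none
  let eκ := Fintype.equivFin κ
  let b : Fin q → ι ⊕ κ := fun j => Sum.inr (eκ.symm j)
  refine ⟨a, b, ?_, fun j => ⟨_, rfl⟩, ?_, ?_, ?_, ?_⟩
  · intro i j h
    exact eκ.symm.injective (Sum.inr_injective h)
  · intro i j h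
    by_cases hi : (i : ℕ) < R.card
    · simp [a, b, hi] at h
    · simp [a, hi] at h
  · intro j h
    simp [b] at h
  · intro i
    exact ⟨eκ i, by simp [b]⟩
  · set f : Fin R.card → ι ⊕ κ := fun i => Sum.inl (eR.symm i : ι) with hf
    have hsub : (({Sum.inl z₀, Sum.inl z₁} : Set (ι ⊕ κ)) ∪
        {v | v = Sum.inl i₀ ∨ (∃ j, a j = some v) ∨ ∃ j, b j = v})ᶜ ⊆
        ((Finset.univ.filter (fun i : Fin R.card => q ≤ (i : ℕ))).image f : Finset (ι ⊕ κ)) := by
      intro v hv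
      simp only [Set.mem_compl_iff, Set.mem_union, Set.mem_insert_iff, Set.mem_singleton_iff,
        Set.mem_ofPred_eq, not_or] at hv
      obtain ⟨⟨hv0, hv1⟩, hv2, hv3, hv4⟩ := hv
      rcases v with i | j
      · have hiR : i ∈ R := by
          rw [hR]
          simp only [Finset.mem_sdiff, Finset.mem_univ, true_and, Finset.mem_insert,
            Finset.mem_singleton, not_or]
          exact ⟨fun h => hv0 (by rw [h]), fun h => hv1 (by rw [h]), fun h => hv2 (by rw [h])⟩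
        simp only [Finset.coe_image, Set.mem_image, Finset.coe_filter, Finset.mem_univ, true_and,
          Set.mem_ofPred_eq]
        refine ⟨eR ⟨i, hiR⟩, ?_, ?_⟩
        · by_contra hcon
          push Not at hcon
          apply hv3
          refine ⟨⟨eR ⟨i, hiR⟩, hcon⟩, ?_⟩
          have h4 : ((eR ⟨i, hiR⟩ : Fin R.card) : ℕ) < R.card := (eR ⟨i, hiR⟩).2
          simp only [a]
          rw [dif_pos h4]
          simp
        · simp [hf]
      · exact absurd ⟨eκ j, by simp [b]⟩ hv4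
    refine (Set.ncard_le_ncard hsub (Finset.finite_toSet _)).trans ?_
    rw [Set.ncard_coe_finset]
    refine Finset.card_image_le.trans ?_
    have h5 : (Finset.univ.filter (fun i : Fin R.card => q ≤ (i : ℕ))).card ≤
        (Finset.Ico q R.card).card := by
      refine Finset.card_le_card_of_injOn (fun i : Fin R.card => (i : ℕ)) ?_ ?_
      · intro i hi
        simp only [Finset.coe_filter, Finset.mem_univ, true_and, Set.mem_ofPred_eq] at hi
        simp only [Finset.coe_Ico, Set.mem_Ico]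
        exact ⟨hi, i.2⟩
      · intro i _ j _ h
        exact Fin.ext h
    refine h5.trans ?_
    rw [Nat.card_Ico, hRc]
    omega

/-- evaluation of the restriction to the first block of variables -/
private lemma embv_restrict {ι κ k : Type} [Field k] {K : Type} [Field K] (ρ : k →+* K)
    (x : ι → K) (E : MvPolynomial (ι ⊕ κ) k) :
    (aeval (Sum.elim X 0 : ι ⊕ κ → MvPolynomial ι k) E).eval₂ ρ x =
      E.eval₂ ρ (Sum.elim x 0) := by
  induction E using MvPolynomial.induction_on with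
  | C a => simp
  | add p q hp hq => rw [map_add, eval₂_add, hp, hq, eval₂_add]
  | mul_X p i hp =>
    rw [map_mul, aeval_X, eval₂_mul, hp, eval₂_mul, eval₂_X]
    rcases i with i | i
    · simp
    · simp

/-- EMBV: the embedding of a hypersurface in a cyclic cover, over all extension fields -/
def S_EMBV : Prop := ∀ (ι κ k : Type) [Fintype ι] [Fintype κ] [Field k] [CharZero k]
  (z₀ z₁ : ι), z₀ ≠ z₁ → ∀ (G : MvPolynomial ι k) (δ : ℕ), G.IsHomogeneous δ →
  SmoothLine G z₀ z₁ → ∀ T : Set (k →+* ℂ), T.Finite →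
  (∀ σ ∈ T, BrodyHyperbolic (points σ {G})) → ∀ e : ℕ, 2 ≤ e → ∀ g s : ℕ,
  Fintype.card ι ≤ Fintype.card κ + s + 3 → ∀ i₀ : ι, i₀ ≠ z₀ → i₀ ≠ z₁ →
  ∃ m, g < m ∧ ∃ F : MvPolynomial (ι ⊕ κ) k, F.IsHomogeneous (e * m) ∧
    (∃ A : Set (ι ⊕ κ), SmoothOn F A ∧ Aᶜ.ncard ≤ s) ∧
    (∀ σ ∈ T, BrodyHyperbolic (cyclicCover σ e m F)) ∧
    ∃ c : k, ∀ (K : Type) [Field K] (ρ : k →+* K) (x : ι → K), G.eval₂ ρ x = 0 →
      F.eval₂ ρ (Sum.elim x 0) = (ρ c * x i₀ ^ m) ^ e

theorem p_EMBV (hCOV : S_COV) (hCE : S_CE) (hPEN : S_PEN) (hOPEN : S_OPEN) (hPERT : S_PERT)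
    (hSMO : S_SMO) (hBINV : S_BINV) : S_EMBV := by
  classical
  intro ι κ k _ _ _ _ z₀ z₁ h01 G δ hG hline T hT hZ e he g s hs i₀ hi0 hi1
  -- parameters
  set r := g + δ + 2 with hr
  set P : Unit → MvPolynomial ι k := fun _ => G with hP
  have hδ : ∀ c : Unit, (P c).IsHomogeneous ((fun _ => δ) c) := fun _ => hG
  have hrange : Set.range P = {G} := by
    ext Q
    simp [hP, eq_comm]
  have hr3 : ∀ c, Sum.elim (fun _ : Unit => δ) (fun _ : κ => 1) c < r := by
    rintro (c | c)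
    · simp only [Sum.elim_inl]; omega
    · simp only [Sum.elim_inr]; omega
  obtain ⟨N, hN⟩ : ∃ N, Fintype.card ((Unit ⊕ κ) × (ι ⊕ κ) × (ι ⊕ κ)) ≤ N + 2 :=
    ⟨_, Nat.le_add_right _ 2⟩
  obtain ⟨eqv, heqv⟩ : ∃ s : Fin (N + 2) → (Unit ⊕ κ) × (ι ⊕ κ) × (ι ⊕ κ),
      Function.Surjective s := by
    obtain ⟨g⟩ := Function.Embedding.nonempty_of_card_le
      (α := (Unit ⊕ κ) × (ι ⊕ κ) × (ι ⊕ κ)) (β := Fin (N + 2)) (by simpa using hN)
    have : Nonempty ((Unit ⊕ κ) × (ι ⊕ κ) × (ι ⊕ κ)) :=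
      ⟨(Sum.inl (), Sum.inl i₀, Sum.inl i₀)⟩
    exact ⟨Function.invFun g, Function.invFun_surjective g.injective⟩
  set m := 4 * (r * 16 ^ N) with hm
  have h16 : 1 ≤ 16 ^ N := Nat.one_le_pow _ _ (by norm_num)
  have hrm : r ≤ m := by nlinarith
  have hm1 : 2 ≤ m := by omega
  have hgm : g < m := by omega
  have hem : m ≤ e * m := Nat.le_mul_of_pos_left m (by omega)
  have hδm : δ + (e * m - δ) = e * m := by omega
  set F₀ := cyF e (extP κ P) (Sum.elim (fun _ : Unit => δ) fun _ : κ => 1) r eqv with hF₀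
  have hF₀hom : F₀.IsHomogeneous (e * m) := embv_cyF_homog (extP_homog hδ) hr3 eqv
  have hF₀hyp : ∀ σ ∈ T, BrodyHyperbolic (cyclicCover σ e m F₀) := by
    intro σ hσ
    refine hCOV hCE hPEN _ _ _ (extP κ P) _ (extP_homog hδ) r hr3 N eqv heqv e he σ
      (brodyHyperbolic_extP hδ σ ?_)
    rw [hrange]
    exact hZ σ hσ
  -- the form on the line
  obtain ⟨V, hVhom, hV⟩ := hBINV ι k z₀ z₁ h01 G δ hG hline (e * m - δ) (by omega)
  have hQhom : (rename (Sum.inl : ι → ι ⊕ κ) (G * V)).IsHomogeneous (e * m) := by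
    have h1 := (hG.mul hVhom)
    rw [hδm] at h1
    exact h1.rename_isHomogeneous
  obtain ⟨a, b, hbinj, hbinr, hab, hbi, hball, hcard⟩ := embv_enum (κ := κ) h01 hi0 hi1 hs
  obtain ⟨N₀, E, hN₀, hEhom, hEsm, hEev⟩ := hSMO (ι ⊕ κ) k e m (by omega) (by omega)
    (rename Sum.inl (G * V)) hQhom _ (embv_smooth_rename hV) (Sum.inl i₀) (Fintype.card κ) a b
    hbinj hbi hab (by
      intro j
      obtain ⟨i, hi⟩ := hbinr j
      rw [hi]
      exact embv_pderiv_rename _ i)
  -- the perturbation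
  have hev1 := hPERT (ι ⊕ κ) k (e * m) (by omega) F₀ E hF₀hom hEhom _ hEsm
  have hev2 : ∀ᶠ M : ℕ in atTop, ∀ σ ∈ T,
      BrodyHyperbolic (cyclicCover σ e m (F₀ + C ((M : k)⁻¹) * E)) := by
    rw [Filter.eventually_all_finite hT]
    intro σ hσ
    exact hOPEN _ _ σ e m (by omega) (by omega) F₀ E hF₀hom hEhom (hF₀hyp σ hσ)
  have hpow : Tendsto (fun n : ℕ => n ^ e) atTop atTop := tendsto_pow_atTop (by omega)
  obtain ⟨N₁, ⟨hM1, hM2⟩, hM3⟩ :=
    (((hpow.eventually hev1).and (hpow.eventually hev2)).and (eventually_ge_atTop 1)).exists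
  have hN₁k : (N₁ : k) ≠ 0 := by
    have : N₁ ≠ 0 := by omega
    exact_mod_cast this
  have hMk : ((N₁ ^ e : ℕ) : k) ≠ 0 := by
    rw [Nat.cast_pow]
    exact pow_ne_zero _ hN₁k
  refine ⟨m, hgm, F₀ + C (((N₁ ^ e : ℕ) : k)⁻¹) * E, hF₀hom.add (hEhom.C_mul _),
    ⟨_, ?_, hcard⟩, hM2, (N₀ : k) / N₁, ?_⟩
  · intro x hx hd
    refine hM1 x hx fun v hv => ?_
    have h1 : C ((N₁ ^ e : ℕ) : k) * F₀ + E =
        C ((N₁ ^ e : ℕ) : k) * (F₀ + C (((N₁ ^ e : ℕ) : k)⁻¹) * E) := by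
      rw [mul_add, ← mul_assoc, ← C_mul, mul_inv_cancel₀ hMk, C_1, one_mul]
    rw [h1, pderiv_C_mul, map_mul, hd v hv, mul_zero]
  · -- the identity for `E`
    have hEid : aeval (Sum.elim X 0 : ι ⊕ κ → MvPolynomial ι k) E =
        G * V + (C (N₀ : k) * X i₀ ^ m) ^ e := by
      apply MvPolynomial.funext
      intro x
      have h1 := embv_restrict (RingHom.id k) x E
      rw [eval₂_id, eval₂_id] at h1
      rw [h1, hEev (Sum.elim x 0) (by
        intro j
        obtain ⟨i, hi⟩ := hbinr j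
        rw [hi]
        simp), eval_rename, Sum.elim_comp_inl, Sum.elim_inl]
      simp
    intro K _ ρ x hx
    have h1 : F₀.eval₂ ρ (Sum.elim x 0) = 0 := by
      apply embv_cyF_eval (by omega)
      rw [eval₂_extP_iff]
      refine ⟨fun c => ?_, fun j => by simp⟩
      exact hx
    have h3 : E.eval₂ ρ (Sum.elim x 0) = ((N₀ : K) * x i₀ ^ m) ^ e := by
      rw [← embv_restrict, hEid, eval₂_add, eval₂_mul, hx, zero_mul, zero_add, eval₂_pow,
        eval₂_mul, eval₂_C, eval₂_pow, eval₂_X, map_natCast]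
    rw [eval₂_add, eval₂_mul, h1, h3, eval₂_C, zero_add, map_div₀, map_natCast, map_natCast,
      map_inv₀, map_natCast, Nat.cast_pow, div_mul_eq_mul_div, div_pow, div_eq_inv_mul]

end Pool.Agent.Lib.MP_627a61_nt
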