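import Pool.Agent.Lib.MP_627a61_nt.Cy.RAll
import Pool.Agent.Lib.MP_627a61_nt.Cy.V_EMBV
import Pool.Agent.Lib.MP_627a61_nt.Hy.B_top

/-!
# Finite maps from hyperbolic varieties to hyperbolic cyclic covers of projective spaces
-/

open scoped LinearAlgebra.Projectivization Topology
open Filter MvPolynomial

namespace Pool.Agent.Lib.MP_627a61_nt

/-! ### Cover vectors -/

section vec

variable {ι K : Type} [Field K]

lemma vtop_coverVec_ne {m : ℕ} {x : ι → K} {y : K} (hx : x ≠ 0) : coverVec m x y ≠ 0 := by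
  intro h
  obtain ⟨i, hi⟩ : ∃ i, x i ≠ 0 := by
    by_contra hcon
    push Not at hcon
    exact hx (funext hcon)
  have h1 := congrFun h (some fun _ => i)
  simp only [coverVec, Finset.prod_const, Finset.card_univ, Fintype.card_fin,
    Pi.zero_apply] at h1
  exact pow_ne_zero _ hi h1

lemma vtop_coverVec_smul {m : ℕ} (t : K) (x : ι → K) (y : K) :
    coverVec m (t • x) (t ^ m * y) = t ^ m • coverVec m x y := by
  funext α
  rcases α with _ | α
  · simp [coverVec]
  · simp only [coverVec, Pi.smul_apply, smul_eq_mul, Finset.prod_mul_distrib, Finset.prod_const,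
      Finset.card_univ, Fintype.card_fin]

/-- proportional cover vectors belong to proportional vectors -/
lemma vtop_coverVec_inj {m : ℕ} (hm : 1 ≤ m) {x x' : ι → K} {y y' : K} (hx : x ≠ 0) {c : K}
    (h : coverVec m x y = c • coverVec m x' y') : ∃ t : K, ∀ j, x j = t * x' j := by
  classical
  obtain ⟨i, hi⟩ : ∃ i, x i ≠ 0 := by
    by_contra hcon
    push Not at hcon
    exact hx (funext hcon)
  obtain ⟨m', rfl⟩ : ∃ m', m = m' + 1 := ⟨m - 1, by omega⟩
  have h1 : ∀ j, x j * x i ^ m' = c * (x' j * x' i ^ m') := by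
    intro j
    have h2 := congrFun h (some (Fin.cons j fun _ => i))
    simpa [coverVec, Fin.prod_univ_succ] using h2
  have h3 : x i * x i ^ m' ≠ 0 := mul_ne_zero hi (pow_ne_zero _ hi)
  have h4 : c * (x' i * x' i ^ m') ≠ 0 := by
    rw [← h1 i]
    exact h3
  have hc : c ≠ 0 := left_ne_zero_of_mul h4
  have h5 : x' i ≠ 0 := left_ne_zero_of_mul (right_ne_zero_of_mul h4)
  have h6 : x' i ^ m' ≠ 0 := pow_ne_zero _ h5
  refine ⟨x i / x' i, fun j => ?_⟩
  have h7 := h1 j
  have h8 := h1 i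
  have h9 : (c * (x' i ^ m' * x i ^ m')) * (x j * x' i) =
      (c * (x' i ^ m' * x i ^ m')) * (x i * x' j) := by
    calc (c * (x' i ^ m' * x i ^ m')) * (x j * x' i) =
        (x j * x i ^ m') * (c * (x' i * x' i ^ m')) := by ring
      _ = (c * (x' j * x' i ^ m')) * (x i * x i ^ m') := by rw [h7, ← h8]
      _ = (c * (x' i ^ m' * x i ^ m')) * (x i * x' j) := by ring
  have h10 : c * (x' i ^ m' * x i ^ m') ≠ 0 :=
    mul_ne_zero hc (mul_ne_zero h6 (pow_ne_zero _ hi))
  have h11 := mul_left_cancel₀ h10 h9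
  field_simp
  linear_combination h11

end vec

/-- The composition of polynomials. -/
lemma vtop_eval_bind {ι κ k K : Type} [Field k] [Field K] (ρ : k →+* K)
    (f : ι → MvPolynomial κ k) (P : MvPolynomial ι k) (x : κ → K) :
    (bind₁ f P).eval₂ ρ x = P.eval₂ ρ fun i => (f i).eval₂ ρ x := by
  induction P using MvPolynomial.induction_on with
  | C a => simp
  | add p q hp hq => rw [map_add, eval₂_add, hp, hq, eval₂_add]
  | mul_X p i hp => rw [map_mul, bind₁_X_right, eval₂_mul, hp, eval₂_mul, eval₂_X]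

/-- EMBW: the embedding of a hypersurface in a cyclic cover of projective `n`-space, with forms -/
def S_EMBW : Prop := ∀ (k : Type) [Field k] [CharZero k] (M : ℕ), 1 ≤ M →
  ∀ (G : MvPolynomial (Fin (M + 2)) k) (δ : ℕ), G.IsHomogeneous δ → SmoothLine G 0 1 →
  ∀ T : Set (k →+* ℂ), T.Finite → (∀ σ ∈ T, BrodyHyperbolic (points σ {G})) →
  ∀ e : ℕ, 2 ≤ e → ∀ g n s : ℕ, M < n → 2 * M ≤ n + s →
  ∃ m, g < m ∧ ∃ (F : MvPolynomial (Fin (n + 1)) k)
    (l : Fin (n + 1) → MvPolynomial (Fin (M + 2)) k) (w : MvPolynomial (Fin (M + 2)) k)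
    (l' : Fin (M + 2) → MvPolynomial (Fin (n + 1)) k),
    F.IsHomogeneous (e * m) ∧ SingDimLT F s ∧
    (∀ σ ∈ T, BrodyHyperbolic (cyclicCover σ e m F)) ∧
    (∀ j, (l j).IsHomogeneous 1) ∧ w.IsHomogeneous m ∧
    (∀ i, (l' i).IsHomogeneous 1) ∧
    (∀ (K : Type) [Field K] (ρ : k →+* K) (x : Fin (M + 2) → K) (i : Fin (M + 2)),
      (l' i).eval₂ ρ (fun j => (l j).eval₂ ρ x) = x i) ∧
    ∀ (K : Type) [Field K] (ρ : k →+* K) (x : Fin (M + 2) → K), G.eval₂ ρ x = 0 →
      F.eval₂ ρ (fun j => (l j).eval₂ ρ x) = (w.eval₂ ρ x) ^ e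

theorem p_EMBW (hEMBV : S_EMBV) (hKD3 : S_KD3) (hREN : S_REN) (hKDREN : S_KDREN) : S_EMBW := by
  classical
  intro k _ _ M hM G δ hG hline T hT hyp e he g n s hn1 hn2
  obtain ⟨m, hm, F, hF, ⟨A, hA, hAs⟩, hF2, c, hF3⟩ := hEMBV (Fin (M + 2))
    (Fin (n + 1 - (M + 2))) k 0 1 (by simp) G δ hG hline T hT hyp e he g s
    (by rw [Fintype.card_fin, Fintype.card_fin]; omega) ⟨2, by omega⟩
    (by rw [ne_eq, Fin.ext_iff]; simp) (by
      rw [ne_eq, Fin.ext_iff]
      simp)
  obtain ⟨eq⟩ : Nonempty (Fin (M + 2) ⊕ Fin (n + 1 - (M + 2)) ≃ Fin (n + 1)) := by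
    refine ⟨Fintype.equivOfCardEq ?_⟩
    rw [Fintype.card_sum, Fintype.card_fin, Fintype.card_fin, Fintype.card_fin]
    omega
  have hsing : SingDimLT F s := by
    let E : (Aᶜ : Set _) ≃ Fin Aᶜ.ncard := Finite.equivFinOfCardEq rfl
    have h1 := hKD3 _ k (Set.range fun i => pderiv i F) (by
      rintro _ ⟨i, rfl⟩
      exact ⟨_, hF.pderiv⟩) Aᶜ.ncard (fun j => X (E.symm j).1) (fun j => isHomogeneous_X _ _) (by
      intro x hx1 hx2
      refine hA x (fun v hv => ?_) (fun v _ => hx1 _ ⟨v, rfl⟩)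
      have h2 := hx2 (E ⟨v, hv⟩)
      rw [Equiv.symm_apply_apply, aeval_X] at h2
      exact h2)
    have h3 : ((Aᶜ.ncard : ℕ) : WithBot ℕ∞) ≤ ((s : ℕ) : WithBot ℕ∞) := by exact_mod_cast hAs
    exact h1.trans h3
  have hl : ∀ (K : Type) [Field K] (ρ : k →+* K) (x : Fin (M + 2) → K),
      (fun j => (Sum.elim X 0 (eq.symm j) : MvPolynomial (Fin (M + 2)) k).eval₂ ρ x) =
        Sum.elim x 0 ∘ eq.symm := by
    intro K _ ρ x
    funext j
    rcases h : eq.symm j with i | i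
    · simp [h]
    · simp [h]
  refine ⟨m, hm, rename eq F, fun j => Sum.elim X 0 (eq.symm j),
    C c * X ⟨2, by omega⟩ ^ m, fun i => X (eq (Sum.inl i)), hF.rename_isHomogeneous,
    (hKDREN _ _ k eq).2 F s hsing, fun σ hσ => hREN _ _ _ eq σ _ _ F (hF2 σ hσ), ?_, ?_,
    fun i => isHomogeneous_X _ _, ?_, ?_⟩
  · intro j
    show (Sum.elim X 0 (eq.symm j) : MvPolynomial (Fin (M + 2)) k).IsHomogeneous 1
    rcases eq.symm j with i | i
    · exact isHomogeneous_X _ _
    · exact isHomogeneous_zero _ _ _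
  · have h := (isHomogeneous_X k (⟨2, by omega⟩ : Fin (M + 2))).pow m
    rw [one_mul] at h
    exact h.C_mul c
  · intro K _ ρ x i
    simp
  · intro K _ ρ x hx
    rw [hl, eval₂_rename]
    have h1 : (Sum.elim x 0 ∘ eq.symm) ∘ eq = (Sum.elim x 0 : _ → K) := by
      funext c
      simp
    rw [h1, hF3 K ρ x hx, eval₂_mul, eval₂_C, eval₂_pow, eval₂_X]

/-- A projective set with a finite map to a Brody hyperbolic set is Brody hyperbolic. -/
lemma vtop_brody {k : Type} [Field k] {N b r : ℕ} {κ : Type} [Fintype κ]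
    {S : Set (MvPolynomial (Fin (N + 1)) k)} (σ : k →+* ℂ) {Y : Set (ℙ ℂ (κ → ℂ))}
    (hY : BrodyHyperbolic Y) (f : κ → MvPolynomial (Fin (N + 1)) k)
    (hf : ∀ j, (f j).IsHomogeneous b)
    (hval : ∀ x : Fin (N + 1) → ℂ, x ≠ 0 → (∀ P ∈ S, P.eval₂ σ x = 0) →
      ∃ h : (fun j => (f j).eval₂ σ x) ≠ 0,
        Projectivization.mk ℂ (fun j => (f j).eval₂ σ x) h ∈ Y)
    (hfib : ∀ x : Fin (r + 2) → Fin (N + 1) → ℂ,
        (∀ a, x a ≠ 0) → (∀ a, ∀ P ∈ S, P.eval₂ σ (x a) = 0) →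
        (∀ a a', ∃ c : ℂ, ∀ j, (f j).eval₂ σ (x a) = c * (f j).eval₂ σ (x a')) →
        ∃ a a', a ≠ a' ∧ ∃ c : ℂ, x a = c • x a') :
    BrodyHyperbolic (points σ S) := by
  intro φ hφ hφS
  set Fc : (Fin (N + 1) → ℂ) → κ → ℂ := fun x j => (f j).eval₂ σ x with hFc
  have hFan : ∀ x, AnalyticAt ℂ Fc x := by
    intro x
    rw [analyticAt_pi_iff]
    intro j
    exact analyticAt_eval₂ (f j) σ x
  have hFhom : ∀ (t : ℂ) x, Fc (t • x) = t ^ b • Fc x := by
    intro t x
    funext j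
    rw [Pi.smul_apply, smul_eq_mul, hFc]
    exact eval₂_smul_homog (hf j) σ t x
  have hne : ∀ z, Fc (φ z).rep ≠ 0 := fun z =>
    (hval (φ z).rep (φ z).rep_nonzero (hφS z)).1
  obtain ⟨ψ, hψ, hψ1, -⟩ := exists_division hφ Fc hFan b hFhom (hne 0)
  have hψY : ∀ z, ψ z ∈ Y := by
    intro z
    rw [hψ1 z (hne z)]
    exact (hval (φ z).rep (φ z).rep_nonzero (hφS z)).2
  have hψc := hY ψ hψ hψY
  have hfin : (Set.range φ).Finite := by
    by_contra hinf
    have hinf' : (Set.range φ).Infinite := hinf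
    set q := hinf'.natEmbedding with hq
    obtain ⟨a, a', haa, c, hc⟩ := hfib (fun a => (q a : ℙ ℂ (Fin (N + 1) → ℂ)).rep)
      (fun a => (q a : ℙ ℂ (Fin (N + 1) → ℂ)).rep_nonzero)
      (fun a P hP => by
        obtain ⟨z, hz⟩ := (q a).2
        rw [← hz]
        exact hφS z P hP)
      (fun a a' => by
        obtain ⟨z, hz⟩ := (q a).2
        obtain ⟨w, hw⟩ := (q a').2
        rw [← hz, ← hw]
        have h := hψc z w
        rw [hψ1 z (hne z), hψ1 w (hne w), Projectivization.mk_eq_mk_iff'] at h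
        obtain ⟨c, hc⟩ := h
        exact ⟨c, fun j => (congrFun hc j).symm⟩)
    have h1 : (q a : ℙ ℂ (Fin (N + 1) → ℂ)) = q a' := by
      rw [← (q a : ℙ ℂ (Fin (N + 1) → ℂ)).mk_rep, ← (q a' : ℙ ℂ (Fin (N + 1) → ℂ)).mk_rep,
        Projectivization.mk_eq_mk_iff']
      exact ⟨c, hc.symm⟩
    have h2 := q.injective (Subtype.ext h1)
    exact haa (Fin.ext h2)
  have hex : ∃ p, ∃ᶠ w in 𝓝[≠] (0 : ℂ), φ w = p := by
    by_contra hcon
    push Not at hcon
    have h5 : ∀ᶠ w in 𝓝[≠] (0 : ℂ), ∀ p ∈ Set.range φ, φ w ≠ p := by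
      rw [Filter.eventually_all_finite hfin]
      intro p _
      exact hcon p
    obtain ⟨w, hw⟩ := h5.exists
    exact hw (φ w) ⟨w, rfl⟩ rfl
  obtain ⟨p, hp⟩ := hex
  have := eq_of_eventually_const hφ hp
  intro z w
  rw [this z, this w]

/-- The points of a variety over an extension field are finitely many if the images under a map
with finite fibres are. -/
lemma vtop_finite {k : Type} [Field k] {N n r : ℕ} {S : Set (MvPolynomial (Fin (N + 1)) k)}
    {f : Fin (n + 1) → MvPolynomial (Fin (N + 1)) k} {L : Type} [Field L] (τ : k →+* L)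
    {Y : Set (ℙ L (Fin (n + 1) → L))}
    (hval : ∀ x : Fin (N + 1) → L, x ≠ 0 → (∀ P ∈ S, P.eval₂ τ x = 0) →
      ∃ h : (fun j => (f j).eval₂ τ x) ≠ 0,
        Projectivization.mk L (fun j => (f j).eval₂ τ x) h ∈ Y)
    (hfib : ∀ x : Fin (r + 2) → Fin (N + 1) → L,
        (∀ a, x a ≠ 0) → (∀ a, ∀ P ∈ S, P.eval₂ τ (x a) = 0) →
        (∀ a a', ∃ c : L, ∀ j, (f j).eval₂ τ (x a) = c * (f j).eval₂ τ (x a')) →
        ∃ a a', a ≠ a' ∧ ∃ c : L, x a = c • x a')
    (hfin : Y.Finite) : (points τ S).Finite := by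
  set Fk : (Fin (N + 1) → L) → Fin (n + 1) → L := fun x j => (f j).eval₂ τ x with hFk
  set q : ℙ L (Fin (N + 1) → L) → Submodule L (Fin (n + 1) → L) := fun p =>
    Submodule.span L {Fk p.rep} with hq
  refine Set.Finite.of_finite_fibers q ?_ ?_
  · refine (hfin.image (fun p : ℙ L (Fin (n + 1) → L) => p.submodule)).subset ?_
    rintro _ ⟨p, hp, rfl⟩
    obtain ⟨h, h'⟩ := hval p.rep p.rep_nonzero hp
    exact ⟨_, h', Projectivization.submodule_mk _ _⟩
  · rintro _ ⟨p₀, hp₀, rfl⟩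
    by_contra hinf
    have hinf' : (points τ S ∩ q ⁻¹' {q p₀}).Infinite := hinf
    set w := hinf'.natEmbedding with hw
    obtain ⟨a, a', haa, c, hc⟩ := hfib (fun a => (w a : ℙ L (Fin (N + 1) → L)).rep)
      (fun a => (w a : ℙ L (Fin (N + 1) → L)).rep_nonzero)
      (fun a P hP => (w a).2.1 P hP)
      (fun a a' => by
        have h1 : q (w a) = q (w a') := by
          have h2 : q (w a) = q p₀ := (w a).2.2
          have h3 : q (w a') = q p₀ := (w a').2.2
          rw [h2, h3]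
        have h2 : Fk (w a : ℙ L (Fin (N + 1) → L)).rep ∈
            Submodule.span L {Fk (w a' : ℙ L (Fin (N + 1) → L)).rep} := by
          rw [← show q (w a') = Submodule.span L {Fk (w a' : ℙ L (Fin (N + 1) → L)).rep} from rfl,
            ← h1]
          exact Submodule.mem_span_singleton_self _
        obtain ⟨c, hc⟩ := Submodule.mem_span_singleton.1 h2
        exact ⟨c, fun j => (congrFun hc j).symm⟩)
    have h1 : (w a : ℙ L (Fin (N + 1) → L)) = w a' := by
      rw [← (w a : ℙ L (Fin (N + 1) → L)).mk_rep, ← (w a' : ℙ L (Fin (N + 1) → L)).mk_rep,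
        Projectivization.mk_eq_mk_iff']
      exact ⟨c, hc.symm⟩
    have h2 := w.injective (Subtype.ext h1)
    exact haa (Fin.ext h2)

/-- VAR: every projective variety has a finite map to a cyclic cover which is hyperbolic at the
same embeddings. -/
def S_VAR : Prop := ∀ (k : Type) [Field k] [CharZero k] (T : Set (k →+* ℂ)), T.Finite →
  ∀ e : ℕ, 2 ≤ e → ∀ (g N d n s : ℕ) (S : Set (MvPolynomial (Fin (N + 1)) k)),
  (∀ P ∈ S, ∃ a, P.IsHomogeneous a) →
  ringKrullDim (MvPolynomial (Fin (N + 1)) k ⧸ Ideal.span S) ≤ ((d + 1 : ℕ) : WithBot ℕ∞) →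
  1 ≤ d → d < n → 2 * d ≤ n + s →
  ∃ m, g < m ∧ ∃ (F : MvPolynomial (Fin (n + 1)) k) (b : ℕ)
    (φ : Fin (n + 1) → MvPolynomial (Fin (N + 1)) k) (ψ : MvPolynomial (Fin (N + 1)) k),
    F.IsHomogeneous (e * m) ∧ SingDimLT F s ∧ (∀ j, (φ j).IsHomogeneous b) ∧
    ψ.IsHomogeneous (b * m) ∧
    (∀ (L : Type) [Field L] (τ : k →+* L) (x : Fin (N + 1) → L), x ≠ 0 →
      (∀ P ∈ S, P.eval₂ τ x = 0) → (∃ j, (φ j).eval₂ τ x ≠ 0) ∧
        (ψ.eval₂ τ x) ^ e = F.eval₂ τ (fun j => (φ j).eval₂ τ x)) ∧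
    (∀ (L : Type) [Field L] (τ : k →+* L) (x : Fin (d + 2) → Fin (N + 1) → L),
      (∀ a, x a ≠ 0) → (∀ a, ∀ P ∈ S, P.eval₂ τ (x a) = 0) →
      (∀ a a', ∃ c : L, ∀ j, (φ j).eval₂ τ (x a) = c * (φ j).eval₂ τ (x a')) →
      ∃ a a', a ≠ a' ∧ ∃ c : L, x a = c • x a') ∧
    (∀ σ ∈ T, KobayashiHyperbolic (cyclicCover σ e m F) ↔
      KobayashiHyperbolic (points σ S)) ∧
    (∀ (L : Type) [Field L] (τ : k →+* L),
      {x : ℙ L (Fin (n + 1) → L) | ∃ y : L, y ^ e = F.eval₂ τ x.rep}.Finite →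
      (points τ S).Finite) ∧
    ((Ideal.span S).radical.IsPrime →
      ringKrullDim (MvPolynomial (Fin (N + 1)) k ⧸ Ideal.span S) = ((d + 1 : ℕ) : WithBot ℕ∞) →
      ∃ (r : ℕ) (R : Fin (N + 1) → MvPolynomial (Fin (n + 1)) k)
        (A : MvPolynomial (Fin (N + 1)) k), (∀ i, (R i).IsHomogeneous r) ∧
        A ∉ (Ideal.span S).radical ∧
        ∀ (L : Type) [Field L] (τ : k →+* L) (x : Fin (N + 1) → L),
          (∀ P ∈ S, P.eval₂ τ x = 0) →
          ∀ i, (R i).eval₂ τ (fun j => (φ j).eval₂ τ x) = A.eval₂ τ x * x i)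

theorem p_VAR (hGEO : Hy.S_GEOB) (hRADH : S_RADH) (hSEPL : S_SEPL) (hLINH : S_LINH)
    (hEMBW : S_EMBW) (hCLOSED : S_CLOSED) : S_VAR := by
  intro k _ _ T hT e he g N d n s S hS hdim hd hdn hds
  obtain ⟨b, F₀, δ, G, -, hF₀, hG0, hG, hval, hfib0, -, hhyp, hbir⟩ := hGEO k N d 0 S hS hdim
  have hfib : ∀ (L : Type) [Field L] (τ : k →+* L) (x : Fin (d + 2) → Fin (N + 1) → L),
      (∀ a, x a ≠ 0) → (∀ a, ∀ P ∈ S, P.eval₂ τ (x a) = 0) →
      (∀ a a', ∃ c : L, ∀ j, (F₀ j).eval₂ τ (x a) = c * (F₀ j).eval₂ τ (x a')) →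
      ∃ a a', a ≠ a' ∧ ∃ c : L, x a = c • x a' := by
    intro L _ τ x hx hxS hp
    by_contra hcon
    obtain ⟨β, hβ⟩ : ∃ β, x 0 β ≠ 0 := by
      by_contra h
      push Not at h
      exact hx 0 (funext h)
    have h1 := hfib0 L τ (d + 1) x hx hxS hp (fun a a' ha hc => hcon ⟨a, a', ha, hc⟩) β 0
      (fun i => i.elim0) hβ (by
        intro Q hQ
        have h2 : Q = C (Q.coeff 0) := eq_C_of_isEmpty Q
        rw [h2, eval₂_C] at hQ
        rw [h2, (map_eq_zero τ).1 hQ, C_0])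
    omega
  obtain ⟨δ', R, hR, hRsq, hRz⟩ := hRADH (d + 2) k G δ hG0 hG
  have hpts : ∀ (K : Type) [Field K] (ρ : k →+* K), points ρ {G} = points ρ {R} := by
    intro K _ ρ
    ext x
    simp only [points, Set.mem_singleton_iff, forall_eq, Set.mem_ofPred_eq]
    exact (hRz K ρ x.rep).symm
  obtain ⟨A, B, hAB, hBA, hline⟩ := hSEPL d k R δ' hR hRsq
  obtain ⟨hAR, hAh, -⟩ := hLINH (Fin (d + 2)) k A B hAB hBA R δ' hR
  have hS' : Homog S := hS
  -- the cover
  obtain ⟨m, hm, F, l, w, l', hF1, hF2, hF3, hl, hw, hl', hll, hFw⟩ :=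
    hEMBW k d hd (subM A R) δ' hAR hline {σ ∈ T | KobayashiHyperbolic (points σ S)}
      (hT.subset fun σ h => h.1) (by
        rintro σ ⟨-, hσ⟩
        apply hAh
        rw [← hpts]
        exact ((hhyp σ).2 hσ).brody) e he g n s hdn hds
  -- the forms
  set u : Fin (d + 2) → MvPolynomial (Fin (N + 1)) k := fun i => ∑ j, C (B i j) * F₀ j with hu
  have huh : ∀ i, (u i).IsHomogeneous b := fun i =>
    IsHomogeneous.sum _ _ _ fun j _ => (hF₀ j).C_mul _
  have huev : ∀ (L : Type) [Field L] (τ : k →+* L) (x : Fin (N + 1) → L) (i : Fin (d + 2)),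
      (u i).eval₂ τ x = ∑ j, τ (B i j) * (F₀ j).eval₂ τ x := by
    intro L _ τ x i
    rw [hu]
    simp only
    rw [eval₂_sum]
    refine Finset.sum_congr rfl fun j _ => ?_
    rw [eval₂_mul, eval₂_C]
  have hAu : ∀ (L : Type) [Field L] (τ : k →+* L) (x : Fin (N + 1) → L) (i : Fin (d + 2)),
      ∑ j, τ (A i j) * (u j).eval₂ τ x = (F₀ i).eval₂ τ x := by
    intro L _ τ x i
    simp only [huev, Finset.mul_sum]
    rw [Finset.sum_comm]
    have h1 : ∀ j, ∑ y, τ (A i y) * (τ (B y j) * (F₀ j).eval₂ τ x) =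
        τ ((A * B) i j) * (F₀ j).eval₂ τ x := by
      intro j
      rw [Matrix.mul_apply, map_sum, Finset.sum_mul]
      refine Finset.sum_congr rfl fun y _ => ?_
      rw [map_mul]
      ring
    rw [Finset.sum_congr rfl fun j _ => h1 j, hAB, Finset.sum_eq_single i]
    · simp
    · intro j _ hj
      rw [Matrix.one_apply_ne hj.symm, map_zero, zero_mul]
    · intro h
      exact absurd (Finset.mem_univ _) h
  have hsub : ∀ (L : Type) [Field L] (τ : k →+* L) (x : Fin (N + 1) → L), x ≠ 0 →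
      (∀ P ∈ S, P.eval₂ τ x = 0) → (subM A R).eval₂ τ (fun i => (u i).eval₂ τ x) = 0 := by
    intro L _ τ x hx hxS
    have h1 : (subM A R).eval₂ τ (fun i => (u i).eval₂ τ x) =
        R.eval₂ τ (fun i => (F₀ i).eval₂ τ x) := by
      have h2 := vtop_eval_bind τ (fun i => ∑ j, C (A i j) * X j : Fin (d + 2) → _) R
        (fun i => (u i).eval₂ τ x)
      have h3 : subM A R = bind₁ (fun i => ∑ j, C (A i j) * X j) R := rfl
      rw [h3, h2]
      congr 1
      funext i
      rw [eval₂_sum, ← hAu L τ x i]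
      refine Finset.sum_congr rfl fun j _ => ?_
      rw [eval₂_mul, eval₂_C, eval₂_X]
    rw [h1, hRz]
    exact (hval L τ x hx hxS).2
  set φ : Fin (n + 1) → MvPolynomial (Fin (N + 1)) k := fun j => bind₁ u (l j) with hφ
  have hφev : ∀ (L : Type) [Field L] (τ : k →+* L) (x : Fin (N + 1) → L) (j : Fin (n + 1)),
      (φ j).eval₂ τ x = (l j).eval₂ τ fun i => (u i).eval₂ τ x := fun L _ τ x j =>
    vtop_eval_bind τ u (l j) x
  have hfib' : ∀ (L : Type) [Field L] (τ : k →+* L) (x x' : Fin (N + 1) → L) (c : L),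
      (∀ j, (φ j).eval₂ τ x = c * (φ j).eval₂ τ x') →
      ∀ j, (F₀ j).eval₂ τ x = c * (F₀ j).eval₂ τ x' := by
    intro L _ τ x x' c h j
    have h1 : (fun i => (u i).eval₂ τ x) = c • fun i => (u i).eval₂ τ x' := by
      funext i
      have h3 := hll L τ (fun i => (u i).eval₂ τ x) i
      have h4 := hll L τ (fun i => (u i).eval₂ τ x') i
      have h5 : (fun j => (l j).eval₂ τ fun i => (u i).eval₂ τ x) =
          c • fun j => (l j).eval₂ τ fun i => (u i).eval₂ τ x' := by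
        funext j
        have h6 := h j
        rw [hφev, hφev] at h6
        exact h6
      rw [h5, eval₂_smul_homog (hl' i), pow_one, h4] at h3
      rw [Pi.smul_apply, smul_eq_mul, h3]
    rw [← hAu L τ x j, ← hAu L τ x' j, Finset.mul_sum]
    refine Finset.sum_congr rfl fun i _ => ?_
    have h2 := congrFun h1 i
    simp only [Pi.smul_apply, smul_eq_mul] at h2
    rw [h2]
    ring
  have hne : ∀ (L : Type) [Field L] (τ : k →+* L) (x : Fin (N + 1) → L), x ≠ 0 →
      (∀ P ∈ S, P.eval₂ τ x = 0) → (∃ j, (φ j).eval₂ τ x ≠ 0) := by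
    intro L _ τ x hx hxS
    by_contra hcon
    push Not at hcon
    obtain ⟨j, hj⟩ := (hval L τ x hx hxS).1
    apply hj
    rw [hfib' L τ x x 0 (fun j => by rw [hcon j, zero_mul]) j, zero_mul]
  have hfibL : ∀ (L : Type) [Field L] (τ : k →+* L) (x : Fin (d + 2) → Fin (N + 1) → L),
      (∀ a, x a ≠ 0) → (∀ a, ∀ P ∈ S, P.eval₂ τ (x a) = 0) →
      (∀ a a', ∃ c : L, ∀ j, (φ j).eval₂ τ (x a) = c * (φ j).eval₂ τ (x a')) →
      ∃ a a', a ≠ a' ∧ ∃ c : L, x a = c • x a' := by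
    intro L _ τ x hx hxS h
    refine hfib L τ x hx hxS fun a a' => ?_
    obtain ⟨c, hc⟩ := h a a'
    exact ⟨c, hfib' L τ _ _ c hc⟩
  have hψ : ∀ (L : Type) [Field L] (τ : k →+* L) (x : Fin (N + 1) → L), x ≠ 0 →
      (∀ P ∈ S, P.eval₂ τ x = 0) →
      ((bind₁ u w).eval₂ τ x) ^ e = F.eval₂ τ (fun j => (φ j).eval₂ τ x) := by
    intro L _ τ x hx hxS
    rw [vtop_eval_bind, ← hFw L τ _ (hsub L τ x hx hxS)]
    congr 1
    funext j
    rw [hφev]
  refine ⟨m, hm, F, b, φ, bind₁ u w, hF1, hF2, ?_, ?_, fun L _ τ x hx hxS =>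
    ⟨hne L τ x hx hxS, hψ L τ x hx hxS⟩, hfibL, ?_, ?_, ?_⟩
  · intro j
    have h := (hl j).aeval (fun i => u i) huh
    rw [mul_one] at h
    exact h
  · exact hw.aeval (fun i => u i) huh
  · intro σ hσ
    constructor
    · intro hC
      have hbr : BrodyHyperbolic (points σ S) := by
        refine vtop_brody (r := d) (b := b * m) σ hC.brody
          (fun α => Option.elim α (bind₁ u w) fun α => ∏ a, φ (α a)) ?_ ?_ ?_
        · intro α
          rcases α with _ | α
          · exact hw.aeval (fun i => u i) huh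
          · have h := IsHomogeneous.prod Finset.univ (fun a : Fin m => φ (α a)) (fun _ => b)
              (fun a _ => by
                have h := (hl (α a)).aeval (fun i => u i) huh
                rw [mul_one] at h
                exact h)
            simpa [mul_comm] using h
        · intro x hx hxS
          have h1 : (fun α => (Option.elim α (bind₁ u w) fun α => ∏ a, φ (α a) :
              MvPolynomial (Fin (N + 1)) k).eval₂ σ x) =
              coverVec m (fun j => (φ j).eval₂ σ x) ((bind₁ u w).eval₂ σ x) := by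
            funext α
            rcases α with _ | α
            · rfl
            · simp [coverVec, eval₂_prod]
          have h2 : (fun j => (φ j).eval₂ σ x) ≠ 0 := by
            obtain ⟨j, hj⟩ := hne ℂ σ x hx hxS
            intro h
            exact hj (congrFun h j)
          have h3 := vtop_coverVec_ne (m := m) (y := (bind₁ u w).eval₂ σ x) h2
          refine ⟨by rw [h1]; exact h3, fun j => (φ j).eval₂ σ x, (bind₁ u w).eval₂ σ x, h3,
            hψ ℂ σ x hx hxS, ?_⟩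
          congr 1
        · intro x hx hxS h
          refine hfibL ℂ σ x hx hxS fun a a' => ?_
          obtain ⟨c, hc⟩ := h a a'
          have h2 : (fun j => (φ j).eval₂ σ (x a)) ≠ 0 := by
            obtain ⟨j, hj⟩ := hne ℂ σ (x a) (hx a) (hxS a)
            intro h
            exact hj (congrFun h j)
          refine vtop_coverVec_inj (m := m) (y := (bind₁ u w).eval₂ σ (x a))
            (y' := (bind₁ u w).eval₂ σ (x a')) (c := c) (by omega) h2 ?_
          funext α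
          have h3 := hc α
          rcases α with _ | α
          · exact h3
          · simpa [coverVec, eval₂_prod] using h3
      exact hbr.kobayashi (pclosed_points hS' σ)
    · intro hZ
      exact (hF3 σ ⟨hσ, hZ⟩).kobayashi (hCLOSED _ _ σ e m (by omega) (by omega) F hF1)
  · intro L _ τ hfin
    refine vtop_finite (r := d) (f := φ) τ ?_ (fun x => hfibL L τ x) hfin
    intro x hx hxS
    have h2 : (fun j => (φ j).eval₂ τ x) ≠ 0 := by
      obtain ⟨j, hj⟩ := hne L τ x hx hxS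
      intro h
      exact hj (congrFun h j)
    refine ⟨h2, ?_⟩
    obtain ⟨t, ht, hrep⟩ := exists_rep_eq (p := Projectivization.mk L _ h2)
      (v := fun j => (φ j).eval₂ τ x) (hv := h2) rfl
    refine ⟨t ^ m * (bind₁ u w).eval₂ τ x, ?_⟩
    rw [hrep, eval₂_smul_homog hF1, mul_pow, hψ L τ x hx hxS, ← pow_mul, mul_comm m e]
  · intro hp hd'
    obtain ⟨-, -, -, r, R, A', hR', hA', hinv⟩ := hbir hp hd'
    refine ⟨r, fun i => bind₁ (fun j => ∑ y, C (A j y) * l' y) (R i), A', ?_, hA', ?_⟩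
    · intro i
      have h := (hR' i).aeval (fun j => ∑ y, C (A j y) * l' y) (n := 1) fun j =>
        IsHomogeneous.sum _ _ _ fun y _ => (hl' y).C_mul _
      rw [one_mul] at h
      exact h
    · intro L _ τ x hxS i
      rw [vtop_eval_bind, ← hinv L τ x hxS i]
      congr 1
      funext j
      rw [eval₂_sum, ← hAu L τ x j]
      refine Finset.sum_congr rfl fun y _ => ?_
      rw [eval₂_mul, eval₂_C]
      congr 1
      have h3 := hll L τ (fun i => (u i).eval₂ τ x) y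
      rw [← h3]
      congr 1
      funext j
      rw [hφev]

theorem cyclicv_var : S_VAR :=
  p_VAR Hy.top_geob p_RADH p_SEPL p_LINH
    (p_EMBW (p_EMBV p_COV p_CE cyclic_pen (p_OPEN p_CLO) (p_PERT p_RES)
      (p_SMO (p_STEP p_RES)) p_BINV) p_KD3 p_REN p_KDREN) (p_CLOSED p_CLO)

end Pool.Agent.Lib.MP_627a61_nt
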